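import Pool.Agent.H.MP_f11573_an.DefL

/-!
# AdP: adding a point

PROOF: if `p ∈ L`: clear (`insert p L = L`). Otherwise let `e` in `C(K, 𝕜)` be a Urysohn function with values in `[0, 1]`, `e = 0` on `L`,
`e p = 1`. Suppose the contrary: for every `n` there is `μ n` living on `insert p L` with `‖(μ n) ∘ T‖ < 1 / (n + 1) * ‖μ n‖`; normalise,
`‖μ n‖ = 1`. `α n = μ n e` is bounded, pass to a subsequence with `α n → α` (`tendsto_subseq_of_bounded` or
`IsCompact.tendsto_subseq` for the closed ball of `𝕜`). `l n = μ n - α n • dl p` lives on `L`: if `f = 0` on `L` then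
`f - f p • e` vanishes on `insert p L`. `(l n) ∘ T = (μ n) ∘ T - α n • (dl p) ∘ T` converges, so it is a Cauchy sequence, and
`c ‖l n - l m‖ ≤ ‖(l n - l m) ∘ T‖` (`l n - l m` lives on `L`), so `l n` is a Cauchy sequence in the (complete) dual, `l n → l`. So
`μ n → μ = l + α • dl p`, `‖μ‖ = 1`, `μ ∘ T = 0`, and `μ = 0` on the dense range of `T`, so `μ = 0`: a contradiction.
-/

set_option autoImplicit false

open Filter Topology Set Metric MeasureTheory

namespace Pool.Agent.H.MP_f11573_an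

variable {𝕜 : Type*} [RCLike 𝕜] {K : Type*} [TopologicalSpace K] [CompactSpace K] [T2Space K]

theorem lowOn_insert {T : C(K, 𝕜) →L[𝕜] C(K, 𝕜)} (hT : DenseRange T) {L : Set K}
    (hL : IsClosed L) {c : ℝ} (hc : 0 < c) (h : LowOn T L c) (p : K) :
    ∃ c' : ℝ, 0 < c' ∧ LowOn T (insert p L) c' := by
  classical
  by_cases hp : p ∈ L
  · exact ⟨c, hc, by rwa [Set.insert_eq_of_mem hp]⟩
  obtain ⟨e₀, he0, he1, -⟩ := exists_continuous_zero_one_of_isClosed hL
    (isClosed_singleton (x := p)) (Set.disjoint_singleton_right.2 hp)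
  let e : C(K, 𝕜) := ⟨fun x => ((e₀ x : ℝ) : 𝕜), RCLike.continuous_ofReal.comp e₀.continuous⟩
  have heL : ∀ x ∈ L, e x = 0 := by
    intro x hx
    change ((e₀ x : ℝ) : 𝕜) = 0
    rw [he0 hx]
    simp
  have hep : e p = 1 := by
    change ((e₀ p : ℝ) : 𝕜) = 1
    rw [he1 (Set.mem_singleton p)]
    simp
  by_contra hcon
  push Not at hcon
  have h1 : ∀ n : ℕ, ∃ ν : C(K, 𝕜) →L[𝕜] 𝕜, Supp ν (insert p L) ∧ ‖ν‖ = 1 ∧
      ‖ν.comp T‖ ≤ 1 / ((n : ℝ) + 1) := by
    intro n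
    have h2 := hcon (1 / ((n : ℝ) + 1)) (by positivity)
    unfold LowOn at h2
    push Not at h2
    obtain ⟨μ, hμ, hμ2⟩ := h2
    have hμ0 : 0 < ‖μ‖ := by
      rcases (norm_nonneg μ).lt_or_eq with h3 | h3
      · exact h3
      · rw [← h3, mul_zero] at hμ2
        exact absurd hμ2 (not_lt.2 (norm_nonneg _))
    have hn : ‖((‖μ‖⁻¹ : ℝ) : 𝕜)‖ = ‖μ‖⁻¹ := by
      rw [RCLike.norm_ofReal, abs_of_pos (inv_pos.2 hμ0)]
    refine ⟨((‖μ‖⁻¹ : ℝ) : 𝕜) • μ, fun f hf => ?_, ?_, ?_⟩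
    · rw [_root_.smul_apply, hμ f hf, smul_zero]
    · rw [norm_smul, hn, inv_mul_cancel₀ hμ0.ne']
    · rw [ContinuousLinearMap.smul_comp, norm_smul, hn]
      rw [inv_mul_le_iff₀ hμ0, mul_comm]
      exact hμ2.le
  choose ν hν1 hν2 hν3 using h1
  have hb : ∀ n, ν n e ∈ closedBall (0 : 𝕜) ‖e‖ := by
    intro n
    rw [mem_closedBall_zero_iff]
    calc ‖ν n e‖ ≤ ‖ν n‖ * ‖e‖ := (ν n).le_opNorm e
      _ = ‖e‖ := by rw [hν2, one_mul]
  obtain ⟨α, -, φ, hφ, hα⟩ := tendsto_subseq_of_bounded isBounded_closedBall hb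
  have hα' : Tendsto (fun n => ν (φ n) e) atTop (𝓝 α) := hα
  have hinv : Tendsto (fun n => 1 / ((φ n : ℝ) + 1)) atTop (𝓝 0) :=
    tendsto_one_div_add_atTop_nhds_zero_nat.comp hφ.tendsto_atTop
  have hνT : Tendsto (fun n => (ν (φ n)).comp T) atTop (𝓝 0) :=
    squeeze_zero_norm (fun n => hν3 (φ n)) hinv
  let l : ℕ → (C(K, 𝕜) →L[𝕜] 𝕜) := fun n => ν (φ n) - (ν (φ n) e) • dl p
  have hl : ∀ n, Supp (l n) L := by
    intro n f hf
    have h2 : ν (φ n) (f - f p • e) = 0 := by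
      refine hν1 _ _ fun x hx => ?_
      rcases Set.mem_insert_iff.1 hx with hx | hx
      · rw [hx, ContinuousMap.sub_apply, ContinuousMap.smul_apply, hep, smul_eq_mul, mul_one,
          sub_self]
      · rw [ContinuousMap.sub_apply, ContinuousMap.smul_apply, hf x hx, heL x hx, smul_zero,
          sub_zero]
    rw [map_sub, map_smul, smul_eq_mul, sub_eq_zero] at h2
    change ν (φ n) f - ν (φ n) e * f p = 0
    rw [h2]
    ring
  have hlT : CauchySeq fun n => (l n).comp T := by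
    have h2 : Tendsto (fun n => (l n).comp T) atTop (𝓝 (0 - α • (dl p).comp T)) := by
      have h3 : ∀ n, (l n).comp T = (ν (φ n)).comp T - (ν (φ n) e) • (dl p).comp T := by
        intro n
        rw [ContinuousLinearMap.sub_comp, ContinuousLinearMap.smul_comp]
      simp only [h3]
      exact hνT.sub (hα'.smul_const _)
    exact h2.cauchySeq
  have hlC : CauchySeq l := by
    rw [Metric.cauchySeq_iff] at hlT ⊢
    intro ε hε
    obtain ⟨N, hN⟩ := hlT (c * ε) (mul_pos hc hε)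
    refine ⟨N, fun m hm n hn => ?_⟩
    have h2 := hN m hm n hn
    rw [dist_eq_norm, ← ContinuousLinearMap.sub_comp] at h2
    have h3 := h (l m - l n) fun f hf => by
      rw [_root_.sub_apply, hl m f hf, hl n f hf, sub_zero]
    rw [dist_eq_norm]
    exact lt_of_mul_lt_mul_left (h3.trans_lt h2) hc.le
  obtain ⟨l', hl'⟩ := cauchySeq_tendsto_of_complete hlC
  have hμ : Tendsto (fun n => ν (φ n)) atTop (𝓝 (l' + α • dl p)) := by
    have h2 : ∀ n, ν (φ n) = l n + (ν (φ n) e) • dl p := fun n => (sub_add_cancel _ _).symm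
    have h3 : Tendsto (fun n => l n + (ν (φ n) e) • (dl p : C(K, 𝕜) →L[𝕜] 𝕜)) atTop
        (𝓝 (l' + α • dl p)) := hl'.add (hα'.smul_const _)
    exact h3.congr fun n => (h2 n).symm
  have hnorm : ‖l' + α • (dl p : C(K, 𝕜) →L[𝕜] 𝕜)‖ = 1 := by
    have h2 := hμ.norm
    simp only [hν2] at h2
    exact (tendsto_nhds_unique h2 tendsto_const_nhds)
  have hzero : ∀ f, (l' + α • (dl p : C(K, 𝕜) →L[𝕜] 𝕜)) (T f) = 0 := by
    intro f
    have h2 : Tendsto (fun n => ν (φ n) (T f)) atTop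
        (𝓝 ((l' + α • (dl p : C(K, 𝕜) →L[𝕜] 𝕜)) (T f))) := 
      ((ContinuousLinearMap.apply 𝕜 𝕜 (T f)).continuous.tendsto _).comp hμ
    have h3 : Tendsto (fun n => ν (φ n) (T f)) atTop (𝓝 ((0 : C(K, 𝕜) →L[𝕜] 𝕜) f)) :=
      ((ContinuousLinearMap.apply 𝕜 𝕜 f).continuous.tendsto _).comp hνT
    exact tendsto_nhds_unique h2 h3
  have hall : ((l' + α • (dl p : C(K, 𝕜) →L[𝕜] 𝕜) : C(K, 𝕜) →L[𝕜] 𝕜) : C(K, 𝕜) → 𝕜) =
      fun _ => 0 := by
    refine hT.equalizer (ContinuousLinearMap.continuous _) continuous_const ?_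
    funext f
    exact hzero f
  have h0 : (l' + α • (dl p : C(K, 𝕜) →L[𝕜] 𝕜)) = 0 := by
    ext f
    exact congrFun hall f
  rw [h0, norm_zero] at hnorm
  exact zero_ne_one hnorm

end Pool.Agent.H.MP_f11573_an
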