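import Pool.Agent.H.MP_f11573_an.DefL

/-!
# DcU: functionals on the union of a closed set and a finite set

PROOF: `P' = P \ L`, finite. For `p ∈ P'` let `e p` in `C(K, 𝕜)` be a Urysohn function with `e p p = 1` and `e p = 0` on the closed set
`L ∪ (P' \ {p})`. `a = ∑_{p ∈ P'} single p (u (e p))`, `μ = u - ev a`. If `f = 0` on `L` then `f - ∑_{p ∈ P'} f p • e p` vanishes on
`L ∪ P`, so `u f = ∑ f p * u (e p) = ev a f`, `μ f = 0`. (See also AtV.)
-/

set_option autoImplicit false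

open Filter Topology Set Metric MeasureTheory

namespace Pool.Agent.H.MP_f11573_an

variable {𝕜 : Type*} [RCLike 𝕜] {K : Type*} [TopologicalSpace K] [CompactSpace K] [T2Space K]

private theorem DcU_fun {L P : Set K} (hL : IsClosed L) (hP : P.Finite) (p : K) :
    ∃ e : C(K, 𝕜), p ∉ L → e p = 1 ∧ (∀ q ∈ L, e q = 0) ∧ ∀ q ∈ P, q ≠ p → e q = 0 := by
  by_cases hp : p ∈ L
  · exact ⟨0, fun h => absurd hp h⟩
  have hcl : IsClosed (L ∪ (P \ {p})) := hL.union (hP.subset Set.diff_subset).isClosed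
  have hdis : Disjoint (L ∪ (P \ {p})) {p} := by
    rw [Set.disjoint_singleton_right]
    rintro (h | h)
    · exact hp h
    · exact h.2 (Set.mem_singleton p)
  obtain ⟨f, hf0, hf1, -⟩ := exists_continuous_zero_one_of_isClosed hcl
    (isClosed_singleton (x := p)) hdis
  refine ⟨⟨fun x => ((f x : ℝ) : 𝕜), RCLike.continuous_ofReal.comp f.continuous⟩,
    fun _ => ⟨?_, ?_, ?_⟩⟩
  · show ((f p : ℝ) : 𝕜) = 1
    rw [hf1 (Set.mem_singleton p)]
    simp
  · intro q hq
    show ((f q : ℝ) : 𝕜) = 0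
    rw [hf0 (Or.inl hq)]
    simp
  · intro q hq hqp
    show ((f q : ℝ) : 𝕜) = 0
    rw [hf0 (Or.inr ⟨hq, hqp⟩)]
    simp

theorem decomp {L P : Set K} (hL : IsClosed L) (hP : P.Finite) {u : C(K, 𝕜) →L[𝕜] 𝕜}
    (hu : Supp u (L ∪ P)) : ∃ (μ : C(K, 𝕜) →L[𝕜] 𝕜) (a : K →₀ 𝕜), Supp μ L ∧
      (∀ x ∈ a.support, x ∉ L) ∧ u = μ + ev a := by
  classical
  choose e he using fun p => DcU_fun (𝕜 := 𝕜) hL hP p
  have hF : (P \ L).Finite := hP.subset Set.diff_subset
  have hmem : ∀ p, p ∈ hF.toFinset ↔ p ∈ P ∧ p ∉ L := fun p => hF.mem_toFinset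
  have h2 : ∀ p, (ev (Finsupp.single p (u (e p))) : C(K, 𝕜) →L[𝕜] 𝕜) = u (e p) • dl p := by
    intro p
    unfold ev
    rw [Finsupp.linearCombination_single]
  refine ⟨u - ev (∑ p ∈ hF.toFinset, Finsupp.single p (u (e p))),
    ∑ p ∈ hF.toFinset, Finsupp.single p (u (e p)), ?_, ?_, (sub_add_cancel _ _).symm⟩
  · intro f hf
    rw [map_sum]
    simp only [h2]
    have h3 : u (f - ∑ p ∈ hF.toFinset, f p • e p) = 0 := by
      apply hu
      intro q hq
      rw [ContinuousMap.sub_apply, ContinuousMap.sum_apply]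
      by_cases hqL : q ∈ L
      · rw [hf q hqL, Finset.sum_eq_zero, sub_zero]
        intro p hp
        rw [ContinuousMap.smul_apply, (he p ((hmem p).1 hp).2).2.1 q hqL, smul_zero]
      · have hqP : q ∈ P := hq.resolve_left hqL
        rw [Finset.sum_eq_single_of_mem q ((hmem q).2 ⟨hqP, hqL⟩)]
        · rw [ContinuousMap.smul_apply, (he q hqL).1, smul_eq_mul, mul_one, sub_self]
        · intro p hp hpq
          rw [ContinuousMap.smul_apply, (he p ((hmem p).1 hp).2).2.2 q hqP (Ne.symm hpq),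
            smul_zero]
    rw [map_sub, map_sum, sub_eq_zero] at h3
    rw [ContinuousLinearMap.sub_apply, h3, ContinuousLinearMap.sum_apply, sub_eq_zero]
    refine Finset.sum_congr rfl fun p _ => ?_
    rw [map_smul]
    show f p • u (e p) = u (e p) • f p
    rw [smul_eq_mul, smul_eq_mul, mul_comm]
  · intro x hx hxL
    apply Finsupp.mem_support_iff.1 hx
    rw [Finsupp.finsetSum_apply, Finset.sum_eq_zero]
    intro p hp
    rw [Finsupp.single_apply, if_neg]
    rintro rfl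
    exact ((hmem p).1 hp).2 hxL

end Pool.Agent.H.MP_f11573_an
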