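import Pool.Agent.H.MP_f11573_an.Def

/-!
# Nrm: the norm of a finitely supported measure

PROOF of `norm_ev`: `≤` by the triangle inequality (`‖dl t‖ ≤ 1`). For `≥` choose `f` in `C(K, 𝕜)` with `‖f‖ ≤ 1` and
`a t * f t = ‖a t‖` for `t ∈ a.support`: take pairwise disjoint open neighbourhoods of the points of the support
(`Finset`, `T2Space`; `t2_separation_finset` or `Set.Finite.t2_separation`), Urysohn functions
`b_t : K → [0, 1]` with `b_t t = 1`, `b_t = 0` off the neighbourhood, and `f = ∑ b_t c_t`, `c_t = conj (a t) / ‖a t‖`; at each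
point at most one term is not `0`. (Then `‖ev a‖ ≥ ‖ev a f‖ = nrm a`.)

PROOF of `sign_fun`: `ev` is injective by `norm_ev`, so on the range of `ev` (a submodule) the map `ev a ↦ ∑ a t s t` is well
defined, linear, of norm `≤ 1` (`|∑ a t s t| ≤ nrm a = ‖ev a‖`); extend by Hahn-Banach (`exists_extension_norm_eq`).
-/

set_option autoImplicit false

open Filter Topology Set Metric MeasureTheory

namespace Pool.Agent.H.MP_f11573_an

set_option linter.unusedSectionVars false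

variable {𝕜 : Type*} [RCLike 𝕜] {K : Type*} [TopologicalSpace K] [CompactSpace K] [T2Space K]

private theorem Nrm_ev_apply (a : K →₀ 𝕜) (f : C(K, 𝕜)) :
    (ev a : C(K, 𝕜) →L[𝕜] 𝕜) f = ∑ t ∈ a.support, a t * f t := by
  simp [ev, Finsupp.linearCombination_apply, Finsupp.sum, dl]

private theorem Nrm_sep (s : Finset K) : ∃ b : K → C(K, ℝ),
    (∀ t x, b t x ∈ Icc (0 : ℝ) 1) ∧ (∀ t, b t t = 1) ∧
      ∀ x, ∀ t ∈ s, ∀ t' ∈ s, b t x ≠ 0 → b t' x ≠ 0 → t = t' := by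
  obtain ⟨U, hU, hd⟩ := s.finite_toSet.t2_separation
  have key : ∀ t : K, ∃ f : C(K, ℝ), EqOn f 0 (U t)ᶜ ∧ EqOn f 1 {t} ∧ ∀ x, f x ∈ Icc (0 : ℝ) 1 := by
    intro t
    apply exists_continuous_zero_one_of_isClosed
    · exact (hU t).2.isClosed_compl
    · exact isClosed_singleton
    · rw [Set.disjoint_singleton_right]
      intro h
      exact h (hU t).1
  choose b hb0 hb1 hb using key
  refine ⟨b, fun t x => hb t x, fun t => hb1 t rfl, ?_⟩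
  intro x t ht t' ht' h h'
  by_contra hne
  have h1 : x ∈ U t := by
    by_contra hx
    exact h (hb0 t hx)
  have h2 : x ∈ U t' := by
    by_contra hx
    exact h' (hb0 t' hx)
  exact Set.disjoint_left.1 (hd ht ht' hne) h1 h2

private theorem Nrm_norm_ofReal_le (r : ℝ) (hr : r ∈ Icc (0 : ℝ) 1) : ‖(r : 𝕜)‖ ≤ 1 := by
  rw [RCLike.norm_ofReal, abs_of_nonneg hr.1]
  exact hr.2

private theorem Nrm_test (s : Finset K) (c : K → 𝕜) (hc : ∀ t, ‖c t‖ ≤ 1) :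
    ∃ f : C(K, 𝕜), ‖f‖ ≤ 1 ∧ ∀ t ∈ s, f t = c t := by
  obtain ⟨b, hb, hb1, hbd⟩ := Nrm_sep s
  have hval : ∀ x, ∀ t ∈ s, b t x ≠ 0 →
      (∑ u ∈ s, ((b u x : ℝ) : 𝕜) * c u) = ((b t x : ℝ) : 𝕜) * c t := by
    intro x t ht hne
    refine Finset.sum_eq_single_of_mem t ht ?_
    intro u hu hut
    have : b u x = 0 := by
      by_contra h
      exact hut (hbd x u hu t ht h hne)
    simp [this]
  refine ⟨⟨fun x => ∑ u ∈ s, ((b u x : ℝ) : 𝕜) * c u, ?_⟩, ?_, ?_⟩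
  · refine continuous_finsetSum _ fun u _ => ?_
    exact (RCLike.continuous_ofReal.comp (b u).continuous).mul continuous_const
  · refine (ContinuousMap.norm_le _ zero_le_one).2 fun x => ?_
    show ‖∑ u ∈ s, ((b u x : ℝ) : 𝕜) * c u‖ ≤ 1
    by_cases h : ∃ t ∈ s, b t x ≠ 0
    · obtain ⟨t, ht, hne⟩ := h
      rw [hval x t ht hne, norm_mul]
      exact mul_le_one₀ (Nrm_norm_ofReal_le _ (hb t x)) (norm_nonneg _) (hc t)
    · push Not at h
      rw [Finset.sum_eq_zero]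
      · simp
      · intro u hu
        simp [h u hu]
  · intro t ht
    show (∑ u ∈ s, ((b u t : ℝ) : 𝕜) * c u) = c t
    rw [hval t t ht (by rw [hb1 t]; exact one_ne_zero), hb1 t]
    simp

private theorem Nrm_dl_le (t : K) (f : C(K, 𝕜)) : ‖f t‖ ≤ ‖f‖ := f.norm_coe_le_norm t

theorem norm_ev (a : K →₀ 𝕜) : ‖(ev a : C(K, 𝕜) →L[𝕜] 𝕜)‖ = nrm a := by
  apply le_antisymm
  · refine ContinuousLinearMap.opNorm_le_bound _ (Finset.sum_nonneg fun _ _ => norm_nonneg _) ?_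
    intro f
    rw [Nrm_ev_apply, nrm, Finset.sum_mul]
    refine (norm_sum_le _ _).trans (Finset.sum_le_sum fun t _ => ?_)
    rw [norm_mul]
    exact mul_le_mul_of_nonneg_left (Nrm_dl_le t f) (norm_nonneg _)
  · obtain ⟨f, hf, hft⟩ := Nrm_test (𝕜 := 𝕜) a.support
      (fun t => (starRingEnd 𝕜) (a t) / ((‖a t‖ : ℝ) : 𝕜)) (by
        intro t
        rw [norm_div, RCLike.norm_conj, RCLike.norm_ofReal, abs_of_nonneg (norm_nonneg _)]
        exact div_self_le_one _)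
    have h1 : (ev a : C(K, 𝕜) →L[𝕜] 𝕜) f = ((nrm a : ℝ) : 𝕜) := by
      rw [Nrm_ev_apply, nrm, RCLike.ofReal_sum]
      refine Finset.sum_congr rfl fun t ht => ?_
      rw [hft t ht]
      have hne : a t ≠ 0 := Finsupp.mem_support_iff.1 ht
      have hn : ((‖a t‖ : ℝ) : 𝕜) ≠ 0 := by
        exact_mod_cast (norm_ne_zero_iff.2 hne)
      rw [mul_div_assoc', RCLike.mul_conj, sq, mul_div_assoc, div_self hn, mul_one]
    have h2 : ‖(ev a : C(K, 𝕜) →L[𝕜] 𝕜) f‖ ≤ ‖(ev a : C(K, 𝕜) →L[𝕜] 𝕜)‖ * 1 :=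
      (ContinuousLinearMap.le_opNorm _ f).trans
        (mul_le_mul_of_nonneg_left hf (norm_nonneg _))
    rw [h1, RCLike.norm_ofReal, mul_one] at h2
    exact (le_abs_self _).trans h2

private theorem Nrm_ev_inj : Function.Injective (ev : (K →₀ 𝕜) →ₗ[𝕜] (C(K, 𝕜) →L[𝕜] 𝕜)) := by
  rw [← LinearMap.ker_eq_bot, LinearMap.ker_eq_bot']
  intro a ha
  have h := norm_ev a
  rw [ha, norm_zero] at h
  ext t
  by_contra hne
  have ht : t ∈ a.support := Finsupp.mem_support_iff.2 hne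
  have h1 : ‖a t‖ ≤ nrm a :=
    Finset.single_le_sum (f := fun t => ‖a t‖) (fun _ _ => norm_nonneg _) ht
  rw [← h] at h1
  exact hne (norm_le_zero_iff.1 h1)

theorem sign_fun (s : K → 𝕜) (hs : ∀ t, ‖s t‖ ≤ 1) :
    ∃ Φ : (C(K, 𝕜) →L[𝕜] 𝕜) →L[𝕜] 𝕜, ∀ a : K →₀ 𝕜,
      Φ (ev a) = ∑ t ∈ a.support, a t * s t := by
  let L : (K →₀ 𝕜) →ₗ[𝕜] 𝕜 := Finsupp.linearCombination 𝕜 s
  have hL : ∀ a : K →₀ 𝕜, L a = ∑ t ∈ a.support, a t * s t := by
    intro a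
    simp [L, Finsupp.linearCombination_apply, Finsupp.sum]
  let e := LinearEquiv.ofInjective (ev : (K →₀ 𝕜) →ₗ[𝕜] (C(K, 𝕜) →L[𝕜] 𝕜)) Nrm_ev_inj
  let M : (LinearMap.range (ev : (K →₀ 𝕜) →ₗ[𝕜] (C(K, 𝕜) →L[𝕜] 𝕜))) →ₗ[𝕜] 𝕜 :=
    L.comp e.symm.toLinearMap
  have hM : ∀ x, ‖M x‖ ≤ 1 * ‖x‖ := by
    intro x
    obtain ⟨a, rfl⟩ := e.surjective x
    have h1 : M (e a) = L a := by simp [M]
    have h2 : ‖e a‖ = nrm a := by
      rw [← norm_ev a]
      rfl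
    rw [h1, h2, hL, one_mul, nrm]
    refine (norm_sum_le _ _).trans (Finset.sum_le_sum fun t _ => ?_)
    rw [norm_mul]
    exact mul_le_of_le_one_right (norm_nonneg _) (hs t)
  obtain ⟨Φ, hΦ, -⟩ := exists_extension_norm_eq (𝕜 := 𝕜)
    (LinearMap.range (ev : (K →₀ 𝕜) →ₗ[𝕜] (C(K, 𝕜) →L[𝕜] 𝕜)))
    (LinearMap.mkContinuous (E := LinearMap.range (ev : (K →₀ 𝕜) →ₗ[𝕜] (C(K, 𝕜) →L[𝕜] 𝕜))) M 1 hM)
  refine ⟨Φ, fun a => ?_⟩
  have h3 := hΦ (e a)
  have h4 : ((e a : LinearMap.range (ev : (K →₀ 𝕜) →ₗ[𝕜] (C(K, 𝕜) →L[𝕜] 𝕜))) :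
      C(K, 𝕜) →L[𝕜] 𝕜) = ev a := rfl
  rw [h4] at h3
  rw [h3, ← hL a]
  show M (e a) = L a
  simp [M]

end Pool.Agent.H.MP_f11573_an
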