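import Pool.Agent.H.MP_f11573_an.Def

/-!
# Wk: dense range and the Grothendieck property

PROOF: `u n (T x) → 0` for all `x`; the `u n` are bounded and the range of `T` is dense, so `u n y → 0` for all `y` (given `ε`
choose `x` with `C ‖y - T x‖ ≤ ε/2`). Apply `Groth` with `v = 0`.
-/

set_option autoImplicit false

open Filter Topology Set Metric MeasureTheory

namespace Pool.Agent.H.MP_f11573_an

theorem wk_null {𝕜 : Type*} [RCLike 𝕜] {X : Type*} [NormedAddCommGroup X] [NormedSpace 𝕜 X]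
    (hX : Groth 𝕜 X) {T : X →L[𝕜] X} (hT : DenseRange T) {u : ℕ → (X →L[𝕜] 𝕜)} {C : ℝ}
    (hC : ∀ n, ‖u n‖ ≤ C) (hu : Tendsto (fun n => ‖(u n).comp T‖) atTop (𝓝 0))
    (Φ : (X →L[𝕜] 𝕜) →L[𝕜] 𝕜) : Tendsto (fun n => Φ (u n)) atTop (𝓝 0) := by
  have key : ∀ y : X, Tendsto (fun n => u n y) atTop (𝓝 ((0 : X →L[𝕜] 𝕜) y)) := by
    intro y
    rw [_root_.zero_apply, tendsto_zero_iff_norm_tendsto_zero]
    have hD : 0 < max C 0 + 1 := by
      have := le_max_right C 0
      linarith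
    have hDn : ∀ n, ‖u n‖ ≤ max C 0 + 1 := fun n => by
      have h1 := hC n
      have h2 := le_max_left C 0
      linarith
    rw [Metric.tendsto_atTop]
    intro ε hε
    obtain ⟨x, hx⟩ := hT.exists_dist_lt y (show 0 < ε / (2 * (max C 0 + 1)) by positivity)
    have h1 : Tendsto (fun n => ‖(u n).comp T‖ * ‖x‖) atTop (𝓝 0) := by
      have h := hu.mul_const ‖x‖
      rwa [zero_mul] at h
    obtain ⟨N, hN⟩ := (Metric.tendsto_atTop.1 h1) (ε / 2) (half_pos hε)
    refine ⟨N, fun n hn => ?_⟩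
    have h2 := hN n hn
    rw [Real.dist_0_eq_abs, abs_of_nonneg (by positivity)] at h2
    rw [Real.dist_0_eq_abs, abs_of_nonneg (norm_nonneg _)]
    have h3 : u n y = u n (y - T x) + (u n).comp T x := by
      rw [map_sub, ContinuousLinearMap.comp_apply, sub_add_cancel]
    have h4 : ‖u n y‖ ≤ ‖u n (y - T x)‖ + ‖(u n).comp T x‖ := by
      rw [h3]
      exact norm_add_le _ _
    have h5 : ‖u n (y - T x)‖ ≤ (max C 0 + 1) * ‖y - T x‖ :=
      ((u n).le_opNorm _).trans (mul_le_mul_of_nonneg_right (hDn n) (norm_nonneg _))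
    have h6 : ‖(u n).comp T x‖ ≤ ‖(u n).comp T‖ * ‖x‖ := ((u n).comp T).le_opNorm x
    have h7 : (max C 0 + 1) * ‖y - T x‖ < ε / 2 := by
      rw [dist_eq_norm] at hx
      have h8 := mul_lt_mul_of_pos_left hx hD
      have h9 : (max C 0 + 1) * (ε / (2 * (max C 0 + 1))) = ε / 2 := by
        field_simp
      rwa [h9] at h8
    linarith
  have h := hX u 0 key Φ
  rwa [map_zero] at h

end Pool.Agent.H.MP_f11573_an
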