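import Pool.Agent.H.MP_f11573_an.AtT
import Pool.Agent.H.MP_f11573_an.DcU
import Pool.Agent.H.MP_f11573_an.Wk
import Pool.Agent.H.MP_f11573_an.Nrm

/-! # AdU: adding a finite set, with a uniform constant -/

set_option autoImplicit false

open Filter Topology Set Metric MeasureTheory

namespace Pool.Agent.H.MP_f11573_an

variable {𝕜 : Type*} [RCLike 𝕜] {K : Type*} [TopologicalSpace K] [CompactSpace K] [T2Space K]

theorem low_union_unif (hK : Groth 𝕜 C(K, 𝕜)) {T : C(K, 𝕜) →L[𝕜] C(K, 𝕜)}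
    (hT : DenseRange T) {c : ℝ} (hc : 0 < c) :
    ∃ c' : ℝ, 0 < c' ∧ ∀ L : Set K, IsClosed L → LowOn T L c → ∀ P : Set K, P.Finite →
      LowOn T (L ∪ P) c' := by
  by_contra hcon
  push Not at hcon
  have h1 : ∀ j : ℕ, ∃ (L : Set K) (u : C(K, 𝕜) →L[𝕜] 𝕜) (P : Set K), IsClosed L ∧
      LowOn T L c ∧ P.Finite ∧ Supp u (L ∪ P) ∧ ‖u‖ = 1 ∧ ‖u.comp T‖ ≤ 1 / (j + 1) := by
    intro j
    obtain ⟨L, hL, hlow, P, hP, h2⟩ := hcon (1 / ((j : ℝ) + 1)) (by positivity)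
    unfold LowOn at h2
    push Not at h2
    obtain ⟨v, hv, h3⟩ := h2
    have hv0 : 0 < ‖v‖ := by
      by_contra h4
      have h5 : ‖v‖ = 0 := le_antisymm (not_lt.1 h4) (norm_nonneg _)
      rw [h5, mul_zero] at h3
      exact absurd h3 (not_lt.2 (norm_nonneg _))
    refine ⟨L, ((‖v‖⁻¹ : ℝ) : 𝕜) • v, P, hL, hlow, hP, fun f hf => ?_, ?_, ?_⟩
    · change ((‖v‖⁻¹ : ℝ) : 𝕜) * v f = 0
      rw [hv f hf, mul_zero]
    · rw [norm_smul, RCLike.norm_ofReal, abs_of_pos (inv_pos.2 hv0), inv_mul_cancel₀ hv0.ne']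
    · rw [ContinuousLinearMap.smul_comp, norm_smul, RCLike.norm_ofReal,
        abs_of_pos (inv_pos.2 hv0), inv_mul_eq_div, div_le_iff₀ hv0]
      exact h3.le
  choose L u P hL hlow hP hsu hu1 huT using h1
  choose μ a hμ ha hua using fun j => decomp (hL j) (hP j) (hsu j)
  have h0 : Tendsto (fun n : ℕ => 1 / ((n : ℝ) + 1)) atTop (𝓝 0) :=
    tendsto_one_div_add_atTop_nhds_zero_nat
  have hT0 : Tendsto (fun n => ‖(u n).comp T‖) atTop (𝓝 0) :=
    squeeze_zero (fun n => norm_nonneg _) huT h0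
  have ha0 := nrm_tendsto hL hμ ha hua fun Φ =>
    wk_null hK hT (C := 1) (fun n => (hu1 n).le) hT0 Φ
  have h3 : ∀ n, c * (1 - nrm (a n)) ≤ ‖(u n).comp T‖ + nrm (a n) * ‖T‖ := by
    intro n
    have h4 := hlow n (μ n) (hμ n)
    have h5 : ‖u n‖ ≤ ‖μ n‖ + nrm (a n) := by
      rw [hua n]
      refine (norm_add_le _ _).trans (le_of_eq ?_)
      rw [norm_ev]
    rw [hu1 n] at h5
    have h8 : ‖(μ n).comp T‖ ≤ ‖(u n).comp T‖ + nrm (a n) * ‖T‖ := by
      have h9 : (μ n).comp T = (u n).comp T - (ev (a n) : C(K, 𝕜) →L[𝕜] 𝕜).comp T := by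
        rw [hua n, ContinuousLinearMap.add_comp]
        abel
      rw [h9, ← norm_ev]
      exact (norm_sub_le _ _).trans (add_le_add le_rfl (ContinuousLinearMap.opNorm_comp_le _ _))
    have h10 := mul_le_mul_of_nonneg_left (show 1 - nrm (a n) ≤ ‖μ n‖ by linarith) hc.le
    linarith
  have h4 : Tendsto (fun n => c * (1 - nrm (a n))) atTop (𝓝 (c * (1 - 0))) :=
    (tendsto_const_nhds.sub ha0).const_mul c
  have h5 : Tendsto (fun n => ‖(u n).comp T‖ + nrm (a n) * ‖T‖) atTop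
      (𝓝 (0 + 0 * ‖T‖)) := hT0.add (ha0.mul_const ‖T‖)
  have h6 := le_of_tendsto_of_tendsto' h4 h5 h3
  simp only [sub_zero, mul_one, zero_mul, add_zero] at h6
  linarith

end Pool.Agent.H.MP_f11573_an
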