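import Pool.Agent.H.MP_f11573_an.Def3

/-!
# ComM: every action of a commutative monoid is topologically amenable

PROOF: let `N ≥ 1` with `2 / N ≤ ε`, and `I = E → Fin N` (or `Fintype.piFinset`, functions on the finite type `{g // g ∈ E}`),
`p : I → M`, `p v = ∏_{g} g ^ (v g)`, `m k x = |{v ∈ I | p v = k}| / |I|` (constant in `x`), `F = image of p`. For `g₀ ∈ E`:
`∑_{k ∈ F} if k * g₀ = l then m k else 0 = |{v | p v * g₀ = l}| / |I|`. So the sum over `l ∈ H` is at most
`(1 / |I|) ∑_l | |{v | p v * g₀ = l}| - |{v | p v = l}| |`. `p v * g₀ = p (v + e_{g₀})` if `v g₀ + 1 < N`, so the two multisets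
`{p v * g₀}` and `{p v}` agree except for the `|I| / N` elements `v` with `v g₀ = N - 1` in the first and the `|I| / N` elements with
`v g₀ = 0` in the second: the sum is at most `2 / N`. (Alternative: induction on the finite set `E`: from `m` for `E` and `ε` get
`m' = (1 / N) ∑_{i < N} m · g₀^i` for `E ∪ {g₀}`: translation by `g₀` changes it by at most `2 / N`, and translation by
`g ∈ E` commutes with it and stays `≤ ε`; state this first for finitely supported functions `M →₀ ℝ` with
`Finsupp.mapDomain (· * g)`, which does not increase the `ℓ_1` norm. This is probably the shortest way.)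
-/

set_option autoImplicit false

open Filter Topology Set Metric MeasureTheory

namespace Pool.Agent.H.MP_f11573_an

/-- bound of the `ℓ_1` norm -/
private def ComM_Bd {M : Type*} (a : M →₀ ℝ) (C : ℝ) : Prop := ∀ H : Finset M, ∑ l ∈ H, |a l| ≤ C

private theorem ComM_add {M : Type*} {a b : M →₀ ℝ} {C D : ℝ} (ha : ComM_Bd a C)
    (hb : ComM_Bd b D) : ComM_Bd (a + b) (C + D) := by
  intro H
  calc ∑ l ∈ H, |(a + b) l| ≤ ∑ l ∈ H, (|a l| + |b l|) :=
        Finset.sum_le_sum fun l _ => by
          rw [Finsupp.add_apply]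
          exact abs_add_le _ _
    _ = ∑ l ∈ H, |a l| + ∑ l ∈ H, |b l| := Finset.sum_add_distrib
    _ ≤ C + D := add_le_add (ha H) (hb H)

private theorem ComM_smul {M : Type*} {a : M →₀ ℝ} {C t : ℝ} (ht : 0 ≤ t) (ha : ComM_Bd a C) :
    ComM_Bd (t • a) (t * C) := by
  intro H
  calc ∑ l ∈ H, |(t • a) l| = t * ∑ l ∈ H, |a l| := by
        rw [Finset.mul_sum]
        refine Finset.sum_congr rfl fun l _ => ?_
        rw [Finsupp.smul_apply, smul_eq_mul, abs_mul, abs_of_nonneg ht]
    _ ≤ t * C := mul_le_mul_of_nonneg_left (ha H) ht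

private theorem ComM_neg {M : Type*} {a : M →₀ ℝ} {C : ℝ} (ha : ComM_Bd a C) :
    ComM_Bd (-a) C := by
  intro H
  simpa using ha H

open scoped Classical in
private theorem ComM_apply {M : Type*} (f : M → M) (a : M →₀ ℝ) (l : M) :
    Finsupp.mapDomain f a l = ∑ k ∈ a.support, if f k = l then a k else 0 := by
  rw [Finsupp.mapDomain, Finsupp.sum, Finsupp.finsetSum_apply]
  refine Finset.sum_congr rfl fun k _ => ?_
  rw [Finsupp.single_apply]

private theorem ComM_map {M : Type*} {a : M →₀ ℝ} {C : ℝ} (f : M → M) (ha : ComM_Bd a C) :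
    ComM_Bd (Finsupp.mapDomain f a) C := by
  classical
  intro H
  calc ∑ l ∈ H, |Finsupp.mapDomain f a l|
      ≤ ∑ l ∈ H, ∑ k ∈ a.support, if f k = l then |a k| else 0 := by
        refine Finset.sum_le_sum fun l _ => ?_
        rw [ComM_apply]
        refine (Finset.abs_sum_le_sum_abs _ _).trans (Finset.sum_le_sum fun k _ => ?_)
        split_ifs
        · exact le_rfl
        · rw [abs_zero]
    _ = ∑ k ∈ a.support, ∑ l ∈ H, if f k = l then |a k| else 0 := Finset.sum_comm
    _ ≤ ∑ k ∈ a.support, |a k| := by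
        refine Finset.sum_le_sum fun k _ => ?_
        rw [Finset.sum_ite_eq]
        split_ifs
        · exact le_rfl
        · exact abs_nonneg _
    _ ≤ C := ha _

private theorem ComM_sum {M : Type*} (N : ℕ) (a : ℕ → M →₀ ℝ) {C : ℝ} (ha : ∀ i, ComM_Bd (a i) C) :
    ComM_Bd (∑ i ∈ Finset.range N, a i) (N * C) := by
  induction N with
  | zero =>
    intro H
    simp
  | succ N ih =>
    rw [Finset.sum_range_succ]
    have h := ComM_add ih (ha N)
    rw [show ((N + 1 : ℕ) : ℝ) * C = N * C + C by push_cast; ring]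
    exact h

/-- probability -/
private def ComM_P {M : Type*} (a : M →₀ ℝ) : Prop := (∀ k, 0 ≤ a k) ∧ a.sum (fun _ v => v) = 1

private theorem ComM_P_bd {M : Type*} {a : M →₀ ℝ} (ha : ComM_P a) : ComM_Bd a 1 := by
  classical
  intro H
  have h1 : ∀ l, |a l| = a l := fun l => abs_of_nonneg (ha.1 l)
  simp only [h1]
  calc ∑ l ∈ H, a l ≤ ∑ l ∈ H ∪ a.support, a l :=
        Finset.sum_le_sum_of_subset_of_nonneg Finset.subset_union_left fun k _ _ => ha.1 k
    _ = a.sum (fun _ v => v) := by
        rw [Finsupp.sum]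
        symm
        refine Finset.sum_subset Finset.subset_union_right fun k _ hk => ?_
        exact Finsupp.notMem_support_iff.1 hk
    _ = 1 := ha.2

private theorem ComM_sum_add {M : Type*} (a b : M →₀ ℝ) :
    (a + b).sum (fun _ v => v) = a.sum (fun _ v => v) + b.sum (fun _ v => v) :=
  Finsupp.sum_add_index' (fun _ => rfl) (fun _ _ _ => rfl)

private theorem ComM_sum_map {M : Type*} (f : M → M) (a : M →₀ ℝ) :
    (Finsupp.mapDomain f a).sum (fun _ v => v) = a.sum (fun _ v => v) :=
  Finsupp.sum_mapDomain_index (fun _ => rfl) (fun _ _ _ => rfl)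

private theorem ComM_key {M : Type*} [CommMonoid M] (E : Finset M) {ε : ℝ} (hε : 0 < ε) :
    ∃ a : M →₀ ℝ, ComM_P a ∧ ∀ g ∈ E, ComM_Bd (Finsupp.mapDomain (· * g) a - a) ε := by
  classical
  induction E using Finset.induction_on with
  | empty =>
    refine ⟨Finsupp.single 1 1, ⟨fun k => ?_, ?_⟩, fun g hg => absurd hg (Finset.notMem_empty g)⟩
    · rw [Finsupp.single_apply]
      split_ifs
      · exact zero_le_one
      · exact le_rfl
    · exact Finsupp.sum_single_index rfl
  | insert g₀ E _ ih =>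
    obtain ⟨a, ha, hE⟩ := ih
    obtain ⟨N, hN⟩ := exists_nat_gt (2 / ε)
    have hNpos : (0 : ℝ) < N := lt_trans (by positivity) hN
    have hNe : (N : ℝ)⁻¹ * 2 ≤ ε := by
      rw [inv_mul_le_iff₀ hNpos]
      rw [div_lt_iff₀ hε] at hN
      exact hN.le
    let b : ℕ → M →₀ ℝ := fun i => Finsupp.mapDomain (· * g₀ ^ i) a
    have hb0 : b 0 = a := by
      show Finsupp.mapDomain (fun x => x * g₀ ^ 0) a = a
      have : (fun x : M => x * g₀ ^ 0) = id := by
        funext x
        simp
      rw [this, Finsupp.mapDomain_id]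
    have hbg : ∀ g i, Finsupp.mapDomain (· * g) (b i) =
        Finsupp.mapDomain (· * g₀ ^ i) (Finsupp.mapDomain (· * g) a) := by
      intro g i
      show Finsupp.mapDomain (· * g) (Finsupp.mapDomain (· * g₀ ^ i) a) = _
      rw [← Finsupp.mapDomain_comp, ← Finsupp.mapDomain_comp]
      congr 1
      funext x
      show x * g₀ ^ i * g = x * g * g₀ ^ i
      rw [mul_assoc, mul_comm _ g, ← mul_assoc]
    have hbs : ∀ i, Finsupp.mapDomain (· * g₀) (b i) = b (i + 1) := by
      intro i
      show Finsupp.mapDomain (· * g₀) (Finsupp.mapDomain (· * g₀ ^ i) a) =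
        Finsupp.mapDomain (· * g₀ ^ (i + 1)) a
      rw [← Finsupp.mapDomain_comp]
      congr 1
      funext x
      show x * g₀ ^ i * g₀ = x * g₀ ^ (i + 1)
      rw [mul_assoc, pow_succ]
    have hbP : ∀ i, ComM_P (b i) := by
      intro i
      refine ⟨fun k => ?_, ?_⟩
      · show 0 ≤ Finsupp.mapDomain (· * g₀ ^ i) a k
        rw [ComM_apply]
        refine Finset.sum_nonneg fun l _ => ?_
        split_ifs
        · exact ha.1 l
        · exact le_rfl
      · exact (ComM_sum_map _ a).trans ha.2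
    let c : M →₀ ℝ := (N : ℝ)⁻¹ • ∑ i ∈ Finset.range N, b i
    have hmap : ∀ g, Finsupp.mapDomain (· * g) c =
        (N : ℝ)⁻¹ • ∑ i ∈ Finset.range N, Finsupp.mapDomain (· * g) (b i) := by
      intro g
      show Finsupp.mapDomain (· * g) ((N : ℝ)⁻¹ • ∑ i ∈ Finset.range N, b i) = _
      rw [Finsupp.mapDomain_smul]
      congr 1
      exact map_sum (Finsupp.mapDomain.addMonoidHom (· * g)) _ _
    refine ⟨c, ⟨fun k => ?_, ?_⟩, ?_⟩
    · show 0 ≤ ((N : ℝ)⁻¹ • ∑ i ∈ Finset.range N, b i) k
      rw [Finsupp.smul_apply, Finsupp.finsetSum_apply]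
      exact smul_nonneg (inv_nonneg.2 hNpos.le) (Finset.sum_nonneg fun i _ => (hbP i).1 k)
    · have h1 : ∀ n : ℕ, (∑ i ∈ Finset.range n, b i).sum (fun _ v => v) = (n : ℝ) := by
        intro n
        induction n with
        | zero => simp
        | succ n ih =>
          rw [Finset.sum_range_succ, ComM_sum_add, ih, (hbP n).2]
          push_cast
          ring
      show ((N : ℝ)⁻¹ • ∑ i ∈ Finset.range N, b i).sum (fun _ v => v) = 1
      rw [Finsupp.sum_smul_index' (fun _ => rfl)]
      have h2 : ((∑ i ∈ Finset.range N, b i).sum fun _ v => (N : ℝ)⁻¹ • v) =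
          (N : ℝ)⁻¹ * (∑ i ∈ Finset.range N, b i).sum (fun _ v => v) := by
        rw [Finsupp.sum, Finsupp.sum, Finset.mul_sum]
        rfl
      rw [h2, h1, inv_mul_cancel₀ hNpos.ne']
    · intro g hg
      rw [hmap g]
      show ComM_Bd ((N : ℝ)⁻¹ • ∑ i ∈ Finset.range N, Finsupp.mapDomain (· * g) (b i) -
        (N : ℝ)⁻¹ • ∑ i ∈ Finset.range N, b i) ε
      rw [← smul_sub, ← Finset.sum_sub_distrib]
      rcases Finset.mem_insert.1 hg with rfl | hg
      · have h3 : ∑ i ∈ Finset.range N, (Finsupp.mapDomain (· * g) (b i) - b i) = b N - b 0 := by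
          rw [← Finset.sum_range_sub]
          exact Finset.sum_congr rfl fun i _ => by rw [hbs]
        rw [h3, sub_eq_add_neg]
        have h4 := ComM_smul (inv_nonneg.2 hNpos.le)
          (ComM_add (ComM_P_bd (hbP N)) (ComM_neg (ComM_P_bd (hbP 0))))
        intro H
        refine (h4 H).trans (le_trans (le_of_eq ?_) hNe)
        norm_num
      · have h3 : ∀ i, ComM_Bd (Finsupp.mapDomain (· * g) (b i) - b i) ε := by
          intro i
          rw [hbg]
          have h5 : Finsupp.mapDomain (· * g₀ ^ i) (Finsupp.mapDomain (· * g) a) - b i =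
              Finsupp.mapDomain (· * g₀ ^ i) (Finsupp.mapDomain (· * g) a - a) :=
            (map_sub (Finsupp.mapDomain.addMonoidHom (M := ℝ) (· * g₀ ^ i)) _ _).symm
          rw [h5]
          exact ComM_map _ (hE g hg)
        have h4 := ComM_smul (inv_nonneg.2 hNpos.le) (ComM_sum N _ h3)
        intro H
        refine (h4 H).trans (le_of_eq ?_)
        rw [← mul_assoc, inv_mul_cancel₀ hNpos.ne', one_mul]

theorem topAmenM_of_comm {M : Type*} [CommMonoid M] (K : Type*)
    [TopologicalSpace K] [MulAction M K] : TopAmenM M K := by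
  classical
  intro E ε hε
  obtain ⟨a, ha, hE⟩ := ComM_key E hε
  refine ⟨a.support, fun k => ContinuousMap.const K (a k), fun k _ => ha.1 k, fun k hk _ => ?_,
    fun _ => ha.2, fun g hg x H => ?_⟩
  · exact Finsupp.notMem_support_iff.1 hk
  · refine le_trans (le_of_eq (Finset.sum_congr rfl fun l _ => ?_)) (hE g hg H)
    rw [Finsupp.sub_apply, ComM_apply]
    rfl

end Pool.Agent.H.MP_f11573_an
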