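import Pool.Agent.H.MP_f11573_an.FolM
import Pool.Agent.H.MP_f11573_an.ComM

/-! # AmM: amenable actions of monoids -/

set_option autoImplicit false

open Filter Topology Set Metric MeasureTheory

namespace Pool.Agent.H.MP_f11573_an

/-- Foelner sets in a monoid (used only if all elements are units, that is for groups). -/
def FoelnerM (M : Type*) [Monoid M] : Prop :=
  ∀ (E : Finset M) (ε : ℝ), 0 < ε → ∃ F : Finset M, F.Nonempty ∧
    ∀ g ∈ E, ({k : M | k ∈ F ∧ g * k ∉ F}.ncard : ℝ) ≤ ε * F.card

/-- The action of the monoid `M` on `K` is amenable: it is topologically amenable (`TopAmenM`), or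
`M` is commutative, or `M` is an amenable group (all elements are units, Foelner sets). -/
def AmenAct (M K : Type*) [TopologicalSpace K] [Monoid M] [MulAction M K] : Prop :=
  TopAmenM M K ∨ (∀ a b : M, a * b = b * a) ∨ ((∀ g : M, IsUnit g) ∧ FoelnerM M)

theorem topAmenM_of_amenAct {M K : Type*} [TopologicalSpace K] [inst : Monoid M]
    [act : MulAction M K] (h : AmenAct M K) : TopAmenM M K := by
  rcases h with h | h | ⟨h1, h2⟩
  · exact h
  · letI : CommMonoid M := { inst with mul_comm := h }
    exact topAmenM_of_comm K
  · letI : Group M := groupOfIsUnit h1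
    exact topAmenM_of_foelner (G := M) h2 K

end Pool.Agent.H.MP_f11573_an
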