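import Pool.Agent.H.MP_f11573_an.Def

/-!
# DefL: local surjectivity

`OntoOn` is used in the hand-in, the others are auxiliary.
-/

set_option autoImplicit false

open Filter Topology Set Metric MeasureTheory

namespace Pool.Agent.H.MP_f11573_an

/-- `T` is onto on the set `L`: every continuous function agrees on `L` with a function of the
range of `T`. -/
def OntoOn {𝕜 : Type*} [RCLike 𝕜] {K : Type*} [TopologicalSpace K] [CompactSpace K]
    (T : C(K, 𝕜) →L[𝕜] C(K, 𝕜)) (L : Set K) : Prop :=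
  ∀ h : C(K, 𝕜), ∃ f : C(K, 𝕜), ∀ x ∈ L, T f x = h x

section aux

variable {𝕜 : Type*} [RCLike 𝕜] {K : Type*} [TopologicalSpace K] [CompactSpace K]

/-- the functional `μ` lives on `L` -/
def Supp (μ : C(K, 𝕜) →L[𝕜] 𝕜) (L : Set K) : Prop :=
  ∀ f : C(K, 𝕜), (∀ x ∈ L, f x = 0) → μ f = 0

/-- the adjoint of `T` is bounded below on the functionals which live on `L` -/
def LowOn (T : C(K, 𝕜) →L[𝕜] C(K, 𝕜)) (L : Set K) (c : ℝ) : Prop :=
  ∀ μ : C(K, 𝕜) →L[𝕜] 𝕜, Supp μ L → c * ‖μ‖ ≤ ‖μ.comp T‖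

end aux

end Pool.Agent.H.MP_f11573_an
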