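import Pool.Agent.H.MP_f11573_an.Atm
import Pool.Agent.H.MP_f11573_an.DefL

/-!
# AtS: the atoms of a functional

PROOF of `noAtom_unique`: the difference `(α - β) • dl q` (up to sign) satisfies the estimate of `NoAtom` (intersect the two open
sets): for `δ > 0` there is an open `V ∋ q` with `‖(α - β) f q‖ ≤ 2 δ ‖f‖` for `f` vanishing off `V`; take a Urysohn function
`f = rs b 1`, `b q = 1`, `b = 0` off `V`, `‖f‖ ≤ 1`: `‖α - β‖ ≤ 2 δ`.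

PROOF of `atom_sum`: let `s` be finite, `δ > 0`. For `x ∈ s` take `V x` from `h x μ δ`, made pairwise disjoint (`T2`, intersect with
disjoint neighbourhoods of the points of `s`), and Urysohn functions `b x`, `b x x = 1`, `b x = 0` off `V x`, values in `[0, 1]`; unimodular `c x` with
`c x * Φ x μ = ‖Φ x μ‖`. `F = ∑_{x ∈ s} c x • rs (b x) 1` has norm `≤ 1` (at each point at most one term), and
`‖μ (c x • rs (b x) 1) - ‖Φ x μ‖‖ ≤ δ` (apply `NoAtom` to `f = c x • rs (b x) 1`, `f x = c x`). So `∑ ‖Φ x μ‖ ≤ ‖μ F‖ + |s| δ ≤ ‖μ‖ + |s| δ`.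
-/

set_option autoImplicit false

open Filter Topology Set Metric MeasureTheory

namespace Pool.Agent.H.MP_f11573_an

variable {𝕜 : Type*} [RCLike 𝕜] {K : Type*} [TopologicalSpace K] [CompactSpace K] [T2Space K]

omit [T2Space K] in
private theorem AtS_rs_norm {b : C(K, ℝ)} (hb : ∀ x, b x ∈ Icc (0 : ℝ) 1) :
    ‖(rs b (1 : C(K, 𝕜)) : C(K, 𝕜))‖ ≤ 1 := by
  refine (ContinuousMap.norm_le _ zero_le_one).2 fun x => ?_
  change ‖((b x : ℝ) : 𝕜) * 1‖ ≤ 1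
  rw [mul_one, RCLike.norm_ofReal, abs_of_nonneg (hb x).1]
  exact (hb x).2

private theorem AtS_ury (q : K) {V : Set K} (hV : V ∈ 𝓝 q) :
    ∃ b : C(K, ℝ), (∀ x, b x ∈ Icc (0 : ℝ) 1) ∧ b q = 1 ∧ ∀ x, x ∉ V → b x = 0 := by
  have h1 : q ∈ interior V := mem_interior_iff_mem_nhds.2 hV
  have h2 : Disjoint (interior V)ᶜ {q} := by
    rw [Set.disjoint_singleton_right]
    exact fun h3 => h3 h1
  obtain ⟨b, hb0, hb1, hb⟩ := exists_continuous_zero_one_of_isClosed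
    isOpen_interior.isClosed_compl isClosed_singleton h2
  exact ⟨b, hb, hb1 rfl, fun x hx => hb0 fun h3 => hx (interior_subset h3)⟩

theorem noAtom_unique {μ : C(K, 𝕜) →L[𝕜] 𝕜} {q : K} {α β : 𝕜} (h1 : NoAtom (μ - α • dl q) q)
    (h2 : NoAtom (μ - β • dl q) q) : α = β := by
  by_contra hne
  have hpos : 0 < ‖α - β‖ := norm_pos_iff.2 (sub_ne_zero.2 hne)
  obtain ⟨V1, hV1, hq1, e1⟩ := h1 (‖α - β‖ / 4) (by positivity)
  obtain ⟨V2, hV2, hq2, e2⟩ := h2 (‖α - β‖ / 4) (by positivity)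
  obtain ⟨b, hb, hbq, hb0⟩ := AtS_ury q ((hV1.inter hV2).mem_nhds ⟨hq1, hq2⟩)
  have hf : ∀ x, x ∉ V1 ∩ V2 → (rs b (1 : C(K, 𝕜)) : C(K, 𝕜)) x = 0 := by
    intro x hx
    change ((b x : ℝ) : 𝕜) * 1 = 0
    rw [hb0 x hx]
    simp
  have hfq : (rs b (1 : C(K, 𝕜)) : C(K, 𝕜)) q = 1 := by
    change ((b q : ℝ) : 𝕜) * 1 = 1
    rw [hbq]
    simp
  have h3 := e1 (rs b 1) fun x hx => hf x fun h => hx h.1
  have h4 := e2 (rs b 1) fun x hx => hf x fun h => hx h.2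
  have hn : ‖(rs b (1 : C(K, 𝕜)) : C(K, 𝕜))‖ ≤ 1 := AtS_rs_norm hb
  have h5 : (μ - β • (dl q : C(K, 𝕜) →L[𝕜] 𝕜)) (rs b 1) -
      (μ - α • (dl q : C(K, 𝕜) →L[𝕜] 𝕜)) (rs b 1) = α - β := by
    change (μ (rs b 1) - β * (rs b (1 : C(K, 𝕜)) : C(K, 𝕜)) q) -
      (μ (rs b 1) - α * (rs b (1 : C(K, 𝕜)) : C(K, 𝕜)) q) = α - β
    rw [hfq]
    ring
  have h6 : ‖α - β‖ ≤ ‖α - β‖ / 4 * 1 + ‖α - β‖ / 4 * 1 := by
    calc ‖α - β‖ = ‖(μ - β • (dl q : C(K, 𝕜) →L[𝕜] 𝕜)) (rs b 1) -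
          (μ - α • (dl q : C(K, 𝕜) →L[𝕜] 𝕜)) (rs b 1)‖ := by rw [h5]
      _ ≤ _ := norm_sub_le _ _
      _ ≤ _ := add_le_add (h4.trans (mul_le_mul_of_nonneg_left hn (by positivity)))
          (h3.trans (mul_le_mul_of_nonneg_left hn (by positivity)))
  linarith

omit [T2Space K] in
theorem noAtom_of_supp {μ : C(K, 𝕜) →L[𝕜] 𝕜} {L : Set K} (hL : IsClosed L) (h : Supp μ L)
    {q : K} (hq : q ∉ L) : NoAtom μ q := by
  intro δ hδ
  refine ⟨Lᶜ, hL.isOpen_compl, hq, fun f hf => ?_⟩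
  rw [h f fun x hx => hf x fun hx' => hx' hx, norm_zero]
  positivity

theorem atom_sum {Φ : K → ((C(K, 𝕜) →L[𝕜] 𝕜) →L[𝕜] 𝕜)}
    (h : ∀ (q : K) (μ : C(K, 𝕜) →L[𝕜] 𝕜), NoAtom (μ - Φ q μ • dl q) q) (s : Finset K)
    (μ : C(K, 𝕜) →L[𝕜] 𝕜) : ∑ x ∈ s, ‖Φ x μ‖ ≤ ‖μ‖ := by
  refine le_of_forall_pos_le_add fun ε hε => ?_
  set δ : ℝ := ε / (s.card + 1) with hδd
  have hδ : 0 < δ := by positivity
  have hsδ : (s.card : ℝ) * δ ≤ ε := by
    rw [hδd, mul_div_assoc', div_le_iff₀ (by positivity)]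
    nlinarith
  choose V hVo hxV hV using fun x : K => h x μ δ hδ
  obtain ⟨U, hU, hUd⟩ := s.finite_toSet.t2_separation
  choose b hb hbx hb0 using fun x : K => AtS_ury x
    (((hVo x).inter (hU x).2).mem_nhds ⟨hxV x, (hU x).1⟩)
  choose c hc hcx using fun x : K => RCLike.exists_norm_eq_mul_self (Φ x μ)
  set f : K → C(K, 𝕜) := fun x => c x • rs (b x) 1 with hfd
  have hfv : ∀ x y, f x y = c x * ((b x y : ℝ) : 𝕜) := by
    intro x y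
    change c x * (((b x y : ℝ) : 𝕜) * 1) = _
    rw [mul_one]
  have hfn : ∀ x y, ‖f x y‖ = b x y := by
    intro x y
    rw [hfv, norm_mul, hc, one_mul, RCLike.norm_ofReal, abs_of_nonneg (hb x y).1]
  have hf0 : ∀ x y, y ∉ V x → f x y = 0 := by
    intro x y hy
    rw [hfv, hb0 x y fun h => hy h.1]
    simp
  have hf1 : ∀ x, ‖f x‖ ≤ 1 := fun x =>
    (ContinuousMap.norm_le _ zero_le_one).2 fun y => by rw [hfn]; exact (hb x y).2
  have hfx : ∀ x, Φ x μ * f x x = ((‖Φ x μ‖ : ℝ) : 𝕜) := by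
    intro x
    rw [hfv, hbx, hcx x]
    simp [mul_comm]
  have h1 : ∀ x, ‖μ (f x) - ((‖Φ x μ‖ : ℝ) : 𝕜)‖ ≤ δ := by
    intro x
    have h2 := hV x (f x) (hf0 x)
    have h3 : (μ - Φ x μ • (dl x : C(K, 𝕜) →L[𝕜] 𝕜)) (f x) =
        μ (f x) - ((‖Φ x μ‖ : ℝ) : 𝕜) := by
      rw [← hfx x]
      rfl
    rw [h3] at h2
    exact h2.trans (mul_le_of_le_one_right hδ.le (hf1 x))
  have hF : ‖∑ x ∈ s, f x‖ ≤ 1 := by
    refine (ContinuousMap.norm_le _ zero_le_one).2 fun y => ?_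
    rw [ContinuousMap.sum_apply]
    refine (norm_sum_le _ _).trans ?_
    simp only [hfn]
    by_cases hy : ∃ x ∈ s, y ∈ U x
    · obtain ⟨x0, hx0, hyx⟩ := hy
      rw [Finset.sum_eq_single_of_mem x0 hx0]
      · exact (hb x0 y).2
      · intro x hx hne
        refine hb0 x y fun hyV => ?_
        exact Set.disjoint_left.1 (hUd hx hx0 hne) hyV.2 hyx
    · rw [Finset.sum_eq_zero]
      · exact zero_le_one
      · intro x hx
        exact hb0 x y fun hyV => hy ⟨x, hx, hyV.2⟩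
  have h4 : ((∑ x ∈ s, ‖Φ x μ‖ : ℝ) : 𝕜) =
      μ (∑ x ∈ s, f x) - ∑ x ∈ s, (μ (f x) - ((‖Φ x μ‖ : ℝ) : 𝕜)) := by
    rw [map_sum, Finset.sum_sub_distrib]
    push_cast
    ring
  have h5 : ∑ x ∈ s, ‖Φ x μ‖ = ‖((∑ x ∈ s, ‖Φ x μ‖ : ℝ) : 𝕜)‖ := by
    rw [RCLike.norm_ofReal, abs_of_nonneg (Finset.sum_nonneg fun x _ => norm_nonneg _)]
  rw [h5, h4]
  refine (norm_sub_le _ _).trans (add_le_add ?_ ?_)
  · refine (μ.le_opNorm _).trans ?_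
    exact mul_le_of_le_one_right (norm_nonneg _) hF
  · refine (norm_sum_le _ _).trans ?_
    refine (Finset.sum_le_sum fun x _ => h1 x).trans ?_
    rw [Finset.sum_const, nsmul_eq_mul]
    exact hsδ

end Pool.Agent.H.MP_f11573_an
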