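import Pool.Agent.H.MP_f11573_an.Def

/-!
# Sch: a gliding hump (the Schur property of `ℓ_1`)

PROOF: if not, there are `δ > 0` and infinitely many `n` with `‖Φ n (u n)‖ ≥ δ`. Choose such `n_1 < n_2 < …` with
`∑_{j < k} ‖Φ (n_j) (u (n_k))‖ ≤ δ / 4` (possible as `Φ i (u n) → 0` for fixed `i`) and `∑_{i ≥ n_{k+1}} ‖Φ i (u (n_k))‖ ≤ δ / 4`
(possible as `i ↦ ‖Φ i (u (n_k))‖` is summable by `hΦ`). Let `c k` be unimodular with `c k * Φ (n_k) (u (n_k)) = ‖…‖` and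
`Ψ w = ∑' k, c k * Φ (n_k) w`: a continuous linear functional of norm `≤ C`. `‖Ψ (u (n_k))‖ ≥ δ / 2` for all `k`, which contradicts
`hu Ψ`.
-/

set_option autoImplicit false

open Filter Topology Set Metric MeasureTheory

namespace Pool.Agent.H.MP_f11573_an

section aux

variable {𝕜 : Type*} [RCLike 𝕜] {E : Type*} [NormedAddCommGroup E] [NormedSpace 𝕜 E]
    {Φ : ℕ → (E →L[𝕜] 𝕜)} {C : ℝ}

private theorem Sch_sum (hΦ : ∀ (u : E) (s : Finset ℕ), ∑ i ∈ s, ‖Φ i u‖ ≤ C * ‖u‖) {n : ℕ → ℕ}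
    (hn : Function.Injective n) (w : E) (t : Finset ℕ) : ∑ k ∈ t, ‖Φ (n k) w‖ ≤ C * ‖w‖ := by
  classical
  have h := hΦ w (t.image n)
  rwa [Finset.sum_image fun a _ b _ hab => hn hab] at h

private theorem Sch_summable (hΦ : ∀ (u : E) (s : Finset ℕ), ∑ i ∈ s, ‖Φ i u‖ ≤ C * ‖u‖)
    {n : ℕ → ℕ} (hn : Function.Injective n) (w : E) : Summable fun k => ‖Φ (n k) w‖ :=
  summable_of_sum_le (fun _ => norm_nonneg _) (Sch_sum hΦ hn w)

/-- the functional -/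
private theorem Sch_fun (hΦ : ∀ (u : E) (s : Finset ℕ), ∑ i ∈ s, ‖Φ i u‖ ≤ C * ‖u‖)
    {n : ℕ → ℕ} (hn : Function.Injective n) (c : ℕ → 𝕜) (hc : ∀ k, ‖c k‖ = 1) :
    ∃ Ψ : E →L[𝕜] 𝕜, ∀ w, Summable (fun k => c k * Φ (n k) w) ∧ Ψ w = ∑' k, c k * Φ (n k) w := by
  have hnorm : ∀ w k, ‖c k * Φ (n k) w‖ = ‖Φ (n k) w‖ := by
    intro w k
    rw [norm_mul, hc, one_mul]
  have hs : ∀ w, Summable fun k => ‖c k * Φ (n k) w‖ := by
    intro w
    simp only [hnorm]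
    exact Sch_summable hΦ hn w
  refine ⟨LinearMap.mkContinuous
    { toFun := fun w => ∑' k, c k * Φ (n k) w
      map_add' := ?_
      map_smul' := ?_ } C ?_, fun w => ⟨(hs w).of_norm, rfl⟩⟩
  · intro v w
    rw [← (hs v).of_norm.tsum_add (hs w).of_norm]
    refine tsum_congr fun k => ?_
    rw [map_add, mul_add]
  · intro a w
    rw [RingHom.id_apply, smul_eq_mul, ← tsum_mul_left]
    refine tsum_congr fun k => ?_
    rw [map_smul, smul_eq_mul]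
    ring
  · intro w
    show ‖∑' k, c k * Φ (n k) w‖ ≤ C * ‖w‖
    refine (norm_tsum_le_tsum_norm (hs w)).trans ?_
    refine (hs w).tsum_le_of_sum_le fun t => ?_
    simp only [hnorm]
    exact Sch_sum hΦ hn w t

private theorem Sch_tail (hΦ : ∀ (u : E) (s : Finset ℕ), ∑ i ∈ s, ‖Φ i u‖ ≤ C * ‖u‖) (w : E)
    {η : ℝ} (hη : 0 < η) : ∃ N : ℕ, ∀ s : Finset ℕ, (∀ i ∈ s, N ≤ i) →
      ∑ i ∈ s, ‖Φ i w‖ ≤ η := by
  have h1 : Summable fun i => ‖Φ i w‖ := Sch_summable hΦ Function.injective_id w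
  obtain ⟨s, hs⟩ := summable_iff_vanishing_norm.1 h1 η hη
  refine ⟨s.sup id + 1, fun t ht => ?_⟩
  have h2 : Disjoint t s := by
    rw [Finset.disjoint_left]
    intro i hi hi'
    have h3 := ht i hi
    have h4 : id i ≤ s.sup id := Finset.le_sup hi'
    simp only [id] at h4
    omega
  exact (le_abs_self _).trans (hs t h2).le

end aux

theorem schur {𝕜 : Type*} [RCLike 𝕜] {E : Type*} [NormedAddCommGroup E] [NormedSpace 𝕜 E]
    {Φ : ℕ → (E →L[𝕜] 𝕜)} {C : ℝ}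
    (hΦ : ∀ (u : E) (s : Finset ℕ), ∑ i ∈ s, ‖Φ i u‖ ≤ C * ‖u‖) {u : ℕ → E}
    (hu : ∀ Ψ : E →L[𝕜] 𝕜, Tendsto (fun n => Ψ (u n)) atTop (𝓝 0)) :
    Tendsto (fun n => Φ n (u n)) atTop (𝓝 0) := by
  classical
  by_contra hcon
  obtain ⟨δ, hδ, hfreq⟩ : ∃ δ > 0, ∃ᶠ n in atTop, δ ≤ ‖Φ n (u n)‖ := by
    rw [Metric.tendsto_nhds] at hcon
    push Not at hcon
    obtain ⟨δ, hδ, h⟩ := hcon
    refine ⟨δ, hδ, h.mono fun n hn => ?_⟩
    rwa [dist_zero_right] at hn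
  -- the subsequence
  obtain ⟨n, hn1, hn2⟩ := exists_seq_of_forall_finset_exists (fun x : ℕ => δ ≤ ‖Φ x (u x)‖)
    (fun x y : ℕ => x < y ∧ ‖Φ x (u y)‖ ≤ δ / 4 * (1 / 2) ^ (x + 1) ∧
      ∀ s : Finset ℕ, (∀ i ∈ s, y ≤ i) → ∑ i ∈ s, ‖Φ i (u x)‖ ≤ δ / 4) (by
    intro s _
    have h1 : ∀ x ∈ s, ∀ᶠ y in atTop, x < y ∧ ‖Φ x (u y)‖ ≤ δ / 4 * (1 / 2) ^ (x + 1) ∧
        ∀ s : Finset ℕ, (∀ i ∈ s, y ≤ i) → ∑ i ∈ s, ‖Φ i (u x)‖ ≤ δ / 4 := by
      intro x _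
      obtain ⟨N, hN⟩ := Sch_tail hΦ (u x) (η := δ / 4) (by positivity)
      have h2 : ∀ᶠ y in atTop, ‖Φ x (u y)‖ ≤ δ / 4 * (1 / 2) ^ (x + 1) := by
        have h3 := (hu (Φ x)).norm
        rw [norm_zero] at h3
        have h4 : 0 < δ / 4 * (1 / 2 : ℝ) ^ (x + 1) := by positivity
        exact (h3.eventually (gt_mem_nhds h4)).mono fun y hy => le_of_lt hy
      filter_upwards [eventually_gt_atTop x, h2, eventually_ge_atTop N] with y hy1 hy2 hy3
      exact ⟨hy1, hy2, fun t ht => hN t fun i hi => hy3.trans (ht i hi)⟩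
    have h5 := (Filter.eventually_all_finset s).2 h1
    obtain ⟨y, hy1, hy2⟩ := (hfreq.and_eventually h5).exists
    exact ⟨y, hy1, hy2⟩)
  have hmono : StrictMono n := strictMono_nat_of_lt_succ fun k => (hn2 k (k + 1) (Nat.lt_succ_self k)).1
  have hinj := hmono.injective
  choose c hc1 hc2 using fun k => RCLike.exists_norm_eq_mul_self (Φ (n k) (u (n k)))
  obtain ⟨Ψ, hΨ⟩ := Sch_fun hΦ hinj c hc1
  -- the sums before and after
  have hbound : ∀ k : ℕ, ∀ t : Finset ℕ,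
      ∑ j ∈ t, ‖(if j = k then 0 else c j * Φ (n j) (u (n k)))‖ ≤ δ / 2 := by
    intro k t
    have h1 : ∑ j ∈ t, ‖(if j = k then 0 else c j * Φ (n j) (u (n k)))‖ =
        ∑ j ∈ t.filter (fun j => j < k), ‖Φ (n j) (u (n k))‖ +
          ∑ j ∈ t.filter (fun j => k < j), ‖Φ (n j) (u (n k))‖ := by
      rw [Finset.sum_filter, Finset.sum_filter, ← Finset.sum_add_distrib]
      refine Finset.sum_congr rfl fun j _ => ?_
      rcases lt_trichotomy j k with h | h | h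
      · rw [if_neg h.ne, if_pos h, if_neg (not_lt.2 h.le), norm_mul, hc1, one_mul, add_zero]
      · rw [if_pos h, if_neg (not_lt.2 h.ge), if_neg (not_lt.2 h.le), norm_zero, add_zero]
      · rw [if_neg h.ne', if_neg (not_lt.2 h.le), if_pos h, norm_mul, hc1, one_mul, zero_add]
    have h2 : ∑ j ∈ t.filter (fun j => j < k), ‖Φ (n j) (u (n k))‖ ≤ δ / 4 := by
      have h3 : ∑ j ∈ t.filter (fun j => j < k), ‖Φ (n j) (u (n k))‖ ≤
          ∑ j ∈ t.filter (fun j => j < k), δ / 4 * (1 / 2) ^ (n j + 1) :=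
        Finset.sum_le_sum fun j hj => (hn2 j k (Finset.mem_filter.1 hj).2).2.1
      refine h3.trans ?_
      rw [← Finset.mul_sum]
      have h4 : ∑ j ∈ t.filter (fun j => j < k), (1 / 2 : ℝ) ^ (n j + 1) ≤ 1 := by
        have h5 : ∑ j ∈ t.filter (fun j => j < k), (1 / 2 : ℝ) ^ (n j + 1) =
            ∑ i ∈ (t.filter (fun j => j < k)).image n, (1 / 2 : ℝ) ^ (i + 1) := by
          rw [Finset.sum_image fun a _ b _ hab => hinj hab]
        rw [h5]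
        have h6 : HasSum (fun i : ℕ => (1 / 2 : ℝ) ^ (i + 1)) 1 := by
          have h7 := hasSum_geometric_two.mul_left (1 / 2 : ℝ)
          simp only [← pow_succ'] at h7
          rwa [show (1 / 2 : ℝ) * 2 = 1 by norm_num] at h7
        exact sum_le_hasSum _ (fun i _ => by positivity) h6
      calc δ / 4 * ∑ j ∈ t.filter (fun j => j < k), (1 / 2 : ℝ) ^ (n j + 1) ≤ δ / 4 * 1 :=
            mul_le_mul_of_nonneg_left h4 (by positivity)
        _ = δ / 4 := mul_one _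
    have h8 : ∑ j ∈ t.filter (fun j => k < j), ‖Φ (n j) (u (n k))‖ ≤ δ / 4 := by
      have h9 : ∑ j ∈ t.filter (fun j => k < j), ‖Φ (n j) (u (n k))‖ =
          ∑ i ∈ (t.filter (fun j => k < j)).image n, ‖Φ i (u (n k))‖ := by
        rw [Finset.sum_image fun a _ b _ hab => hinj hab]
      rw [h9]
      refine (hn2 k (k + 1) (Nat.lt_succ_self k)).2.2 _ fun i hi => ?_
      obtain ⟨j, hj, rfl⟩ := Finset.mem_image.1 hi
      exact hmono.monotone (Finset.mem_filter.1 hj).2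
    rw [h1]
    linarith
  have hlow : ∀ k, δ / 2 ≤ ‖Ψ (u (n k))‖ := by
    intro k
    obtain ⟨h1, h2⟩ := hΨ (u (n k))
    have h3 := h1.tsum_eq_add_tsum_ite k
    have hs : Summable fun j => ‖(if j = k then 0 else c j * Φ (n j) (u (n k)))‖ :=
      summable_of_sum_le (fun _ => norm_nonneg _) (hbound k)
    have h4 : ‖∑' j, (if j = k then 0 else c j * Φ (n j) (u (n k)))‖ ≤ δ / 2 :=
      (norm_tsum_le_tsum_norm hs).trans (hs.tsum_le_of_sum_le (hbound k))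
    have h5 : δ ≤ ‖c k * Φ (n k) (u (n k))‖ := by
      rw [norm_mul, hc1, one_mul]
      exact hn1 k
    rw [h2, h3]
    have h6 := norm_sub_le_norm_add (c k * Φ (n k) (u (n k)))
      (∑' j, (if j = k then 0 else c j * Φ (n j) (u (n k))))
    linarith
  have hlim := ((hu Ψ).comp hmono.tendsto_atTop).norm
  rw [norm_zero] at hlim
  have h7 : δ / 2 ≤ 0 := ge_of_tendsto hlim (Eventually.of_forall hlow)
  linarith

end Pool.Agent.H.MP_f11573_an
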