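import Pool.Agent.H.MP_f11573_an.AtS
import Pool.Agent.H.MP_f11573_an.Sch

/-!
# AtT: the atomic parts of a weakly null sequence

PROOF: `choose Φ hΦ using fun q => atom q`. For `x ∉ L j`: `Φ x (u j) = a j x`, by `noAtom_unique` (`u j - a j x • dl x =
μ j + ∑_{y ≠ x} a j y • dl y`, and both terms have no atom at `x`: `noAtom_of_supp` for `L j` and for the finite set of the `y ≠ x`
in the support, closed). Suppose `nrm (a j)` does not tend to `0`: there are `ρ > 0` and infinitely many `j` with `nrm (a j) ≥ ρ`. For a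
finite set `Q`: `∑_{x ∈ Q ∩ supp (a j)} ‖a j x‖ ≤ ∑_{x ∈ Q} ‖Φ x (u j)‖ → 0`. So choose recursively `j_0 < j_1 < …` with
`nrm (a j_k) ≥ ρ` and `∑_{x ∈ supp (a j_k) ∩ Q_k} ‖a j_k x‖ ≤ ρ / 2`, `Q_k = ⋃_{i<k} supp (a j_i)`. `B_k = supp (a j_k) \ Q_k`
are pairwise disjoint, `Ψ_k = ∑_{x ∈ B_k} c_x • Φ x` with `c_x` unimodular, `c_x a j_k x = ‖a j_k x‖`. For all `u` and finite `s`:
`∑_{k ∈ s} ‖Ψ_k u‖ ≤ ∑_{x ∈ ⋃ B_k} ‖Φ x u‖ ≤ ‖u‖` (`atom_sum`). `schur` (`C = 1`): `Ψ_k (u j_k) → 0`; but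
`Ψ_k (u j_k) = ∑_{x ∈ B_k} ‖a j_k x‖ ≥ ρ / 2`.
-/

set_option autoImplicit false

open Filter Topology Set Metric MeasureTheory

namespace Pool.Agent.H.MP_f11573_an

variable {𝕜 : Type*} [RCLike 𝕜] {K : Type*} [TopologicalSpace K] [CompactSpace K] [T2Space K]

private theorem AtT_biUnion {α β : Type*} [DecidableEq β] {f : β → ℝ} (hf : ∀ z, 0 ≤ f z)
    (s : Finset α) (t : α → Finset β) :
    ∑ z ∈ s.biUnion t, f z ≤ ∑ i ∈ s, ∑ z ∈ t i, f z := by
  classical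
  induction s using Finset.induction_on with
  | empty => simp
  | insert i s hi ih =>
    rw [Finset.biUnion_insert, Finset.sum_insert hi]
    have h1 := Finset.sum_union_inter (s₁ := t i) (s₂ := s.biUnion t) (f := f)
    have h2 : 0 ≤ ∑ z ∈ t i ∩ s.biUnion t, f z := Finset.sum_nonneg fun z _ => hf z
    linarith

omit [T2Space K] in
private theorem AtT_ev (b : K →₀ 𝕜) : Supp (ev b) (b.support : Set K) := by
  intro f hf
  change (Finsupp.linearCombination 𝕜 (dl : K → (C(K, 𝕜) →L[𝕜] 𝕜)) b) f = 0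
  rw [Finsupp.linearCombination_apply, Finsupp.sum, ContinuousLinearMap.sum_apply]
  refine Finset.sum_eq_zero fun x hx => ?_
  change b x • f x = 0
  rw [hf x hx, smul_zero]

private theorem AtT_atom {u μ : C(K, 𝕜) →L[𝕜] 𝕜} {a : K →₀ 𝕜} {L : Set K}
    {Φ : (C(K, 𝕜) →L[𝕜] 𝕜) →L[𝕜] 𝕜} {x : K} (hΦ : NoAtom (u - Φ u • dl x) x)
    (hL : IsClosed L) (hμ : Supp μ L) (hu : u = μ + ev a) (hx : x ∉ L) : Φ u = a x := by
  classical
  refine noAtom_unique hΦ ?_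
  have h1 : u - a x • dl x = μ + ev (a.erase x) := by
    have h2 : (ev a : C(K, 𝕜) →L[𝕜] 𝕜) = ev (Finsupp.single x (a x)) + ev (a.erase x) := by
      rw [← map_add, Finsupp.single_add_erase]
    have h3 : (ev (Finsupp.single x (a x)) : C(K, 𝕜) →L[𝕜] 𝕜) = a x • dl x := by
      rw [ev, Finsupp.linearCombination_single]
    rw [hu, h2, h3]
    abel
  rw [h1]
  refine noAtom_of_supp (hL.union (a.erase x).support.finite_toSet.isClosed) ?_ ?_
  · intro f hf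
    rw [ContinuousLinearMap.add_apply, hμ f fun y hy => hf y (Or.inl hy),
      AtT_ev (a.erase x) f fun y hy => hf y (Or.inr hy), add_zero]
  · rintro (h | h)
    · exact hx h
    · simp at h

theorem nrm_tendsto {u μ : ℕ → (C(K, 𝕜) →L[𝕜] 𝕜)} {a : ℕ → (K →₀ 𝕜)} {L : ℕ → Set K}
    (hL : ∀ j, IsClosed (L j)) (hμ : ∀ j, Supp (μ j) (L j))
    (ha : ∀ j, ∀ x ∈ (a j).support, x ∉ L j) (hu : ∀ j, u j = μ j + ev (a j))
    (hw : ∀ Φ : (C(K, 𝕜) →L[𝕜] 𝕜) →L[𝕜] 𝕜, Tendsto (fun n => Φ (u n)) atTop (𝓝 0)) :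
    Tendsto (fun j => nrm (a j)) atTop (𝓝 0) := by
  classical
  choose Φ hΦ using fun q : K => atom (𝕜 := 𝕜) q
  have hat : ∀ j, ∀ x ∈ (a j).support, Φ x (u j) = a j x := fun j x hx =>
    AtT_atom (hΦ x (u j)) (hL j) (hμ j) (hu j) (ha j x hx)
  have hnn : ∀ j, 0 ≤ nrm (a j) := fun j => Finset.sum_nonneg fun _ _ => norm_nonneg _
  by_contra hcon
  obtain ⟨ρ, hρ, hfreq⟩ : ∃ ρ > 0, ∃ᶠ j in atTop, ρ ≤ nrm (a j) := by
    rw [Metric.tendsto_nhds] at hcon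
    push Not at hcon
    obtain ⟨ρ, hρ, h⟩ := hcon
    refine ⟨ρ, hρ, h.mono fun n hn => ?_⟩
    rwa [dist_zero_right, Real.norm_of_nonneg (hnn n)] at hn
  -- the subsequence
  obtain ⟨n, hn1, hn2⟩ := exists_seq_of_forall_finset_exists (fun x : ℕ => ρ ≤ nrm (a x))
    (fun x y : ℕ => x < y ∧
      ∑ z ∈ (a x).support, ‖Φ z (u y)‖ ≤ ρ / 2 * (1 / 2) ^ (x + 1)) (by
    intro s _
    have h1 : ∀ x ∈ s, ∀ᶠ y in atTop, x < y ∧
        ∑ z ∈ (a x).support, ‖Φ z (u y)‖ ≤ ρ / 2 * (1 / 2) ^ (x + 1) := by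
      intro x _
      have h2 : ∀ᶠ y in atTop, ∑ z ∈ (a x).support, ‖Φ z (u y)‖ ≤ ρ / 2 * (1 / 2) ^ (x + 1) := by
        have h3 : Tendsto (fun y => ∑ z ∈ (a x).support, ‖Φ z (u y)‖) atTop
            (𝓝 (∑ z ∈ (a x).support, (0 : ℝ))) := by
          refine tendsto_finsetSum _ fun z _ => ?_
          have h5 := (hw (Φ z)).norm
          rwa [norm_zero] at h5
        rw [Finset.sum_const_zero] at h3
        have h4 : 0 < ρ / 2 * (1 / 2 : ℝ) ^ (x + 1) := by positivity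
        exact (h3.eventually (gt_mem_nhds h4)).mono fun y hy => le_of_lt hy
      filter_upwards [eventually_gt_atTop x, h2] with y hy1 hy2
      exact ⟨hy1, hy2⟩
    have h5 := (Filter.eventually_all_finset s).2 h1
    obtain ⟨y, hy1, hy2⟩ := (hfreq.and_eventually h5).exists
    exact ⟨y, hy1, hy2⟩)
  have hmono : StrictMono n := strictMono_nat_of_lt_succ fun k =>
    (hn2 k (k + 1) (Nat.lt_succ_self k)).1
  have hinj := hmono.injective
  let B : ℕ → Finset K := fun k => (a (n k)).support.filter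
    fun z => ¬ ∃ i, i < k ∧ z ∈ (a (n i)).support
  have hB1 : ∀ k, ∀ z ∈ B k, z ∈ (a (n k)).support := fun k z hz => (Finset.mem_filter.1 hz).1
  have hB2 : ∀ i k, i < k → Disjoint (B i) (B k) := by
    intro i k hik
    rw [Finset.disjoint_left]
    intro z h1 h2
    exact (Finset.mem_filter.1 h2).2 ⟨i, hik, hB1 i z h1⟩
  have hB3 : ∀ i k, i ≠ k → Disjoint (B i) (B k) := by
    intro i k hik
    rcases lt_or_gt_of_ne hik with h | h
    · exact hB2 i k h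
    · exact (hB2 k i h).symm
  have hB4 : ∀ k, ρ / 2 ≤ ∑ z ∈ B k, ‖a (n k) z‖ := by
    intro k
    have h1 : ∑ z ∈ (a (n k)).support.filter (fun z => ∃ i, i < k ∧ z ∈ (a (n i)).support),
        ‖a (n k) z‖ + ∑ z ∈ B k, ‖a (n k) z‖ = nrm (a (n k)) :=
      Finset.sum_filter_add_sum_filter_not _ _ _
    have h2 : ∑ z ∈ (a (n k)).support.filter (fun z => ∃ i, i < k ∧ z ∈ (a (n i)).support),
        ‖a (n k) z‖ ≤ ρ / 2 := by
      have h3 : ∑ z ∈ (a (n k)).support.filter (fun z => ∃ i, i < k ∧ z ∈ (a (n i)).support),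
          ‖a (n k) z‖ =
          ∑ z ∈ (a (n k)).support.filter (fun z => ∃ i, i < k ∧ z ∈ (a (n i)).support),
          ‖Φ z (u (n k))‖ := by
        refine Finset.sum_congr rfl fun z hz => ?_
        rw [hat (n k) z (Finset.mem_filter.1 hz).1]
      rw [h3]
      have h4 : ∑ z ∈ (a (n k)).support.filter (fun z => ∃ i, i < k ∧ z ∈ (a (n i)).support),
          ‖Φ z (u (n k))‖ ≤
          ∑ z ∈ (Finset.range k).biUnion (fun i => (a (n i)).support), ‖Φ z (u (n k))‖ := by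
        refine Finset.sum_le_sum_of_subset_of_nonneg ?_ fun z _ _ => norm_nonneg _
        intro z hz
        obtain ⟨i, hi, hz2⟩ := (Finset.mem_filter.1 hz).2
        exact Finset.mem_biUnion.2 ⟨i, Finset.mem_range.2 hi, hz2⟩
      refine h4.trans ((AtT_biUnion (fun z => norm_nonneg _) _ _).trans ?_)
      have h5 : ∑ i ∈ Finset.range k, ∑ z ∈ (a (n i)).support, ‖Φ z (u (n k))‖ ≤
          ∑ i ∈ Finset.range k, ρ / 2 * (1 / 2) ^ (n i + 1) :=
        Finset.sum_le_sum fun i hi => (hn2 i k (Finset.mem_range.1 hi)).2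
      refine h5.trans ?_
      rw [← Finset.mul_sum]
      have h6 : ∑ i ∈ Finset.range k, (1 / 2 : ℝ) ^ (n i + 1) ≤ 1 := by
        have h7 : ∑ j ∈ Finset.range k, (1 / 2 : ℝ) ^ (n j + 1) =
            ∑ i ∈ (Finset.range k).image n, (1 / 2 : ℝ) ^ (i + 1) := by
          rw [Finset.sum_image fun a _ b _ hab => hinj hab]
        rw [h7]
        have h8 : HasSum (fun i : ℕ => (1 / 2 : ℝ) ^ (i + 1)) 1 := by
          have h9 := hasSum_geometric_two.mul_left (1 / 2 : ℝ)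
          simp only [← pow_succ'] at h9
          rwa [show (1 / 2 : ℝ) * 2 = 1 by norm_num] at h9
        exact sum_le_hasSum _ (fun i _ => by positivity) h8
      calc ρ / 2 * ∑ i ∈ Finset.range k, (1 / 2 : ℝ) ^ (n i + 1) ≤ ρ / 2 * 1 :=
            mul_le_mul_of_nonneg_left h6 (by positivity)
        _ = ρ / 2 := mul_one _
    have h10 := hn1 k
    linarith
  choose c hc1 hc2 using fun (k : ℕ) (z : K) => RCLike.exists_norm_eq_mul_self (a (n k) z)
  let Ψ : ℕ → ((C(K, 𝕜) →L[𝕜] 𝕜) →L[𝕜] 𝕜) := fun k => ∑ z ∈ B k, c k z • Φ z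
  have hΨ : ∀ k w, Ψ k w = ∑ z ∈ B k, c k z * Φ z w := by
    intro k w
    change (∑ z ∈ B k, c k z • Φ z) w = _
    rw [ContinuousLinearMap.sum_apply]
    rfl
  have hΨ1 : ∀ k w, ‖Ψ k w‖ ≤ ∑ z ∈ B k, ‖Φ z w‖ := by
    intro k w
    rw [hΨ]
    refine (norm_sum_le _ _).trans (Finset.sum_le_sum fun z _ => ?_)
    rw [norm_mul, hc1, one_mul]
  have hΨ2 : ∀ (w : C(K, 𝕜) →L[𝕜] 𝕜) (s : Finset ℕ), ∑ k ∈ s, ‖Ψ k w‖ ≤ 1 * ‖w‖ := by
    intro w s
    refine (Finset.sum_le_sum fun k _ => hΨ1 k w).trans ?_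
    rw [← Finset.sum_biUnion (fun i _ k _ hik => hB3 i k hik), one_mul]
    exact atom_sum hΦ _ w
  have h1 := schur hΨ2 (u := fun k => u (n k)) fun Ψ' => (hw Ψ').comp hmono.tendsto_atTop
  have h2 : ∀ k, ρ / 2 ≤ ‖Ψ k (u (n k))‖ := by
    intro k
    have h3 : Ψ k (u (n k)) = ((∑ z ∈ B k, ‖a (n k) z‖ : ℝ) : 𝕜) := by
      rw [hΨ, RCLike.ofReal_sum]
      refine Finset.sum_congr rfl fun z hz => ?_
      rw [hat (n k) z (hB1 k z hz), hc2]
    rw [h3, RCLike.norm_ofReal]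
    exact (hB4 k).trans (le_abs_self _)
  have h4 := h1.norm
  rw [norm_zero] at h4
  have h5 : ρ / 2 ≤ 0 := ge_of_tendsto h4 (Eventually.of_forall h2)
  linarith

end Pool.Agent.H.MP_f11573_an
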