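import Pool.Agent.H.MP_f11573_an.Wk
import Pool.Agent.H.MP_f11573_an.Nrm

/-!
# Dis: no disjoint sequence has convergent images

PROOF: suppose `ev (b n) ∘ T → z` in norm. Put `u n = ev (b n) - ev (b (n + 1)) = ev (b n - b (n + 1))`; `‖u n‖ ≤ 2` and
`‖u n ∘ T‖ → 0`. Let `s t = (-1)^n conj (b n t) / ‖b n t‖` if `t` is in the support of `b n` (at most one `n`), `0`
otherwise. `Φ` from `sign_fun`: `Φ (ev (b n)) = (-1)^n nrm (b n) = (-1)^n`, so `‖Φ (u n)‖ = 2` for all `n`, which contradicts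
`wk_null`.
-/

set_option autoImplicit false

open Filter Topology Set Metric MeasureTheory

namespace Pool.Agent.H.MP_f11573_an

variable {𝕜 : Type*} [RCLike 𝕜] {K : Type*} [TopologicalSpace K] [CompactSpace K] [T2Space K]

theorem no_conv (hK : Groth 𝕜 C(K, 𝕜)) {T : C(K, 𝕜) →L[𝕜] C(K, 𝕜)} (hT : DenseRange T)
    {b : ℕ → (K →₀ 𝕜)} (hb : ∀ n, nrm (b n) = 1)
    (hd : ∀ n m, n ≠ m → Disjoint (b n).support (b m).support)
    {z : C(K, 𝕜) →L[𝕜] 𝕜}
    (hz : Tendsto (fun n => ‖(ev (b n) : C(K, 𝕜) →L[𝕜] 𝕜).comp T - z‖) atTop (𝓝 0)) :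
    False := by
  have hex : ∀ t : K, ∃ c : 𝕜, ‖c‖ ≤ 1 ∧
      ∀ n, t ∈ (b n).support → b n t * c = (-1) ^ n * ((‖b n t‖ : ℝ) : 𝕜) := by
    intro t
    by_cases h : ∃ n, t ∈ (b n).support
    · obtain ⟨m, hm⟩ := h
      refine ⟨(-1) ^ m * ((starRingEnd 𝕜) (b m t) / ((‖b m t‖ : ℝ) : 𝕜)), ?_, fun n hn => ?_⟩
      · rw [norm_mul, norm_pow, norm_neg, norm_one, one_pow, one_mul, norm_div, RCLike.norm_conj,
          RCLike.norm_ofReal, abs_norm]
        exact div_self_le_one _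
      · have hnm : n = m := by
          by_contra hne
          exact Finset.disjoint_left.1 (hd n m hne) hn hm
        rw [hnm]
        have h0 : ((‖b m t‖ : ℝ) : 𝕜) ≠ 0 := by
          rw [Ne, RCLike.ofReal_eq_zero, norm_eq_zero]
          exact Finsupp.mem_support_iff.1 hm
        have h1 : b m t * (starRingEnd 𝕜) (b m t) = ((‖b m t‖ : ℝ) : 𝕜) ^ 2 :=
          RCLike.mul_conj _
        calc b m t * ((-1) ^ m * ((starRingEnd 𝕜) (b m t) / ((‖b m t‖ : ℝ) : 𝕜)))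
            = (-1) ^ m * (b m t * (starRingEnd 𝕜) (b m t) / ((‖b m t‖ : ℝ) : 𝕜)) := by ring
          _ = (-1) ^ m * ((‖b m t‖ : ℝ) : 𝕜) := by
              rw [h1, pow_two, mul_div_assoc, div_self h0, mul_one]
    · refine ⟨0, ?_, fun n hn => (h ⟨n, hn⟩).elim⟩
      rw [norm_zero]
      exact zero_le_one
  choose s hs1 hs2 using hex
  obtain ⟨Φ, hΦ⟩ := sign_fun s hs1
  have h1 : ∀ n, Φ (ev (b n)) = (-1) ^ n := by
    intro n
    have h2 : ∑ t ∈ (b n).support, ((‖b n t‖ : ℝ) : 𝕜) = ((nrm (b n) : ℝ) : 𝕜) := by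
      unfold nrm
      rw [RCLike.ofReal_sum]
    rw [hΦ, Finset.sum_congr rfl fun t ht => hs2 t n ht, ← Finset.mul_sum, h2, hb,
      RCLike.ofReal_one, mul_one]
  obtain ⟨u, hu⟩ : ∃ u : ℕ → (C(K, 𝕜) →L[𝕜] 𝕜), ∀ n, u n = ev (b n) - ev (b (n + 1)) :=
    ⟨_, fun _ => rfl⟩
  have hu1 : ∀ n, ‖u n‖ ≤ 2 := by
    intro n
    rw [hu]
    refine (norm_sub_le _ _).trans ?_
    rw [norm_ev, norm_ev, hb, hb]
    norm_num
  have hu2 : Tendsto (fun n => ‖(u n).comp T‖) atTop (𝓝 0) := by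
    have h2 := hz.add (hz.comp (tendsto_add_atTop_nat 1))
    rw [add_zero] at h2
    refine squeeze_zero (fun n => norm_nonneg _) (fun n => ?_) h2
    have h3 : (u n).comp T = ((ev (b n) : C(K, 𝕜) →L[𝕜] 𝕜).comp T - z) -
        ((ev (b (n + 1)) : C(K, 𝕜) →L[𝕜] 𝕜).comp T - z) := by
      rw [sub_sub_sub_cancel_right, hu]
      exact ContinuousLinearMap.sub_comp _ _ _
    rw [h3]
    exact norm_sub_le _ _
  have h4 := (wk_null hK hT hu1 hu2 Φ).norm
  rw [norm_zero] at h4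
  have h5 : ∀ n, ‖Φ (u n)‖ = 2 := by
    intro n
    have h6 : Φ (u n) = (-1) ^ n * 2 := by
      rw [hu, map_sub, h1, h1, pow_succ]
      ring
    rw [h6, norm_mul, norm_pow, norm_neg, norm_one, one_pow, one_mul, RCLike.norm_two]
  have h7 : Tendsto (fun n : ℕ => ‖Φ (u n)‖) atTop (𝓝 2) := by
    simp only [h5]
    exact tendsto_const_nhds
  exact two_ne_zero (tendsto_nhds_unique h7 h4)

end Pool.Agent.H.MP_f11573_an
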