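import Pool.Agent.H.MP_f11573_an.OffA
import Pool.Agent.H.MP_f11573_an.Dis

/-!
# AtU: the lower bound on all finitely supported measures

PROOF: (1) off a finite set `Q` with a constant `c₀ > 0`: this is `Mn2_off` in Mn2 (`disj_seq`, `no_conv` with `z = 0`; copy it). (2) Suppose
the conclusion fails: for every `n` there is `a n` with `‖ev (a n) ∘ T‖ < 1 / (n + 1) * nrm (a n)`; normalise, `nrm (a n) = 1`. Split
`a n = p n + r n`, `p n` supported in `Q`, `r n` off `Q` (`Finsupp.filter`). The values `p n q`, `q ∈ Q`, are bounded, so for a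
subsequence `p n q → p q` for all `q ∈ Q`, so `ev (p n)` converges in norm (finite sum of `p n q • dl q`). So
`ev (r n) ∘ T = ev (a n) ∘ T - ev (p n) ∘ T` is a Cauchy sequence, and
`c₀ ‖ev (r n) - ev (r m)‖ = c₀ nrm (r n - r m) ≤ ‖ev (r n - r m) ∘ T‖` (support off `Q`, `norm_ev`), so `ev (r n)` is a Cauchy
sequence, it converges. So `ev (a n) → μ` in norm, `‖μ‖ = 1` (`norm_ev`), `μ ∘ T = 0`, so `μ = 0` (dense range): a contradiction.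
-/

set_option autoImplicit false

open Filter Topology Set Metric MeasureTheory

namespace Pool.Agent.H.MP_f11573_an

variable {𝕜 : Type*} [RCLike 𝕜] {K : Type*} [TopologicalSpace K] [CompactSpace K] [T2Space K]

/-- the lower bound off a finite set -/
private theorem AtU_off (hK : Groth 𝕜 C(K, 𝕜)) {T : C(K, 𝕜) →L[𝕜] C(K, 𝕜)}
    (hT : DenseRange T) :
    ∃ (Q : Finset K) (c : ℝ), 0 < c ∧ ∀ a : K →₀ 𝕜, Disjoint a.support Q →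
      c * nrm a ≤ ‖(ev a : C(K, 𝕜) →L[𝕜] 𝕜).comp T‖ := by
  by_contra hcon
  push Not at hcon
  obtain ⟨a, ha, hd, hA⟩ := disj_seq (A := T) hcon
  refine no_conv hK hT ha hd (z := 0) ?_
  have h0 : Tendsto (fun n : ℕ => 1 / ((n : ℝ) + 1)) atTop (𝓝 0) :=
    tendsto_one_div_add_atTop_nhds_zero_nat
  refine squeeze_zero (fun n => norm_nonneg _) (fun n => ?_) h0
  rw [sub_zero]
  exact hA n

/-- the coordinates are continuous -/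
private theorem AtU_coord (q : K) : ∃ Φ : (C(K, 𝕜) →L[𝕜] 𝕜) →L[𝕜] 𝕜, ∀ a : K →₀ 𝕜,
    Φ (ev a) = a q := by
  classical
  obtain ⟨Φ, hΦ⟩ := sign_fun (𝕜 := 𝕜) (fun t : K => if t = q then (1 : 𝕜) else 0) (fun t => by
    by_cases h : t = q
    · rw [if_pos h, norm_one]
    · rw [if_neg h, norm_zero]
      exact zero_le_one)
  refine ⟨Φ, fun a => ?_⟩
  rw [hΦ]
  by_cases h : q ∈ a.support
  · rw [Finset.sum_eq_single_of_mem q h fun t _ ht => by rw [if_neg ht, mul_zero], if_pos rfl,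
      mul_one]
  · rw [Finset.sum_eq_zero, Finsupp.notMem_support_iff.1 h]
    intro t ht
    rw [if_neg fun h1 : t = q => h (h1 ▸ ht), mul_zero]

private theorem AtU_ineq {T : C(K, 𝕜) →L[𝕜] C(K, 𝕜)} {Q : Finset K} {c : ℝ} (hc : 0 < c)
    (hQ : ∀ a : K →₀ 𝕜, Disjoint a.support Q →
      c * nrm a ≤ ‖(ev a : C(K, 𝕜) →L[𝕜] 𝕜).comp T‖) (a : K →₀ 𝕜) :
    c * (nrm a - ∑ q ∈ Q, ‖a q‖) ≤
      ‖(ev a : C(K, 𝕜) →L[𝕜] 𝕜).comp T‖ + (∑ q ∈ Q, ‖a q‖) * ‖T‖ := by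
  classical
  have h1 : a.filter (fun t => t ∈ Q) + a.filter (fun t => ¬ t ∈ Q) = a :=
    Finsupp.filter_add_filter_not _ _
  have h2 : nrm (a.filter (fun t => t ∈ Q)) ≤ ∑ q ∈ Q, ‖a q‖ := by
    unfold nrm
    have h3 : (a.filter (fun t => t ∈ Q)).support ⊆ Q := by
      intro t ht
      rw [Finsupp.support_filter, Finset.mem_filter] at ht
      exact ht.2
    refine (Finset.sum_le_sum_of_subset_of_nonneg h3 fun t _ _ => norm_nonneg _).trans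
      (Finset.sum_le_sum fun t ht => ?_)
    rw [Finsupp.filter_apply_pos _ _ ht]
  have h3 : Disjoint (a.filter (fun t => ¬ t ∈ Q)).support Q := by
    rw [Finset.disjoint_left]
    intro t ht
    rw [Finsupp.support_filter, Finset.mem_filter] at ht
    exact ht.2
  have h4 := hQ _ h3
  have h5 : nrm a ≤ nrm (a.filter (fun t => t ∈ Q)) + nrm (a.filter (fun t => ¬ t ∈ Q)) := by
    rw [← norm_ev a, ← norm_ev (a.filter (fun t => t ∈ Q)),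
      ← norm_ev (a.filter (fun t => ¬ t ∈ Q))]
    conv_lhs => rw [← h1]
    rw [map_add]
    exact norm_add_le _ _
  have h6 : (ev (a.filter (fun t => ¬ t ∈ Q)) : C(K, 𝕜) →L[𝕜] 𝕜).comp T =
      (ev a : C(K, 𝕜) →L[𝕜] 𝕜).comp T - (ev (a.filter (fun t => t ∈ Q))).comp T := by
    rw [← ContinuousLinearMap.sub_comp, ← map_sub]
    congr 2
    rw [eq_sub_iff_add_eq, add_comm]
    exact h1
  have h7 : ‖(ev (a.filter (fun t => t ∈ Q)) : C(K, 𝕜) →L[𝕜] 𝕜).comp T‖ ≤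
      (∑ q ∈ Q, ‖a q‖) * ‖T‖ := by
    refine (ContinuousLinearMap.opNorm_comp_le _ _).trans ?_
    rw [norm_ev]
    exact mul_le_mul_of_nonneg_right h2 (norm_nonneg _)
  have h8 : ‖(ev (a.filter (fun t => ¬ t ∈ Q)) : C(K, 𝕜) →L[𝕜] 𝕜).comp T‖ ≤
      ‖(ev a : C(K, 𝕜) →L[𝕜] 𝕜).comp T‖ + (∑ q ∈ Q, ‖a q‖) * ‖T‖ := by
    rw [h6]
    exact (norm_sub_le _ _).trans (add_le_add_right h7 _)
  refine le_trans ?_ (h4.trans h8)
  exact mul_le_mul_of_nonneg_left (by linarith) hc.le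

private theorem AtU_norm (T : C(K, 𝕜) →L[𝕜] C(K, 𝕜)) {n : ℕ} {a : K →₀ 𝕜}
    (h : ‖(ev a : C(K, 𝕜) →L[𝕜] 𝕜).comp T‖ < 1 / ((n : ℝ) + 1) * nrm a) :
    ∃ b : K →₀ 𝕜, nrm b = 1 ∧ ‖(ev b : C(K, 𝕜) →L[𝕜] 𝕜).comp T‖ ≤ 1 / ((n : ℝ) + 1) := by
  have hn : (0 : ℝ) < 1 / ((n : ℝ) + 1) := by positivity
  have hpos : 0 < nrm a := by
    by_contra hc
    have h0 : 1 / ((n : ℝ) + 1) * nrm a ≤ 0 :=
      mul_nonpos_of_nonneg_of_nonpos hn.le (not_lt.1 hc)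
    exact absurd (norm_nonneg ((ev a : C(K, 𝕜) →L[𝕜] 𝕜).comp T)) (not_le.2 (h.trans_le h0))
  have hc : ‖(((nrm a)⁻¹ : ℝ) : 𝕜)‖ = (nrm a)⁻¹ := by
    rw [RCLike.norm_ofReal, abs_of_nonneg (inv_nonneg.2 hpos.le)]
  refine ⟨(((nrm a)⁻¹ : ℝ) : 𝕜) • a, ?_, ?_⟩
  · rw [← norm_ev, map_smul, norm_smul, norm_ev, hc, inv_mul_cancel₀ hpos.ne']
  · rw [map_smul, ContinuousLinearMap.smul_comp, norm_smul, hc]
    calc (nrm a)⁻¹ * ‖(ev a : C(K, 𝕜) →L[𝕜] 𝕜).comp T‖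
        ≤ (nrm a)⁻¹ * (1 / ((n : ℝ) + 1) * nrm a) :=
          mul_le_mul_of_nonneg_left h.le (inv_nonneg.2 hpos.le)
      _ = 1 / ((n : ℝ) + 1) := by
          field_simp

theorem low_atomic (hK : Groth 𝕜 C(K, 𝕜)) {T : C(K, 𝕜) →L[𝕜] C(K, 𝕜)} (hT : DenseRange T) :
    ∃ c : ℝ, 0 < c ∧ ∀ a : K →₀ 𝕜, c * nrm a ≤ ‖(ev a : C(K, 𝕜) →L[𝕜] 𝕜).comp T‖ := by
  obtain ⟨Q, c, hc, hQ⟩ := AtU_off hK hT
  by_contra hcon
  push Not at hcon
  have h1 : ∀ n : ℕ, ∃ b : K →₀ 𝕜, nrm b = 1 ∧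
      ‖(ev b : C(K, 𝕜) →L[𝕜] 𝕜).comp T‖ ≤ 1 / ((n : ℝ) + 1) := fun n => by
    obtain ⟨a, ha⟩ := hcon (1 / ((n : ℝ) + 1)) (by positivity)
    exact AtU_norm T ha
  choose b hb1 hb2 using h1
  have h0 : Tendsto (fun n : ℕ => 1 / ((n : ℝ) + 1)) atTop (𝓝 0) :=
    tendsto_one_div_add_atTop_nhds_zero_nat
  have hT0 : Tendsto (fun n => ‖(ev (b n) : C(K, 𝕜) →L[𝕜] 𝕜).comp T‖) atTop (𝓝 0) :=
    squeeze_zero (fun n => norm_nonneg _) hb2 h0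
  have hq : ∀ q : K, Tendsto (fun n => ‖b n q‖) atTop (𝓝 0) := by
    intro q
    obtain ⟨Φ, hΦ⟩ := AtU_coord (𝕜 := 𝕜) q
    have h2 := wk_null hK hT (u := fun n => ev (b n)) (C := 1)
      (fun n => by rw [norm_ev, hb1]) hT0 Φ
    simp only [hΦ] at h2
    simpa using h2.norm
  have hS : Tendsto (fun n => ∑ q ∈ Q, ‖b n q‖) atTop (𝓝 0) := by
    have h2 : Tendsto (fun n => ∑ q ∈ Q, ‖b n q‖) atTop (𝓝 (∑ q ∈ Q, (0 : ℝ))) :=
      tendsto_finsetSum _ fun q _ => hq q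
    simpa using h2
  have h3 : ∀ n, c * (1 - ∑ q ∈ Q, ‖b n q‖) ≤
      ‖(ev (b n) : C(K, 𝕜) →L[𝕜] 𝕜).comp T‖ + (∑ q ∈ Q, ‖b n q‖) * ‖T‖ := by
    intro n
    have h4 := AtU_ineq hc hQ (b n)
    rwa [hb1] at h4
  have h4 : Tendsto (fun n => c * (1 - ∑ q ∈ Q, ‖b n q‖)) atTop (𝓝 (c * (1 - 0))) :=
    (tendsto_const_nhds.sub hS).const_mul c
  have h5 : Tendsto (fun n => ‖(ev (b n) : C(K, 𝕜) →L[𝕜] 𝕜).comp T‖ +
      (∑ q ∈ Q, ‖b n q‖) * ‖T‖) atTop (𝓝 (0 + 0 * ‖T‖)) :=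
    hT0.add (hS.mul_const ‖T‖)
  have h6 := le_of_tendsto_of_tendsto' h4 h5 h3
  rw [sub_zero, mul_one, zero_mul, add_zero] at h6
  exact absurd hc (not_lt.2 h6)

end Pool.Agent.H.MP_f11573_an
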