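import Pool.Agent.H.MP_f11573_an.DefL
import Pool.Agent.H.MP_f11573_an.Nrm

/-!
# AtV: functionals which live on a finite set

PROOF: let `μ` live on the finite set `P`. Choose `e p` in `C(K, 𝕜)`, `p ∈ P`, with `e p p = 1` and `e p q = 0` for the other `q ∈ P`
(Urysohn for the closed sets `{p}` and `P \ {p}`). `a = ∑ single p (μ (e p))`. For `f` in `C(K, 𝕜)` the function
`f - ∑ f p • e p` vanishes on `P`, so `μ f = ∑ f p * μ (e p) = ev a f`. So `μ = ev a`, `‖μ‖ = nrm a` (`norm_ev`).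
-/

set_option autoImplicit false

open Filter Topology Set Metric MeasureTheory

namespace Pool.Agent.H.MP_f11573_an

variable {𝕜 : Type*} [RCLike 𝕜] {K : Type*} [TopologicalSpace K] [CompactSpace K] [T2Space K]

theorem AtV_fun {P : Set K} (hP : P.Finite) (p : K) :
    ∃ e : C(K, 𝕜), e p = 1 ∧ ∀ q ∈ P, q ≠ p → e q = 0 := by
  have hcl : IsClosed (P \ {p}) := (hP.subset Set.diff_subset).isClosed
  obtain ⟨f, hf0, hf1, -⟩ := exists_continuous_zero_one_of_isClosed hcl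
    (isClosed_singleton (x := p)) Set.disjoint_sdiff_left
  refine ⟨⟨fun x => ((f x : ℝ) : 𝕜), RCLike.continuous_ofReal.comp f.continuous⟩, ?_, ?_⟩
  · show ((f p : ℝ) : 𝕜) = 1
    rw [hf1 (Set.mem_singleton p)]
    simp
  · intro q hq hqp
    show ((f q : ℝ) : 𝕜) = 0
    rw [hf0 ⟨hq, hqp⟩]
    simp

theorem lowOn_finite {T : C(K, 𝕜) →L[𝕜] C(K, 𝕜)} {c : ℝ}
    (h : ∀ a : K →₀ 𝕜, c * nrm a ≤ ‖(ev a : C(K, 𝕜) →L[𝕜] 𝕜).comp T‖) {P : Set K}
    (hP : P.Finite) : LowOn T P c := by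
  intro μ hμ
  choose e he1 he0 using fun p => AtV_fun (𝕜 := 𝕜) hP p
  have h2 : ∀ p, (ev (Finsupp.single p (μ (e p))) : C(K, 𝕜) →L[𝕜] 𝕜) = μ (e p) • dl p := by
    intro p
    unfold ev
    rw [Finsupp.linearCombination_single]
  obtain ⟨a, ha⟩ : ∃ a : K →₀ 𝕜, μ = ev a := by
    refine ⟨∑ p ∈ hP.toFinset, Finsupp.single p (μ (e p)), ?_⟩
    ext f
    rw [map_sum]
    simp only [h2]
    have h3 : μ (f - ∑ p ∈ hP.toFinset, f p • e p) = 0 := by
      apply hμ
      intro q hq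
      rw [ContinuousMap.sub_apply, ContinuousMap.sum_apply,
        Finset.sum_eq_single_of_mem q (hP.mem_toFinset.2 hq)]
      · rw [ContinuousMap.smul_apply, he1, smul_eq_mul, mul_one, sub_self]
      · intro p _ hpq
        rw [ContinuousMap.smul_apply, he0 p q hq (Ne.symm hpq), smul_zero]
    rw [map_sub, map_sum, sub_eq_zero] at h3
    rw [h3, ContinuousLinearMap.sum_apply]
    refine Finset.sum_congr rfl fun p _ => ?_
    rw [map_smul]
    show f p • μ (e p) = μ (e p) • f p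
    rw [smul_eq_mul, smul_eq_mul, mul_comm]
  rw [ha, norm_ev]
  exact h a

end Pool.Agent.H.MP_f11573_an
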