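import Pool.Agent.H.MP_f11573_an.Ult
import Pool.Agent.H.MP_f11573_an.AtmA

/-!
# Atm: the atom of a functional at a point

PROOF: (c) Let `β = {b : C(K, ℝ) // ∀ x, b x ∈ Icc 0 1}` and `𝓕` the filter with the basis
`{b | b q = 1, b = 0 off V}`, `V` open, `q ∈ V`: `NeBot` by Urysohn; `𝒰 ≤ 𝓕` an ultrafilter,
`Φ` from `ultra 𝒰 (fun b => rs b 1)`. Let `μ` and `δ > 0` be given and `V` from `atom_b` for `δ / 4`. For `b` in a set of `𝒰`: `b q = 1`,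
`b = 0` off `V`, `‖μ (rs b 1) - Φ μ‖ ≤ δ / 4`. For `f` vanishing off `V`: `f = f q • rs b 1 + (f - f q • rs b 1)`, the last function
vanishes off `V` and at `q`, has norm `≤ 2 ‖f‖`, so `‖(μ - Φ μ • dl q) f‖ = ‖f q (μ (rs b 1) - Φ μ) + μ (f - f q • rs b 1)‖ ≤
δ / 4 ‖f‖ + δ / 2 ‖f‖`.
-/

set_option autoImplicit false

open Filter Topology Set Metric MeasureTheory

namespace Pool.Agent.H.MP_f11573_an

variable {𝕜 : Type*} [RCLike 𝕜] {K : Type*} [TopologicalSpace K] [CompactSpace K] [T2Space K]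

omit [T2Space K] in
private theorem Atm_rs_norm {b : C(K, ℝ)} (hb : ∀ x, b x ∈ Icc (0 : ℝ) 1) :
    ‖(rs b (1 : C(K, 𝕜)) : C(K, 𝕜))‖ ≤ 1 := by
  refine (ContinuousMap.norm_le _ zero_le_one).2 fun x => ?_
  change ‖((b x : ℝ) : 𝕜) * 1‖ ≤ 1
  rw [mul_one, RCLike.norm_ofReal, abs_of_nonneg (hb x).1]
  exact (hb x).2

private theorem Atm_ury (q : K) {V : Set K} (hV : V ∈ 𝓝 q) :
    ∃ b : C(K, ℝ), (∀ x, b x ∈ Icc (0 : ℝ) 1) ∧ b q = 1 ∧ ∀ x, x ∉ V → b x = 0 := by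
  have h1 : q ∈ interior V := mem_interior_iff_mem_nhds.2 hV
  have h2 : Disjoint (interior V)ᶜ {q} := by
    rw [Set.disjoint_singleton_right]
    exact fun h3 => h3 h1
  obtain ⟨b, hb0, hb1, hb⟩ := exists_continuous_zero_one_of_isClosed
    isOpen_interior.isClosed_compl isClosed_singleton h2
  exact ⟨b, hb, hb1 rfl, fun x hx => hb0 fun h3 => hx (interior_subset h3)⟩

/-- (c) -/
theorem atom (q : K) : ∃ Φ : (C(K, 𝕜) →L[𝕜] 𝕜) →L[𝕜] 𝕜,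
    ∀ μ : C(K, 𝕜) →L[𝕜] 𝕜, NoAtom (μ - Φ μ • dl q) q := by
  let g : Set K → Set {b : C(K, ℝ) // ∀ x, b x ∈ Icc (0 : ℝ) 1} :=
    fun V => {b | b.1 q = 1 ∧ ∀ x, x ∉ V → b.1 x = 0}
  have hg : Monotone g := fun V W hVW b hb => ⟨hb.1, fun x hx => hb.2 x fun h => hx (hVW h)⟩
  have hne : ((𝓝 q).lift' g).NeBot := by
    rw [Filter.lift'_neBot_iff hg]
    intro V hV
    obtain ⟨b, hb1, hb2, hb3⟩ := Atm_ury q hV
    exact ⟨⟨b, hb1⟩, hb2, hb3⟩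
  obtain ⟨Φ, hΦ⟩ := ultra (𝕜 := 𝕜) (Ultrafilter.of ((𝓝 q).lift' g))
    (fun b => (rs b.1 (1 : C(K, 𝕜)) : C(K, 𝕜))) (C := 1) (fun b => Atm_rs_norm b.2)
  refine ⟨Φ, fun μ δ hδ => ?_⟩
  have hδ4 : 0 < δ / 4 := by positivity
  obtain ⟨V, hVo, hqV, hV⟩ := atom_b q μ hδ4
  refine ⟨V, hVo, hqV, fun f hf => ?_⟩
  have h1 : ∀ᶠ b in (Ultrafilter.of ((𝓝 q).lift' g) : Filter _), b ∈ g V :=
    Ultrafilter.of_le _ (Filter.mem_lift' (hVo.mem_nhds hqV))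
  have h2 : ∀ᶠ b : {b : C(K, ℝ) // ∀ x, b x ∈ Icc (0 : ℝ) 1} in
      (Ultrafilter.of ((𝓝 q).lift' g) : Filter {b : C(K, ℝ) // ∀ x, b x ∈ Icc (0 : ℝ) 1}),
      dist (μ (rs b.1 (1 : C(K, 𝕜)))) (Φ μ) < δ / 4 :=
    Metric.tendsto_nhds.1 (hΦ μ) _ hδ4
  obtain ⟨b, hb1, hb2⟩ := (h1.and h2).exists
  rw [dist_eq_norm] at hb2
  have hfq : ‖f q‖ ≤ ‖f‖ := f.norm_coe_le_norm q
  have hG1 : ∀ x, x ∉ V → (f - f q • rs b.1 (1 : C(K, 𝕜))) x = 0 := fun x hx => by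
    change f x - f q * (((b.1 x : ℝ) : 𝕜) * 1) = 0
    rw [hf x hx, hb1.2 x hx]
    simp
  have hG2 : (f - f q • rs b.1 (1 : C(K, 𝕜))) q = 0 := by
    change f q - f q * (((b.1 q : ℝ) : 𝕜) * 1) = 0
    rw [hb1.1]
    simp
  have hG3 : ‖f - f q • rs b.1 (1 : C(K, 𝕜))‖ ≤ 2 * ‖f‖ := by
    refine (norm_sub_le _ _).trans ?_
    rw [norm_smul]
    have h3 : ‖f q‖ * ‖(rs b.1 (1 : C(K, 𝕜)) : C(K, 𝕜))‖ ≤ ‖f‖ * 1 :=
      mul_le_mul hfq (Atm_rs_norm b.2) (norm_nonneg _) (norm_nonneg _)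
    linarith
  have hG4 := hV _ hG1 hG2
  have h5 : (μ - Φ μ • (dl q : C(K, 𝕜) →L[𝕜] 𝕜)) f = f q * (μ (rs b.1 (1 : C(K, 𝕜))) - Φ μ) +
      μ (f - f q • rs b.1 (1 : C(K, 𝕜))) := by
    rw [map_sub, map_smul]
    change μ f - Φ μ * f q = _
    rw [smul_eq_mul]
    ring
  rw [h5]
  refine (norm_add_le _ _).trans ?_
  rw [norm_mul]
  have h6 : ‖f q‖ * ‖μ (rs b.1 (1 : C(K, 𝕜))) - Φ μ‖ ≤ ‖f‖ * (δ / 4) :=
    mul_le_mul hfq hb2.le (norm_nonneg _) (norm_nonneg _)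
  have h7 : δ / 4 * ‖f - f q • rs b.1 (1 : C(K, 𝕜))‖ ≤ δ / 4 * (2 * ‖f‖) :=
    mul_le_mul_of_nonneg_left hG3 hδ4.le
  have h8 : 0 ≤ δ * ‖f‖ := mul_nonneg hδ.le (norm_nonneg _)
  linarith

end Pool.Agent.H.MP_f11573_an
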