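import Pool.Agent.H.MP_f11573_an.Def

/-!
# Gan: Gantmacher

PROOF: wlog `‖Φ‖ ≤ 1` (scale). Let `W` be the weak closure of `S '' closedBall 0 1` in `WeakSpace 𝕜 X`: compact by `hS`, convex.
For a finite set `u_1, …, u_m` of functionals the set `{y ∈ W | u_i y = Φ (u_i ∘ S) for all i}` is closed in `W` and nonempty:
the image of `W` under `y ↦ (u_i y)_i` is a compact convex subset of `𝕜^m`; if the point `(Φ (u_i ∘ S))_i` is not in it, then
(`RCLike.geometric_hahn_banach_compact_closed` or `geometric_hahn_banach_closed_point`, real parts) there are `c_i` with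
`re Φ (v ∘ S) > sup_{y ∈ W} re (v y) ≥ sup_{‖x‖ ≤ 1} re (v (S x)) = ‖v ∘ S‖ ≥ ‖Φ (v ∘ S)‖`, `v = ∑ c_i u_i`. Contradiction. So by
compactness of `W` (finite intersection property, `IsCompact.inter_iInter_nonempty`) there is `y ∈ W` with `u y = Φ (u ∘ S)` for
all `u`. (The functionals are continuous on `WeakSpace`: `WeakBilin.eval_continuous` or so.)
-/

set_option autoImplicit false

open Filter Topology Set Metric MeasureTheory

namespace Pool.Agent.H.MP_f11573_an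

private theorem gan_bound {𝕜 : Type*} [RCLike 𝕜] {X : Type*} [NormedAddCommGroup X]
    [NormedSpace 𝕜 X] (g : X →L[𝕜] 𝕜) (c : ℝ) (h : ∀ x : X, ‖x‖ ≤ 1 → RCLike.re (g x) < c) :
    ‖g‖ ≤ c := by
  have hc : 0 ≤ c := by
    have := h 0 (by simp)
    simp only [map_zero] at this
    exact this.le
  have h1 : ∀ x : X, ‖x‖ ≤ 1 → ‖g x‖ ≤ c := by
    intro x hx
    obtain ⟨l, hl, hl2⟩ := RCLike.exists_norm_eq_mul_self (g x)
    have h2 := h (l • x) (by rw [norm_smul, hl, one_mul]; exact hx)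
    rw [map_smul, smul_eq_mul, ← hl2, RCLike.ofReal_re] at h2
    exact h2.le
  refine ContinuousLinearMap.opNorm_le_bound g hc fun x => ?_
  rcases eq_or_ne x 0 with rfl | hx
  · simp
  have hn : 0 < ‖x‖ := norm_pos_iff.2 hx
  have h3 := h1 (((‖x‖⁻¹ : ℝ) : 𝕜) • x) (by
    rw [norm_smul, RCLike.norm_ofReal, abs_of_pos (inv_pos.2 hn), inv_mul_cancel₀ hn.ne'])
  rw [map_smul, norm_smul, RCLike.norm_ofReal, abs_of_pos (inv_pos.2 hn)] at h3
  have h4 : ‖g x‖ = ‖x‖ * (‖x‖⁻¹ * ‖g x‖) := by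
    rw [← mul_assoc, mul_inv_cancel₀ hn.ne', one_mul]
  rw [h4, mul_comm]
  exact mul_le_mul_of_nonneg_right h3 hn.le

private theorem gan_fin {𝕜 : Type*} [RCLike 𝕜] {X : Type*} [NormedAddCommGroup X]
    [NormedSpace 𝕜 X] (S : X →L[𝕜] X) (Ψ : (X →L[𝕜] 𝕜) →L[𝕜] 𝕜) (hΨ : ‖Ψ‖ ≤ 1)
    (U : Finset (X →L[𝕜] 𝕜)) :
    (fun u : U => Ψ ((u : X →L[𝕜] 𝕜).comp S)) ∈
      closure ((fun (x : X) (u : U) => (u : X →L[𝕜] 𝕜) (S x)) '' closedBall (0 : X) 1) := by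
  classical
  by_contra hcon
  have hconv : Convex ℝ
      ((fun (x : X) (u : U) => (u : X →L[𝕜] 𝕜) (S x)) '' closedBall (0 : X) 1) := by
    rintro _ ⟨x, hx, rfl⟩ _ ⟨y, hy, rfl⟩ a b ha hb hab
    rw [mem_closedBall_zero_iff] at hx hy
    refine ⟨(a : 𝕜) • x + (b : 𝕜) • y, ?_, ?_⟩
    · rw [mem_closedBall_zero_iff]
      calc ‖(a : 𝕜) • x + (b : 𝕜) • y‖ ≤ ‖(a : 𝕜) • x‖ + ‖(b : 𝕜) • y‖ := norm_add_le _ _
        _ = a * ‖x‖ + b * ‖y‖ := by
            rw [norm_smul, norm_smul, RCLike.norm_ofReal, RCLike.norm_ofReal, abs_of_nonneg ha,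
              abs_of_nonneg hb]
        _ ≤ a * 1 + b * 1 := add_le_add (mul_le_mul_of_nonneg_left hx ha)
            (mul_le_mul_of_nonneg_left hy hb)
        _ = 1 := by linarith
    · funext u
      simp only [map_add, map_smul, Pi.add_apply, Pi.smul_apply, smul_eq_mul, RCLike.real_smul_eq_coe_mul]
  obtain ⟨f, c, hf1, hf2⟩ := RCLike.geometric_hahn_banach_closed_point (𝕜 := 𝕜)
    hconv.closure isClosed_closure hcon
  obtain ⟨v, hv⟩ : ∃ v : X →L[𝕜] 𝕜, v = ∑ u : U,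
      f (fun w => if u = w then 1 else 0) • (u : X →L[𝕜] 𝕜) := ⟨_, rfl⟩
  have hfz : ∀ z : U → 𝕜, f z = ∑ u : U, f (fun w => if u = w then 1 else 0) * z u := by
    intro z
    conv_lhs => rw [pi_eq_sum_univ z, map_sum]
    refine Finset.sum_congr rfl fun u _ => ?_
    rw [map_smul, smul_eq_mul, mul_comm]
  have h1 : ∀ x : X, f (fun u : U => (u : X →L[𝕜] 𝕜) (S x)) = (v.comp S) x := by
    intro x
    rw [hfz, hv, ContinuousLinearMap.comp_apply, sum_apply]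
    rfl
  have h2 : f (fun u : U => Ψ ((u : X →L[𝕜] 𝕜).comp S)) = Ψ (v.comp S) := by
    have e : v.comp S = ∑ u : U, f (fun w => if u = w then 1 else 0) •
        ((u : X →L[𝕜] 𝕜).comp S) := by
      ext x
      rw [hv, ContinuousLinearMap.comp_apply, sum_apply,
        sum_apply]
      rfl
    rw [hfz, e, map_sum]
    refine Finset.sum_congr rfl fun u _ => ?_
    rw [map_smul, smul_eq_mul]
  have h3 : ‖v.comp S‖ ≤ c := by
    refine gan_bound _ _ fun x hx => ?_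
    rw [← h1]
    exact hf1 _ (subset_closure ⟨x, by rw [mem_closedBall_zero_iff]; exact hx, rfl⟩)
  rw [h2] at hf2
  have h4 : RCLike.re (Ψ (v.comp S)) ≤ c :=
    calc RCLike.re (Ψ (v.comp S)) ≤ ‖Ψ (v.comp S)‖ := RCLike.re_le_norm _
      _ ≤ ‖Ψ‖ * ‖v.comp S‖ := Ψ.le_opNorm _
      _ ≤ 1 * ‖v.comp S‖ := mul_le_mul_of_nonneg_right hΨ (norm_nonneg _)
      _ ≤ c := by rw [one_mul]; exact h3
  linarith

private theorem gan_one {𝕜 : Type*} [RCLike 𝕜] {X : Type*} [NormedAddCommGroup X]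
    [NormedSpace 𝕜 X] {S : X →L[𝕜] X} (hS : WComp S) (Ψ : (X →L[𝕜] 𝕜) →L[𝕜] 𝕜) (hΨ : ‖Ψ‖ ≤ 1) :
    ∃ x : X, ∀ u : X →L[𝕜] 𝕜, Ψ (u.comp S) = u x := by
  classical
  obtain ⟨W, hW⟩ : ∃ W : Set (WeakSpace 𝕜 X),
      W = closure (toWeakSpace 𝕜 X '' (S '' closedBall (0 : X) 1)) := ⟨_, rfl⟩
  have hWc : IsCompact W := hW ▸ hS
  have hev : ∀ u : X →L[𝕜] 𝕜, Continuous fun y : WeakSpace 𝕜 X => u ((toWeakSpace 𝕜 X).symm y) :=
    fun u => WeakBilin.eval_continuous _ u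
  have hne : (W ∩ ⋂ u : X →L[𝕜] 𝕜, {y : WeakSpace 𝕜 X |
      u ((toWeakSpace 𝕜 X).symm y) = Ψ (u.comp S)}).Nonempty := by
    refine hWc.inter_iInter_nonempty _ (fun u => isClosed_eq (hev u) continuous_const) fun U => ?_
    obtain ⟨L, hL⟩ : ∃ L : WeakSpace 𝕜 X → (U → 𝕜),
        L = fun (y : WeakSpace 𝕜 X) (u : U) => (u : X →L[𝕜] 𝕜) ((toWeakSpace 𝕜 X).symm y) :=
      ⟨_, rfl⟩
    have hLc : Continuous L := by
      rw [hL]
      exact continuous_pi fun u => hev u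
    have hsub : closure ((fun (x : X) (u : U) => (u : X →L[𝕜] 𝕜) (S x)) '' closedBall (0 : X) 1) ⊆
        L '' W := by
      refine closure_minimal ?_ (hWc.image hLc).isClosed
      rintro _ ⟨x, hx, rfl⟩
      refine ⟨toWeakSpace 𝕜 X (S x), ?_, ?_⟩
      · rw [hW]
        exact subset_closure ⟨S x, ⟨x, hx, rfl⟩, rfl⟩
      · rw [hL]
        funext u
        simp only [LinearEquiv.symm_apply_apply]
    obtain ⟨y, hy, hy2⟩ := hsub (gan_fin S Ψ hΨ U)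
    refine ⟨y, hy, ?_⟩
    rw [mem_iInter₂]
    intro u hu
    have := congrFun hy2 ⟨u, hu⟩
    rw [hL] at this
    exact this
  obtain ⟨y, -, hy⟩ := hne
  rw [mem_iInter] at hy
  exact ⟨(toWeakSpace 𝕜 X).symm y, fun u => (hy u).symm⟩

theorem gant {𝕜 : Type*} [RCLike 𝕜] {X : Type*} [NormedAddCommGroup X] [NormedSpace 𝕜 X]
    {S : X →L[𝕜] X} (hS : WComp S) (Φ : (X →L[𝕜] 𝕜) →L[𝕜] 𝕜) :
    ∃ x : X, ∀ u : X →L[𝕜] 𝕜, Φ (u.comp S) = u x := by
  obtain ⟨M, hM⟩ : ∃ M : ℝ, M = ‖Φ‖ + 1 := ⟨_, rfl⟩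
  have hM0 : 0 < M := by rw [hM]; positivity
  have hM1 : (M : 𝕜) ≠ 0 := by
    rw [Ne, RCLike.ofReal_eq_zero]
    exact hM0.ne'
  obtain ⟨x, hx⟩ := gan_one hS (((M⁻¹ : ℝ) : 𝕜) • Φ) (by
    refine ContinuousLinearMap.opNorm_le_bound _ zero_le_one fun u => ?_
    rw [smul_apply, norm_smul, RCLike.norm_ofReal, abs_of_pos (inv_pos.2 hM0),
      inv_mul_le_iff₀ hM0, one_mul]
    refine (Φ.le_opNorm u).trans (mul_le_mul_of_nonneg_right ?_ (norm_nonneg u))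
    rw [hM]
    linarith)
  refine ⟨(M : 𝕜) • x, fun u => ?_⟩
  rw [map_smul, ← hx u, smul_apply, smul_eq_mul, smul_eq_mul, ← mul_assoc,
    RCLike.ofReal_inv, mul_inv_cancel₀ hM1, one_mul]

end Pool.Agent.H.MP_f11573_an
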