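import Pool.Agent.H.MP_f11573_an.Ult
import Pool.Agent.H.MP_f11573_an.Gan

/-!
# Blk: Mazur blocks

PROOF: `𝒰 = Filter.hyperfilter ℕ`, `v` the weak-star limit of `u n` along `𝒰` (`ultra'`), `z = v ∘ S`. For `Φ` in the bidual
`Φ (u n ∘ S) = u n x → v x = Φ z` along `𝒰`, where `x` is from `gant`. Let `M` be the convex hull (over `ℝ`) of
`{u n ∘ S | N ≤ n}`. If `z` is not in the closure of `M`, then there are (`RCLike.geometric_hahn_banach_closed_point` or
`geometric_hahn_banach_closed_point`) a continuous `𝕜`-linear `Φ` and a real `α` with `re Φ m < α < re Φ z` for `m ∈ M`, which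
contradicts `re Φ (u n ∘ S) → re Φ z` along `𝒰` (every `n ≥ N` belongs to a set of `𝒰`). So some element of `M` is at
distance `≤ ε` from `z`; write it as a finite convex combination (`mem_convexHull_iff_exists_fintype` or
`Finset.centerMass`; merging indices with the same `n`: the set
`{∑_{i∈s} w_i (u i ∘ S)}` of the right-hand sides is itself convex and contains the points, so it contains the hull).
-/

set_option autoImplicit false

open Filter Topology Set Metric MeasureTheory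

namespace Pool.Agent.H.MP_f11573_an

/-- the finite convex combinations -/
private def Blk_M {V : Type*} [AddCommGroup V] [Module ℝ V] (N : ℕ) (g : ℕ → V) : Set V :=
  {m | ∃ (s : Finset ℕ) (w : ℕ → ℝ), (∀ i ∈ s, N ≤ i) ∧ (∀ i, 0 ≤ w i) ∧ ∑ i ∈ s, w i = 1 ∧
    m = ∑ i ∈ s, w i • g i}

private theorem Blk_convex {V : Type*} [AddCommGroup V] [Module ℝ V] (N : ℕ) (g : ℕ → V) :
    Convex ℝ (Blk_M N g) := by
  classical
  rintro m1 ⟨s1, w1, h1, h2, h3, rfl⟩ m2 ⟨s2, w2, k1, k2, k3, rfl⟩ a b ha hb hab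
  refine ⟨s1 ∪ s2, fun i => a * (if i ∈ s1 then w1 i else 0) + b * (if i ∈ s2 then w2 i else 0),
    ?_, ?_, ?_, ?_⟩
  · intro i hi
    rcases Finset.mem_union.1 hi with hi | hi
    · exact h1 i hi
    · exact k1 i hi
  · intro i
    dsimp only
    have e1 : 0 ≤ (if i ∈ s1 then w1 i else 0) := by
      split_ifs
      · exact h2 i
      · exact le_rfl
    have e2 : 0 ≤ (if i ∈ s2 then w2 i else 0) := by
      split_ifs
      · exact k2 i
      · exact le_rfl
    exact add_nonneg (mul_nonneg ha e1) (mul_nonneg hb e2)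
  · rw [Finset.sum_add_distrib, ← Finset.mul_sum, ← Finset.mul_sum, Finset.sum_ite_mem,
      Finset.sum_ite_mem, Finset.union_inter_cancel_left, Finset.union_inter_cancel_right, h3, k3,
      mul_one, mul_one, hab]
  · have e : ∀ i, (a * (if i ∈ s1 then w1 i else 0) + b * (if i ∈ s2 then w2 i else 0)) • g i =
        a • (if i ∈ s1 then w1 i • g i else 0) + b • (if i ∈ s2 then w2 i • g i else 0) := by
      intro i
      rw [add_smul, mul_smul, mul_smul, ite_smul, ite_smul, zero_smul]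
    rw [Finset.sum_congr rfl fun i _ => e i, Finset.sum_add_distrib, ← Finset.smul_sum,
      ← Finset.smul_sum, Finset.sum_ite_mem, Finset.sum_ite_mem, Finset.union_inter_cancel_left,
      Finset.union_inter_cancel_right]

theorem blocks {𝕜 : Type*} [RCLike 𝕜] {X : Type*} [NormedAddCommGroup X] [NormedSpace 𝕜 X]
    {S : X →L[𝕜] X} (hS : WComp S) {u : ℕ → (X →L[𝕜] 𝕜)} {C : ℝ} (hC : ∀ n, ‖u n‖ ≤ C) :
    ∃ z : X →L[𝕜] 𝕜, ∀ (N : ℕ) (ε : ℝ), 0 < ε → ∃ (s : Finset ℕ) (w : ℕ → ℝ),
      (∀ i ∈ s, N ≤ i) ∧ (∀ i, 0 ≤ w i) ∧ ∑ i ∈ s, w i = 1 ∧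
        ‖(∑ i ∈ s, (w i : 𝕜) • u i).comp S - z‖ ≤ ε := by
  obtain ⟨v, hv⟩ := ultra' (Filter.hyperfilter ℕ) u hC
  refine ⟨v.comp S, fun N ε hε => ?_⟩
  by_contra hne
  push Not at hne
  have hM : ∀ m ∈ Blk_M N (fun i => (u i).comp S), ε < ‖m - v.comp S‖ := by
    rintro m ⟨s, w, h1, h2, h3, rfl⟩
    have h4 := hne s w h1 h2 h3
    have h5 : (∑ i ∈ s, (w i : 𝕜) • u i).comp S = ∑ i ∈ s, w i • (u i).comp S := by
      ext x
      rw [ContinuousLinearMap.comp_apply, ContinuousLinearMap.sum_apply,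
        ContinuousLinearMap.sum_apply]
      refine Finset.sum_congr rfl fun i _ => ?_
      rw [ContinuousLinearMap.smul_apply, ContinuousLinearMap.smul_apply,
        ContinuousLinearMap.comp_apply, RCLike.real_smul_eq_coe_smul (K := 𝕜)]
    rw [h5] at h4
    exact h4
  have hdis : Disjoint (ball (v.comp S) ε) (Blk_M N (fun i => (u i).comp S)) := by
    rw [Set.disjoint_left]
    intro m h1 h2
    have h3 := hM m h2
    rw [mem_ball, dist_eq_norm] at h1
    exact absurd h1 (not_lt.2 h3.le)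
  obtain ⟨Φ, α, h1, h2⟩ := RCLike.geometric_hahn_banach_open (𝕜 := 𝕜) (convex_ball (v.comp S) ε)
    isOpen_ball (Blk_convex N (fun i => (u i).comp S)) hdis
  obtain ⟨x, hx⟩ := gant hS Φ
  have h3 := h1 (v.comp S) (mem_ball_self hε)
  have h4 : Tendsto (fun n => RCLike.re (Φ ((u n).comp S))) (Filter.hyperfilter ℕ)
      (𝓝 (RCLike.re (Φ (v.comp S)))) := by
    have h5 : (fun n => RCLike.re (Φ ((u n).comp S))) = fun n => RCLike.re (u n x) := by
      funext n
      rw [hx]
    rw [h5, hx]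
    exact (RCLike.continuous_re.tendsto _).comp (hv x)
  have h5 : ∀ᶠ n in (Filter.hyperfilter ℕ : Filter ℕ), α ≤ RCLike.re (Φ ((u n).comp S)) := by
    have h6 : ∀ᶠ n in (Filter.hyperfilter ℕ : Filter ℕ), N ≤ n :=
      Nat.hyperfilter_le_atTop (eventually_ge_atTop N)
    filter_upwards [h6] with n hn
    refine h2 _ ⟨{n}, fun _ => 1, ?_, fun _ => zero_le_one, ?_, ?_⟩
    · intro i hi
      rw [Finset.mem_singleton.1 hi]
      exact hn
    · rw [Finset.sum_singleton]
    · rw [Finset.sum_singleton, one_smul]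
  exact absurd h3 (not_lt.2 (ge_of_tendsto h4 h5))

end Pool.Agent.H.MP_f11573_an
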