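import Pool.Agent.H.MP_f11573_an.Def

/-!
# DppC: disjoint compact sets

PROOF: `W k = ⋃_{j ≥ k} U j` is decreasing with empty intersection, so `(ν n) (W k) → 0` as `k → ∞` for every `n`
(`tendsto_measure_iInter_atTop`). Choose `φ` strictly increasing with `(ν (φ i)).real (W (φ (i + 1))) ≤ η / 2` (recursion), compact
`L n ⊆ U n` with `(ν n).real (U n \ L n) ≤ η / 2` (inner regularity of the open set `U n`,
`IsOpen.exists_lt_isCompact` or `MeasurableSet.exists_isCompact_diff_lt`), and `B i = L (φ i) \ W (φ (i + 1))`, compact as `W` is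
open. For `i < j`: `B j ⊆ U (φ j) ⊆ W (φ (i + 1))` is disjoint from `B i`. `U (φ i) \ B i ⊆ (U (φ i) \ L (φ i)) ∪ W (φ (i + 1))`.
-/

set_option autoImplicit false

open Filter Topology Set Metric MeasureTheory

namespace Pool.Agent.H.MP_f11573_an

theorem choose_compact {K : Type*} [TopologicalSpace K] [T2Space K] [MeasurableSpace K]
    [BorelSpace K] {ν : ℕ → Measure K} (hν : ∀ n, IsFiniteMeasure (ν n))
    (hr : ∀ n, (ν n).Regular) {U : ℕ → Set K} (hU : ∀ n, IsOpen (U n))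
    (h : ∀ t, ∃ N, ∀ n, N ≤ n → t ∉ U n) {η : ℝ} (hη : 0 < η) :
    ∃ (φ : ℕ → ℕ) (B : ℕ → Set K), StrictMono φ ∧ (∀ i, IsCompact (B i)) ∧
      (∀ i j, i ≠ j → Disjoint (B i) (B j)) ∧
      ∀ i, (ν (φ i)).real (U (φ i) \ B i) ≤ η := by
  have hη2 : 0 < η / 2 := half_pos hη
  obtain ⟨W, hW⟩ : ∃ W : ℕ → Set K, W = fun k => ⋃ j ∈ Ici k, U j := ⟨_, rfl⟩
  have hWo : ∀ k, IsOpen (W k) := by
    intro k
    rw [hW]
    exact isOpen_biUnion fun j _ => hU j
  have hWU : ∀ k j, k ≤ j → U j ⊆ W k := by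
    intro k j hkj x hx
    rw [hW]
    exact mem_biUnion (show j ∈ Ici k from hkj) hx
  have hWa : Antitone W := by
    intro k l hkl x hx
    rw [hW] at hx ⊢
    obtain ⟨j, hj, hxj⟩ := mem_iUnion₂.1 hx
    exact mem_iUnion₂.2 ⟨j, le_trans hkl hj, hxj⟩
  have hWi : ⋂ k, W k = ∅ := by
    rw [eq_empty_iff_forall_notMem]
    intro x hx
    obtain ⟨N, hN⟩ := h x
    have h1 := mem_iInter.1 hx N
    rw [hW] at h1
    obtain ⟨j, hj, hxj⟩ := mem_iUnion₂.1 h1
    exact hN j hj hxj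
  have hlim : ∀ n, ∃ m, n < m ∧ (ν n).real (W m) ≤ η / 2 := by
    intro n
    have := hν n
    have h1 : Tendsto (fun k => (ν n) (W k)) atTop (𝓝 ((ν n) (⋂ k, W k))) :=
      tendsto_measure_iInter_atTop (fun i => (hWo i).measurableSet.nullMeasurableSet) hWa
        ⟨0, measure_ne_top _ _⟩
    rw [hWi, measure_empty] at h1
    have h2 : ∀ᶠ k in atTop, (ν n) (W k) < ENNReal.ofReal (η / 2) :=
      h1.eventually_lt_const (ENNReal.ofReal_pos.2 hη2)
    obtain ⟨m, hm1, hm2⟩ := (h2.and (eventually_gt_atTop n)).exists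
    refine ⟨m, hm2, ?_⟩
    exact ENNReal.toReal_le_of_le_ofReal hη2.le hm1.le
  choose m hm1 hm2 using hlim
  have hL : ∀ n, ∃ L, L ⊆ U n ∧ IsCompact L ∧ (ν n) (U n \ L) < ENNReal.ofReal (η / 2) := by
    intro n
    have := hν n
    have := hr n
    exact (hU n).measurableSet.exists_isCompact_sdiff_lt (measure_ne_top _ _)
      (ENNReal.ofReal_pos.2 hη2).ne'
  choose L hL1 hL2 hL3 using hL
  obtain ⟨φ, hφ⟩ : ∃ φ : ℕ → ℕ, φ = fun i => m^[i] 0 := ⟨_, rfl⟩
  have hφs : ∀ i, φ (i + 1) = m (φ i) := by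
    intro i
    rw [hφ]
    exact Function.iterate_succ_apply' m i 0
  have hφm : StrictMono φ := by
    refine strictMono_nat_of_lt_succ fun i => ?_
    rw [hφs]
    exact hm1 _
  have key : ∀ i j, i < j → Disjoint (L (φ i) \ W (φ (i + 1))) (L (φ j) \ W (φ (j + 1))) := by
    intro i j hij
    rw [Set.disjoint_left]
    intro x hx hx'
    exact hx.2 (hWU _ _ (hφm.monotone (Nat.succ_le_of_lt hij)) (hL1 _ hx'.1))
  refine ⟨φ, fun i => L (φ i) \ W (φ (i + 1)), hφm, fun i => (hL2 _).diff (hWo _), ?_, ?_⟩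
  · intro i j hij
    rcases lt_or_gt_of_ne hij with h1 | h1
    · exact key i j h1
    · exact (key j i h1).symm
  · intro i
    have := hν (φ i)
    have h1 : U (φ i) \ (L (φ i) \ W (φ (i + 1))) ⊆ (U (φ i) \ L (φ i)) ∪ W (φ (i + 1)) := by
      intro x hx
      by_cases hxL : x ∈ L (φ i)
      · right
        by_contra hxW
        exact hx.2 ⟨hxL, hxW⟩
      · exact Or.inl ⟨hx.1, hxL⟩
    have h2 : (ν (φ i)).real (U (φ i) \ L (φ i)) ≤ η / 2 :=
      ENNReal.toReal_le_of_le_ofReal hη2.le (hL3 _).le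
    have h3 : (ν (φ i)).real (W (φ (i + 1))) ≤ η / 2 := by
      rw [hφs]
      exact hm2 _
    calc (ν (φ i)).real (U (φ i) \ (L (φ i) \ W (φ (i + 1))))
        ≤ (ν (φ i)).real ((U (φ i) \ L (φ i)) ∪ W (φ (i + 1))) := measureReal_mono h1
      _ ≤ (ν (φ i)).real (U (φ i) \ L (φ i)) + (ν (φ i)).real (W (φ (i + 1))) :=
          measureReal_union_le _ _
      _ ≤ η := by linarith

end Pool.Agent.H.MP_f11573_an
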