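import Pool.Agent.H.MP_f11573_an.Ult

/-!
# Psi: restrictions to compact sets, in the bidual

PROOF: for a compact set `B` let `𝓕 B` be the filter on `β = {b : C(K, ℝ) // ∀ x, b x ∈ Icc 0 1}` with the basis
`{b | b = 1 on B, b = 0 off V}`, `V` open, `B ⊆ V` (nonempty by Urysohn, closed under intersections: `V ∩ V'`): `NeBot`. Let
`𝒰 B ≤ 𝓕 B` be an ultrafilter (`Ultrafilter.of`) and `Φ i` from `ultra (𝒰 (B i)) (fun b => rs b (g i))` (norm `≤ 1`).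

`∑_{i ∈ s} ‖Φ i u‖ ≤ ‖u‖`: the `B i`, `i ∈ s`, are compact and pairwise disjoint, so there are pairwise disjoint open
`V i ⊇ B i`; given `η > 0` choose `b i` (eventually in `𝒰`) with `b i = 0` off `V i` and `‖Φ i u - u (rs (b i) (g i))‖ ≤ η`, and
unimodular `c i` with `c i * u (…) = ‖u (…)‖`; the function `∑ c i • rs (b i) (g i)` has norm `≤ 1` (at each point at most one
term), so `∑ ‖u (rs (b i) (g i))‖ ≤ ‖u‖`; let `η → 0`.

Last statement: for `b = 1` on `B i`: `‖u (g i) - u (rs b (g i))‖ ≤ ∫ ‖g i - b g i‖ ∂ν ≤ ν.real ({g i ≠ 0} \ B i)` (the integrand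
is at most the indicator of this set, which is measurable); pass to the limit.
-/

set_option autoImplicit false

open Filter Topology Set Metric MeasureTheory

namespace Pool.Agent.H.MP_f11573_an

variable {𝕜 : Type*} [RCLike 𝕜] {K : Type*} [TopologicalSpace K] [CompactSpace K] [T2Space K]

private theorem Psi_uf {B : Set K} (hB : IsCompact B) :
    ∃ 𝒰 : Ultrafilter {b : C(K, ℝ) // ∀ x, 0 ≤ b x ∧ b x ≤ 1}, ∀ V : Set K, IsOpen V → B ⊆ V →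
      ∀ᶠ b : {b : C(K, ℝ) // ∀ x, 0 ≤ b x ∧ b x ≤ 1} in (𝒰 : Filter _),
        (∀ x ∈ B, b.1 x = 1) ∧ ∀ x, x ∉ V → b.1 x = 0 := by
  obtain ⟨A, hA⟩ : ∃ A : {V : Set K // IsOpen V ∧ B ⊆ V} →
      Set {b : C(K, ℝ) // ∀ x, 0 ≤ b x ∧ b x ≤ 1},
      A = fun V => {b | (∀ x ∈ B, b.1 x = 1) ∧ ∀ x, x ∉ V.1 → b.1 x = 0} := ⟨_, rfl⟩
  have hne : ∀ V, (A V).Nonempty := by
    intro V
    obtain ⟨f, h0, h1, h2⟩ := exists_continuous_zero_one_of_isClosed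
      (s := V.1ᶜ) (t := B) V.2.1.isClosed_compl hB.isClosed (by
        rw [Set.disjoint_left]
        intro x hx hx'
        exact hx (V.2.2 hx'))
    refine ⟨⟨f, fun x => ⟨(h2 x).1, (h2 x).2⟩⟩, ?_⟩
    rw [hA]
    exact ⟨fun x hx => h1 hx, fun x hx => h0 hx⟩
  have hdir : Directed (· ≥ ·) fun V => 𝓟 (A V) := by
    intro V V'
    refine ⟨⟨V.1 ∩ V'.1, V.2.1.inter V'.2.1, Set.subset_inter V.2.2 V'.2.2⟩, ?_, ?_⟩
    · refine principal_mono.2 ?_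
      rw [hA]
      rintro b ⟨h1, h2⟩
      exact ⟨h1, fun x hx => h2 x fun h => hx h.1⟩
    · refine principal_mono.2 ?_
      rw [hA]
      rintro b ⟨h1, h2⟩
      exact ⟨h1, fun x hx => h2 x fun h => hx h.2⟩
  have : Nonempty {V : Set K // IsOpen V ∧ B ⊆ V} := ⟨⟨univ, isOpen_univ, subset_univ B⟩⟩
  have hnb : NeBot (⨅ V, 𝓟 (A V)) :=
    iInf_neBot_of_directed' hdir fun V => principal_neBot_iff.2 (hne V)
  refine ⟨Ultrafilter.of (⨅ V, 𝓟 (A V)), fun V hV hBV => ?_⟩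
  have h1 : (⨅ V, 𝓟 (A V)) ≤ 𝓟 (A ⟨V, hV, hBV⟩) := iInf_le _ _
  have h2 := (Ultrafilter.of_le (⨅ V, 𝓟 (A V))).trans h1
  have h3 := le_principal_iff.1 h2
  refine Filter.mem_of_superset h3 fun b hb => ?_
  rw [hA] at hb
  exact hb

omit [T2Space K] in
private theorem Psi_rs {b : C(K, ℝ)} (hb : ∀ x, 0 ≤ b x ∧ b x ≤ 1) {g : C(K, 𝕜)} (hg : ‖g‖ ≤ 1)
    (x : K) : ‖rs b g x‖ ≤ 1 := by
  have h1 : rs b g x = (b x : 𝕜) * g x := rfl
  rw [h1, norm_mul, RCLike.norm_ofReal, abs_of_nonneg (hb x).1]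
  exact mul_le_one₀ (hb x).2 (norm_nonneg _) ((g.norm_coe_le_norm x).trans hg)

omit [T2Space K] in
private theorem Psi_rsn {b : C(K, ℝ)} (hb : ∀ x, 0 ≤ b x ∧ b x ≤ 1) {g : C(K, 𝕜)}
    (hg : ‖g‖ ≤ 1) : ‖rs b g‖ ≤ 1 :=
  (ContinuousMap.norm_le _ zero_le_one).2 (Psi_rs hb hg)

omit [T2Space K] in
/-- the norm of a sum of functions with disjoint supports -/
private theorem Psi_sum (u : C(K, 𝕜) →L[𝕜] 𝕜) {g : ℕ → C(K, 𝕜)} (hg : ∀ i, ‖g i‖ ≤ 1)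
    {s : Finset ℕ} {V : ℕ → Set K} (hV : ∀ i ∈ s, ∀ j ∈ s, i ≠ j → Disjoint (V i) (V j))
    (b : ℕ → C(K, ℝ)) (hb : ∀ i, ∀ x, 0 ≤ b i x ∧ b i x ≤ 1)
    (h0 : ∀ i ∈ s, ∀ x, x ∉ V i → b i x = 0) :
    ∑ i ∈ s, ‖u (rs (b i) (g i))‖ ≤ ‖u‖ := by
  have hc : ∀ i, ∃ c : 𝕜, ‖c‖ = 1 ∧ c * u (rs (b i) (g i)) = (‖u (rs (b i) (g i))‖ : 𝕜) := by
    intro i
    obtain ⟨c, hc1, hc2⟩ := RCLike.exists_norm_eq_mul_self (u (rs (b i) (g i)))
    exact ⟨c, hc1, hc2.symm⟩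
  choose c hc1 hc2 using hc
  obtain ⟨F, hF⟩ : ∃ F : C(K, 𝕜), F = ∑ i ∈ s, c i • rs (b i) (g i) := ⟨_, rfl⟩
  have hFx : ∀ x, F x = ∑ i ∈ s, c i * rs (b i) (g i) x := by
    intro x
    rw [hF, ContinuousMap.sum_apply]
    rfl
  have hz : ∀ i ∈ s, ∀ x, x ∉ V i → c i * rs (b i) (g i) x = 0 := by
    intro i hi x hx
    have h1 : rs (b i) (g i) x = (b i x : 𝕜) * g i x := rfl
    rw [h1, h0 i hi x hx, RCLike.ofReal_zero, zero_mul, mul_zero]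
  have hFn : ‖F‖ ≤ 1 := by
    refine (ContinuousMap.norm_le _ zero_le_one).2 fun x => ?_
    rw [hFx]
    by_cases h : ∃ i ∈ s, x ∈ V i
    · obtain ⟨i, hi, hx⟩ := h
      rw [Finset.sum_eq_single i]
      · rw [norm_mul, hc1, one_mul]
        exact Psi_rs (hb i) (hg i) x
      · intro j hj hji
        refine hz j hj x fun hx' => ?_
        exact Set.disjoint_left.1 (hV i hi j hj (Ne.symm hji)) hx hx'
      · intro h
        exact absurd hi h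
    · rw [Finset.sum_eq_zero fun i hi => hz i hi x fun hx => h ⟨i, hi, hx⟩, norm_zero]
      exact zero_le_one
  have h1 : u F = ((∑ i ∈ s, ‖u (rs (b i) (g i))‖ : ℝ) : 𝕜) := by
    rw [hF, map_sum, RCLike.ofReal_sum]
    refine Finset.sum_congr rfl fun i _ => ?_
    rw [map_smul, smul_eq_mul, hc2]
  have h2 : ‖u F‖ = ∑ i ∈ s, ‖u (rs (b i) (g i))‖ := by
    rw [h1, RCLike.norm_ofReal, abs_of_nonneg (Finset.sum_nonneg fun i _ => norm_nonneg _)]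
  rw [← h2]
  calc ‖u F‖ ≤ ‖u‖ * ‖F‖ := u.le_opNorm F
    _ ≤ ‖u‖ * 1 := mul_le_mul_of_nonneg_left hFn (norm_nonneg u)
    _ = ‖u‖ := mul_one _

private theorem Psi_int [MeasurableSpace K] [BorelSpace K] {B : Set K} (hB : IsCompact B)
    {g : C(K, 𝕜)} (hg : ‖g‖ ≤ 1) {b : C(K, ℝ)} (hb : ∀ x, 0 ≤ b x ∧ b x ≤ 1)
    (h1 : ∀ x ∈ B, b x = 1) (u : C(K, 𝕜) →L[𝕜] 𝕜) (ν : Measure K) [IsFiniteMeasure ν]
    (hu : Dom u ν) : ‖u g - u (rs b g)‖ ≤ ν.real ({x | g x ≠ 0} \ B) := by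
  have hm : MeasurableSet ({x | g x ≠ 0} \ B) :=
    (isOpen_ne_fun g.continuous continuous_const).measurableSet.diff hB.isClosed.measurableSet
  rw [← map_sub]
  refine (hu _).trans ?_
  have h2 : ∫ x, ({x | g x ≠ 0} \ B).indicator (fun _ => (1 : ℝ)) x ∂ν =
      ν.real ({x | g x ≠ 0} \ B) := by
    rw [integral_indicator hm]
    simp [Measure.real]
  rw [← h2]
  refine integral_mono_of_nonneg (Eventually.of_forall fun x => norm_nonneg _)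
    ((integrable_const (1 : ℝ)).indicator hm) (Eventually.of_forall fun x => ?_)
  show ‖(g - rs b g) x‖ ≤ ({x | g x ≠ 0} \ B).indicator (fun _ => (1 : ℝ)) x
  have h3 : (g - rs b g) x = ((1 - b x : ℝ) : 𝕜) * g x := by
    rw [ContinuousMap.sub_apply, RCLike.ofReal_sub, RCLike.ofReal_one, sub_mul, one_mul]
    rfl
  rw [h3, norm_mul, RCLike.norm_ofReal]
  by_cases hx : x ∈ {x | g x ≠ 0} \ B
  · rw [indicator_of_mem hx]
    have h4 : |1 - b x| ≤ 1 := by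
      rw [abs_le]
      constructor <;> linarith [(hb x).1, (hb x).2]
    exact mul_le_one₀ h4 (norm_nonneg _) ((g.norm_coe_le_norm x).trans hg)
  · rw [indicator_of_notMem hx]
    by_cases h4 : g x = 0
    · rw [h4, norm_zero, mul_zero]
    · have h5 : x ∈ B := by
        by_contra h6
        exact hx ⟨h4, h6⟩
      rw [h1 x h5, sub_self, abs_zero, zero_mul]

theorem psi [MeasurableSpace K] [BorelSpace K] {B : ℕ → Set K} (hB : ∀ i, IsCompact (B i))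
    (hd : ∀ i j, i ≠ j → Disjoint (B i) (B j)) {g : ℕ → C(K, 𝕜)} (hg : ∀ i, ‖g i‖ ≤ 1) :
    ∃ Φ : ℕ → ((C(K, 𝕜) →L[𝕜] 𝕜) →L[𝕜] 𝕜),
      (∀ (u : C(K, 𝕜) →L[𝕜] 𝕜) (s : Finset ℕ), ∑ i ∈ s, ‖Φ i u‖ ≤ ‖u‖) ∧
      ∀ (i : ℕ) (u : C(K, 𝕜) →L[𝕜] 𝕜) (ν : Measure K), IsFiniteMeasure ν → Dom u ν →
        ‖u (g i) - Φ i u‖ ≤ ν.real ({x | g i x ≠ 0} \ B i) := by
  choose 𝒰 h𝒰 using fun i => Psi_uf (hB i)
  have hΦ : ∀ i, ∃ Φ : (C(K, 𝕜) →L[𝕜] 𝕜) →L[𝕜] 𝕜, ∀ u : C(K, 𝕜) →L[𝕜] 𝕜,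
      Tendsto (fun b : {b : C(K, ℝ) // ∀ x, 0 ≤ b x ∧ b x ≤ 1} => u (rs b.1 (g i))) (𝒰 i)
        (𝓝 (Φ u)) := fun i => ultra (𝒰 i) (fun b => rs b.1 (g i)) (C := 1) fun b =>
    Psi_rsn b.2 (hg i)
  choose Φ hΦ using hΦ
  refine ⟨Φ, fun u s => ?_, fun i u ν hν hu => ?_⟩
  · obtain ⟨S, hS1, hS2⟩ := Set.PairwiseDisjoint.exists_mem_filter (l := fun i => 𝓝ˢ (B i))
      (t := (s : Set ℕ)) (fun i _ j _ hij =>
        disjoint_nhdsSet_nhdsSet (hB i).isClosed (hB j).isClosed (hd i j hij)) s.finite_toSet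
    refine le_of_forall_pos_le_add fun ε hε => ?_
    have hη : 0 < ε / (s.card + 1) := by positivity
    have hex : ∀ i, ∃ b : {b : C(K, ℝ) // ∀ x, 0 ≤ b x ∧ b x ≤ 1},
        (∀ x, x ∉ interior (S i) → b.1 x = 0) ∧
          ‖Φ i u - u (rs b.1 (g i))‖ < ε / (s.card + 1) := by
      intro i
      have h1 := h𝒰 i (interior (S i)) isOpen_interior (subset_interior_iff_mem_nhdsSet.2 (hS1 i))
      have h2 := (Metric.tendsto_nhds.1 (hΦ i u)) _ hη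
      obtain ⟨b, hb1, hb2⟩ := (h1.and h2).exists
      refine ⟨b, hb1.2, ?_⟩
      rw [dist_eq_norm] at hb2
      rw [norm_sub_rev]
      exact hb2
    choose b hb1 hb2 using hex
    have h3 := Psi_sum u hg (s := s) (V := fun i => interior (S i)) (fun i hi j hj hij =>
      (hS2 hi hj hij).mono interior_subset interior_subset) (fun i => (b i).1)
      (fun i => (b i).2) (fun i _ => hb1 i)
    calc ∑ i ∈ s, ‖Φ i u‖ ≤ ∑ i ∈ s, (‖u (rs (b i).1 (g i))‖ + ε / (s.card + 1)) := by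
          refine Finset.sum_le_sum fun i _ => ?_
          have h4 := norm_le_norm_add_norm_sub' (Φ i u) (u (rs (b i).1 (g i)))
          linarith [(hb2 i).le]
      _ = ∑ i ∈ s, ‖u (rs (b i).1 (g i))‖ + s.card * (ε / (s.card + 1)) := by
          rw [Finset.sum_add_distrib, Finset.sum_const, nsmul_eq_mul]
      _ ≤ ‖u‖ + ε := by
          refine add_le_add h3 ?_
          rw [← mul_div_assoc, div_le_iff₀ (by positivity)]
          nlinarith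
  · have h1 : Tendsto (fun b : {b : C(K, ℝ) // ∀ x, 0 ≤ b x ∧ b x ≤ 1} =>
        ‖u (g i) - u (rs b.1 (g i))‖) (𝒰 i) (𝓝 ‖u (g i) - Φ i u‖) :=
      (tendsto_const_nhds.sub (hΦ i u)).norm
    refine le_of_tendsto h1 ?_
    filter_upwards [h𝒰 i univ isOpen_univ (subset_univ _)] with b hb
    exact Psi_int (hB i) (hg i) b.2 hb.1 u ν hu

end Pool.Agent.H.MP_f11573_an
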