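import Pool.Agent.H.MP_f11573_an.Mod
import Pool.Agent.H.MP_f11573_an.Psi
import Pool.Agent.H.MP_f11573_an.Sch
import Pool.Agent.H.MP_f11573_an.DppC

/-!
# DppB: the core of the Dunford-Pettis property

PROOF: `letI : MeasurableSpace K := borel K; haveI : BorelSpace K := ⟨rfl⟩`. `ν n` from `modulus (μ n)`, `U n = {t | y n t ≠ 0}`
open, `φ`, `B` from `choose_compact` with `η = δ / 2`, `Φ` from `psi` for `B i` and `g i = y (φ i)`. `‖Φ i (μ (φ i))‖ ≥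
‖μ (φ i) (y (φ i))‖ - η ≥ δ / 2` for all `i`. But `schur` (with `E` the dual, `C = 1`, `u i = μ (φ i)`, weakly null) says
`Φ i (μ (φ i)) → 0`.
-/

set_option autoImplicit false

open Filter Topology Set Metric MeasureTheory

namespace Pool.Agent.H.MP_f11573_an

variable {𝕜 : Type*} [RCLike 𝕜] {K : Type*} [TopologicalSpace K] [CompactSpace K] [T2Space K]

theorem dpp_core {μ : ℕ → (C(K, 𝕜) →L[𝕜] 𝕜)}
    (hμ : ∀ Φ : (C(K, 𝕜) →L[𝕜] 𝕜) →L[𝕜] 𝕜, Tendsto (fun n => Φ (μ n)) atTop (𝓝 0))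
    {y : ℕ → C(K, 𝕜)} (hy : ∀ n, ‖y n‖ ≤ 1) {δ : ℝ} (hδ : 0 < δ) (h : ∀ n, δ ≤ ‖μ n (y n)‖)
    (ht : ∀ t, ∃ N, ∀ n, N ≤ n → y n t = 0) : False := by
  let _ : MeasurableSpace K := borel K
  have _ : BorelSpace K := ⟨rfl⟩
  choose ν hfin hreg hdom using fun n => modulus (μ n)
  obtain ⟨φ, B, hφ, hB, hd, hνB⟩ := choose_compact (ν := ν) hfin hreg
    (U := fun n => {t | y n t ≠ 0})
    (fun n => isOpen_ne_fun (y n).continuous continuous_const)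
    (fun t => (ht t).imp fun N hN n hn h1 => h1 (hN n hn)) (half_pos hδ)
  obtain ⟨Φ, hΦ1, hΦ2⟩ := psi (𝕜 := 𝕜) hB hd (g := fun i => y (φ i)) (fun i => hy _)
  have h1 : Tendsto (fun i => Φ i (μ (φ i))) atTop (𝓝 0) :=
    schur (C := 1) (fun u s => by rw [one_mul]; exact hΦ1 u s) (u := fun i => μ (φ i))
      (fun Ψ => (hμ Ψ).comp hφ.tendsto_atTop)
  have h2 : ∀ i, δ / 2 ≤ ‖Φ i (μ (φ i))‖ := fun i => by
    have h3 : ‖μ (φ i) (y (φ i)) - Φ i (μ (φ i))‖ ≤ δ / 2 :=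
      (hΦ2 i (μ (φ i)) (ν (φ i)) (hfin _) (hdom _)).trans (hνB i)
    have h5 := h (φ i)
    have h6 := norm_sub_norm_le (μ (φ i) (y (φ i))) (Φ i (μ (φ i)))
    linarith
  have h3 : Tendsto (fun i => ‖Φ i (μ (φ i))‖) atTop (𝓝 0) := by
    have h4 := h1.norm
    rwa [norm_zero] at h4
  have h4 := ge_of_tendsto' h3 h2
  linarith

end Pool.Agent.H.MP_f11573_an
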