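import Pool.Agent.H.MP_f11573_an.DppA
import Pool.Agent.H.MP_f11573_an.DppB

/-!
# Dpp: the Dunford-Pettis property of `C(K)`

PROOF: wlog `C = 1` (divide `x n` by `C + 1`). If the conclusion fails there are `δ > 0` and `φ` strictly increasing with
`‖μ (φ n) (x (φ n))‖ ≥ δ` for all `n` (`Filter.extraction_of_frequently_atTop`). The `μ n` are bounded by some `M`
(`banach_steinhaus`: `μ n x` converges for each `x`: apply `hμ` to the evaluation at `x`). Apply `soft` to `μ (φ n)`,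
`x (φ n)`: `y n`, and `dpp_core` to `μ (φ n)`, `y n`, `δ / 2`: `y n t ≠ 0` implies `‖x (φ n) t‖ > δ / (2 (M + 1))`, false for large
`n`.
-/

set_option autoImplicit false

open Filter Topology Set Metric MeasureTheory

namespace Pool.Agent.H.MP_f11573_an

variable {𝕜 : Type*} [RCLike 𝕜] {K : Type*} [TopologicalSpace K] [CompactSpace K] [T2Space K]

theorem dpp {μ : ℕ → (C(K, 𝕜) →L[𝕜] 𝕜)}
    (hμ : ∀ Φ : (C(K, 𝕜) →L[𝕜] 𝕜) →L[𝕜] 𝕜, Tendsto (fun n => Φ (μ n)) atTop (𝓝 0))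
    {x : ℕ → C(K, 𝕜)} {C : ℝ} (hC : ∀ n, ‖x n‖ ≤ C)
    (hx : ∀ t, Tendsto (fun n => x n t) atTop (𝓝 0)) :
    Tendsto (fun n => μ n (x n)) atTop (𝓝 0) := by
  have hev : ∀ z : C(K, 𝕜), Tendsto (fun n => μ n z) atTop (𝓝 0) := fun z =>
    hμ (ContinuousLinearMap.apply 𝕜 𝕜 z)
  obtain ⟨M, hM⟩ : ∃ M, ∀ n, ‖μ n‖ ≤ M := banach_steinhaus (g := μ) fun z => by
    obtain ⟨B, hB⟩ := (hev z).norm.bddAbove_range
    exact ⟨B, fun n => hB ⟨n, rfl⟩⟩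
  have hM0 : 0 ≤ M := (norm_nonneg _).trans (hM 0)
  have hC0 : 0 ≤ C := (norm_nonneg _).trans (hC 0)
  have hC1 : 0 < C + 1 := by linarith
  by_contra hcon
  rw [tendsto_zero_iff_norm_tendsto_zero] at hcon
  obtain ⟨δ, hδ, hfr⟩ : ∃ δ : ℝ, 0 < δ ∧ ∃ᶠ n in atTop, δ ≤ ‖μ n (x n)‖ := by
    by_contra h1
    push Not at h1
    apply hcon
    rw [Metric.tendsto_atTop]
    intro δ hδ
    have h2 := h1 δ hδ
    rw [Filter.eventually_atTop] at h2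
    obtain ⟨N, hN⟩ := h2
    refine ⟨N, fun n hn => ?_⟩
    rw [Real.dist_eq, sub_zero, abs_of_nonneg (norm_nonneg _)]
    exact hN n hn
  obtain ⟨φ, hφ, hφ2⟩ := Filter.extraction_of_frequently_atTop hfr
  obtain ⟨s, hs⟩ : ∃ s : 𝕜, s = (((C + 1)⁻¹ : ℝ) : 𝕜) := ⟨_, rfl⟩
  have hsn : ‖s‖ = (C + 1)⁻¹ := by
    rw [hs, RCLike.norm_ofReal, abs_of_pos (inv_pos.2 hC1)]
  have hδ' : 0 < (C + 1)⁻¹ * δ := mul_pos (inv_pos.2 hC1) hδ
  have hz : ∀ n, ‖s • x (φ n)‖ ≤ 1 := fun n => by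
    rw [norm_smul, hsn, inv_mul_le_iff₀ hC1, mul_one]
    linarith [hC (φ n)]
  have hz2 : ∀ n, (C + 1)⁻¹ * δ ≤ ‖μ (φ n) (s • x (φ n))‖ := fun n => by
    rw [map_smul, norm_smul, hsn]
    exact mul_le_mul_of_nonneg_left (hφ2 n) (inv_pos.2 hC1).le
  choose y hy1 hy2 hy3 using fun n => soft (hM (φ n)) (hz n) hδ' (hz2 n)
  refine dpp_core (μ := fun n => μ (φ n)) (fun Φ => (hμ Φ).comp hφ.tendsto_atTop) hy1
    (half_pos hδ') hy2 fun t => ?_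
  have h4 : Tendsto (fun n => ‖(s • x (φ n)) t‖) atTop (𝓝 0) := by
    have h5 := (((hx t).comp hφ.tendsto_atTop).const_smul s).norm
    rw [smul_zero, norm_zero] at h5
    exact h5
  have h6 : 0 < (C + 1)⁻¹ * δ / (2 * (M + 1)) := div_pos hδ' (by linarith)
  obtain ⟨N, hN⟩ := Filter.eventually_atTop.1 (h4.eventually (gt_mem_nhds h6))
  refine ⟨N, fun n hn => ?_⟩
  by_contra h7
  exact absurd (hN n hn) (not_lt.2 (hy3 n t h7).le)

end Pool.Agent.H.MP_f11573_an
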