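import Pool.Agent.H.MP_f11573_an.ESm
import Pool.Agent.H.MP_f11573_an.Dpp

/-!
# Cc: adjoints of weakly compact operators map weakly null sequences to null sequences

PROOF: if not, there are `δ > 0` and `φ` strictly increasing with `‖μ (φ n) ∘ S‖ > δ`; choose `x n`, `‖x n‖ ≤ 1`, with
`‖μ (φ n) (S (x n))‖ ≥ δ` (`ContinuousLinearMap.exists_lt_apply_of_lt_opNorm`). `ψ`, `y` from `es`. Put
`z n = S (x (ψ n)) - y`: bounded, `z n t → 0` for every `t` (`es` for the evaluation `dl t`). By `dpp` (for the sequence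
`μ (φ (ψ n))`, weakly null) `μ (φ (ψ n)) (z n) → 0`, and `μ (φ (ψ n)) y → 0` (`hμ` for the evaluation at `y`).
-/

set_option autoImplicit false

open Filter Topology Set Metric MeasureTheory

namespace Pool.Agent.H.MP_f11573_an

variable {𝕜 : Type*} [RCLike 𝕜] {K : Type*} [TopologicalSpace K] [CompactSpace K] [T2Space K]

theorem cc {S : C(K, 𝕜) →L[𝕜] C(K, 𝕜)} (hS : WComp S) {μ : ℕ → (C(K, 𝕜) →L[𝕜] 𝕜)}
    (hμ : ∀ Φ : (C(K, 𝕜) →L[𝕜] 𝕜) →L[𝕜] 𝕜, Tendsto (fun n => Φ (μ n)) atTop (𝓝 0)) :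
    Tendsto (fun n => ‖(μ n).comp S‖) atTop (𝓝 0) := by
  classical
  by_contra hcon
  obtain ⟨δ, hδ, hfreq⟩ : ∃ δ : ℝ, 0 < δ ∧ ∃ᶠ n in atTop, δ < ‖(μ n).comp S‖ := by
    by_contra hno
    push Not at hno
    apply hcon
    rw [Metric.tendsto_atTop]
    intro ε hε
    have h := hno (ε / 2) (by linarith)
    rw [Filter.eventually_atTop] at h
    obtain ⟨N, hN⟩ := h
    refine ⟨N, fun n hn => ?_⟩
    have h3 := hN n hn
    rw [dist_zero_right, norm_norm]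
    linarith
  obtain ⟨φ, hφ, hφδ⟩ := Filter.extraction_of_frequently_atTop hfreq
  have hx : ∀ n, ∃ x : C(K, 𝕜), ‖x‖ < 1 ∧ δ < ‖((μ (φ n)).comp S) x‖ := fun n =>
    ContinuousLinearMap.exists_lt_apply_of_lt_opNorm _ (hφδ n)
  choose x hx1 hx2 using hx
  obtain ⟨ψ, y, hψ, hψy⟩ := es hS (x := x) (fun n => (hx1 n).le)
  have htend : Tendsto (fun n => φ (ψ n)) atTop atTop :=
    hφ.tendsto_atTop.comp hψ.tendsto_atTop
  have h1 : Tendsto (fun n => μ (φ (ψ n)) (S (x (ψ n)) - y)) atTop (𝓝 0) := by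
    apply dpp (μ := fun n => μ (φ (ψ n))) (x := fun n => S (x (ψ n)) - y) (C := ‖S‖ + ‖y‖)
    · intro Φ
      exact (hμ Φ).comp htend
    · intro n
      calc ‖S (x (ψ n)) - y‖ ≤ ‖S (x (ψ n))‖ + ‖y‖ := norm_sub_le _ _
        _ ≤ ‖S‖ + ‖y‖ := by
          have h5 := S.unit_le_opNorm (x (ψ n)) (hx1 _).le
          linarith
    · intro t
      have h5 : Tendsto (fun n => S (x (ψ n)) t) atTop (𝓝 (y t)) := hψy (dl t)
      have h6 : Tendsto (fun n => S (x (ψ n)) t - y t) atTop (𝓝 (y t - y t)) :=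
        h5.sub_const _
      simpa using h6
  have h2 : Tendsto (fun n => μ (φ (ψ n)) y) atTop (𝓝 0) :=
    (hμ (ContinuousLinearMap.apply 𝕜 𝕜 y)).comp htend
  have h3 : Tendsto (fun n => ‖μ (φ (ψ n)) (S (x (ψ n)))‖) atTop (𝓝 0) := by
    have h5 := (h1.add h2).norm
    simpa using h5
  have h4 : ∀ᶠ n in atTop, ‖μ (φ (ψ n)) (S (x (ψ n)))‖ < δ := (tendsto_order.1 h3).2 δ hδ
  obtain ⟨n, hn⟩ := h4.exists
  exact absurd hn (not_lt.mpr (hx2 (ψ n)).le)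

end Pool.Agent.H.MP_f11573_an
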