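import Pool.Agent.H.MP_f11573_an.Def4

/-!
# CmU: commutators

PROOF: `B f = ∑_{g ∈ E} A g (f ∘ g)`. Let `S = ∑_{g ∈ E} ‖A g‖`, and `F`, `m` from `hG E (ε / (S + 1))`. For `χ` given put `w j = wtM F m (χ j)`
and `W j g` the weakly compact operator of `EssLoc (A g)` for the function `a = rs (w j) 1` (`rs (w j) f = a * f`). Then
`B (∑_j rs (w j) (f j)) = ∑_g A g (∑_j rs (w j ∘ g) (f j ∘ g))`, `rs (w j) (B (f j)) = ∑_g rs (w j) (A g (f j ∘ g))`,
`W j g (f j ∘ g) = A g (rs (w j) (f j ∘ g)) - rs (w j) (A g (f j ∘ g))`. So the difference in the statement is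
`∑_g A g (∑_j rs (w j ∘ g - w j) (f j ∘ g))`, of norm `≤ ∑_g ‖A g‖ * sup_x ∑_j |w j (g • x) - w j x| * R ≤ S * ε / (S + 1) * R`; the estimate
`∑_j |w j (g • x) - w j x| ≤ ε / (S + 1)` is in LocMA (copy). (`R ≥ 0` if `n > 0`; if `n = 0` then `K` is empty by `∑ χ j = 1` and
all norms are `0`.)
-/

set_option autoImplicit false

open Filter Topology Set Metric MeasureTheory

namespace Pool.Agent.H.MP_f11573_an

variable {𝕜 : Type*} [RCLike 𝕜] {K : Type*} [TopologicalSpace K] [CompactSpace K] [T2Space K]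

omit [CompactSpace K] [T2Space K] in
open scoped Classical in
/-- the weights are almost invariant -/
private theorem CmU_wt {M : Type*} [Monoid M] [MulAction M K] [ContinuousConstSMul M K]
    {F : Finset M} {m : M → C(K, ℝ)} (hm0 : ∀ k, k ∉ F → ∀ x, m k x = 0) {g : M} {x : K} {η : ℝ}
    (hη : ∀ H : Finset M,
      ∑ l ∈ H, |(∑ k ∈ F, if k * g = l then m k (g • x) else 0) - m l x| ≤ η) {n : ℕ}
    {χ : Fin n → C(K, ℝ)} (hχ : ∀ j x, 0 ≤ χ j x) (hχ1 : ∀ x, ∑ j, χ j x = 1) :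
    ∑ j, |wtM F m (χ j) (g • x) - wtM F m (χ j) x| ≤ η := by
  obtain ⟨H, hH⟩ : ∃ H : Finset M, H = F ∪ F.image (fun k => k * g) := ⟨_, rfl⟩
  have h1 : ∀ j, wtM F m (χ j) x = ∑ l ∈ H, m l x * χ j (l • x) := by
    intro j
    show ∑ k ∈ F, m k x * χ j (k • x) = _
    refine Finset.sum_subset (by rw [hH]; exact Finset.subset_union_left) fun k _ hk => ?_
    rw [hm0 k hk, zero_mul]
  have h2 : ∀ j, wtM F m (χ j) (g • x) =
      ∑ l ∈ H, (∑ k ∈ F, if k * g = l then m k (g • x) else 0) * χ j (l • x) := by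
    intro j
    show ∑ k ∈ F, m k (g • x) * χ j (k • g • x) = _
    simp only [Finset.sum_mul]
    rw [Finset.sum_comm]
    refine Finset.sum_congr rfl fun k hk => ?_
    rw [Finset.sum_eq_single (k * g)]
    · rw [if_pos rfl, mul_smul]
    · intro l _ hl
      rw [if_neg fun h => hl h.symm, zero_mul]
    · intro h
      exact absurd (by rw [hH]; exact Finset.mem_union_right _ (Finset.mem_image_of_mem _ hk)) h
  have h3 : ∀ j, |wtM F m (χ j) (g • x) - wtM F m (χ j) x| ≤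
      ∑ l ∈ H, |(∑ k ∈ F, if k * g = l then m k (g • x) else 0) - m l x| * χ j (l • x) := by
    intro j
    rw [h1, h2, ← Finset.sum_sub_distrib]
    refine (Finset.abs_sum_le_sum_abs _ _).trans (le_of_eq ?_)
    refine Finset.sum_congr rfl fun k _ => ?_
    rw [← sub_mul, abs_mul, abs_of_nonneg (hχ j _)]
  refine (Finset.sum_le_sum fun j _ => h3 j).trans ?_
  rw [Finset.sum_comm]
  refine le_trans (le_of_eq ?_) (hη H)
  refine Finset.sum_congr rfl fun k _ => ?_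
  rw [← Finset.mul_sum, hχ1, mul_one]

omit [CompactSpace K] [T2Space K] in
private theorem CmU_rs (w : C(K, ℝ)) (f : C(K, 𝕜)) : rs w f = rs w 1 * f := by
  ext x
  show (w x : 𝕜) * f x = (w x : 𝕜) * 1 * f x
  rw [mul_one]

omit [T2Space K] in
private theorem CmU_rs_sum (w : C(K, ℝ)) {ι : Type*} (E : Finset ι) (f : ι → C(K, 𝕜)) :
    rs w (∑ g ∈ E, f g) = ∑ g ∈ E, rs w 1 * f g := by
  rw [CmU_rs, Finset.mul_sum]

omit [T2Space K] in
theorem commU {M : Type*} [Monoid M] [MulAction M K] [ContinuousConstSMul M K]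
    (hG : TopAmenM M K) {B : C(K, 𝕜) →L[𝕜] C(K, 𝕜)} (hB : B ∈ FunEss 𝕜 M K) {ε : ℝ}
    (hε : 0 < ε) :
    ∃ (E F : Finset M) (m : M → C(K, ℝ)), (∀ k x, 0 ≤ m k x) ∧ (∀ x, ∑ k ∈ F, m k x = 1) ∧
      ∀ (n : ℕ) (χ : Fin n → C(K, ℝ)), (∀ j x, 0 ≤ χ j x) → (∀ x, ∑ j, χ j x = 1) →
        ∃ W : Fin n → M → (C(K, 𝕜) →L[𝕜] C(K, 𝕜)), (∀ j, ∀ g ∈ E, WComp (W j g)) ∧
          ∀ (f : Fin n → C(K, 𝕜)) (R : ℝ), 0 ≤ R → (∀ j, ‖f j‖ ≤ R) →
            ‖B (∑ j, rs (wtM F m (χ j)) (f j)) - ∑ j, rs (wtM F m (χ j)) (B (f j)) -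
              ∑ j, ∑ g ∈ E, W j g ((f j).comp (cact K g))‖ ≤ ε * R := by
  classical
  obtain ⟨E, A, hA, hEA⟩ := hB
  obtain ⟨S0, hS1⟩ : ∃ S0 : ℝ, S0 = ∑ g ∈ E, ‖A g‖ := ⟨_, rfl⟩
  have hS : 0 ≤ S0 := by
    rw [hS1]
    exact Finset.sum_nonneg fun g _ => norm_nonneg _
  obtain ⟨F, m, hm, hm0, hm1, hm2⟩ := hG E (ε / (S0 + 1)) (by positivity)
  refine ⟨E, F, m, hm, hm1, ?_⟩
  intro n χ hχ hχ1
  have hW : ∀ (j : Fin n) (g : M), ∃ W : C(K, 𝕜) →L[𝕜] C(K, 𝕜), g ∈ E →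
      WComp W ∧ ∀ f : C(K, 𝕜),
        W f = A g (rs (wtM F m (χ j)) 1 * f) - rs (wtM F m (χ j)) 1 * A g f := by
    intro j g
    by_cases hg : g ∈ E
    · obtain ⟨W, hW1, hW2⟩ := hA g hg (rs (wtM F m (χ j)) 1)
      exact ⟨W, fun _ => ⟨hW1, hW2⟩⟩
    · exact ⟨0, fun h => absurd h hg⟩
  choose W hW using hW
  refine ⟨W, fun j g hg => (hW j g hg).1, ?_⟩
  intro f R hR hf
  have hcomp : ∀ g : M, (∑ j, rs (wtM F m (χ j)) (f j)).comp (cact K g) =
      ∑ j, rs ((wtM F m (χ j)).comp (cact K g)) ((f j).comp (cact K g)) := by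
    intro g
    ext x
    rw [ContinuousMap.comp_apply, ContinuousMap.sum_apply, ContinuousMap.sum_apply]
    rfl
  have h1 : B (∑ j, rs (wtM F m (χ j)) (f j)) =
      ∑ g ∈ E, A g (∑ j, rs ((wtM F m (χ j)).comp (cact K g)) ((f j).comp (cact K g))) := by
    rw [hEA]
    exact Finset.sum_congr rfl fun g _ => by rw [hcomp]
  have h2 : ∀ j, rs (wtM F m (χ j)) (B (f j)) =
      ∑ g ∈ E, rs (wtM F m (χ j)) 1 * A g ((f j).comp (cact K g)) := by
    intro j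
    rw [hEA, CmU_rs_sum]
  have h3 : ∀ j, ∑ g ∈ E, W j g ((f j).comp (cact K g)) =
      ∑ g ∈ E, (A g (rs (wtM F m (χ j)) ((f j).comp (cact K g))) -
        rs (wtM F m (χ j)) 1 * A g ((f j).comp (cact K g))) := by
    intro j
    refine Finset.sum_congr rfl fun g hg => ?_
    rw [(hW j g hg).2, ← CmU_rs]
  have h4 : B (∑ j, rs (wtM F m (χ j)) (f j)) - ∑ j, rs (wtM F m (χ j)) (B (f j)) -
      ∑ j, ∑ g ∈ E, W j g ((f j).comp (cact K g)) =
      ∑ g ∈ E, A g (∑ j, (rs ((wtM F m (χ j)).comp (cact K g)) ((f j).comp (cact K g)) -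
        rs (wtM F m (χ j)) ((f j).comp (cact K g)))) := by
    rw [h1, sub_sub, ← Finset.sum_add_distrib]
    have h5 : ∀ j, rs (wtM F m (χ j)) (B (f j)) + ∑ g ∈ E, W j g ((f j).comp (cact K g)) =
        ∑ g ∈ E, A g (rs (wtM F m (χ j)) ((f j).comp (cact K g))) := by
      intro j
      rw [h2, h3, ← Finset.sum_add_distrib]
      exact Finset.sum_congr rfl fun g _ => by abel
    rw [Finset.sum_congr rfl fun j _ => h5 j, Finset.sum_comm, ← Finset.sum_sub_distrib]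
    refine Finset.sum_congr rfl fun g _ => ?_
    rw [← map_sum, ← map_sub, Finset.sum_sub_distrib]
  rw [h4]
  have h6 : ∀ g ∈ E, ‖A g (∑ j, (rs ((wtM F m (χ j)).comp (cact K g)) ((f j).comp (cact K g)) -
      rs (wtM F m (χ j)) ((f j).comp (cact K g))))‖ ≤ ‖A g‖ * (ε / (S0 + 1) * R) := by
    intro g hg
    refine (A g).le_opNorm_of_le ?_
    rw [ContinuousMap.norm_le _ (by positivity)]
    intro x
    rw [ContinuousMap.sum_apply]
    have h5 : ∀ j ∈ Finset.univ, ‖(rs ((wtM F m (χ j)).comp (cact K g)) ((f j).comp (cact K g)) -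
        rs (wtM F m (χ j)) ((f j).comp (cact K g))) x‖ ≤
        |wtM F m (χ j) (g • x) - wtM F m (χ j) x| * R := by
      intro j _
      have h7 : (rs ((wtM F m (χ j)).comp (cact K g)) ((f j).comp (cact K g)) -
          rs (wtM F m (χ j)) ((f j).comp (cact K g))) x =
          ((wtM F m (χ j) (g • x) - wtM F m (χ j) x : ℝ) : 𝕜) * f j (g • x) := by
        show ((wtM F m (χ j) (g • x) : ℝ) : 𝕜) * f j (g • x) -
          ((wtM F m (χ j) x : ℝ) : 𝕜) * f j (g • x) = _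
        push_cast
        ring
      rw [h7, norm_mul, RCLike.norm_ofReal]
      exact mul_le_mul_of_nonneg_left (((f j).norm_coe_le_norm _).trans (hf j)) (abs_nonneg _)
    refine (norm_sum_le_of_le _ h5).trans ?_
    rw [← Finset.sum_mul]
    exact mul_le_mul_of_nonneg_right (CmU_wt hm0 (hm2 g hg x) hχ hχ1) hR
  refine (norm_sum_le_of_le _ h6).trans ?_
  rw [← Finset.sum_mul, ← hS1]
  have h8 : S0 * (ε / (S0 + 1)) ≤ ε := by
    rw [mul_div_assoc', div_le_iff₀ (by linarith)]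
    nlinarith
  calc S0 * (ε / (S0 + 1) * R) = S0 * (ε / (S0 + 1)) * R := by ring
    _ ≤ ε * R := mul_le_mul_of_nonneg_right h8 hR

end Pool.Agent.H.MP_f11573_an
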