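import Mathlib

/-!
# MP_f11573_an: definitions

`Groth`, `WComp`, `FunOp`, `TopAmen`, `Foelner` are used in the hand-in, the others are auxiliary.
-/

set_option autoImplicit false

open Filter Topology Set Metric MeasureTheory

namespace Pool.Agent.H.MP_f11573_an

/-- The Grothendieck property: every weak-star convergent sequence in the dual converges weakly. -/
def Groth (𝕜 : Type*) [RCLike 𝕜] (X : Type*) [NormedAddCommGroup X] [NormedSpace 𝕜 X] : Prop :=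
  ∀ (u : ℕ → (X →L[𝕜] 𝕜)) (v : X →L[𝕜] 𝕜),
    (∀ x : X, Tendsto (fun n => u n x) atTop (𝓝 (v x))) →
      ∀ Φ : (X →L[𝕜] 𝕜) →L[𝕜] 𝕜, Tendsto (fun n => Φ (u n)) atTop (𝓝 (Φ v))

/-- Weakly compact operators: the weak closure of the image of the unit ball is weakly compact. -/
def WComp {𝕜 : Type*} [RCLike 𝕜] {X : Type*} [NormedAddCommGroup X] [NormedSpace 𝕜 X]
    (S : X →L[𝕜] X) : Prop :=
  IsCompact (closure (toWeakSpace 𝕜 X '' (S '' closedBall (0 : X) 1)))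

/-- The operators `f ↦ ∑ g ∈ E, a g * (f ∘ g)`, `E` a finite subset of the group `G`,
`a g` in `C(K)`. -/
def FunOp (𝕜 : Type*) [RCLike 𝕜] (G K : Type*) [TopologicalSpace K] [CompactSpace K]
    [Group G] [MulAction G K] : Set (C(K, 𝕜) →L[𝕜] C(K, 𝕜)) :=
  {B | ∃ (E : Finset G) (a : G → C(K, 𝕜)),
    ∀ (f : C(K, 𝕜)) (x : K), B f x = ∑ g ∈ E, a g x * f (g • x)}

/-- Topologically amenable actions of a (discrete) group on a compact space: there are continuous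
maps `x ↦ m · x` from `K` to the probability measures on a finite subset of `G`, which are
almost equivariant in `ℓ_1(G)`. -/
def TopAmen (G K : Type*) [TopologicalSpace K] [Group G] [MulAction G K] : Prop :=
  ∀ (E : Finset G) (ε : ℝ), 0 < ε → ∃ (F : Finset G) (m : G → C(K, ℝ)),
    (∀ k x, 0 ≤ m k x) ∧ (∀ k, k ∉ F → ∀ x, m k x = 0) ∧ (∀ x, ∑ k ∈ F, m k x = 1) ∧
      ∀ g ∈ E, ∀ (x : K) (H : Finset G), ∑ k ∈ H, |m (g * k) (g • x) - m k x| ≤ ε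

/-- Amenability of a discrete group, by Foelner sets. -/
def Foelner (G : Type*) [Group G] : Prop :=
  ∀ (E : Finset G) (ε : ℝ), 0 < ε → ∃ F : Finset G, F.Nonempty ∧
    ∀ g ∈ E, ({k : G | k ∈ F ∧ g * k ∉ F}.ncard : ℝ) ≤ ε * F.card

section aux

variable {𝕜 : Type*} [RCLike 𝕜] {K : Type*} [TopologicalSpace K] [CompactSpace K]

/-- the evaluation at `t` -/
noncomputable def dl (t : K) : C(K, 𝕜) →L[𝕜] 𝕜 := ContinuousMap.evalCLM 𝕜 t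

/-- the functional `∑ a_t δ_t` -/
noncomputable def ev : (K →₀ 𝕜) →ₗ[𝕜] (C(K, 𝕜) →L[𝕜] 𝕜) := Finsupp.linearCombination 𝕜 dl

/-- the `ℓ_1` norm -/
noncomputable def nrm (a : K →₀ 𝕜) : ℝ := ∑ t ∈ a.support, ‖a t‖

/-- `μ` has no atom at `q` -/
def NoAtom (μ : C(K, 𝕜) →L[𝕜] 𝕜) (q : K) : Prop :=
  ∀ δ : ℝ, 0 < δ → ∃ V : Set K, IsOpen V ∧ q ∈ V ∧
    ∀ f : C(K, 𝕜), (∀ x, x ∉ V → f x = 0) → ‖μ f‖ ≤ δ * ‖f‖

/-- `A f = h` is approximately solvable on finite sets off `Q`, with `‖f‖ ≤ C` -/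
def Solv (A : C(K, 𝕜) →L[𝕜] C(K, 𝕜)) (Q : Finset K) (C : ℝ) : Prop :=
  ∀ P : Finset K, Disjoint P Q → ∀ h : C(K, 𝕜), ‖h‖ ≤ 1 → ∀ ε : ℝ, 0 < ε →
    ∃ f : C(K, 𝕜), ‖f‖ ≤ C ∧ ∀ p ∈ P, ‖A f p - h p‖ ≤ ε

/-- product of a real function and a scalar function -/
noncomputable def rs (w : C(K, ℝ)) (f : C(K, 𝕜)) : C(K, 𝕜) :=
  ⟨fun x => (w x : 𝕜) * f x, (RCLike.continuous_ofReal.comp w.continuous).mul f.continuous⟩

/-- the weight -/
noncomputable def wt {G : Type*} [Group G] [MulAction G K] [ContinuousConstSMul G K]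
    (F : Finset G) (m : G → C(K, ℝ)) (χ : C(K, ℝ)) : C(K, ℝ) :=
  ⟨fun x => ∑ k ∈ F, m k x * χ (k⁻¹ • x), by fun_prop⟩

/-- the gluing property of an operator -/
def Loc (G : Type*) [Group G] [MulAction G K] [ContinuousConstSMul G K]
    (A : C(K, 𝕜) →L[𝕜] C(K, 𝕜)) : Prop :=
  ∀ ε : ℝ, 0 < ε → ∃ (F : Finset G) (m : G → C(K, ℝ)),
    (∀ k x, 0 ≤ m k x) ∧ (∀ x, ∑ k ∈ F, m k x = 1) ∧
    ∀ (n : ℕ) (χ : Fin n → C(K, ℝ)), (∀ j x, 0 ≤ χ j x) → (∀ x, ∑ j, χ j x = 1) →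
      ∀ (f : Fin n → C(K, 𝕜)) (R : ℝ), (∀ j, ‖f j‖ ≤ R) → ∀ x,
        ‖A (∑ j, rs (wt F m (χ j)) (f j)) x - ∑ j, (wt F m (χ j) x : 𝕜) * A (f j) x‖ ≤ ε * R

/-- the measure `ν` dominates the functional `μ` -/
def Dom [MeasurableSpace K] (μ : C(K, 𝕜) →L[𝕜] 𝕜) (ν : Measure K) : Prop :=
  ∀ g : C(K, 𝕜), ‖μ g‖ ≤ ∫ x, ‖g x‖ ∂ν

end aux

end Pool.Agent.H.MP_f11573_an
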