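import Pool.Agent.H.MP_f11573_an.Def

/-!
# Def2: more definitions

`Sep`, `CechDisc`, `WStar` and `ModW` are used in the hand-in, `Glb` is auxiliary.
-/

set_option autoImplicit false

open Filter Topology Set Metric MeasureTheory

namespace Pool.Agent.H.MP_f11573_an

/-- Separating (disjointness preserving) operators: `f g = 0` implies `(A f) (A g) = 0`. -/
def Sep {𝕜 : Type*} [RCLike 𝕜] {K : Type*} [TopologicalSpace K] [CompactSpace K]
    (A : C(K, 𝕜) →L[𝕜] C(K, 𝕜)) : Prop :=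
  ∀ f g : C(K, 𝕜), f * g = 0 → A f * A g = 0

/-- `D` is dense in `K` and every bounded function on `D` extends to a continuous function on `K`
(so `K` is the Stone-Cech compactification of the discrete set `D`, and `C(K)` is `ℓ_∞(D)`). -/
def CechDisc (𝕜 : Type*) [RCLike 𝕜] {K : Type*} [TopologicalSpace K] (D : Set K) : Prop :=
  Dense D ∧ ∀ g : K → 𝕜, (∃ M : ℝ, ∀ x, ‖g x‖ ≤ M) → ∃ f : C(K, 𝕜), ∀ d ∈ D, f d = g d

/-- The functionals `f ↦ A f d`, `d ∈ D`, are in the closed span of the evaluations at the points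
of `D` (for `K = βD` this says that `A` is the adjoint of an operator on `ℓ_1(D)`). -/
def WStar {𝕜 : Type*} [RCLike 𝕜] {K : Type*} [TopologicalSpace K] [CompactSpace K] (D : Set K)
    (A : C(K, 𝕜) →L[𝕜] C(K, 𝕜)) : Prop :=
  ∀ d ∈ D, (ContinuousMap.evalCLM 𝕜 d).comp A ∈
    closure (Submodule.span 𝕜 ((fun e : K => (ContinuousMap.evalCLM 𝕜 e : C(K, 𝕜) →L[𝕜] 𝕜)) '' D)
      : Set (C(K, 𝕜) →L[𝕜] 𝕜))

/-- The norm closure of the operators `A + S`, `A` in the class `P`, `S` weakly compact. -/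
def ModW {𝕜 : Type*} [RCLike 𝕜] {K : Type*} [TopologicalSpace K] [CompactSpace K]
    (P : Set (C(K, 𝕜) →L[𝕜] C(K, 𝕜))) : Set (C(K, 𝕜) →L[𝕜] C(K, 𝕜)) :=
  closure {B | ∃ A S : C(K, 𝕜) →L[𝕜] C(K, 𝕜), A ∈ P ∧ WComp S ∧ B = A + S}

/-- the gluing property in its final form -/
def Glb {𝕜 : Type*} [RCLike 𝕜] {K : Type*} [TopologicalSpace K] [CompactSpace K]
    (A : C(K, 𝕜) →L[𝕜] C(K, 𝕜)) : Prop :=
  ∀ (Q : Finset K) (C : ℝ), 0 < C → Solv A Q C → ∀ V : Set K, IsOpen V → (∀ q ∈ Q, q ∈ V) →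
    ∀ h : C(K, 𝕜), ‖h‖ ≤ 1 → ∀ ε : ℝ, 0 < ε →
      ∃ f : C(K, 𝕜), ‖f‖ ≤ C ∧ ∀ x, x ∉ V → ‖A f x - h x‖ ≤ ε

end Pool.Agent.H.MP_f11573_an
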