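import Pool.Agent.H.MP_f11573_an.Def2

/-!
# Def3: monoid actions

`FunOpM`, `TopAmenM` and `FinTo` are used in the hand-in, the others are auxiliary.
-/

set_option autoImplicit false

open Filter Topology Set Metric MeasureTheory

namespace Pool.Agent.H.MP_f11573_an

/-- The operators `f ↦ ∑ g ∈ E, a g * (f ∘ g)`, `E` a finite subset of the monoid `M`,
`a g` in `C(K)`. -/
def FunOpM (𝕜 : Type*) [RCLike 𝕜] (M K : Type*) [TopologicalSpace K] [CompactSpace K]
    [Monoid M] [MulAction M K] : Set (C(K, 𝕜) →L[𝕜] C(K, 𝕜)) :=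
  {B | ∃ (E : Finset M) (a : M → C(K, 𝕜)),
    ∀ (f : C(K, 𝕜)) (x : K), B f x = ∑ g ∈ E, a g x * f (g • x)}

/-- The maps `x ↦ g • x` are finite-to-one (for a group: automatic). -/
def FinTo (M K : Type*) [Monoid M] [MulAction M K] : Prop :=
  ∀ (g : M) (t : K), {x : K | g • x = t}.Finite

open scoped Classical in
/-- Topologically amenable actions of a (discrete) monoid on a compact space: there are continuous
maps `x ↦ m · x` from `K` to the probability measures on a finite subset of `M`, such that in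
`ℓ_1(M)` the right translate by `g` of the measure at `g • x` is close to the measure at `x`. -/
def TopAmenM (M K : Type*) [TopologicalSpace K] [Monoid M] [MulAction M K] : Prop :=
  ∀ (E : Finset M) (ε : ℝ), 0 < ε → ∃ (F : Finset M) (m : M → C(K, ℝ)),
    (∀ k x, 0 ≤ m k x) ∧ (∀ k, k ∉ F → ∀ x, m k x = 0) ∧ (∀ x, ∑ k ∈ F, m k x = 1) ∧
      ∀ g ∈ E, ∀ (x : K) (H : Finset M),
        ∑ l ∈ H, |(∑ k ∈ F, if k * g = l then m k (g • x) else 0) - m l x| ≤ ε

section aux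

variable {𝕜 : Type*} [RCLike 𝕜] {K : Type*} [TopologicalSpace K] [CompactSpace K]

/-- the weight -/
noncomputable def wtM {M : Type*} [Monoid M] [MulAction M K] [ContinuousConstSMul M K]
    (F : Finset M) (m : M → C(K, ℝ)) (χ : C(K, ℝ)) : C(K, ℝ) :=
  ⟨fun x => ∑ k ∈ F, m k x * χ (k • x), by fun_prop⟩

/-- the gluing property of an operator, monoids -/
def LocM (M : Type*) [Monoid M] [MulAction M K] [ContinuousConstSMul M K]
    (A : C(K, 𝕜) →L[𝕜] C(K, 𝕜)) : Prop :=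
  ∀ ε : ℝ, 0 < ε → ∃ (F : Finset M) (m : M → C(K, ℝ)),
    (∀ k x, 0 ≤ m k x) ∧ (∀ x, ∑ k ∈ F, m k x = 1) ∧
    ∀ (n : ℕ) (χ : Fin n → C(K, ℝ)), (∀ j x, 0 ≤ χ j x) → (∀ x, ∑ j, χ j x = 1) →
      ∀ (f : Fin n → C(K, 𝕜)) (R : ℝ), (∀ j, ‖f j‖ ≤ R) → ∀ x,
        ‖A (∑ j, rs (wtM F m (χ j)) (f j)) x - ∑ j, (wtM F m (χ j) x : 𝕜) * A (f j) x‖ ≤ ε * R

end aux

end Pool.Agent.H.MP_f11573_an
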