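import Pool.Agent.H.MP_f11573_an.Def3

/-!
# Def4: essentially local operators

`EssLoc`, `cact` and `FunEss` are used in the hand-in.
-/

set_option autoImplicit false

open Filter Topology Set Metric MeasureTheory

namespace Pool.Agent.H.MP_f11573_an

/-- Essentially local operators: for every `a` in `C(K)` the commutator of `A` with the
multiplication by `a` is weakly compact. -/
def EssLoc {𝕜 : Type*} [RCLike 𝕜] {K : Type*} [TopologicalSpace K] [CompactSpace K]
    (A : C(K, 𝕜) →L[𝕜] C(K, 𝕜)) : Prop :=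
  ∀ a : C(K, 𝕜), ∃ W : C(K, 𝕜) →L[𝕜] C(K, 𝕜), WComp W ∧
    ∀ f : C(K, 𝕜), W f = A (a * f) - a * A f

/-- The map `x ↦ g • x`. -/
def cact {M : Type*} (K : Type*) [TopologicalSpace K] [Monoid M] [MulAction M K]
    [ContinuousConstSMul M K] (g : M) : C(K, K) :=
  ⟨fun x => g • x, continuous_const_smul g⟩

/-- The operators `f ↦ ∑ g ∈ E, A g (f ∘ g)`, `E` a finite subset of the monoid `M`, `A g`
essentially local. -/
def FunEss (𝕜 : Type*) [RCLike 𝕜] (M K : Type*) [TopologicalSpace K] [CompactSpace K]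
    [Monoid M] [MulAction M K] [ContinuousConstSMul M K] : Set (C(K, 𝕜) →L[𝕜] C(K, 𝕜)) :=
  {B | ∃ (E : Finset M) (A : M → (C(K, 𝕜) →L[𝕜] C(K, 𝕜))), (∀ g ∈ E, EssLoc (A g)) ∧
    ∀ f : C(K, 𝕜), B f = ∑ g ∈ E, A g (f.comp (cact K g))}

end Pool.Agent.H.MP_f11573_an
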