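import Pool.Agent.H.MP_f11573_an.Def2

/-!
# DjA: separating functionals

PROOF: claim: there is `y` such that `l f = 0` for all `f` which vanish on a neighbourhood of `y`. Otherwise for every `y` there are an
open `V y ∋ y` and `f y` vanishing on `V y` with `l (f y) ≠ 0`. By compactness finitely many `V (y_i)` cover `K`; partition of unity
`χ i` (`exists_continuous_sum_one_of_isOpen_isCompact`), `χ i = 0` off `V (y_i)`. For any `g`: `(rs (χ i) g) * f (y_i) = 0`, so
`l (rs (χ i) g) = 0`, and `l g = ∑ l (rs (χ i) g) = 0`, so `l = 0`. Now if `f y = 0` then `f` is a uniform limit of functions vanishing near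
`y` (multiply by a Urysohn function that is `0` on a neighbourhood of `y` where `‖f‖` is small: take `{‖f‖ ≤ η}` and `{‖f‖ ≥ 2 η}`), so
`l f = 0`. For general `f`: `l f = l (f - f y • 1) + f y * l 1`.
-/

set_option autoImplicit false

open Filter Topology Set Metric MeasureTheory

namespace Pool.Agent.H.MP_f11573_an

variable {𝕜 : Type*} [RCLike 𝕜] {K : Type*} [TopologicalSpace K] [CompactSpace K] [T2Space K]

private theorem DjA_loc {l : C(K, 𝕜) →L[𝕜] 𝕜} (hl : l ≠ 0)
    (hs : ∀ f g : C(K, 𝕜), f * g = 0 → l f * l g = 0) :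
    ∃ y : K, ∀ (f : C(K, 𝕜)) (V : Set K), IsOpen V → y ∈ V → (∀ x ∈ V, f x = 0) → l f = 0 := by
  by_contra hcon
  push Not at hcon
  choose f V hVo hyV hfV hlf using hcon
  obtain ⟨t, ht⟩ := isCompact_univ.elim_finite_subcover V hVo
    (fun x _ => mem_iUnion.2 ⟨x, hyV x⟩)
  let e := t.equivFin.symm
  have hcov : (univ : Set K) ⊆ ⋃ i : Fin t.card, V ((e i : t) : K) := by
    intro x hx
    obtain ⟨y, hy, hxy⟩ := mem_iUnion₂.1 (ht hx)
    refine mem_iUnion.2 ⟨t.equivFin ⟨y, hy⟩, ?_⟩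
    simp only [e, Equiv.symm_apply_apply]
    exact hxy
  obtain ⟨χ, hχs, hχ1, -, -⟩ := exists_continuous_sum_one_of_isOpen_isCompact
    (s := fun i : Fin t.card => V ((e i : t) : K)) (fun i => hVo _) isCompact_univ hcov
  apply hl
  ext g
  have hsum : g = ∑ i, rs (χ i) g := by
    ext x
    have h1 := hχ1 (mem_univ x)
    simp only [Finset.sum_apply, Pi.one_apply] at h1
    have h2 : (∑ i, rs (χ i) g) x = ∑ i, ((χ i x : ℝ) : 𝕜) * g x := by
      simp [rs, ContinuousMap.sum_apply]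
    rw [h2, ← Finset.sum_mul, ← RCLike.ofReal_sum, h1]
    simp
  have hz : ∀ i, l (rs (χ i) g) = 0 := by
    intro i
    have h := hs (rs (χ i) g) (f ((e i : t) : K)) ?_
    · rcases mul_eq_zero.1 h with h | h
      · exact h
      · exact absurd h (hlf _)
    · ext x
      by_cases hx : x ∈ V ((e i : t) : K)
      · have := hfV _ x hx
        simp [this]
      · have h0 : χ i x = 0 := by
          by_contra hne
          exact hx (hχs i (subset_tsupport _ hne))
        simp [rs, h0]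
  rw [hsum, map_sum]
  simp [hz]

omit [T2Space K] in
private theorem DjA_lim {l : C(K, 𝕜) →L[𝕜] 𝕜} {y : K}
    (hy : ∀ (f : C(K, 𝕜)) (V : Set K), IsOpen V → y ∈ V → (∀ x ∈ V, f x = 0) → l f = 0)
    (f : C(K, 𝕜)) (hf : f y = 0) : l f = 0 := by
  have key : ∀ η : ℝ, 0 < η → ‖l f‖ ≤ ‖l‖ * (2 * η) := by
    intro η hη
    let w : C(K, ℝ) := ⟨fun x => max 0 (min 1 (‖f x‖ / η - 1)), by fun_prop⟩
    have hw : ∀ x, w x = max 0 (min 1 (‖f x‖ / η - 1)) := fun x => rfl
    have h0 : l (rs w f) = 0 := by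
      refine hy (rs w f) {x | ‖f x‖ < η} (isOpen_lt (by fun_prop) continuous_const) ?_ ?_
      · change ‖f y‖ < η
        rw [hf, norm_zero]
        exact hη
      · intro x hx
        have hx' : ‖f x‖ < η := hx
        have h1 : ‖f x‖ / η - 1 ≤ 0 := by
          have : ‖f x‖ / η ≤ 1 := (div_le_one hη).2 hx'.le
          linarith
        have h2 : w x = 0 := by
          rw [hw]
          exact max_eq_left ((min_le_right _ _).trans h1)
        change ((w x : ℝ) : 𝕜) * f x = 0
        rw [h2]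
        simp
    have h3 : ‖f - rs w f‖ ≤ 2 * η := by
      rw [ContinuousMap.norm_le _ (by positivity)]
      intro x
      have h4 : (f - rs w f) x = ((1 - w x : ℝ) : 𝕜) * f x := by
        change f x - ((w x : ℝ) : 𝕜) * f x = _
        push_cast
        ring
      have hw0 : 0 ≤ w x := by
        rw [hw]
        exact le_max_left _ _
      have hw1 : w x ≤ 1 := by
        rw [hw]
        exact max_le zero_le_one (min_le_left _ _)
      rw [h4, norm_mul, RCLike.norm_ofReal, abs_of_nonneg (by linarith)]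
      by_cases hx : ‖f x‖ ≤ 2 * η
      · calc (1 - w x) * ‖f x‖ ≤ 1 * ‖f x‖ :=
              mul_le_mul_of_nonneg_right (by linarith) (norm_nonneg _)
          _ ≤ 2 * η := by linarith
      · push Not at hx
        have h5 : 1 ≤ ‖f x‖ / η - 1 := by
          have : 2 ≤ ‖f x‖ / η := by
            rw [le_div_iff₀ hη]
            exact hx.le
          linarith
        have h6 : w x = 1 := by
          rw [hw, min_eq_left h5]
          exact max_eq_right zero_le_one
        rw [h6]
        simp only [sub_self, zero_mul]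
        positivity
    have h7 : l f = l (f - rs w f) := by
      rw [map_sub, h0, sub_zero]
    rw [h7]
    calc ‖l (f - rs w f)‖ ≤ ‖l‖ * ‖f - rs w f‖ := l.le_opNorm _
      _ ≤ ‖l‖ * (2 * η) := mul_le_mul_of_nonneg_left h3 (norm_nonneg _)
  by_contra hne
  have hpos : 0 < ‖l f‖ := norm_pos_iff.2 hne
  have hM : 0 < ‖l‖ + 1 := by positivity
  have h := key (‖l f‖ / (4 * (‖l‖ + 1))) (by positivity)
  have h2 : ‖l‖ * (2 * (‖l f‖ / (4 * (‖l‖ + 1)))) ≤ ‖l f‖ / 2 := by
    have h3 : ‖l‖ * (2 * (‖l f‖ / (4 * (‖l‖ + 1)))) = ‖l f‖ / 2 * (‖l‖ / (‖l‖ + 1)) := by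
      field_simp
      ring
    rw [h3]
    have h4 : ‖l‖ / (‖l‖ + 1) ≤ 1 := (div_le_one hM).2 (by linarith)
    calc ‖l f‖ / 2 * (‖l‖ / (‖l‖ + 1)) ≤ ‖l f‖ / 2 * 1 :=
          mul_le_mul_of_nonneg_left h4 (by positivity)
      _ = ‖l f‖ / 2 := mul_one _
  linarith

theorem single_of_sep {l : C(K, 𝕜) →L[𝕜] 𝕜} (hl : l ≠ 0)
    (hs : ∀ f g : C(K, 𝕜), f * g = 0 → l f * l g = 0) :
    ∃ y : K, ∀ f : C(K, 𝕜), l f = l 1 * f y := by
  obtain ⟨y, hy⟩ := DjA_loc hl hs
  refine ⟨y, fun f => ?_⟩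
  have h := DjA_lim hy (f - f y • (1 : C(K, 𝕜))) (by simp)
  rw [map_sub, map_smul, smul_eq_mul, sub_eq_zero] at h
  rw [h, mul_comm]

end Pool.Agent.H.MP_f11573_an
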