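import Pool.Agent.H.MP_f11573_an.DjA

/-!
# DjB: the structure of a separating operator

PROOF: for `x ∉ Q` the functional `l = dl x ∘ A` is separating, and not `0`: `hs` with `P = {x}`, `h = 1`, `ε = 1 / 2`. So `φ x` exists by
`single_of_sep` (choose; `φ x = x` for `x ∈ Q`). Lower bound: for all `ε > 0` there is `f` with `‖f‖ ≤ C`, `‖A f x - 1‖ ≤ ε`, so
`1 - ε ≤ ‖A 1 x‖ C`. Injectivity: let `x ≠ x'` be off `Q`, `φ x = φ x' = y`. Urysohn: `h x = 1`, `h x' = 0`, `‖h‖ ≤ 1`; `f` from `hs` for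
`P = {x, x'}` and `ε > 0`: `‖A 1 x' * f y‖ ≤ ε`, so `‖f y‖ ≤ ε C`, and `‖A 1 x * f y - 1‖ ≤ ε`, so
`1 - ε ≤ ‖A 1‖ ε C`, false for small `ε`.
-/

set_option autoImplicit false

open Filter Topology Set Metric MeasureTheory

namespace Pool.Agent.H.MP_f11573_an

variable {𝕜 : Type*} [RCLike 𝕜] {K : Type*} [TopologicalSpace K] [CompactSpace K] [T2Space K]

theorem sep_struct {A : C(K, 𝕜) →L[𝕜] C(K, 𝕜)} (hA : Sep A) {Q : Finset K} {C : ℝ}
    (hC : 0 < C) (hs : Solv A Q C) :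
    ∃ φ : K → K, (∀ x, x ∉ Q → ∀ f : C(K, 𝕜), A f x = A 1 x * f (φ x)) ∧
      (∀ x, x ∉ Q → 1 / C ≤ ‖A 1 x‖) ∧
      ∀ x y, x ∉ Q → y ∉ Q → φ x = φ y → x = y := by
  classical
  have h1n : ‖(1 : C(K, 𝕜))‖ ≤ 1 :=
    (ContinuousMap.norm_le _ zero_le_one).2 fun x => by
      rw [ContinuousMap.one_apply, norm_one]
  have hex : ∀ x, ∃ y, x ∉ Q → ∀ f : C(K, 𝕜), A f x = A 1 x * f y := by
    intro x
    by_cases hx : x ∈ Q
    · exact ⟨x, fun h => absurd hx h⟩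
    · have hl : (dl x).comp A ≠ 0 := by
        intro h0
        obtain ⟨f, -, hf⟩ := hs {x} (Finset.disjoint_singleton_left.2 hx) 1 h1n (1 / 2)
          (by norm_num)
        have h2 := hf x (Finset.mem_singleton_self x)
        have h3 : A f x = 0 := by
          have h4 : ((dl x).comp A) f = (0 : C(K, 𝕜) →L[𝕜] 𝕜) f := by rw [h0]
          exact h4
        rw [h3, ContinuousMap.one_apply, zero_sub, norm_neg, norm_one] at h2
        norm_num at h2
      obtain ⟨y, hy⟩ := single_of_sep hl (by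
        intro f g hfg
        have h2 := hA f g hfg
        have h3 : (A f * A g) x = (0 : C(K, 𝕜)) x := by rw [h2]
        exact h3)
      exact ⟨y, fun _ => hy⟩
  choose φ hφ using hex
  have hlow : ∀ x, x ∉ Q → 1 / C ≤ ‖A 1 x‖ := by
    intro x hx
    rw [div_le_iff₀ hC]
    refine le_of_forall_pos_le_add fun ε hε => ?_
    obtain ⟨f, hf1, hf2⟩ := hs {x} (Finset.disjoint_singleton_left.2 hx) 1 h1n ε hε
    have h2 := hf2 x (Finset.mem_singleton_self x)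
    rw [hφ x hx f, ContinuousMap.one_apply] at h2
    have h3 : ‖A 1 x * f (φ x)‖ ≤ ‖A 1 x‖ * C := by
      rw [norm_mul]
      exact mul_le_mul_of_nonneg_left ((f.norm_coe_le_norm _).trans hf1) (norm_nonneg _)
    have h4 : ‖(1 : 𝕜)‖ ≤ ‖A 1 x * f (φ x)‖ + ‖A 1 x * f (φ x) - 1‖ := by
      have h5 := norm_sub_le (A 1 x * f (φ x)) (A 1 x * f (φ x) - 1)
      rwa [sub_sub_cancel] at h5
    rw [norm_one] at h4
    linarith
  refine ⟨φ, hφ, hlow, ?_⟩
  intro x y hx hy hxy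
  by_contra hne
  obtain ⟨w, hw0, hw1, hw2⟩ := exists_continuous_zero_one_of_isClosed
    (s := {y}) (t := {x}) isClosed_singleton isClosed_singleton
    (Set.disjoint_singleton.2 (Ne.symm hne))
  have hwx : w x = 1 := hw1 (Set.mem_singleton x)
  have hwy : w y = 0 := hw0 (Set.mem_singleton y)
  have hrs : ∀ t, rs w (1 : C(K, 𝕜)) t = (w t : 𝕜) := by
    intro t
    show (w t : 𝕜) * (1 : C(K, 𝕜)) t = _
    rw [ContinuousMap.one_apply, mul_one]
  have hh : ‖rs w (1 : C(K, 𝕜))‖ ≤ 1 :=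
    (ContinuousMap.norm_le _ zero_le_one).2 fun t => by
      rw [hrs, RCLike.norm_ofReal, abs_of_nonneg (hw2 t).1]
      exact (hw2 t).2
  obtain ⟨N, hN⟩ : ∃ N : ℝ, N = ‖A 1 x‖ := ⟨_, rfl⟩
  have hN0 : 0 ≤ N := by
    rw [hN]
    exact norm_nonneg _
  have hNC : 0 < 1 + N * C := by positivity
  have hε : 0 < 1 / (2 * (1 + N * C)) := by positivity
  obtain ⟨f, hf1, hf2⟩ := hs {x, y} (by
    rw [Finset.disjoint_left]
    intro t ht
    rcases Finset.mem_insert.1 ht with h | h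
    · rw [h]
      exact hx
    · rw [Finset.mem_singleton.1 h]
      exact hy) (rs w 1) hh (1 / (2 * (1 + N * C))) hε
  have h2 := hf2 x (Finset.mem_insert_self _ _)
  have h3 := hf2 y (Finset.mem_insert_of_mem (Finset.mem_singleton_self _))
  rw [hφ x hx f, hrs, hwx, RCLike.ofReal_one] at h2
  rw [hφ y hy f, hrs, hwy, RCLike.ofReal_zero, sub_zero, norm_mul, ← hxy] at h3
  have h4 : ‖f (φ x)‖ ≤ 1 / (2 * (1 + N * C)) * C := by
    have h5 := mul_le_mul_of_nonneg_right (hlow y hy) (norm_nonneg (f (φ x)))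
    have h6 := h5.trans h3
    rw [one_div, inv_mul_le_iff₀ hC] at h6
    linarith
  have h7 : ‖(1 : 𝕜)‖ ≤ ‖A 1 x * f (φ x)‖ + ‖A 1 x * f (φ x) - 1‖ := by
    have h5 := norm_sub_le (A 1 x * f (φ x)) (A 1 x * f (φ x) - 1)
    rwa [sub_sub_cancel] at h5
  rw [norm_one, norm_mul, ← hN] at h7
  have h8 : N * ‖f (φ x)‖ ≤ N * (1 / (2 * (1 + N * C)) * C) := mul_le_mul_of_nonneg_left h4 hN0
  have h9 : N * (1 / (2 * (1 + N * C)) * C) + 1 / (2 * (1 + N * C)) = 1 / 2 := by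
    field_simp
    ring
  linarith

end Pool.Agent.H.MP_f11573_an
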