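import Pool.Agent.H.MP_f11573_an.Def2

/-!
# DjC: composition with an injective map

PROOF of `cont_of_rep`: let `x ∈ U` and `W` an open neighbourhood of `φ x`. Urysohn: `f (φ x) = 1`, `f = 0` off `W`. `A f x = A 1 x ≠ 0`, so
`A f x' ≠ 0` for `x'` in a neighbourhood of `x`, so for `x' ∈ U` near `x`: `f (φ x') ≠ 0`, `φ x' ∈ W`.

PROOF of `glue_comp`: `φ` restricted to the compact set `L` is a closed embedding `L → K` (continuous, injective). The function
`g x = h x / a x` on `L` is continuous and bounded by `C`. By Tietze (`BoundedContinuousFunction.exists_norm_eq_restrict_eq` for the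
closed set `φ '' L`, or `exists_norm_eq_...isClosedEmbedding`, Mathlib.Analysis.Complex.Tietze) there is a continuous `f : K → 𝕜` with
`‖f‖ ≤ C` and `f (φ x) = g x` for `x ∈ L`. `A f x = a x * g x = h x`.
-/

set_option autoImplicit false

open Filter Topology Set Metric MeasureTheory

namespace Pool.Agent.H.MP_f11573_an

variable {𝕜 : Type*} [RCLike 𝕜] {K : Type*} [TopologicalSpace K] [CompactSpace K] [T2Space K]

theorem cont_of_rep {A : C(K, 𝕜) →L[𝕜] C(K, 𝕜)} {U : Set K} {φ : K → K}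
    (h : ∀ x ∈ U, ∀ f : C(K, 𝕜), A f x = A 1 x * f (φ x)) (h0 : ∀ x ∈ U, A 1 x ≠ 0) :
    ContinuousOn φ U := by
  intro x hx
  rw [ContinuousWithinAt, (nhds_basis_opens (φ x)).tendsto_right_iff]
  rintro W ⟨hxW, hW⟩
  obtain ⟨f, hf0, hf1, -⟩ := exists_continuous_zero_one_of_isClosed (s := Wᶜ) (t := {φ x})
    hW.isClosed_compl isClosed_singleton (by
      rw [disjoint_singleton_right]
      exact fun h1 => h1 hxW)
  let F : C(K, 𝕜) := ⟨fun y => (f y : 𝕜), RCLike.continuous_ofReal.comp f.continuous⟩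
  have hF1 : F (φ x) = 1 := by
    show ((f (φ x) : ℝ) : 𝕜) = 1
    rw [hf1 (mem_singleton _)]
    simp
  have hF0 : ∀ y, y ∉ W → F y = 0 := by
    intro y hy
    show ((f y : ℝ) : 𝕜) = 0
    rw [hf0 hy]
    simp
  have h1 : A F x ≠ 0 := by
    rw [h x hx F, hF1, mul_one]
    exact h0 x hx
  have h2 : ∀ᶠ y in 𝓝 x, A F y ≠ 0 := (A F).continuous.continuousAt.eventually_ne h1
  filter_upwards [self_mem_nhdsWithin, nhdsWithin_le_nhds h2] with y hy hy2
  by_contra hyW
  exact hy2 (by rw [h y hy F, hF0 _ hyW, mul_zero])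

theorem glue_comp {A : C(K, 𝕜) →L[𝕜] C(K, 𝕜)} {L : Set K} (hL : IsClosed L) {φ : K → K}
    (hφ : ContinuousOn φ L) (hi : InjOn φ L) {a : C(K, 𝕜)} {C : ℝ} (hC : 0 < C)
    (ha : ∀ x ∈ L, 1 / C ≤ ‖a x‖) (hA : ∀ x ∈ L, ∀ f : C(K, 𝕜), A f x = a x * f (φ x))
    {h : C(K, 𝕜)} (hh : ‖h‖ ≤ 1) :
    ∃ f : C(K, 𝕜), ‖f‖ ≤ C ∧ ∀ x ∈ L, A f x = h x := by
  have hcomp : CompactSpace L := isCompact_iff_compactSpace.1 hL.isCompact
  have he : IsClosedEmbedding (fun x : L => φ x) :=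
    (continuousOn_iff_continuous_domRestrict.1 hφ).isClosedEmbedding
      (fun x y hxy => Subtype.ext (hi x.2 y.2 hxy))
  have ha0 : ∀ x ∈ L, a x ≠ 0 := by
    intro x hx h1
    have h2 := ha x hx
    rw [h1, norm_zero] at h2
    exact absurd (one_div_pos.2 hC) (not_lt.2 h2)
  let g : C(L, 𝕜) := ⟨fun x => h x / a x,
    (h.continuous.comp continuous_subtype_val).div (a.continuous.comp continuous_subtype_val)
      fun x => ha0 x x.2⟩
  have hg : ∀ x, g x ∈ closedBall (0 : 𝕜) C := by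
    intro x
    rw [mem_closedBall_zero_iff]
    show ‖h x / a x‖ ≤ C
    rw [norm_div, div_le_iff₀ (norm_pos_iff.2 (ha0 x x.2))]
    have h1 := ha x x.2
    rw [div_le_iff₀ hC] at h1
    have h2 := h.norm_coe_le_norm x
    nlinarith
  obtain ⟨f, hf, hfg⟩ := ContinuousMap.exists_extension_forall_mem he g hg
    (ht := Metric.instTietzeExtensionClosedBall 𝕜 (0 : 𝕜) hC)
  refine ⟨f, (ContinuousMap.norm_le _ hC.le).2 fun x => mem_closedBall_zero_iff.1 (hf x),
    fun x hx => ?_⟩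
  have h1 : f (φ x) = h x / a x := congrArg (fun u : C(L, 𝕜) => u ⟨x, hx⟩) hfg
  rw [hA x hx, h1, mul_div_cancel₀ _ (ha0 x hx)]

end Pool.Agent.H.MP_f11573_an
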