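import Pool.Agent.H.MP_f11573_an.DjB
import Pool.Agent.H.MP_f11573_an.DjC

/-! # DjD: separating operators have the gluing property -/

set_option autoImplicit false

open Filter Topology Set Metric MeasureTheory

namespace Pool.Agent.H.MP_f11573_an

variable {𝕜 : Type*} [RCLike 𝕜] {K : Type*} [TopologicalSpace K] [CompactSpace K] [T2Space K]

theorem glb_of_sep {A : C(K, 𝕜) →L[𝕜] C(K, 𝕜)} (hA : Sep A) : Glb A := by
  intro Q C hC hs V hV hQV h hh ε hε
  obtain ⟨φ, h1, h2, h3⟩ := sep_struct hA hC hs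
  have hL : ∀ x, x ∈ Vᶜ → x ∉ Q := fun x hx hxQ => hx (hQV x hxQ)
  have h0 : ∀ x ∈ Vᶜ, A 1 x ≠ 0 := by
    intro x hx h4
    have h5 := h2 x (hL x hx)
    rw [h4, norm_zero] at h5
    exact absurd (one_div_pos.2 hC) (not_lt.2 h5)
  obtain ⟨f, hf, hf2⟩ := glue_comp (A := A) (L := Vᶜ) (φ := φ) (a := A 1) hV.isClosed_compl
    (cont_of_rep (fun x hx => h1 x (hL x hx)) h0)
    (fun x hx y hy hxy => h3 x y (hL x hx) (hL y hy) hxy) hC
    (fun x hx => h2 x (hL x hx)) (fun x hx => h1 x (hL x hx)) hh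
  refine ⟨f, hf, fun x hx => ?_⟩
  rw [hf2 x hx, sub_self, norm_zero]
  exact hε.le

end Pool.Agent.H.MP_f11573_an
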