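import Pool.Agent.H.MP_f11573_an.Def

/-!
# DppA: cutting off the small values

PROOF: `α = δ / (2 (M + 1)) > 0`, `y t = ((max (‖x t‖ - α) 0) / (max ‖x t‖ α)) • x t` (continuous; the denominator is `≥ α`).
`‖y t‖ ≤ ‖x t‖`, `‖y t - x t‖ ≤ α` (two cases), and `y t = 0` if `‖x t‖ ≤ α`. So `‖μ y‖ ≥ δ - M α ≥ δ / 2`.
-/

set_option autoImplicit false

open Filter Topology Set Metric MeasureTheory

namespace Pool.Agent.H.MP_f11573_an

variable {𝕜 : Type*} [RCLike 𝕜] {K : Type*} [TopologicalSpace K] [CompactSpace K] [T2Space K]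

omit [T2Space K] in
theorem soft {M δ : ℝ} {μ : C(K, 𝕜) →L[𝕜] 𝕜} (hM : ‖μ‖ ≤ M) {x : C(K, 𝕜)} (hx : ‖x‖ ≤ 1)
    (hδ : 0 < δ) (h : δ ≤ ‖μ x‖) :
    ∃ y : C(K, 𝕜), ‖y‖ ≤ 1 ∧ δ / 2 ≤ ‖μ y‖ ∧ ∀ t, y t ≠ 0 → δ / (2 * (M + 1)) < ‖x t‖ := by
  have hM0 : 0 ≤ M := (norm_nonneg μ).trans hM
  set α : ℝ := δ / (2 * (M + 1)) with hα
  have hα0 : 0 < α := div_pos hδ (by linarith)
  have hMα : M * α ≤ δ / 2 := by
    rw [hα, mul_div_assoc', div_le_div_iff₀ (by linarith) (by norm_num)]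
    nlinarith
  have hc : Continuous fun t : K => ‖x t‖ := x.continuous.norm
  let r : K → ℝ := fun t => max (‖x t‖ - α) 0 / max ‖x t‖ α
  have hr : Continuous r :=
    ((hc.sub continuous_const).max continuous_const).div (hc.max continuous_const)
      fun t => (lt_of_lt_of_le hα0 (le_max_right _ _)).ne'
  have hr0 : ∀ t, 0 ≤ r t := fun t =>
    div_nonneg (le_max_right _ _) (hα0.le.trans (le_max_right _ _))
  have hr1 : ∀ t, r t ≤ 1 := fun t => by
    refine (div_le_one (lt_of_lt_of_le hα0 (le_max_right _ _))).2 (max_le ?_ ?_)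
    · exact (sub_le_self _ hα0.le).trans (le_max_left _ _)
    · exact hα0.le.trans (le_max_right _ _)
  have hr2 : ∀ t, ‖x t‖ ≤ α → r t = 0 := fun t ht => by
    show max (‖x t‖ - α) 0 / max ‖x t‖ α = 0
    rw [max_eq_right (sub_nonpos.2 ht), zero_div]
  have hr3 : ∀ t, (1 - r t) * ‖x t‖ ≤ α := fun t => by
    rcases le_total ‖x t‖ α with h1 | h1
    · rw [hr2 t h1, sub_zero, one_mul]
      exact h1
    · have h2 : 0 < ‖x t‖ := lt_of_lt_of_le hα0 h1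
      have h3 : r t = (‖x t‖ - α) / ‖x t‖ := by
        show max (‖x t‖ - α) 0 / max ‖x t‖ α = _
        rw [max_eq_left (sub_nonneg.2 h1), max_eq_left h1]
      rw [h3, sub_mul, one_mul, div_mul_cancel₀ _ h2.ne']
      linarith
  let y : C(K, 𝕜) := ⟨fun t => (r t : 𝕜) * x t,
    (RCLike.continuous_ofReal.comp hr).mul x.continuous⟩
  have hxt : ∀ t, ‖x t‖ ≤ 1 := fun t => (x.norm_coe_le_norm t).trans hx
  refine ⟨y, ?_, ?_, ?_⟩
  · refine (ContinuousMap.norm_le _ zero_le_one).2 fun t => ?_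
    show ‖(r t : 𝕜) * x t‖ ≤ 1
    rw [norm_mul, RCLike.norm_ofReal, abs_of_nonneg (hr0 t)]
    exact mul_le_one₀ (hr1 t) (norm_nonneg _) (hxt t)
  · have h1 : ‖x - y‖ ≤ α := by
      refine (ContinuousMap.norm_le _ hα0.le).2 fun t => ?_
      show ‖x t - (r t : 𝕜) * x t‖ ≤ α
      have h2 : x t - (r t : 𝕜) * x t = ((1 - r t : ℝ) : 𝕜) * x t := by
        push_cast
        ring
      rw [h2, norm_mul, RCLike.norm_ofReal, abs_of_nonneg (by linarith [hr1 t])]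
      exact hr3 t
    have h2 : ‖μ (x - y)‖ ≤ M * α :=
      (μ.le_opNorm _).trans (mul_le_mul hM h1 (norm_nonneg _) hM0)
    have h3 : ‖μ x‖ - ‖μ y‖ ≤ ‖μ (x - y)‖ := by
      rw [map_sub]
      exact norm_sub_norm_le _ _
    linarith
  · intro t ht
    by_contra h1
    apply ht
    show (r t : 𝕜) * x t = 0
    rw [hr2 t (not_lt.1 h1), RCLike.ofReal_zero, zero_mul]

end Pool.Agent.H.MP_f11573_an
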