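import Pool.Agent.H.MP_f11573_an.Def

/-!
# ESm: the easy half of Eberlein-Smulian

PROOF: `y n = S (x n)` is in the weakly compact set `W` (the weak closure of `S '' closedBall 0 1`). Let `X₀` be the closed linear
span of the `y n`; it is separable (`TopologicalSpace.IsSeparable.span`, `.closure`) and weakly closed (Hahn-Banach). For a dense
sequence `v j` in `X₀` choose functionals `u j`, `‖u j‖ ≤ 1`, `u j (v j) = ‖v j‖` (`exists_dual_vector''`). If `v ∈ X₀` and
`u j v = 0` for all `j` then `v = 0`. The sequence `n ↦ (u j (y n))_j` is in a product of closed balls, a compact subset of the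
metrizable space `ℕ → 𝕜` (`isCompact_univ_pi`, `IsCompact.tendsto_subseq`), so there is `φ` such that `u j (y (φ n))` converges for
every `j`. Let `y` be a weak cluster point of `y (φ n)` in `W`; `y ∈ X₀`. If `u (y (φ n))` does not converge to `u y` then a
subsequence stays at distance `≥ ε` from `u y`, and a weak cluster point `y'` of this subsequence (in `W`, in `X₀`) has
`u j y' = lim u j (y (φ n)) = u j y` for all `j`, so `y' = y`, but `‖u y' - u y‖ ≥ ε`.
-/

set_option autoImplicit false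

open Filter Topology Set Metric MeasureTheory

namespace Pool.Agent.H.MP_f11573_an

private theorem ESm_clp {α β ι : Type*} [TopologicalSpace α] [TopologicalSpace β] [T2Space β]
    {f : ι → α} {F : Filter ι} {z : α} (hz : MapClusterPt z F f) (g : α → β) (hg : Continuous g)
    {b : β} (hb : Tendsto (fun i => g (f i)) F (𝓝 b)) : g z = b := by
  have h1 : MapClusterPt (g z) F (g ∘ f) := hz.continuousAt_comp hg.continuousAt
  have h2 : (𝓝 (g z) ⊓ map (g ∘ f) F).NeBot := h1
  have h3 : (𝓝 (g z) ⊓ 𝓝 b).NeBot := h2.mono (inf_le_inf_left _ hb)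
  exact eq_of_nhds_neBot h3

theorem es {𝕜 : Type*} [RCLike 𝕜] {X : Type*} [NormedAddCommGroup X] [NormedSpace 𝕜 X]
    {S : X →L[𝕜] X} (hS : WComp S) {x : ℕ → X} (hx : ∀ n, ‖x n‖ ≤ 1) :
    ∃ (φ : ℕ → ℕ) (y : X), StrictMono φ ∧
      ∀ u : X →L[𝕜] 𝕜, Tendsto (fun n => u (S (x (φ n)))) atTop (𝓝 (u y)) := by
  let _ : NormedSpace ℝ X := NormedSpace.restrictScalars ℝ 𝕜 X
  have _ : IsScalarTower ℝ 𝕜 X := RestrictScalars.isScalarTower _ _ _
  have hWc : IsCompact (closure (toWeakSpace 𝕜 X '' (S '' closedBall (0 : X) 1))) := hS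
  have hcont : ∀ u : X →L[𝕜] 𝕜, Continuous fun z : WeakSpace 𝕜 X => u ((toWeakSpace 𝕜 X).symm z) :=
    fun u => WeakBilin.eval_continuous (topDualPairing 𝕜 X).flip u
  let X0 : Submodule 𝕜 X := (Submodule.span 𝕜 (range fun n => S (x n))).topologicalClosure
  have hyX : ∀ n, S (x n) ∈ X0 := fun n =>
    Submodule.le_topologicalClosure _ (Submodule.subset_span ⟨n, rfl⟩)
  have hcl : IsClosed (toWeakSpace 𝕜 X '' (X0 : Set X)) := by
    have h1 := Convex.toWeakSpace_closure 𝕜 (s := (X0 : Set X)) (X0.restrictScalars ℝ).convex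
    have h2 : closure (X0 : Set X) = X0 :=
      (Submodule.isClosed_topologicalClosure _).closure_eq
    rw [h2] at h1
    rw [h1]
    exact isClosed_closure
  have hsep : TopologicalSpace.IsSeparable (X0 : Set X) := by
    show TopologicalSpace.IsSeparable (closure ((Submodule.span 𝕜 (range fun n => S (x n)) : Submodule 𝕜 X) : Set X))
    exact ((countable_range fun n => S (x n)).isSeparable.span).closure
  obtain ⟨c, hc, hX0⟩ := hsep
  have hcne : c.Nonempty := by
    rcases c.eq_empty_or_nonempty with h | h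
    · rw [h, closure_empty] at hX0
      exact absurd (hX0 X0.zero_mem) (by simp)
    · exact h
  obtain ⟨v, hv⟩ := hc.exists_eq_range hcne
  choose u hu1 hu2 using fun j => exists_dual_vector'' 𝕜 (v j)
  have hsepr : ∀ z ∈ X0, (∀ j, u j z = 0) → z = 0 := by
    intro z hz h0
    by_contra hne
    have hpos : 0 < ‖z‖ := norm_pos_iff.2 hne
    have h1 := hX0 hz
    rw [Metric.mem_closure_iff] at h1
    obtain ⟨b, hb, h2⟩ := h1 (‖z‖ / 2) (by positivity)
    rw [hv] at hb
    obtain ⟨j, rfl⟩ := hb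
    rw [dist_eq_norm] at h2
    have h3 : ‖v j‖ ≤ ‖z - v j‖ := by
      have h4 : u j (v j) = - u j (z - v j) := by rw [map_sub, h0 j]; ring
      have h5 : ‖u j (v j)‖ = ‖v j‖ := by rw [hu2 j]; simp
      rw [← h5, h4, norm_neg]
      calc ‖u j (z - v j)‖ ≤ ‖u j‖ * ‖z - v j‖ := (u j).le_opNorm _
        _ ≤ 1 * ‖z - v j‖ := by gcongr; exact hu1 j
        _ = _ := one_mul _
    have h6 : ‖z‖ ≤ ‖z - v j‖ + ‖v j‖ := by
      calc ‖z‖ = ‖(z - v j) + v j‖ := by rw [sub_add_cancel]
        _ ≤ _ := norm_add_le _ _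
    linarith
  have hK : IsCompact (Set.pi univ fun _ : ℕ => closedBall (0 : 𝕜) ‖S‖) :=
    isCompact_univ_pi fun _ => isCompact_closedBall _ _
  obtain ⟨a, -, φ, hφ, hlim⟩ := hK.tendsto_subseq (x := fun n j => u j (S (x n))) (by
    intro n j _
    rw [mem_closedBall_zero_iff]
    calc ‖u j (S (x n))‖ ≤ ‖u j‖ * ‖S (x n)‖ := (u j).le_opNorm _
      _ ≤ 1 * (‖S‖ * ‖x n‖) := by
        gcongr
        · exact hu1 j
        · exact S.le_opNorm _
      _ ≤ 1 * (‖S‖ * 1) := by
        gcongr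
        exact hx n
      _ = ‖S‖ := by ring)
  rw [tendsto_pi_nhds] at hlim
  have hmem : ∀ n, toWeakSpace 𝕜 X (S (x (φ n))) ∈
      closure (toWeakSpace 𝕜 X '' (S '' closedBall (0 : X) 1)) := fun n =>
    subset_closure ⟨_, ⟨_, by simpa using hx (φ n), rfl⟩, rfl⟩
  have hin : ∀ z, MapClusterPt z atTop (fun n => toWeakSpace 𝕜 X (S (x (φ n)))) →
      (toWeakSpace 𝕜 X).symm z ∈ X0 := by
    intro z hz
    have h1 : z ∈ toWeakSpace 𝕜 X '' (X0 : Set X) := by
      refine hcl.mem_of_mapClusterPt hz (Eventually.of_forall fun n => ⟨_, hyX _, rfl⟩) 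
    obtain ⟨w, hw, rfl⟩ := h1
    simpa using hw
  obtain ⟨y, -, hy⟩ := hWc.exists_mapClusterPt (f := atTop)
    (u := fun n => toWeakSpace 𝕜 X (S (x (φ n)))) (by
      rw [le_principal_iff, mem_map]
      exact univ_mem' hmem)
  have hT : Tendsto (fun n => toWeakSpace 𝕜 X (S (x (φ n)))) atTop (𝓝 y) := by
    refine hWc.tendsto_nhds_of_unique_mapClusterPt (Eventually.of_forall hmem) ?_
    intro z _ hz
    have h1 : (toWeakSpace 𝕜 X).symm z - (toWeakSpace 𝕜 X).symm y = 0 := by
      refine hsepr _ (X0.sub_mem (hin z hz) (hin y hy)) fun j => ?_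
      rw [map_sub, ESm_clp hz _ (hcont (u j)) (b := a j) (hlim j),
        ESm_clp hy _ (hcont (u j)) (b := a j) (hlim j), sub_self]
    exact (toWeakSpace 𝕜 X).symm.injective (sub_eq_zero.1 h1)
  exact ⟨φ, (toWeakSpace 𝕜 X).symm y, hφ, fun w => ((hcont w).tendsto y).comp hT⟩

end Pool.Agent.H.MP_f11573_an
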