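import Pool.Agent.H.MP_f11573_an.Def4

/-!
# FeS: the class is closed under subtraction of scalars

PROOF of `wComp_zero`: the image of the ball is `{0}`, its closure in the weak space is compact (a singleton in a Hausdorff space:
`WeakSpace` is `T2`, or: `{0}` is closed as the preimages of `{0}` under all functionals; or show that the closure of a finite set in a
regular / R1 space is compact, `IsCompact.closure`).

PROOF of `funEss_sub`: as `funOpM_sub` in MdA: `E' = insert 1 E`, `A' g = (if g ∈ E then A g else 0) - (if g = 1 then z • id else 0)`; the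
commutator of `A - z • id` with the multiplication by `a` is that of `A`, those of `0` and `- z • id` are `0`.
-/

set_option autoImplicit false

open Filter Topology Set Metric MeasureTheory

namespace Pool.Agent.H.MP_f11573_an

variable {𝕜 : Type*} [RCLike 𝕜] {K : Type*} [TopologicalSpace K] [CompactSpace K]

theorem wComp_zero {X : Type*} [NormedAddCommGroup X] [NormedSpace 𝕜 X] :
    WComp (0 : X →L[𝕜] X) := by
  have h1 : (toWeakSpace 𝕜 X '' ((0 : X →L[𝕜] X) '' closedBall (0 : X) 1)) ⊆ {0} := by
    rintro _ ⟨_, ⟨x, _, rfl⟩, rfl⟩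
    exact mem_singleton_iff.2 (map_zero _)
  have h2 : IsClosed ({0} : Set (WeakSpace 𝕜 X)) := isClosed_singleton
  exact isCompact_singleton.of_isClosed_subset isClosed_closure (h2.closure_subset_iff.2 h1)

private theorem FeS_sub {M : Type*} [Monoid M] [MulAction M K] [ContinuousConstSMul M K] (z : 𝕜)
    {B : C(K, 𝕜) →L[𝕜] C(K, 𝕜)} (hB : B ∈ FunEss 𝕜 M K) :
    B - z • ContinuousLinearMap.id 𝕜 C(K, 𝕜) ∈ FunEss 𝕜 M K := by
  classical
  obtain ⟨E, A, hA, hE⟩ := hB
  have hc1 : ∀ f : C(K, 𝕜), f.comp (cact K (1 : M)) = f := by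
    intro f
    ext x
    change f ((1 : M) • x) = f x
    rw [one_smul]
  by_cases h1 : (1 : M) ∈ E
  · refine ⟨E, fun g => if g = 1 then A g - z • ContinuousLinearMap.id 𝕜 C(K, 𝕜) else A g,
      fun g hg => ?_, fun f => ?_⟩
    · by_cases hg1 : g = 1
      · simp only [if_pos hg1]
        intro a
        obtain ⟨W, hW, hWf⟩ := hA g hg a
        refine ⟨W, hW, fun f => ?_⟩
        rw [hWf f]
        change _ = (A g (a * f) - z • (a * f)) - a * (A g f - z • f)
        rw [mul_sub, mul_smul_comm]
        abel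
      · simp only [if_neg hg1]
        exact hA g hg
    · have h2 : ∑ g ∈ E, (if g = 1 then A g - z • ContinuousLinearMap.id 𝕜 C(K, 𝕜)
          else A g) (f.comp (cact K g)) =
          ∑ g ∈ E, (A g (f.comp (cact K g)) - if g = 1 then z • f else 0) := by
        refine Finset.sum_congr rfl fun g _ => ?_
        by_cases hg1 : g = 1
        · rw [if_pos hg1, if_pos hg1, hg1, hc1]
          rfl
        · rw [if_neg hg1, if_neg hg1, sub_zero]
      rw [h2, Finset.sum_sub_distrib, ← hE f, Finset.sum_ite_eq' E (1 : M), if_pos h1]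
      rfl
  · refine ⟨insert 1 E, fun g => if g = 1 then (-z) • ContinuousLinearMap.id 𝕜 C(K, 𝕜)
      else A g, fun g hg => ?_, fun f => ?_⟩
    · by_cases hg1 : g = 1
      · simp only [if_pos hg1]
        intro a
        refine ⟨0, wComp_zero, fun f => ?_⟩
        change 0 = (-z) • (a * f) - a * ((-z) • f)
        rw [mul_smul_comm, sub_self]
      · simp only [if_neg hg1]
        exact hA g (Finset.mem_of_mem_insert_of_ne hg hg1)
    · rw [Finset.sum_insert h1]
      have h2 : ∑ g ∈ E, (if g = 1 then (-z) • ContinuousLinearMap.id 𝕜 C(K, 𝕜)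
          else A g) (f.comp (cact K g)) = ∑ g ∈ E, A g (f.comp (cact K g)) := by
        refine Finset.sum_congr rfl fun g hg => ?_
        have hg1 : g ≠ 1 := fun h => h1 (h ▸ hg)
        rw [if_neg hg1]
      rw [h2, ← hE f]
      simp only [if_true, hc1]
      change B f - z • f = (-z) • f + B f
      rw [neg_smul]
      abel

theorem funEss_sub {M : Type*} [Monoid M] [MulAction M K] [ContinuousConstSMul M K] (z : 𝕜)
    {T : C(K, 𝕜) →L[𝕜] C(K, 𝕜)} (hT : T ∈ closure (FunEss 𝕜 M K)) :
    T - z • ContinuousLinearMap.id 𝕜 C(K, 𝕜) ∈ closure (FunEss 𝕜 M K) := by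
  refine Metric.mem_closure_iff.2 fun η hη => ?_
  obtain ⟨B, hB, hTB⟩ := Metric.mem_closure_iff.1 hT η hη
  refine ⟨B - z • ContinuousLinearMap.id 𝕜 C(K, 𝕜), FeS_sub z hB, ?_⟩
  rw [dist_sub_right]
  exact hTB

end Pool.Agent.H.MP_f11573_an
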