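import Pool.Agent.H.MP_f11573_an.Def

/-!
# Srj3: an operator is onto if its adjoint is bounded below, with a bound

PROOF: as `surj_of_adjoint2` in Srj2 (copy what is useful): the closure of `T '' closedBall 0 1` contains `closedBall 0 c`
(Hahn-Banach), so for every `y` and `η > 0` there is `x` with `‖x‖ ≤ ‖y‖ / c`, `‖y - T x‖ ≤ η`; iterate with `η = ‖y‖ / 2^(n+2)` or so:
`x = ∑ x_n`, `‖x‖ ≤ (‖y‖ / c) (1 + 1/4 + 1/8 + …) ≤ 2 ‖y‖ / c`, `T x = y`. (`y = 0`: `x = 0`.)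
-/

set_option autoImplicit false

open Filter Topology Set Metric MeasureTheory

namespace Pool.Agent.H.MP_f11573_an

private theorem Srj3_closure {𝕜 : Type*} [RCLike 𝕜] {X Y : Type*} [NormedAddCommGroup X]
    [NormedSpace 𝕜 X] [NormedAddCommGroup Y] [NormedSpace 𝕜 Y] {T : X →L[𝕜] Y} {c : ℝ} (_hc : 0 < c)
    (h : ∀ u : Y →L[𝕜] 𝕜, c * ‖u‖ ≤ ‖u.comp T‖) {y : Y} (hy : ‖y‖ < c) :
    y ∈ closure (T '' ball (0 : X) 1) := by
  let _ : NormedSpace ℝ X := NormedSpace.restrictScalars ℝ 𝕜 X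
  have _ : IsScalarTower ℝ 𝕜 X := ⟨fun r a x => by
    rw [Algebra.smul_def, mul_smul]
    rfl⟩
  let _ : NormedSpace ℝ Y := NormedSpace.restrictScalars ℝ 𝕜 Y
  have _ : IsScalarTower ℝ 𝕜 Y := ⟨fun r a x => by
    rw [Algebra.smul_def, mul_smul]
    rfl⟩
  have hconv : Convex ℝ (closure (T '' ball (0 : X) 1)) := by
    refine Convex.closure ((convex_ball (0 : X) 1).is_linear_image ⟨map_add T, fun r x => ?_⟩)
    exact map_smul T (algebraMap ℝ 𝕜 r) x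
  by_contra hcon
  obtain ⟨u, α, hα, hαy⟩ := RCLike.geometric_hahn_banach_closed_point (𝕜 := 𝕜) hconv
    isClosed_closure hcon
  have hball : ∀ x : X, ‖x‖ < 1 → ‖u (T x)‖ ≤ α := by
    intro x hx
    by_cases h0 : u (T x) = 0
    · have h1 := hα 0 (subset_closure ⟨0, by simp, map_zero T⟩)
      rw [map_zero, map_zero] at h1
      rw [h0, norm_zero]
      exact h1.le
    · obtain ⟨θ, hθ⟩ : ∃ θ : 𝕜, θ = ((‖u (T x)‖ : ℝ) : 𝕜) / u (T x) := ⟨_, rfl⟩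
      have h2 : θ * u (T x) = ((‖u (T x)‖ : ℝ) : 𝕜) := by
        rw [hθ, div_mul_cancel₀ _ h0]
      have h3 : ‖θ‖ = 1 := by
        rw [hθ, norm_div, RCLike.norm_ofReal, abs_norm, div_self (norm_ne_zero_iff.2 h0)]
      have h4 : T (θ • x) ∈ closure (T '' ball (0 : X) 1) := by
        refine subset_closure ⟨θ • x, ?_, rfl⟩
        rw [mem_ball_zero_iff, norm_smul, h3, one_mul]
        exact hx
      have h5 := hα _ h4
      rw [map_smul, map_smul, smul_eq_mul, h2, RCLike.ofReal_re] at h5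
      exact h5.le
  have hα0 : 0 < α := by
    have h1 := hα 0 (subset_closure ⟨0, by simp, map_zero T⟩)
    rwa [map_zero, map_zero] at h1
  have hn : ‖u.comp T‖ ≤ α := by
    refine ContinuousLinearMap.opNorm_le_bound _ hα0.le fun x => ?_
    show ‖u (T x)‖ ≤ α * ‖x‖
    refine le_of_forall_pos_le_add fun ε hε => ?_
    obtain ⟨r, hr⟩ : ∃ r : ℝ, r = ‖x‖ + ε / α := ⟨_, rfl⟩
    have hεα : 0 < ε / α := div_pos hε hα0
    have hr0 : 0 < r := by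
      rw [hr]
      have := norm_nonneg x
      linarith
    have h1 : ‖(((r⁻¹ : ℝ) : 𝕜)) • x‖ < 1 := by
      rw [norm_smul, RCLike.norm_ofReal, abs_of_pos (inv_pos.2 hr0), inv_mul_lt_iff₀ hr0, mul_one,
        hr]
      linarith
    have h2 := hball _ h1
    rw [map_smul, map_smul, norm_smul, RCLike.norm_ofReal, abs_of_pos (inv_pos.2 hr0),
      inv_mul_le_iff₀ hr0] at h2
    calc ‖u (T x)‖ ≤ r * α := h2
      _ = α * ‖x‖ + ε := by
        rw [hr]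
        field_simp
  have h1 : RCLike.re (u y) ≤ ‖u‖ * ‖y‖ := (RCLike.re_le_norm _).trans (u.le_opNorm y)
  have h2 : c * ‖u‖ < ‖u‖ * ‖y‖ := lt_of_le_of_lt ((h u).trans hn) (lt_of_lt_of_le hαy h1)
  have h3 : ‖u‖ * ‖y‖ ≤ ‖u‖ * c := mul_le_mul_of_nonneg_left hy.le (norm_nonneg u)
  linarith

private theorem Srj3_approx {𝕜 : Type*} [RCLike 𝕜] {X Y : Type*} [NormedAddCommGroup X]
    [NormedSpace 𝕜 X] [NormedAddCommGroup Y] [NormedSpace 𝕜 Y] {T : X →L[𝕜] Y} {c : ℝ} (hc : 0 < c)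
    (h : ∀ u : Y →L[𝕜] 𝕜, c * ‖u‖ ≤ ‖u.comp T‖) (y : Y) :
    ∃ x, ‖y - T x‖ ≤ 1 / 4 * ‖y‖ ∧ ‖x‖ ≤ 3 / (2 * c) * ‖y‖ := by
  by_cases hy0 : y = 0
  · refine ⟨0, ?_, ?_⟩
    · rw [hy0, map_zero, sub_zero, norm_zero, mul_zero]
    · rw [hy0, norm_zero, norm_zero, mul_zero]
  have hy : 0 < ‖y‖ := norm_pos_iff.2 hy0
  obtain ⟨s, hs⟩ : ∃ s : ℝ, s = 2 * c / (3 * ‖y‖) := ⟨_, rfl⟩
  have hs0 : 0 < s := by
    rw [hs]
    positivity
  have hsn : ‖((s : ℝ) : 𝕜)‖ = s := by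
    rw [RCLike.norm_ofReal, abs_of_pos hs0]
  have h1 : ‖((s : ℝ) : 𝕜) • y‖ < c := by
    rw [norm_smul, hsn, hs]
    have : 2 * c / (3 * ‖y‖) * ‖y‖ = 2 * c / 3 := by field_simp
    rw [this]
    linarith
  obtain ⟨_, ⟨x', hx', rfl⟩, hd⟩ := Metric.mem_closure_iff.1 (Srj3_closure hc h h1) (c / 6)
    (by positivity)
  rw [dist_eq_norm] at hd
  rw [mem_ball_zero_iff] at hx'
  have hsne : ((s : ℝ) : 𝕜) ≠ 0 := RCLike.ofReal_ne_zero.2 hs0.ne'
  refine ⟨((s : ℝ) : 𝕜)⁻¹ • x', ?_, ?_⟩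
  · have h2 : y - T (((s : ℝ) : 𝕜)⁻¹ • x') = ((s : ℝ) : 𝕜)⁻¹ • (((s : ℝ) : 𝕜) • y - T x') := by
      rw [smul_sub, smul_smul, inv_mul_cancel₀ hsne, one_smul, map_smul]
    rw [h2, norm_smul, norm_inv, hsn]
    calc s⁻¹ * ‖((s : ℝ) : 𝕜) • y - T x'‖ ≤ s⁻¹ * (c / 6) :=
          mul_le_mul_of_nonneg_left hd.le (inv_nonneg.2 hs0.le)
      _ = 1 / 4 * ‖y‖ := by
          rw [hs]
          field_simp
          ring
  · rw [norm_smul, norm_inv, hsn]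
    calc s⁻¹ * ‖x'‖ ≤ s⁻¹ * 1 := mul_le_mul_of_nonneg_left hx'.le (inv_nonneg.2 hs0.le)
      _ = 3 / (2 * c) * ‖y‖ := by
          rw [hs]
          field_simp

theorem surj_norm {𝕜 : Type*} [RCLike 𝕜] {X Y : Type*} [NormedAddCommGroup X]
    [NormedSpace 𝕜 X] [CompleteSpace X] [NormedAddCommGroup Y] [NormedSpace 𝕜 Y]
    [CompleteSpace Y] {T : X →L[𝕜] Y} {c : ℝ} (hc : 0 < c)
    (h : ∀ u : Y →L[𝕜] 𝕜, c * ‖u‖ ≤ ‖u.comp T‖) (y : Y) :
    ∃ x : X, T x = y ∧ ‖x‖ ≤ 2 / c * ‖y‖ := by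
  choose g hg using Srj3_approx hc h
  obtain ⟨r, hr⟩ : ∃ r : Y → Y, r = fun y => y - T (g y) := ⟨_, rfl⟩
  have hry : ∀ y, r y = y - T (g y) := fun y => by rw [hr]
  have hle : ∀ y, ‖r y‖ ≤ 1 / 4 * ‖y‖ := by
    intro y
    rw [hry]
    exact (hg y).1
  have hnle : ∀ n : ℕ, ‖r^[n] y‖ ≤ (1 / 4) ^ n * ‖y‖ := by
    intro n
    induction n with
    | zero => simp
    | succ n IH =>
      rw [Function.iterate_succ_apply']
      apply le_trans (hle _) _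
      rw [pow_succ', mul_assoc]
      gcongr
  obtain ⟨u, hu⟩ : ∃ u : ℕ → X, u = fun n => g (r^[n] y) := ⟨_, rfl⟩
  have hun : ∀ n, u n = g (r^[n] y) := fun n => by rw [hu]
  have ule : ∀ n, ‖u n‖ ≤ (1 / 4) ^ n * (3 / (2 * c) * ‖y‖) := fun n => by
    rw [hun]
    apply le_trans (hg _).2
    calc
      3 / (2 * c) * ‖r^[n] y‖ ≤ 3 / (2 * c) * ((1 / 4) ^ n * ‖y‖) := by gcongr; exact hnle n
      _ = (1 / 4) ^ n * (3 / (2 * c) * ‖y‖) := by ring
  have sNu : Summable fun n => ‖u n‖ := by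
    refine .of_nonneg_of_le (fun n => norm_nonneg _) ule ?_
    exact Summable.mul_right _ (summable_geometric_of_lt_one (by simp) (by norm_num))
  have su : Summable u := sNu.of_norm
  have hsum : HasSum (fun n : ℕ => (1 / 4 : ℝ) ^ n * (3 / (2 * c) * ‖y‖))
      ((1 - 1 / 4)⁻¹ * (3 / (2 * c) * ‖y‖)) :=
    (hasSum_geometric_of_lt_one (by norm_num) (by norm_num)).mul_right _
  have hbound : ‖tsum u‖ ≤ 2 / c * ‖y‖ := by
    refine (tsum_of_norm_bounded hsum ule).trans (le_of_eq ?_)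
    field_simp
    norm_num
  refine ⟨tsum u, ?_, hbound⟩
  have fsumeq : ∀ n : ℕ, T (∑ i ∈ Finset.range n, u i) = y - r^[n] y := by
    intro n
    induction n with
    | zero => simp
    | succ n IH =>
      rw [Finset.sum_range_succ, map_add, IH, Function.iterate_succ_apply', hry, hun]
      abel
  have h1 : Tendsto (fun n => ∑ i ∈ Finset.range n, u i) atTop (𝓝 (tsum u)) :=
    su.hasSum.tendsto_sum_nat
  have L₁ : Tendsto (fun n => T (∑ i ∈ Finset.range n, u i)) atTop (𝓝 (T (tsum u))) :=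
    (T.continuous.tendsto _).comp h1
  simp only [fsumeq] at L₁
  have L₂ : Tendsto (fun n => y - r^[n] y) atTop (𝓝 (y - 0)) := by
    refine tendsto_const_nhds.sub ?_
    rw [tendsto_iff_norm_sub_tendsto_zero]
    simp only [sub_zero]
    refine squeeze_zero (fun _ => norm_nonneg _) hnle ?_
    rw [← zero_mul ‖y‖]
    refine (tendsto_pow_atTop_nhds_zero_of_lt_one ?_ ?_).mul tendsto_const_nhds <;> norm_num
  rw [sub_zero] at L₂
  exact tendsto_nhds_unique L₁ L₂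

end Pool.Agent.H.MP_f11573_an
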