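import Pool.Agent.H.MP_f11573_an.DefL
import Pool.Agent.H.MP_f11573_an.Srj3

/-!
# LfU: lifting with a bound

PROOF: copy the proof of `ontoOn_of_lowOn` in OnB, with `surj_norm` in place of `surj_of_adjoint2`: `B : C(K, 𝕜) → C(L, 𝕜)`,
`B f = (T f)|_L`; for `u` in the dual of `C(L, 𝕜)`: `c ‖u‖ ≤ ‖u ∘ B‖`; apply it to `y = h|_L`, `‖y‖ ≤ ‖h‖`.
-/

set_option autoImplicit false

open Filter Topology Set Metric MeasureTheory

namespace Pool.Agent.H.MP_f11573_an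

variable {𝕜 : Type*} [RCLike 𝕜] {K : Type*} [TopologicalSpace K] [CompactSpace K] [T2Space K]

theorem lift_exact {T : C(K, 𝕜) →L[𝕜] C(K, 𝕜)} {L : Set K} (hL : IsClosed L) {c : ℝ}
    (hc : 0 < c) (hl : LowOn T L c) (h : C(K, 𝕜)) :
    ∃ f : C(K, 𝕜), ‖f‖ ≤ 2 / c * ‖h‖ ∧ ∀ x ∈ L, T f x = h x := by
  have hLc : CompactSpace L := isCompact_iff_compactSpace.1 hL.isCompact
  obtain ⟨R, hR⟩ : ∃ R : C(K, 𝕜) →L[𝕜] C(L, 𝕜), ∀ (f : C(K, 𝕜)) (x : L), R f x = f x :=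
    ⟨ContinuousMap.compCLM 𝕜 𝕜 (⟨Subtype.val, continuous_subtype_val⟩ : C(L, K)), fun _ _ => rfl⟩
  have hB : ∀ u : C(L, 𝕜) →L[𝕜] 𝕜, c * ‖u‖ ≤ ‖u.comp (R.comp T)‖ := by
    intro u
    have h1 : c * ‖u.comp R‖ ≤ ‖(u.comp R).comp T‖ := by
      refine hl (u.comp R) fun f hf => ?_
      have h2 : R f = 0 := by
        ext x
        rw [hR, hf x x.2]
        rfl
      rw [ContinuousLinearMap.comp_apply, h2, map_zero]
    have h3 : ‖u‖ ≤ ‖u.comp R‖ := by
      refine u.opNorm_le_bound (norm_nonneg _) fun g => ?_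
      obtain ⟨f, hf, hfg⟩ := BoundedContinuousFunction.exists_norm_eq_domRestrict_eq hL 𝕜
        (BoundedContinuousFunction.mkOfCompact g)
      have h4 : R f.toContinuousMap = g := by
        ext x
        rw [hR]
        exact congrArg (fun q : BoundedContinuousFunction L 𝕜 => q x) hfg
      have h5 : ‖f.toContinuousMap‖ = ‖g‖ := by
        rw [BoundedContinuousFunction.norm_toContinuousMap_eq, hf,
          BoundedContinuousFunction.norm_mkOfCompact]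
      calc ‖u g‖ = ‖(u.comp R) f.toContinuousMap‖ := by
            rw [ContinuousLinearMap.comp_apply, h4]
        _ ≤ ‖u.comp R‖ * ‖f.toContinuousMap‖ := (u.comp R).le_opNorm _
        _ = ‖u.comp R‖ * ‖g‖ := by rw [h5]
    exact (mul_le_mul_of_nonneg_left h3 hc.le).trans h1
  have hRn : ‖R h‖ ≤ ‖h‖ := by
    refine (ContinuousMap.norm_le _ (norm_nonneg _)).2 fun x => ?_
    rw [hR]
    exact h.norm_coe_le_norm x
  obtain ⟨f, hf, hfn⟩ := surj_norm hc hB (R h)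
  refine ⟨f, ?_, fun x hx => ?_⟩
  · exact hfn.trans (mul_le_mul_of_nonneg_left hRn (by positivity))
  · have h6 : R (T f) ⟨x, hx⟩ = R h ⟨x, hx⟩ := congrArg (fun q : C(L, 𝕜) => q ⟨x, hx⟩) hf
    rw [hR, hR] at h6
    exact h6

end Pool.Agent.H.MP_f11573_an
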