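import Pool.Agent.H.MP_f11573_an.SqU

/-!
# HuU: disjoint functions near a finite set

PROOF: `μ`, `l`, `V`, `U`, `b` from `seqU` (`L = P`). `l n` lives on `P`, so `c ‖l n‖ ≤ ‖(l n) ∘ T‖ ≤ η + r ‖T‖` with `r = ‖μ n - l n‖`, and
`‖l n‖ ≥ 1 - r`, so `c (1 - r) ≤ c / 2 + r ‖T‖`, `r ≥ c / (2 (c + ‖T‖))`. As in NmL (copy): there is `g n` with `‖g n‖ ≤ 1`,
`g n = 0` off `V n`, `g n = 0` on `V (n + 1)`, and `r / 2 ≤ 1 / (n + 1) + ‖μ n (g n)‖`. So `‖μ n (g n)‖ ≥ c / (4 (c + ‖T‖)) - 1 / (n + 1)`,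
which is `≥ c / (8 (c + ‖T‖))` for all `n ≥ N`. Take the sequences from `N` on. The `V n` are decreasing, so for `n < m` and every `x`:
`x ∈ V (n + 1)` (`g n x = 0`) or `x ∉ V (n + 1) ⊇ V m` (`g m x = 0`).
-/

set_option autoImplicit false

open Filter Topology Set Metric MeasureTheory

namespace Pool.Agent.H.MP_f11573_an

variable {𝕜 : Type*} [RCLike 𝕜] {K : Type*} [TopologicalSpace K] [CompactSpace K] [T2Space K]

private theorem HuU_pick {X : Type*} [NormedAddCommGroup X] [NormedSpace 𝕜 X] (u : X →L[𝕜] 𝕜) :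
    ∃ x : X, ‖x‖ ≤ 1 ∧ ‖u‖ / 2 ≤ ‖u x‖ := by
  by_cases h : ‖u‖ = 0
  · exact ⟨0, by simp, by simp [h]⟩
  · have h1 : ‖u‖ / 2 < ‖u‖ := half_lt_self (lt_of_le_of_ne (norm_nonneg _) (Ne.symm h))
    obtain ⟨x, hx, h2⟩ := u.exists_lt_apply_of_lt_opNorm h1
    exact ⟨x, hx.le, h2.le⟩

omit [T2Space K] in
private theorem HuU_rs (w : C(K, ℝ)) (f : C(K, 𝕜)) (x : K) : rs w f x = (w x : 𝕜) * f x := rfl

omit [T2Space K] in
private theorem HuU_norm {w : C(K, ℝ)} (hw : ∀ x, w x ∈ Icc (0 : ℝ) 1) {f : C(K, 𝕜)}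
    (hf : ‖f‖ ≤ 1) : ‖rs w f‖ ≤ 1 := by
  rw [ContinuousMap.norm_le _ zero_le_one]
  intro x
  rw [HuU_rs, norm_mul, RCLike.norm_ofReal, abs_of_nonneg (hw x).1]
  exact mul_le_one₀ (hw x).2 (norm_nonneg _) ((f.norm_coe_le_norm x).trans hf)

omit [T2Space K] in
private theorem HuU_low {T : C(K, 𝕜) →L[𝕜] C(K, 𝕜)} {P : Set K} {c η : ℝ}
    (hc : 0 < c) (hη : η ≤ c / 2) (hl : LowOn T P c) {μ l : C(K, 𝕜) →L[𝕜] 𝕜} (hμ : ‖μ‖ = 1)
    (hμT : ‖μ.comp T‖ ≤ η) (hlP : Supp l P) : c / (2 * (c + ‖T‖)) ≤ ‖μ - l‖ := by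
  have hT : 0 ≤ ‖T‖ := norm_nonneg T
  have h1 : 1 ≤ ‖l‖ + ‖μ - l‖ := by
    have h2 : ‖μ‖ ≤ ‖l‖ + ‖μ - l‖ := by
      calc ‖μ‖ = ‖l + (μ - l)‖ := by rw [add_sub_cancel]
        _ ≤ ‖l‖ + ‖μ - l‖ := norm_add_le _ _
    rwa [hμ] at h2
  have h2 : ‖l.comp T‖ ≤ η + ‖μ - l‖ * ‖T‖ := by
    have h3 : l.comp T = μ.comp T - (μ - l).comp T := by
      ext f
      simp
    rw [h3]
    refine (norm_sub_le _ _).trans (add_le_add hμT ?_)
    exact ContinuousLinearMap.opNorm_comp_le _ _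
  have h3 := hl l hlP
  rw [div_le_iff₀ (by positivity)]
  nlinarith

theorem humpU {T : C(K, 𝕜) →L[𝕜] C(K, 𝕜)} {P : Set K} (hP : IsClosed P) {c η : ℝ}
    (hc : 0 < c) (hη : η ≤ c / 2) (hl : LowOn T P c)
    (h : ∀ U : Set K, IsOpen U → P ⊆ U → ¬ LowOn T (closure U) η) :
    ∃ (μ : ℕ → (C(K, 𝕜) →L[𝕜] 𝕜)) (g : ℕ → C(K, 𝕜)), (∀ n, ‖μ n‖ ≤ 1) ∧
      (∀ n, ‖(μ n).comp T‖ ≤ η) ∧ (∀ n, ‖g n‖ ≤ 1) ∧
      (∀ n m x, n ≠ m → g n x = 0 ∨ g m x = 0) ∧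
      ∀ n, c / (8 * (c + ‖T‖)) ≤ ‖μ n (g n)‖ := by
  obtain ⟨μ, l, V, U, b, h⟩ := seqU hP h
  have hVV : ∀ n, V (n + 1) ⊆ V n := fun n => by
    obtain ⟨-, -, -, h1, h2, -⟩ := h n
    exact h2.trans (subset_closure.trans h1)
  have hanti : Antitone V := antitone_nat_of_succ_le hVV
  have hLV : ∀ n, P ⊆ V (n + 1) := fun n => by
    obtain ⟨-, -, h1, h2, -⟩ := h (n + 1)
    exact h1.trans (subset_closure.trans h2)
  have he : ∀ n, ∃ e : C(K, ℝ), (∀ x, x ∉ V n → e x = 0) ∧ (∀ x ∈ closure (U n), e x = 1) ∧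
      ∀ x, e x ∈ Icc (0 : ℝ) 1 := by
    intro n
    obtain ⟨h1, -, -, h2, -⟩ := h n
    obtain ⟨e, h3, h4, h5⟩ := exists_continuous_zero_one_of_isClosed h1.isClosed_compl
      (isClosed_closure (s := U n))
      (Set.disjoint_left.2 fun x hx hx1 => hx (h2 hx1))
    exact ⟨e, fun x hx => h3 hx, fun x hx => h4 hx, h5⟩
  choose e he0 he1 he2 using he
  choose f hf1 hf2 using fun n => HuU_pick (μ n - l n)
  have hb : ∀ n x, b n x ∈ Icc (0 : ℝ) 1 := fun n => (h n).2.2.2.2.2.2.2.2.2.1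
  have hb1 : ∀ n, ∀ x ∈ V (n + 1), b n x = 1 := fun n => (h n).2.2.2.2.2.2.2.2.2.2.1
  have hw : ∀ n x, (e n * (1 - b n)) x ∈ Icc (0 : ℝ) 1 := by
    intro n x
    have h1 := hb n x
    have h2 := he2 n x
    have h3 : (e n * (1 - b n)) x = e n x * (1 - b n x) := rfl
    rw [h3]
    exact ⟨mul_nonneg h2.1 (by linarith [h1.2]),
      mul_le_one₀ h2.2 (by linarith [h1.2]) (by linarith [h1.1])⟩
  have hz1 : ∀ n x, x ∉ V n → rs (e n * (1 - b n)) (f n) x = 0 := by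
    intro n x hx
    have h3 : (e n * (1 - b n)) x = e n x * (1 - b n x) := rfl
    rw [HuU_rs, h3, he0 n x hx]
    simp
  have hz2 : ∀ n, ∀ x ∈ V (n + 1), rs (e n * (1 - b n)) (f n) x = 0 := by
    intro n x hx
    have h3 : (e n * (1 - b n)) x = e n x * (1 - b n x) := rfl
    rw [HuU_rs, h3, hb1 n x hx]
    simp
  have hkey : ∀ n : ℕ, ‖μ n - l n‖ ≤
      2 * (1 / ((n : ℝ) + 1) + ‖μ n (rs (e n * (1 - b n)) (f n))‖) := by
    intro n
    obtain ⟨-, -, -, -, -, hS, -, -, hl, -, -, hn⟩ := h n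
    have h1 : f n = rs (b n) (f n) + rs (1 - b n) (f n) := by
      ext x
      have h2 : (1 - b n) x = 1 - b n x := rfl
      rw [ContinuousMap.add_apply, HuU_rs, HuU_rs, h2]
      push_cast
      ring
    have h2 : l n (rs (1 - b n) (f n)) = 0 := by
      refine hl _ fun x hx => ?_
      have h3 : (1 - b n) x = 1 - b n x := rfl
      rw [HuU_rs, h3, hb1 n x (hLV n hx)]
      simp
    have h3 : μ n (rs (1 - b n) (f n)) = μ n (rs (e n * (1 - b n)) (f n)) := by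
      rw [← sub_eq_zero, ← map_sub]
      refine hS _ fun x hx => ?_
      have h4 : (1 - b n) x = 1 - b n x := rfl
      have h5 : (e n * (1 - b n)) x = e n x * (1 - b n x) := rfl
      rw [ContinuousMap.sub_apply, HuU_rs, HuU_rs, h4, h5, he1 n x hx, one_mul, sub_self]
    have h4 : (μ n - l n) (f n) =
        (μ n - l n) (rs (b n) (f n)) + μ n (rs (e n * (1 - b n)) (f n)) := by
      conv_lhs => rw [h1]
      rw [map_add]
      congr 1
      rw [ContinuousLinearMap.sub_apply, h2, h3, sub_zero]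
    have h5 := hf2 n
    have h6 : ‖(μ n - l n) (f n)‖ ≤ 1 / ((n : ℝ) + 1) + ‖μ n (rs (e n * (1 - b n)) (f n))‖ := by
      rw [h4]
      refine (norm_add_le _ _).trans (add_le_add_left ?_ _)
      refine (hn (f n)).trans ?_
      exact mul_le_of_le_one_right (by positivity) (hf1 n)
    linarith
  have hT : 0 ≤ ‖T‖ := norm_nonneg T
  have hpos : 0 < c / (8 * (c + ‖T‖)) := by positivity
  obtain ⟨N, hN⟩ := exists_nat_one_div_lt hpos
  have hdisj : ∀ n m x, n < m → rs (e n * (1 - b n)) (f n) x = 0 ∨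
      rs (e m * (1 - b m)) (f m) x = 0 := by
    intro n m x hnm
    by_cases hx : x ∈ V (n + 1)
    · exact Or.inl (hz2 n x hx)
    · exact Or.inr (hz1 m x fun hx1 => hx (hanti (Nat.succ_le_of_lt hnm) hx1))
  refine ⟨fun n => μ (N + n), fun n => rs (e (N + n) * (1 - b (N + n))) (f (N + n)),
    fun n => (h (N + n)).2.2.2.2.2.2.1.le, fun n => (h (N + n)).2.2.2.2.2.2.2.1,
    fun n => HuU_norm (hw (N + n)) (hf1 (N + n)), ?_, ?_⟩
  · intro n m x hnm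
    rcases lt_or_gt_of_ne hnm with h1 | h1
    · exact hdisj (N + n) (N + m) x (by omega)
    · exact (hdisj (N + m) (N + n) x (by omega)).symm
  · intro n
    have h1 := hkey (N + n)
    have h2 := HuU_low hc hη hl (h (N + n)).2.2.2.2.2.2.1 (h (N + n)).2.2.2.2.2.2.2.1
      (h (N + n)).2.2.2.2.2.2.2.2.1
    have h3 : 1 / (((N + n : ℕ) : ℝ) + 1) ≤ 1 / ((N : ℝ) + 1) :=
      one_div_le_one_div_of_le (by positivity) (by push_cast; linarith [Nat.cast_nonneg (α := ℝ) n])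
    have h4 : c / (2 * (c + ‖T‖)) = 4 * (c / (8 * (c + ‖T‖))) := by
      have : c + ‖T‖ ≠ 0 := by positivity
      field_simp
      norm_num
    rw [h4] at h2
    linarith

end Pool.Agent.H.MP_f11573_an
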