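import Pool.Agent.H.MP_f11573_an.SelB

/-!
# SelC: the selection

PROOF: `Λ` from `exists_lam`. Recursion on states `(s, j₀)`: `s` in `C(K, ℝ)`, `0 ≤ s ≤ 1`, and for a set of `i` in the hyperfilter
`Λ i s ≤ ρ / 4 * (1 - 2^(-k))` at stage `k` (start: `s = 0`, `Λ i 0 = 0`). Step: choose `j > j₀` with `Λ j s ≤ ρ / 4` (a set of the
hyperfilter is infinite), `n` from `sel_step` with `δ = ρ / 4 * 2^(-k-1)`, `h = rs (1 - s) (g j n)`, and the new state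
`(s + nr h, j)`: `0 ≤ s + nr h ≤ s + (1 - s) = 1`, `Λ i (s + nr h) ≤ Λ i s + Λ i (nr h) ≤ ρ / 4 * (1 - 2^(-k-1))` for a set of `i` in the
hyperfilter. `s_k = ∑_{i<k} nr (h i)`, so `∑_{i<k} ‖h i x‖ = s_k x ≤ 1`, which gives the bound for every finite set. `J k = j` is
strictly increasing.
-/

set_option autoImplicit false

open Filter Topology Set Metric MeasureTheory

namespace Pool.Agent.H.MP_f11573_an

variable {𝕜 : Type*} [RCLike 𝕜] {K : Type*} [TopologicalSpace K] [CompactSpace K] [T2Space K]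

omit [T2Space K] in
/-- One step of the recursion. -/
private theorem SelC_step {ρ : ℝ} (hρ : 0 < ρ) {μ : ℕ → ℕ → (C(K, 𝕜) →L[𝕜] 𝕜)}
    {g : ℕ → ℕ → C(K, 𝕜)} (hg : ∀ j n, ‖g j n‖ ≤ 1)
    (hd : ∀ j n m x, n ≠ m → g j n x = 0 ∨ g j m x = 0) (h : ∀ j n, ρ ≤ ‖μ j n (g j n)‖)
    {Λ : ℕ → C(K, ℝ) → ℝ}
    (h1 : ∀ j s, Tendsto (fun n => ‖μ j n (rs s (g j n))‖) (hyperfilter ℕ) (𝓝 (Λ j s)))
    (h2 : ∀ j s, 0 ≤ Λ j s)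
    (h3 : ∀ (j : ℕ) (s : ℕ → C(K, ℝ)) (t : Finset ℕ), (∀ i x, 0 ≤ s i x) →
        (∀ x, ∑ i ∈ t, s i x ≤ 1) → ∑ i ∈ t, Λ j (s i) ≤ 1)
    (h4 : ∀ j s s', Λ j (s + s') ≤ Λ j s + Λ j s')
    (k : ℕ) (s : C(K, ℝ)) (j0 : ℕ) (hs0 : ∀ x, 0 ≤ s x) (hs1 : ∀ x, s x ≤ 1)
    (hs : ∀ᶠ i in (hyperfilter ℕ : Filter ℕ), Λ i s ≤ ρ / 4 * (1 - (1 / 2) ^ k)) :
    ∃ (j n : ℕ) (f : C(K, 𝕜)), j0 < j ∧ ρ / 2 ≤ ‖μ j n f‖ ∧ (∀ x, 0 ≤ (s + nr f) x) ∧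
      (∀ x, (s + nr f) x ≤ 1) ∧
      ∀ᶠ i in (hyperfilter ℕ : Filter ℕ), Λ i (s + nr f) ≤ ρ / 4 * (1 - (1 / 2) ^ (k + 1)) := by
  have e1 : ∀ᶠ i in (hyperfilter ℕ : Filter ℕ), j0 < i := by
    refine Filter.mem_hyperfilter_of_finite_compl ?_
    refine (Set.finite_Iic j0).subset fun i hi => ?_
    simpa using hi
  obtain ⟨j, hj, hj0⟩ := (hs.and e1).exists
  have hpk : (0 : ℝ) < (1 / 2) ^ k := by positivity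
  have hj2 : Λ j s ≤ ρ / 4 := by
    refine hj.trans ?_
    nlinarith [mul_pos hρ hpk]
  have hδ : 0 < ρ / 4 * (1 / 2) ^ (k + 1) := by positivity
  obtain ⟨n, hn, hi⟩ := sel_step hρ hg hd h h1 h2 h3 hs0 hs1 hj2 hδ
  have hf : ∀ x, nr (rs (1 - s) (g j n)) x ≤ 1 - s x := by
    intro x
    have h5 : nr (rs (1 - s) (g j n)) x = ‖((1 - s x : ℝ) : 𝕜) * g j n x‖ := rfl
    rw [h5, norm_mul, RCLike.norm_ofReal, abs_of_nonneg (by linarith [hs1 x])]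
    have h6 : ‖g j n x‖ ≤ 1 := ((g j n).norm_coe_le_norm x).trans (hg j n)
    nlinarith [hs1 x, norm_nonneg (g j n x)]
  have hf0 : ∀ x, 0 ≤ nr (rs (1 - s) (g j n)) x :=
    fun x => norm_nonneg (rs (1 - s) (g j n) x)
  refine ⟨j, n, rs (1 - s) (g j n), hj0, hn, fun x => ?_, fun x => ?_, ?_⟩
  · rw [ContinuousMap.add_apply]
    exact add_nonneg (hs0 x) (hf0 x)
  · rw [ContinuousMap.add_apply]
    linarith [hf x]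
  · filter_upwards [hs, hi] with i hi1 hi2
    refine (h4 i _ _).trans ?_
    have h7 : ρ / 4 * (1 - (1 / 2) ^ (k + 1)) =
        ρ / 4 * (1 - (1 / 2) ^ k) + ρ / 4 * (1 / 2) ^ (k + 1) := by
      rw [pow_succ]
      ring
    rw [h7]
    exact add_le_add hi1 hi2

omit [T2Space K] in
theorem select {ρ : ℝ} (hρ : 0 < ρ) {μ : ℕ → ℕ → (C(K, 𝕜) →L[𝕜] 𝕜)}
    {g : ℕ → ℕ → C(K, 𝕜)} (hμ : ∀ j n, ‖μ j n‖ ≤ 1) (hg : ∀ j n, ‖g j n‖ ≤ 1)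
    (hd : ∀ j n m x, n ≠ m → g j n x = 0 ∨ g j m x = 0) (h : ∀ j n, ρ ≤ ‖μ j n (g j n)‖) :
    ∃ (J N : ℕ → ℕ) (h : ℕ → C(K, 𝕜)), StrictMono J ∧
      (∀ (s : Finset ℕ) (x : K), ∑ k ∈ s, ‖h k x‖ ≤ 1) ∧
      ∀ k, ρ / 2 ≤ ‖μ (J k) (N k) (h k)‖ := by
  obtain ⟨Λ, h1, h0, h2, h4, h3⟩ := exists_lam hμ hg
  -- the states
  let St : Type _ := {p : ℕ × C(K, ℝ) × ℕ // (∀ x, 0 ≤ p.2.1 x) ∧ (∀ x, p.2.1 x ≤ 1) ∧
    ∀ᶠ i in (hyperfilter ℕ : Filter ℕ), Λ i p.2.1 ≤ ρ / 4 * (1 - (1 / 2) ^ p.1)}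
  have hstep : ∀ p : St, ∃ (q : St) (n : ℕ) (f : C(K, 𝕜)), p.1.2.2 < q.1.2.2 ∧
      ρ / 2 ≤ ‖μ q.1.2.2 n f‖ ∧ q.1.2.1 = p.1.2.1 + nr f := by
    intro p
    obtain ⟨j, n, f, hj, hn, hf0, hf1, hf⟩ := SelC_step hρ hg hd h h1 h2 h3 h4 p.1.1 p.1.2.1
      p.1.2.2 p.2.1 p.2.2.1 p.2.2.2
    exact ⟨⟨(p.1.1 + 1, p.1.2.1 + nr f, j), hf0, hf1, hf⟩, n, f, hj, hn, rfl⟩
  choose q N f hq1 hq2 hq3 using hstep
  have hp0 : (∀ x, 0 ≤ (0 : C(K, ℝ)) x) ∧ (∀ x, (0 : C(K, ℝ)) x ≤ 1) ∧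
      ∀ᶠ i in (hyperfilter ℕ : Filter ℕ), Λ i 0 ≤ ρ / 4 * (1 - (1 / 2) ^ 0) := by
    refine ⟨fun x => le_refl _, fun x => zero_le_one, Eventually.of_forall fun i => ?_⟩
    rw [h0 i]
    simp
  let p0 : St := ⟨(0, 0, 0), hp0⟩
  let P : ℕ → St := fun k => Nat.rec p0 (fun _ p => q p) k
  have hP : ∀ k, P (k + 1) = q (P k) := fun k => rfl
  have hsum : ∀ (k : ℕ) (x : K), ∑ i ∈ Finset.range k, ‖f (P i) x‖ = (P k).1.2.1 x := by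
    intro k x
    induction k with
    | zero => rfl
    | succ k ih =>
      rw [Finset.sum_range_succ, ih, hP, hq3, ContinuousMap.add_apply]
      rfl
  refine ⟨fun k => (P (k + 1)).1.2.2, fun k => N (P k), fun k => f (P k), ?_, ?_, ?_⟩
  · exact strictMono_nat_of_lt_succ fun k => hq1 (P (k + 1))
  · intro s x
    obtain ⟨m, hm⟩ := s.exists_nat_subset_range
    calc ∑ k ∈ s, ‖f (P k) x‖ ≤ ∑ k ∈ Finset.range m, ‖f (P k) x‖ :=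
          Finset.sum_le_sum_of_subset_of_nonneg hm fun _ _ _ => norm_nonneg _
      _ = (P m).1.2.1 x := hsum m x
      _ ≤ 1 := (P m).2.2.1 x
  · intro k
    exact hq2 (P k)

end Pool.Agent.H.MP_f11573_an
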