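import Pool.Agent.H.MP_f11573_an.Wk
import Pool.Agent.H.MP_f11573_an.Sch
import Pool.Agent.H.MP_f11573_an.HuU
import Pool.Agent.H.MP_f11573_an.SelC

/-!
# UnU: uniform openness

As `unif` in UnL, for closed sets with a given lower bound in place of finite sets.
-/

set_option autoImplicit false

open Filter Topology Set Metric MeasureTheory

namespace Pool.Agent.H.MP_f11573_an

set_option linter.unusedSectionVars false

variable {𝕜 : Type*} [RCLike 𝕜] {K : Type*} [TopologicalSpace K] [CompactSpace K] [T2Space K]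

private theorem UnU_sum {h : ℕ → C(K, 𝕜)} (hh : ∀ (s : Finset ℕ) (x : K), ∑ k ∈ s, ‖h k x‖ ≤ 1)
    (u : C(K, 𝕜) →L[𝕜] 𝕜) (s : Finset ℕ) : ∑ k ∈ s, ‖u (h k)‖ ≤ 1 * ‖u‖ := by
  choose c hc1 hc2 using fun k => RCLike.exists_norm_eq_mul_self (u (h k))
  have h1 : ((∑ k ∈ s, ‖u (h k)‖ : ℝ) : 𝕜) = u (∑ k ∈ s, c k • h k) := by
    rw [RCLike.ofReal_sum, map_sum]
    refine Finset.sum_congr rfl fun k _ => ?_
    rw [map_smul, smul_eq_mul]
    exact hc2 k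
  have h2 : ‖∑ k ∈ s, c k • h k‖ ≤ 1 := by
    refine (ContinuousMap.norm_le _ zero_le_one).2 fun x => ?_
    rw [ContinuousMap.sum_apply]
    refine (norm_sum_le _ _).trans (le_trans (Finset.sum_le_sum fun k _ => ?_) (hh s x))
    show ‖c k * h k x‖ ≤ ‖h k x‖
    rw [norm_mul, hc1, one_mul]
  have h3 : ‖((∑ k ∈ s, ‖u (h k)‖ : ℝ) : 𝕜)‖ ≤ ‖u‖ * 1 := by
    rw [h1]
    exact (u.le_opNorm _).trans (mul_le_mul_of_nonneg_left h2 (norm_nonneg _))
  rw [RCLike.norm_ofReal, mul_one] at h3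
  rw [one_mul]
  exact (le_abs_self _).trans h3

theorem unif_open (hK : Groth 𝕜 C(K, 𝕜)) {T : C(K, 𝕜) →L[𝕜] C(K, 𝕜)} (hT : DenseRange T)
    {c₀ : ℝ} (hc₀ : 0 < c₀) :
    ∃ c : ℝ, 0 < c ∧ ∀ P : Set K, IsClosed P → LowOn T P c₀ →
      ∃ U : Set K, IsOpen U ∧ P ⊆ U ∧ LowOn T (closure U) c := by
  by_contra hcon
  push Not at hcon
  have hη : ∀ j : ℕ, 0 < min (c₀ / 2) (1 / ((j : ℝ) + 1)) := fun j =>
    lt_min (by positivity) (by positivity)
  choose P hP hlP hPU using fun j : ℕ => hcon _ (hη j)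
  choose μ g h1 h2 h3 h4 h5 using fun j : ℕ => humpU (hP j) hc₀
    (min_le_left (c₀ / 2) (1 / ((j : ℝ) + 1))) (hlP j) (hPU j)
  have hT0 := norm_nonneg T
  have hρ : 0 < c₀ / (8 * (c₀ + ‖T‖)) := by positivity
  obtain ⟨J, N, h, hJ, hh, hb⟩ := select hρ h1 h3 h4 h5
  have hwk : ∀ Ψ : (C(K, 𝕜) →L[𝕜] 𝕜) →L[𝕜] 𝕜,
      Tendsto (fun k => Ψ (μ (J k) (N k))) atTop (𝓝 0) := by
    intro Ψ
    refine wk_null hK hT (C := 1) (fun k => h1 _ _) ?_ Ψ
    refine squeeze_zero (fun k => norm_nonneg _) (fun k => ?_)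
      (tendsto_one_div_add_atTop_nhds_zero_nat (𝕜 := ℝ))
    refine (h2 _ _).trans ((min_le_right _ _).trans ?_)
    have h6 : (k : ℝ) ≤ (J k : ℝ) := Nat.cast_le.2 (hJ.id_le k)
    exact one_div_le_one_div_of_le (by positivity) (by linarith)
  have hlim := schur (Φ := fun k => ContinuousLinearMap.apply 𝕜 𝕜 (h k)) (C := 1)
    (fun u s => UnU_sum hh u s) hwk
  have hlim' : Tendsto (fun k => ‖μ (J k) (N k) (h k)‖) atTop (𝓝 0) := by
    have h7 := hlim.norm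
    rw [norm_zero] at h7
    exact h7
  have h8 : c₀ / (8 * (c₀ + ‖T‖)) / 2 ≤ 0 := ge_of_tendsto hlim' (Eventually.of_forall hb)
  linarith

end Pool.Agent.H.MP_f11573_an
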