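import Pool.Agent.H.MP_f11573_an.AdU
import Pool.Agent.H.MP_f11573_an.UnU
import Pool.Agent.H.MP_f11573_an.LfU

/-! # FnL: uniform local surjectivity, final form -/

set_option autoImplicit false

open Filter Topology Set Metric MeasureTheory

namespace Pool.Agent.H.MP_f11573_an

variable {𝕜 : Type*} [RCLike 𝕜] {K : Type*} [TopologicalSpace K] [CompactSpace K] [T2Space K]

/-- `T` lifts over the set `L` with the constant `C`: every `h` in `C(K)` agrees on `L` with `T f`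
for some `f` in `C(K)` with `‖f‖ ≤ C ‖h‖`. -/
def LiftOn {𝕜 : Type*} [RCLike 𝕜] {K : Type*} [TopologicalSpace K] [CompactSpace K]
    (T : C(K, 𝕜) →L[𝕜] C(K, 𝕜)) (L : Set K) (C : ℝ) : Prop :=
  ∀ h : C(K, 𝕜), ∃ f : C(K, 𝕜), ‖f‖ ≤ C * ‖h‖ ∧ ∀ x ∈ L, T f x = h x

omit [T2Space K] in
theorem lowOn_of_liftOn {T : C(K, 𝕜) →L[𝕜] C(K, 𝕜)} {L : Set K} {C : ℝ}
    (h : LiftOn T L C) : LowOn T L (1 / (|C| + 1)) := by
  intro μ hμ
  have hC : 0 < |C| + 1 := by positivity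
  rw [one_div, inv_mul_le_iff₀ hC]
  refine ContinuousLinearMap.opNorm_le_bound _ (by positivity) fun g => ?_
  obtain ⟨f, hf, hfL⟩ := h g
  have h1 : μ g = μ (T f) := by
    have h2 := hμ (g - T f) fun x hx => by
      change g x - T f x = 0
      rw [hfL x hx, sub_self]
    rw [map_sub, sub_eq_zero] at h2
    exact h2
  rw [h1]
  calc ‖μ (T f)‖ = ‖(μ.comp T) f‖ := rfl
    _ ≤ ‖μ.comp T‖ * ‖f‖ := (μ.comp T).le_opNorm f
    _ ≤ ‖μ.comp T‖ * ((|C| + 1) * ‖g‖) := by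
        gcongr
        refine hf.trans (mul_le_mul_of_nonneg_right ?_ (norm_nonneg _))
        linarith [le_abs_self C]
    _ = (|C| + 1) * ‖μ.comp T‖ * ‖g‖ := by ring

theorem lift_open (hK : Groth 𝕜 C(K, 𝕜)) {T : C(K, 𝕜) →L[𝕜] C(K, 𝕜)} (hT : DenseRange T)
    (C : ℝ) : ∃ C' : ℝ, ∀ L : Set K, IsClosed L → LiftOn T L C → ∀ P : Set K, P.Finite →
      ∃ U : Set K, IsOpen U ∧ L ∪ P ⊆ U ∧ LiftOn T (closure U) C' := by
  obtain ⟨c₁, hc₁, h1⟩ := low_union_unif hK hT (c := 1 / (|C| + 1)) (by positivity)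
  obtain ⟨c₂, hc₂, h2⟩ := unif_open hK hT hc₁
  refine ⟨2 / c₂, fun L hL hlift P hP => ?_⟩
  obtain ⟨U, hU, hLU, h3⟩ := h2 (L ∪ P) (hL.union hP.isClosed)
    (h1 L hL (lowOn_of_liftOn hlift) P hP)
  exact ⟨U, hU, hLU, fun h => lift_exact isClosed_closure hc₂ h3 h⟩

end Pool.Agent.H.MP_f11573_an
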