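import Pool.Agent.H.MP_f11573_an.DefL

/-!
# FnP: onto on finite sets

PROOF: the map `C(K, 𝕜) → (P → 𝕜)`, `h ↦ (h p)_p`, is continuous and onto (Urysohn / `T2`, separate the points of `P`), so
`f ↦ (T f p)_p` has dense range in the finite-dimensional space `P → 𝕜`; its range is a linear subspace, hence closed
(`Submodule.closed_of_finiteDimensional`), hence everything. (The surjectivity of the first map is not needed: the image of the range of
`T` is dense in the image of `C(K, 𝕜)`, the image of the range is closed in `P → 𝕜`, so it contains the image of every `h`.)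
-/

set_option autoImplicit false

open Filter Topology Set Metric MeasureTheory

namespace Pool.Agent.H.MP_f11573_an

variable {𝕜 : Type*} [RCLike 𝕜] {K : Type*} [TopologicalSpace K] [CompactSpace K] [T2Space K]

omit [T2Space K] in
theorem ontoOn_finite {T : C(K, 𝕜) →L[𝕜] C(K, 𝕜)} (hT : DenseRange T) {P : Set K}
    (hP : P.Finite) : OntoOn T P := by
  intro h
  have : Finite P := hP
  have : Fintype P := Fintype.ofFinite P
  let R : C(K, 𝕜) →L[𝕜] (P → 𝕜) := ContinuousLinearMap.pi fun p : P => ContinuousMap.evalCLM 𝕜 (p : K)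
  have hR : ∀ (f : C(K, 𝕜)) (p : P), R f p = f p := fun f p => rfl
  let S : Submodule 𝕜 (P → 𝕜) := LinearMap.range ((R.comp T : C(K, 𝕜) →L[𝕜] (P → 𝕜)) :
    C(K, 𝕜) →ₗ[𝕜] (P → 𝕜))
  have hS : IsClosed (S : Set (P → 𝕜)) := Submodule.closed_of_finiteDimensional S
  have h1 : R h ∈ closure (S : Set (P → 𝕜)) := by
    refine map_mem_closure R.continuous (hT h) ?_
    rintro _ ⟨f, rfl⟩
    exact ⟨f, rfl⟩
  rw [hS.closure_eq] at h1
  obtain ⟨f, hf⟩ := h1
  refine ⟨f, fun x hx => ?_⟩
  exact congrFun hf ⟨x, hx⟩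

end Pool.Agent.H.MP_f11573_an
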