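import Pool.Agent.H.MP_f11573_an.InU
import Pool.Agent.H.MP_f11573_an.Cc
import Pool.Agent.H.MP_f11573_an.Srj

/-! # FnU: dense range implies onto for amenable sums of essentially local operators -/

set_option autoImplicit false

open Filter Topology Set Metric MeasureTheory

namespace Pool.Agent.H.MP_f11573_an

variable {𝕜 : Type*} [RCLike 𝕜] {K : Type*} [TopologicalSpace K] [CompactSpace K] [T2Space K]

theorem onto_ess (hK : Groth 𝕜 C(K, 𝕜)) {M : Type*} [Monoid M] [MulAction M K]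
    [ContinuousConstSMul M K] (hF : FinTo M K) (hG : TopAmenM M K)
    {T : C(K, 𝕜) →L[𝕜] C(K, 𝕜)} (hT : DenseRange T) (hc : T ∈ closure (FunEss 𝕜 M K)) :
    Function.Surjective T := by
  obtain ⟨C, N, W, hC, hW, hμ⟩ := ineqU hK hF hG hT hc
  by_contra hns
  have h1 : ∀ n : ℕ, ∃ u : C(K, 𝕜) →L[𝕜] 𝕜, ‖u‖ = 1 ∧ ‖u.comp T‖ ≤ 1 / (n + 1) := by
    intro n
    by_contra hcon
    push Not at hcon
    refine hns (surj_of_adjoint (c := 1 / ((n : ℝ) + 1)) (by positivity) fun u => ?_)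
    by_cases hu : u = 0
    · rw [hu, norm_zero, mul_zero]
      exact norm_nonneg _
    · have hu0 : 0 < ‖u‖ := norm_pos_iff.2 hu
      have h2 := hcon (((‖u‖⁻¹ : ℝ) : 𝕜) • u) (by
        rw [norm_smul, RCLike.norm_ofReal, abs_of_pos (inv_pos.2 hu0), inv_mul_cancel₀ hu0.ne'])
      rw [ContinuousLinearMap.smul_comp, norm_smul, RCLike.norm_ofReal,
        abs_of_pos (inv_pos.2 hu0), inv_mul_eq_div, lt_div_iff₀ hu0] at h2
      exact h2.le
  choose u hu1 hu2 using h1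
  have h0 : Tendsto (fun n : ℕ => 1 / ((n : ℝ) + 1)) atTop (𝓝 0) :=
    tendsto_one_div_add_atTop_nhds_zero_nat
  have hT0 : Tendsto (fun n => ‖(u n).comp T‖) atTop (𝓝 0) :=
    squeeze_zero (fun n => norm_nonneg _) hu2 h0
  have hw : ∀ Φ : (C(K, 𝕜) →L[𝕜] 𝕜) →L[𝕜] 𝕜, Tendsto (fun n => Φ (u n)) atTop (𝓝 0) :=
    fun Φ => wk_null hK hT (C := 1) (fun n => (hu1 n).le) hT0 Φ
  have hW0 : Tendsto (fun n => ∑ i, ‖(u n).comp (W i)‖) atTop (𝓝 0) := by
    have h6 : Tendsto (fun n => ∑ i, ‖(u n).comp (W i)‖) atTop (𝓝 (∑ i : Fin N, (0 : ℝ))) :=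
      tendsto_finsetSum _ fun i _ => cc (hW i) hw
    simpa using h6
  have hlim : Tendsto (fun n => C * ‖(u n).comp T‖ + 1 / 2 + C * ∑ i, ‖(u n).comp (W i)‖)
      atTop (𝓝 (C * 0 + 1 / 2 + C * 0)) :=
    ((hT0.const_mul C).add_const (1 / 2)).add (hW0.const_mul C)
  have h7 := ge_of_tendsto' (b := 1) hlim fun n => by
    have := hμ (u n)
    rw [hu1 n] at this
    exact this
  norm_num at h7

end Pool.Agent.H.MP_f11573_an
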