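import Pool.Agent.H.MP_f11573_an.Def

/-!
# Fol: every action of an amenable group is topologically amenable

PROOF: `F` from `hG E (ε / 2)`, `m k = 1 / |F|` (constant) for `k ∈ F`, `0` otherwise. `∑_{k ∈ H} |m (g k) - m k| ≤ (number of k with
exactly one of k, g k in F) / |F|`; the number of `k ∈ F` with `g k ∉ F` is `≤ ε / 2 |F|`, and the number of `k ∉ F` with
`g k ∈ F` is the same number: `|{k ∈ F, g k ∈ F}| + |{k ∈ F, g k ∉ F}| = |F| = |g⁻¹ F| = |{k ∈ F, g k ∈ F}| + |{k ∉ F, g k ∈ F}|`.
-/

set_option autoImplicit false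

open Filter Topology Set Metric MeasureTheory

namespace Pool.Agent.H.MP_f11573_an

theorem topAmen_of_foelner {G : Type*} [Group G] (hG : Foelner G) (K : Type*)
    [TopologicalSpace K] [MulAction G K] : TopAmen G K := by
  classical
  intro E ε hε
  obtain ⟨F, hF, hE⟩ := hG E (ε / 2) (half_pos hε)
  have hc : (0 : ℝ) < F.card := by exact_mod_cast hF.card_pos
  obtain ⟨c, hcd⟩ : ∃ c : ℝ, c = (F.card : ℝ)⁻¹ := ⟨_, rfl⟩
  have hc0 : 0 ≤ c := by
    rw [hcd]
    exact (inv_pos.2 hc).le
  refine ⟨F, fun k => ContinuousMap.const K (if k ∈ F then c else 0), fun k x => ?_,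
    fun k hk x => ?_, fun x => ?_, fun g hg x H => ?_⟩
  · show 0 ≤ (if k ∈ F then c else 0)
    split_ifs
    · exact hc0
    · exact le_rfl
  · show (if k ∈ F then c else 0) = 0
    rw [if_neg hk]
  · show ∑ k ∈ F, (if k ∈ F then c else 0) = 1
    rw [Finset.sum_ite_mem, Finset.inter_self, Finset.sum_const, nsmul_eq_mul, hcd,
      mul_inv_cancel₀ hc.ne']
  · show ∑ k ∈ H, |(if g * k ∈ F then c else 0) - (if k ∈ F then c else 0)| ≤ ε
    obtain ⟨F', hF'⟩ : ∃ F' : Finset G, F' = F.image (fun a => g⁻¹ * a) := ⟨_, rfl⟩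
    have hm : ∀ k, g * k ∈ F ↔ k ∈ F' := by
      intro k
      rw [hF', Finset.mem_image]
      constructor
      · intro h
        exact ⟨g * k, h, inv_mul_cancel_left g k⟩
      · rintro ⟨a, ha, rfl⟩
        rw [mul_inv_cancel_left]
        exact ha
    have hcard : F.card = F'.card := by
      rw [hF', Finset.card_image_of_injective _ (mul_right_injective g⁻¹)]
    have h1 : (((F \ F').card : ℕ) : ℝ) ≤ ε / 2 * F.card := by
      have h2 : {k : G | k ∈ F ∧ g * k ∉ F} = ((F \ F' : Finset G) : Set G) := by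
        ext k
        rw [Set.mem_setOf_eq, Finset.mem_coe, Finset.mem_sdiff, hm]
      have h3 := hE g hg
      rw [h2, Set.ncard_coe_finset] at h3
      exact h3
    have h2 : (F' \ F).card = (F \ F').card := Finset.card_sdiff_comm hcard.symm
    have h3 : ∀ k ∈ H, |(if g * k ∈ F then c else 0) - (if k ∈ F then c else 0)| ≤
        (if k ∈ F \ F' then c else 0) + (if k ∈ F' \ F then c else 0) := by
      intro k _
      simp only [Finset.mem_sdiff, hm]
      by_cases e1 : k ∈ F'
      · by_cases e2 : k ∈ F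
        · simp [e1, e2]
        · simp [e1, e2, abs_of_nonneg hc0]
      · by_cases e2 : k ∈ F
        · simp [e1, e2, abs_of_nonneg hc0]
        · simp [e1, e2]
    have h4 : ∀ A : Finset G, ∑ k ∈ H, (if k ∈ A then c else 0) ≤ A.card * c := by
      intro A
      rw [Finset.sum_ite_mem, Finset.sum_const, nsmul_eq_mul]
      refine mul_le_mul_of_nonneg_right ?_ hc0
      exact_mod_cast Finset.card_le_card Finset.inter_subset_right
    refine (Finset.sum_le_sum h3).trans ?_
    rw [Finset.sum_add_distrib]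
    refine (add_le_add (h4 _) (h4 _)).trans ?_
    rw [h2, ← two_mul]
    have h5 : c * F.card = 1 := by rw [hcd, inv_mul_cancel₀ hc.ne']
    have h6 := mul_le_mul_of_nonneg_right h1 hc0
    nlinarith [h6, h5]

end Pool.Agent.H.MP_f11573_an
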