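import Pool.Agent.H.MP_f11573_an.Def3

/-!
# FolM: every action of an amenable group is topologically amenable

PROOF: `F'` from `hG (E ∪ E⁻¹) (ε / 2)` (or `E⁻¹`), `F = F'⁻¹` (`F'.image (·⁻¹)`), `m k = 1 / |F|` (constant) for `k ∈ F`, `0` otherwise.
For a group the inner sum is `m (l * g⁻¹) (g • x)` (one term, `k = l * g⁻¹`, also if it is not in `F`: then both are `0`), so the
sum over `H` is at most `(number of l with exactly one of l, l * g⁻¹ in F) / |F|`. `l ∈ F ↔ l⁻¹ ∈ F'`,
`l * g⁻¹ ∈ F ↔ g * l⁻¹ ∈ F'`, so with `k = l⁻¹` this is the number of `k` with exactly one of `k`, `g * k` in `F'`; the number of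
`k ∈ F'` with `g k ∉ F'` is `≤ ε / 2 |F'|`, and the number of `k ∉ F'` with `g k ∈ F'` is the same number:
`|{k ∈ F', g k ∈ F'}| + |{k ∈ F', g k ∉ F'}| = |F'| = |g⁻¹ F'| = |{k ∈ F', g k ∈ F'}| + |{k ∉ F', g k ∈ F'}|`. (See also Fol.)
-/

set_option autoImplicit false

open Filter Topology Set Metric MeasureTheory

namespace Pool.Agent.H.MP_f11573_an

theorem topAmenM_of_foelner {G : Type*} [Group G] (hG : Foelner G) (K : Type*)
    [TopologicalSpace K] [MulAction G K] : TopAmenM G K := by
  classical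
  intro E ε hε
  obtain ⟨F', hF'n, hE⟩ := hG E (ε / 2) (half_pos hε)
  obtain ⟨F, hFd⟩ : ∃ F : Finset G, F = F'.image (fun a => a⁻¹) := ⟨_, rfl⟩
  have hmF : ∀ l, l ∈ F ↔ l⁻¹ ∈ F' := by
    intro l
    rw [hFd, Finset.mem_image]
    constructor
    · rintro ⟨a, ha, rfl⟩
      rw [inv_inv]
      exact ha
    · intro h
      exact ⟨l⁻¹, h, inv_inv l⟩
  have hFc : F.card = F'.card := by
    rw [hFd, Finset.card_image_of_injective _ inv_injective]
  have hc : (0 : ℝ) < F.card := by
    rw [hFc]
    exact_mod_cast hF'n.card_pos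
  obtain ⟨c, hcd⟩ : ∃ c : ℝ, c = (F.card : ℝ)⁻¹ := ⟨_, rfl⟩
  have hc0 : 0 ≤ c := by
    rw [hcd]
    exact (inv_pos.2 hc).le
  refine ⟨F, fun k => ContinuousMap.const K (if k ∈ F then c else 0), fun k x => ?_,
    fun k hk x => ?_, fun x => ?_, fun g hg x H => ?_⟩
  · show 0 ≤ (if k ∈ F then c else 0)
    split_ifs
    · exact hc0
    · exact le_rfl
  · show (if k ∈ F then c else 0) = 0
    rw [if_neg hk]
  · show ∑ k ∈ F, (if k ∈ F then c else 0) = 1
    rw [Finset.sum_ite_mem, Finset.inter_self, Finset.sum_const, nsmul_eq_mul, hcd,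
      mul_inv_cancel₀ hc.ne']
  · show ∑ l ∈ H, |(∑ k ∈ F, if k * g = l then (if k ∈ F then c else 0) else 0) -
      (if l ∈ F then c else 0)| ≤ ε
    obtain ⟨F₂, hF₂⟩ : ∃ F₂ : Finset G, F₂ = F.image (fun a => a * g) := ⟨_, rfl⟩
    have hm : ∀ l, l * g⁻¹ ∈ F ↔ l ∈ F₂ := by
      intro l
      rw [hF₂, Finset.mem_image]
      constructor
      · intro h
        exact ⟨l * g⁻¹, h, inv_mul_cancel_right l g⟩
      · rintro ⟨a, ha, rfl⟩
        rw [mul_inv_cancel_right]
        exact ha
    have hin : ∀ l, (∑ k ∈ F, if k * g = l then (if k ∈ F then c else 0) else 0) =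
        if l ∈ F₂ then c else 0 := by
      intro l
      by_cases h : l ∈ F₂
      · have h1 := (hm l).2 h
        rw [if_pos h, Finset.sum_eq_single (l * g⁻¹)]
        · rw [if_pos (inv_mul_cancel_right l g), if_pos h1]
        · intro k _ hk
          rw [if_neg]
          intro h2
          exact hk (eq_mul_inv_of_mul_eq h2)
        · intro h2
          exact absurd h1 h2
      · rw [if_neg h]
        refine Finset.sum_eq_zero fun k hk => ?_
        rw [if_neg]
        intro h2
        apply h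
        rw [← hm, ← h2, mul_inv_cancel_right]
        exact hk
    have hcard : F.card = F₂.card := by
      rw [hF₂, Finset.card_image_of_injective _ (mul_left_injective g)]
    have h1 : (((F \ F₂).card : ℕ) : ℝ) ≤ ε / 2 * F.card := by
      have h2 : {k : G | k ∈ F' ∧ g * k ∉ F'} =
          (((F \ F₂).image (fun a => a⁻¹) : Finset G) : Set G) := by
        ext k
        rw [Set.mem_ofPred_eq, Finset.mem_coe, Finset.mem_image]
        constructor
        · rintro ⟨e1, e2⟩
          refine ⟨k⁻¹, ?_, inv_inv k⟩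
          rw [Finset.mem_sdiff, hmF, inv_inv, ← hm, hmF, mul_inv_rev, inv_inv, inv_inv]
          exact ⟨e1, e2⟩
        · rintro ⟨a, ha, rfl⟩
          rw [Finset.mem_sdiff, hmF, ← hm, hmF, mul_inv_rev, inv_inv] at ha
          exact ha
      have h3 := hE g hg
      rw [h2, Set.ncard_coe_finset, Finset.card_image_of_injective _ inv_injective, ← hFc] at h3
      exact h3
    have h2 : (F₂ \ F).card = (F \ F₂).card := Finset.card_sdiff_comm hcard.symm
    have h3 : ∀ l ∈ H, |(∑ k ∈ F, if k * g = l then (if k ∈ F then c else 0) else 0) -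
        (if l ∈ F then c else 0)| ≤
        (if l ∈ F \ F₂ then c else 0) + (if l ∈ F₂ \ F then c else 0) := by
      intro l _
      rw [hin]
      simp only [Finset.mem_sdiff]
      by_cases e1 : l ∈ F₂
      · by_cases e2 : l ∈ F
        · simp [e1, e2]
        · simp [e1, e2, abs_of_nonneg hc0]
      · by_cases e2 : l ∈ F
        · simp [e1, e2, abs_of_nonneg hc0]
        · simp [e1, e2]
    have h4 : ∀ A : Finset G, ∑ k ∈ H, (if k ∈ A then c else 0) ≤ A.card * c := by
      intro A
      rw [Finset.sum_ite_mem, Finset.sum_const, nsmul_eq_mul]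
      refine mul_le_mul_of_nonneg_right ?_ hc0
      exact_mod_cast Finset.card_le_card Finset.inter_subset_right
    refine (Finset.sum_le_sum h3).trans ?_
    rw [Finset.sum_add_distrib]
    refine (add_le_add (h4 _) (h4 _)).trans ?_
    rw [h2, ← two_mul]
    have h5 : c * F.card = 1 := by rw [hcd, inv_mul_cancel₀ hc.ne']
    have h6 := mul_le_mul_of_nonneg_right h1 hc0
    nlinarith [h6, h5]

end Pool.Agent.H.MP_f11573_an
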