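import Pool.Agent.H.MP_f11573_an.Def

/-!
# Glu: gluing

PROOF: `F`, `m` from `hL` with `ε' = ε / (2 C + 1)` or so (`ε' C ≤ ε / 2`). For `t ∈ K` let `P_t = {k • t | k ∈ F} \ Q` and `f_t` from
`hs` with `ε / 4`: `‖f_t‖ ≤ C`, `‖A f_t p - h p‖ ≤ ε / 4` for `p ∈ P_t`. The set `U_t` of the `s` such that for all `k ∈ F`:
(`k • t ∉ Q → ‖A f_t (k • s) - h (k • s)‖ < ε / 2`) and (`k • t ∈ Q → k • s ∈ V`) is open (a finite intersection of open
sets) and contains `t`. By compactness `K` is covered by finitely many `U_{t_j}`, `j : Fin n`; `χ j` a partition of unity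
(`exists_continuous_sum_one_of_isOpen_isCompact`), `χ j = 0` off `U_{t_j}`. `w j = wt F m (χ j)`, `f = ∑ rs (w j) (f_{t_j})`. `w j ≥ 0`,
`∑ w j = 1`, so `‖f‖ ≤ C`. For `x ∉ V`: `‖A f x - ∑ w j x * A (f_{t_j}) x‖ ≤ ε / 2`, and
`∑ w j x * (A (f_{t_j}) x - h x) = ∑_j ∑_{k ∈ F} m k x * χ j (k⁻¹ • x) * (A (f_{t_j}) x - h x)`; if `χ j (k⁻¹ • x) ≠ 0` then
`s = k⁻¹ • x ∈ U_{t_j}`, `k • s = x ∉ V`, so `k • t_j ∉ Q` and `‖A (f_{t_j}) x - h x‖ < ε / 2`. So the sum has norm `≤ ε / 2`.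
-/

set_option autoImplicit false

open Filter Topology Set Metric MeasureTheory

namespace Pool.Agent.H.MP_f11573_an

variable {𝕜 : Type*} [RCLike 𝕜] {K : Type*} [TopologicalSpace K] [CompactSpace K] [T2Space K]

private theorem Glu_wt_nonneg {G : Type*} [Group G] [MulAction G K] [ContinuousConstSMul G K]
    {F : Finset G} {m : G → C(K, ℝ)} (hm0 : ∀ k x, 0 ≤ m k x) {χ : C(K, ℝ)}
    (hχ : ∀ x, 0 ≤ χ x) (x : K) : 0 ≤ wt F m χ x := by
  change 0 ≤ ∑ k ∈ F, m k x * χ (k⁻¹ • x)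
  exact Finset.sum_nonneg (fun k _ => mul_nonneg (hm0 k x) (hχ _))

private theorem Glu_wt_sum {G : Type*} [Group G] [MulAction G K] [ContinuousConstSMul G K]
    {F : Finset G} {m : G → C(K, ℝ)} (hm1 : ∀ x, ∑ k ∈ F, m k x = 1) {n : ℕ}
    {χ : Fin n → C(K, ℝ)} (hχ1 : ∀ x, ∑ j, χ j x = 1) (x : K) :
    ∑ j, wt F m (χ j) x = 1 := by
  change ∑ j, ∑ k ∈ F, m k x * χ j (k⁻¹ • x) = 1
  rw [Finset.sum_comm]
  rw [← hm1 x]
  refine Finset.sum_congr rfl (fun k _ => ?_)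
  rw [← Finset.mul_sum, hχ1, mul_one]

private theorem Glu_wt_zero {G : Type*} [Group G] [MulAction G K] [ContinuousConstSMul G K]
    {F : Finset G} {m : G → C(K, ℝ)} {χ : C(K, ℝ)} {x : K}
    (h : ∀ k ∈ F, χ (k⁻¹ • x) = 0) : wt F m χ x = 0 := by
  change ∑ k ∈ F, m k x * χ (k⁻¹ • x) = 0
  refine Finset.sum_eq_zero (fun k hk => ?_)
  rw [h k hk, mul_zero]

theorem glue {G : Type*} [Group G] [MulAction G K] [ContinuousConstSMul G K]
    {A : C(K, 𝕜) →L[𝕜] C(K, 𝕜)} (hL : Loc G A) {Q : Finset K} {C : ℝ} (hC : 0 < C)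
    (hs : Solv A Q C) {V : Set K} (hV : IsOpen V) (hQV : ∀ q ∈ Q, q ∈ V) {h : C(K, 𝕜)}
    (hh : ‖h‖ ≤ 1) {ε : ℝ} (hε : 0 < ε) :
    ∃ f : C(K, 𝕜), ‖f‖ ≤ C ∧ ∀ x, x ∉ V → ‖A f x - h x‖ ≤ ε := by
  classical
  obtain ⟨F, m, hm0, hm1, hloc⟩ := hL (ε / (2 * C)) (by positivity)
  have hdis : ∀ t : K, Disjoint ((F.image (fun k => k • t)).filter (fun s => s ∉ Q)) Q := by
    intro t
    rw [Finset.disjoint_left]
    intro a ha
    exact (Finset.mem_filter.1 ha).2
  choose f hfC hf using fun t : K => hs _ (hdis t) h hh (ε / 4) (by positivity)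
  let U : K → Set K := fun t => ⋂ k ∈ F, {s : K | (k • t ∉ Q → ‖A (f t) (k • s) - h (k • s)‖ < ε / 2)
    ∧ (k • t ∈ Q → k • s ∈ V)}
  have hUopen : ∀ t, IsOpen (U t) := by
    intro t
    refine isOpen_biInter_finset (fun k _ => ?_)
    by_cases hk : k • t ∈ Q
    · have h1 : {s : K | (k • t ∉ Q → ‖A (f t) (k • s) - h (k • s)‖ < ε / 2)
          ∧ (k • t ∈ Q → k • s ∈ V)} = (fun s : K => k • s) ⁻¹' V := by
        ext s
        simp [hk]
      rw [h1]
      exact hV.preimage (continuous_const_smul k)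
    · have h1 : {s : K | (k • t ∉ Q → ‖A (f t) (k • s) - h (k • s)‖ < ε / 2)
          ∧ (k • t ∈ Q → k • s ∈ V)} = {s : K | ‖A (f t) (k • s) - h (k • s)‖ < ε / 2} := by
        ext s
        simp [hk]
      rw [h1]
      refine isOpen_lt ?_ continuous_const
      exact (((A (f t)).continuous.comp (continuous_const_smul k)).sub
        (h.continuous.comp (continuous_const_smul k))).norm
  have hUmem : ∀ t, t ∈ U t := by
    intro t
    simp only [U, Set.mem_iInter, Set.mem_setOf_eq]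
    intro k hk
    refine ⟨fun hq => ?_, fun hq => hQV _ hq⟩
    have h1 := hf t (k • t) (Finset.mem_filter.2 ⟨Finset.mem_image_of_mem _ hk, hq⟩)
    linarith
  obtain ⟨T, hT⟩ := CompactSpace.elim_nhds_subcover U (fun t => (hUopen t).mem_nhds (hUmem t))
  let e := T.equivFin
  let tt : Fin T.card → K := fun j => ((e.symm j : T) : K)
  obtain ⟨χ, hχs, hχ1, hχ01, _⟩ := exists_continuous_sum_one_of_isOpen_isCompact
    (s := fun j => U (tt j)) (t := (Set.univ : Set K)) (fun j => hUopen _) isCompact_univ (by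
      intro x _
      have hx : x ∈ ⋃ y ∈ T, U y := by rw [hT]; trivial
      simp only [Set.mem_iUnion] at hx ⊢
      obtain ⟨y, hy, hxy⟩ := hx
      refine ⟨e ⟨y, hy⟩, ?_⟩
      simpa [tt] using hxy)
  have hχ0 : ∀ j x, 0 ≤ χ j x := fun j x => (hχ01 j x).1
  have hχsum : ∀ x, ∑ j, χ j x = 1 := by
    intro x
    have := hχ1 (Set.mem_univ x)
    simpa using this
  have hw0 : ∀ j x, 0 ≤ wt F m (χ j) x := fun j x => Glu_wt_nonneg hm0 (hχ0 j) x
  have hw1 : ∀ x, ∑ j, wt F m (χ j) x = 1 := fun x => Glu_wt_sum hm1 hχsum x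
  refine ⟨∑ j, rs (wt F m (χ j)) (f (tt j)), ?_, ?_⟩
  · rw [ContinuousMap.norm_le _ hC.le]
    intro x
    rw [ContinuousMap.sum_apply]
    calc ‖∑ j, (rs (wt F m (χ j)) (f (tt j))) x‖
        ≤ ∑ j, ‖(rs (wt F m (χ j)) (f (tt j))) x‖ := norm_sum_le _ _
      _ ≤ ∑ j, wt F m (χ j) x * C := by
          refine Finset.sum_le_sum (fun j _ => ?_)
          change ‖((wt F m (χ j) x : ℝ) : 𝕜) * f (tt j) x‖ ≤ _
          rw [norm_mul, RCLike.norm_ofReal, abs_of_nonneg (hw0 j x)]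
          exact mul_le_mul_of_nonneg_left (((f (tt j)).norm_coe_le_norm x).trans (hfC _)) (hw0 j x)
      _ = C := by rw [← Finset.sum_mul, hw1, one_mul]
  · intro x hx
    have h1 := hloc T.card χ hχ0 hχsum (fun j => f (tt j)) C (fun j => hfC _) x
    have h2 : ε / (2 * C) * C = ε / 2 := by field_simp
    rw [h2] at h1
    have h3 : ∑ j, ((wt F m (χ j) x : ℝ) : 𝕜) * A (f (tt j)) x - h x
        = ∑ j, ((wt F m (χ j) x : ℝ) : 𝕜) * (A (f (tt j)) x - h x) := by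
      simp only [mul_sub]
      rw [Finset.sum_sub_distrib, ← Finset.sum_mul]
      have h4 : ∑ j, ((wt F m (χ j) x : ℝ) : 𝕜) = 1 := by
        rw [← RCLike.ofReal_sum, hw1, RCLike.ofReal_one]
      rw [h4, one_mul]
    have h5 : ‖∑ j, ((wt F m (χ j) x : ℝ) : 𝕜) * (A (f (tt j)) x - h x)‖ ≤ ε / 2 := by
      calc ‖∑ j, ((wt F m (χ j) x : ℝ) : 𝕜) * (A (f (tt j)) x - h x)‖
          ≤ ∑ j, ‖((wt F m (χ j) x : ℝ) : 𝕜) * (A (f (tt j)) x - h x)‖ := norm_sum_le _ _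
        _ ≤ ∑ j, wt F m (χ j) x * (ε / 2) := by
            refine Finset.sum_le_sum (fun j _ => ?_)
            rw [norm_mul, RCLike.norm_ofReal, abs_of_nonneg (hw0 j x)]
            by_cases hY : ‖A (f (tt j)) x - h x‖ ≤ ε / 2
            · exact mul_le_mul_of_nonneg_left hY (hw0 j x)
            · have h6 : wt F m (χ j) x = 0 := by
                refine Glu_wt_zero (fun k hk => ?_)
                by_contra hne
                have h7 : k⁻¹ • x ∈ U (tt j) := hχs j (subset_tsupport _ hne)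
                simp only [U, Set.mem_iInter, Set.mem_setOf_eq] at h7
                obtain ⟨h8, h9⟩ := h7 k hk
                rw [smul_inv_smul] at h8 h9
                have h10 : k • tt j ∉ Q := fun hq => hx (h9 hq)
                exact hY (h8 h10).le
              rw [h6, zero_mul, zero_mul]
        _ = ε / 2 := by rw [← Finset.sum_mul, hw1, one_mul]
    have h6 : A (∑ j, rs (wt F m (χ j)) (f (tt j))) x - h x
        = (A (∑ j, rs (wt F m (χ j)) (f (tt j))) x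
            - ∑ j, ((wt F m (χ j) x : ℝ) : 𝕜) * A (f (tt j)) x)
          + ∑ j, ((wt F m (χ j) x : ℝ) : 𝕜) * (A (f (tt j)) x - h x) := by
      rw [← h3]; ring
    rw [h6]
    calc _ ≤ _ := norm_add_le _ _
      _ ≤ ε / 2 + ε / 2 := add_le_add h1 h5
      _ = ε := by ring

end Pool.Agent.H.MP_f11573_an
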