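import Pool.Agent.H.MP_f11573_an.Def

/-!
# LocA: the gluing property of finite sums

PROOF: `A f x = ∑ g ∈ E, a g x * f (g • x)`, `M = ∑ g ∈ E, ‖a g‖`. Take `F`, `m` from `hG E (ε / (M + 1))`. With `w j = wt F m (χ j)`:
`A (∑ rs (w j) (f j)) x - ∑ w j x * A (f j) x = ∑_{g ∈ E} a g x * ∑_j (w j (g • x) - w j x) * f j (g • x)`, and
`w j (g • x) = ∑_{k ∈ F} m k (g • x) * χ j (k⁻¹ • g • x) = ∑_{k ∈ H} m (g * k) (g • x) * χ j (k⁻¹ • x)`,
`w j x = ∑_{k ∈ H} m k x * χ j (k⁻¹ • x)` with `H = F ∪ g⁻¹ F` (`m k = 0` for `k ∉ F`; substitute `k = g * k'`), so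
`∑_j |w j (g • x) - w j x| ≤ ∑_{k ∈ H} |m (g * k) (g • x) - m k x| * ∑_j χ j (k⁻¹ • x) ≤ ε / (M + 1)`. The norm of the
difference is at most `∑_g ‖a g‖ * R * ε / (M + 1) ≤ ε R` (`R ≥ 0` if `n > 0`; if `n = 0` then `∑ χ j = 0 ≠ 1`, no `x`).
-/

set_option autoImplicit false

open Filter Topology Set Metric MeasureTheory

namespace Pool.Agent.H.MP_f11573_an

variable {𝕜 : Type*} [RCLike 𝕜] {K : Type*} [TopologicalSpace K] [CompactSpace K] [T2Space K]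

omit [CompactSpace K] [T2Space K] in
/-- the weights are almost invariant -/
private theorem LocA_wt {G : Type*} [Group G] [MulAction G K] [ContinuousConstSMul G K]
    {F : Finset G} {m : G → C(K, ℝ)} (hm0 : ∀ k, k ∉ F → ∀ x, m k x = 0) {g : G} {x : K} {η : ℝ}
    (hη : ∀ H : Finset G, ∑ k ∈ H, |m (g * k) (g • x) - m k x| ≤ η) {n : ℕ} {χ : Fin n → C(K, ℝ)}
    (hχ : ∀ j x, 0 ≤ χ j x) (hχ1 : ∀ x, ∑ j, χ j x = 1) :
    ∑ j, |wt F m (χ j) (g • x) - wt F m (χ j) x| ≤ η := by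
  classical
  obtain ⟨H, hH⟩ : ∃ H : Finset G, H = F ∪ F.image (fun k => g⁻¹ * k) := ⟨_, rfl⟩
  have h1 : ∀ j, wt F m (χ j) x = ∑ k ∈ H, m k x * χ j (k⁻¹ • x) := by
    intro j
    show ∑ k ∈ F, m k x * χ j (k⁻¹ • x) = _
    refine Finset.sum_subset (by rw [hH]; exact Finset.subset_union_left) fun k _ hk => ?_
    rw [hm0 k hk, zero_mul]
  have h2 : ∀ j, wt F m (χ j) (g • x) = ∑ k ∈ H, m (g * k) (g • x) * χ j (k⁻¹ • x) := by
    intro j
    show ∑ k ∈ F, m k (g • x) * χ j (k⁻¹ • g • x) = _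
    have h3 : ∑ k ∈ F, m k (g • x) * χ j (k⁻¹ • g • x) =
        ∑ k ∈ F.image (fun k => g⁻¹ * k), m (g * k) (g • x) * χ j (k⁻¹ • x) := by
      rw [Finset.sum_image fun a _ b _ hab => mul_left_cancel hab]
      refine Finset.sum_congr rfl fun k _ => ?_
      rw [mul_inv_cancel_left, mul_inv_rev, inv_inv, mul_smul]
    rw [h3]
    refine Finset.sum_subset (by rw [hH]; exact Finset.subset_union_right) fun k _ hk => ?_
    have h4 : g * k ∉ F := fun h5 => hk (Finset.mem_image.2 ⟨g * k, h5, inv_mul_cancel_left _ _⟩)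
    rw [hm0 _ h4, zero_mul]
  have h3 : ∀ j, |wt F m (χ j) (g • x) - wt F m (χ j) x| ≤
      ∑ k ∈ H, |m (g * k) (g • x) - m k x| * χ j (k⁻¹ • x) := by
    intro j
    rw [h1, h2, ← Finset.sum_sub_distrib]
    refine (Finset.abs_sum_le_sum_abs _ _).trans (le_of_eq ?_)
    refine Finset.sum_congr rfl fun k _ => ?_
    rw [← sub_mul, abs_mul, abs_of_nonneg (hχ j _)]
  refine (Finset.sum_le_sum fun j _ => h3 j).trans ?_
  rw [Finset.sum_comm]
  refine le_trans (le_of_eq ?_) (hη H)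
  refine Finset.sum_congr rfl fun k _ => ?_
  rw [← Finset.mul_sum, hχ1, mul_one]

omit [T2Space K] in
theorem loc_of_funOp {G : Type*} [Group G] [MulAction G K] [ContinuousConstSMul G K]
    (hG : TopAmen G K) {A : C(K, 𝕜) →L[𝕜] C(K, 𝕜)} (hA : A ∈ FunOp 𝕜 G K) :
    Loc G A := by
  classical
  obtain ⟨E, a, hEa⟩ := hA
  intro ε hε
  obtain ⟨M, hM⟩ : ∃ M : ℝ, M = ∑ g ∈ E, ‖a g‖ := ⟨_, rfl⟩
  have hM0 : 0 ≤ M := by
    rw [hM]
    exact Finset.sum_nonneg fun g _ => norm_nonneg _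
  obtain ⟨F, m, hm, hm0, hm1, hm2⟩ := hG E (ε / (M + 1)) (by positivity)
  refine ⟨F, m, hm, hm1, ?_⟩
  intro n χ hχ hχ1 f R hf x
  have hR : 0 ≤ R := by
    rcases Nat.eq_zero_or_pos n with rfl | hn
    · have h1 := hχ1 x
      simp at h1
    · exact (norm_nonneg _).trans (hf ⟨0, hn⟩)
  have h1 : A (∑ j, rs (wt F m (χ j)) (f j)) x - ∑ j, (wt F m (χ j) x : 𝕜) * A (f j) x =
      ∑ g ∈ E, a g x * ∑ j, ((wt F m (χ j) (g • x) - wt F m (χ j) x : ℝ) : 𝕜) * f j (g • x) := by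
    rw [hEa]
    have h2 : ∀ y, (∑ j, rs (wt F m (χ j)) (f j)) y = ∑ j, (wt F m (χ j) y : 𝕜) * f j y := by
      intro y
      rw [ContinuousMap.sum_apply]
      rfl
    simp only [h2, hEa]
    have h3 : ∑ j, (wt F m (χ j) x : 𝕜) * ∑ g ∈ E, a g x * f j (g • x) =
        ∑ g ∈ E, a g x * ∑ j, (wt F m (χ j) x : 𝕜) * f j (g • x) := by
      simp only [Finset.mul_sum]
      rw [Finset.sum_comm]
      refine Finset.sum_congr rfl fun g _ => Finset.sum_congr rfl fun j _ => ?_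
      ring
    rw [h3, ← Finset.sum_sub_distrib]
    refine Finset.sum_congr rfl fun g _ => ?_
    rw [← mul_sub, ← Finset.sum_sub_distrib]
    congr 1
    refine Finset.sum_congr rfl fun j _ => ?_
    push_cast
    ring
  rw [h1]
  have h4 : ∀ g ∈ E, ‖a g x * ∑ j, ((wt F m (χ j) (g • x) - wt F m (χ j) x : ℝ) : 𝕜) *
      f j (g • x)‖ ≤ ‖a g‖ * (ε / (M + 1) * R) := by
    intro g hg
    rw [norm_mul]
    refine mul_le_mul ((a g).norm_coe_le_norm x) ?_ (norm_nonneg _) (norm_nonneg _)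
    have h5 : ∀ j ∈ Finset.univ, ‖((wt F m (χ j) (g • x) - wt F m (χ j) x : ℝ) : 𝕜) *
        f j (g • x)‖ ≤ |wt F m (χ j) (g • x) - wt F m (χ j) x| * R := by
      intro j _
      rw [norm_mul, RCLike.norm_ofReal]
      exact mul_le_mul_of_nonneg_left (((f j).norm_coe_le_norm _).trans (hf j)) (abs_nonneg _)
    refine (norm_sum_le_of_le _ h5).trans ?_
    rw [← Finset.sum_mul]
    exact mul_le_mul_of_nonneg_right (LocA_wt hm0 (hm2 g hg x) hχ hχ1) hR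
  refine (norm_sum_le_of_le _ h4).trans ?_
  rw [← Finset.sum_mul, ← hM]
  have h6 : M * (ε / (M + 1)) ≤ ε := by
    rw [mul_div_assoc', div_le_iff₀ (by linarith)]
    nlinarith
  calc M * (ε / (M + 1) * R) = M * (ε / (M + 1)) * R := by ring
    _ ≤ ε * R := mul_le_mul_of_nonneg_right h6 hR

end Pool.Agent.H.MP_f11573_an
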