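import Pool.Agent.H.MP_f11573_an.Def2
import Pool.Agent.H.MP_f11573_an.Glu
import Pool.Agent.H.MP_f11573_an.LocA

/-! # GlbA: finite sums have the gluing property -/

set_option autoImplicit false

open Filter Topology Set Metric MeasureTheory

namespace Pool.Agent.H.MP_f11573_an

variable {𝕜 : Type*} [RCLike 𝕜] {K : Type*} [TopologicalSpace K] [CompactSpace K] [T2Space K]

theorem glb_of_funOp {G : Type*} [Group G] [MulAction G K] [ContinuousConstSMul G K]
    (hG : TopAmen G K) {A : C(K, 𝕜) →L[𝕜] C(K, 𝕜)} (hA : A ∈ FunOp 𝕜 G K) : Glb A :=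
  fun _ _ hC hs _ hV hQV _ hh _ hε => glue (loc_of_funOp hG hA) hC hs hV hQV hh hε

end Pool.Agent.H.MP_f11573_an
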