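import Pool.Agent.H.MP_f11573_an.Def3

/-!
# GluM: gluing, monoids

PROOF (analogue of Glu, copy its proof): `F`, `m` from `hL` with `ε / (2 C)`. For `t ∈ K` let `P_t = {x | ∃ k ∈ F, k • x = t} \ Q`,
finite by `hF`, and `f_t` from `hs` with `ε / 4`. `O_t = {x | x ∈ V ∨ ‖A f_t x - h x‖ < ε / 2}` is open and contains every `x` with
`k • x = t`, `k ∈ F`. `U_t = {s | ∀ k ∈ F, ∀ x, k • x = s → x ∈ O_t}` is open (its complement is the finite union of the
images `k • (complement of O_t)`, compact) and contains `t`. By compactness `K` is covered by finitely many `U_{t_j}`, `j : Fin n`;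
`χ j` a partition of unity (`exists_continuous_sum_one_of_isOpen_isCompact`), `χ j = 0` off `U_{t_j}`. `w j = wtM F m (χ j)`,
`f = ∑ rs (w j) (f_{t_j})`, `‖f‖ ≤ C`. For `x ∉ V`: `‖A f x - ∑ w j x * A (f_{t_j}) x‖ ≤ ε / 2`, and
`∑ w j x * (A (f_{t_j}) x - h x) = ∑_j ∑_{k ∈ F} m k x * χ j (k • x) * (A (f_{t_j}) x - h x)`; if `χ j (k • x) ≠ 0` then
`k • x ∈ U_{t_j}`, so `x ∈ O_{t_j}` and `‖A (f_{t_j}) x - h x‖ < ε / 2`. So the sum has norm `≤ ε / 2`.
-/

set_option autoImplicit false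

open Filter Topology Set Metric MeasureTheory

namespace Pool.Agent.H.MP_f11573_an

variable {𝕜 : Type*} [RCLike 𝕜] {K : Type*} [TopologicalSpace K] [CompactSpace K] [T2Space K]

private theorem GluM_wt_nonneg {M : Type*} [Monoid M] [MulAction M K] [ContinuousConstSMul M K]
    {F : Finset M} {m : M → C(K, ℝ)} (hm0 : ∀ k x, 0 ≤ m k x) {χ : C(K, ℝ)}
    (hχ : ∀ x, 0 ≤ χ x) (x : K) : 0 ≤ wtM F m χ x := by
  change 0 ≤ ∑ k ∈ F, m k x * χ (k • x)
  exact Finset.sum_nonneg (fun k _ => mul_nonneg (hm0 k x) (hχ _))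

private theorem GluM_wt_sum {M : Type*} [Monoid M] [MulAction M K] [ContinuousConstSMul M K]
    {F : Finset M} {m : M → C(K, ℝ)} (hm1 : ∀ x, ∑ k ∈ F, m k x = 1) {n : ℕ}
    {χ : Fin n → C(K, ℝ)} (hχ1 : ∀ x, ∑ j, χ j x = 1) (x : K) :
    ∑ j, wtM F m (χ j) x = 1 := by
  change ∑ j, ∑ k ∈ F, m k x * χ j (k • x) = 1
  rw [Finset.sum_comm]
  rw [← hm1 x]
  refine Finset.sum_congr rfl (fun k _ => ?_)
  rw [← Finset.mul_sum, hχ1, mul_one]

private theorem GluM_wt_zero {M : Type*} [Monoid M] [MulAction M K] [ContinuousConstSMul M K]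
    {F : Finset M} {m : M → C(K, ℝ)} {χ : C(K, ℝ)} {x : K}
    (h : ∀ k ∈ F, χ (k • x) = 0) : wtM F m χ x = 0 := by
  change ∑ k ∈ F, m k x * χ (k • x) = 0
  refine Finset.sum_eq_zero (fun k hk => ?_)
  rw [h k hk, mul_zero]

theorem gluM {M : Type*} [Monoid M] [MulAction M K] [ContinuousConstSMul M K]
    (hF : FinTo M K) {A : C(K, 𝕜) →L[𝕜] C(K, 𝕜)} (hL : LocM M A) : Glb A := by
  classical
  intro Q C hC hs V hV hQV h hh ε hε
  obtain ⟨F, m, hm0, hm1, hloc⟩ := hL (ε / (2 * C)) (by positivity)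
  have hdis : ∀ t : K,
      Disjoint ((F.biUnion (fun k => (hF k t).toFinset)).filter (fun s => s ∉ Q)) Q := by
    intro t
    rw [Finset.disjoint_left]
    intro a ha
    exact (Finset.mem_filter.1 ha).2
  choose f hfC hf using fun t : K => hs _ (hdis t) h hh (ε / 4) (by positivity)
  let O : K → Set K := fun t => {x : K | x ∈ V ∨ ‖A (f t) x - h x‖ < ε / 2}
  have hO : ∀ t, IsOpen (O t) := by
    intro t
    have h1 : O t = V ∪ {x : K | ‖A (f t) x - h x‖ < ε / 2} := by
      ext x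
      rfl
    rw [h1]
    refine hV.union (isOpen_lt ?_ continuous_const)
    exact ((A (f t)).continuous.sub h.continuous).norm
  let U : K → Set K := fun t => ⋂ k ∈ F, ((fun x : K => k • x) '' (O t)ᶜ)ᶜ
  have hUopen : ∀ t, IsOpen (U t) := by
    intro t
    refine isOpen_biInter_finset (fun k _ => ?_)
    exact (((hO t).isClosed_compl.isCompact.image (continuous_const_smul k)).isClosed).isOpen_compl
  have hUmem : ∀ t, t ∈ U t := by
    intro t
    simp only [U, Set.mem_iInter]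
    intro k hk hmem
    obtain ⟨x, hxO, hxt⟩ := hmem
    apply hxO
    by_cases hxV : x ∈ V
    · exact Or.inl hxV
    · right
      have hxQ : x ∉ Q := fun hq => hxV (hQV _ hq)
      have h1 := hf t x (Finset.mem_filter.2 ⟨Finset.mem_biUnion.2 ⟨k, hk,
        (Set.Finite.mem_toFinset _).2 hxt⟩, hxQ⟩)
      linarith
  obtain ⟨T, hT⟩ := CompactSpace.elim_nhds_subcover U (fun t => (hUopen t).mem_nhds (hUmem t))
  let e := T.equivFin
  let tt : Fin T.card → K := fun j => ((e.symm j : T) : K)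
  obtain ⟨χ, hχs, hχ1, hχ01, _⟩ := exists_continuous_sum_one_of_isOpen_isCompact
    (s := fun j => U (tt j)) (t := (Set.univ : Set K)) (fun j => hUopen _) isCompact_univ (by
      intro x _
      have hx : x ∈ ⋃ y ∈ T, U y := by rw [hT]; trivial
      simp only [Set.mem_iUnion] at hx ⊢
      obtain ⟨y, hy, hxy⟩ := hx
      refine ⟨e ⟨y, hy⟩, ?_⟩
      simpa [tt] using hxy)
  have hχ0 : ∀ j x, 0 ≤ χ j x := fun j x => (hχ01 j x).1
  have hχsum : ∀ x, ∑ j, χ j x = 1 := by
    intro x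
    have := hχ1 (Set.mem_univ x)
    simpa using this
  have hw0 : ∀ j x, 0 ≤ wtM F m (χ j) x := fun j x => GluM_wt_nonneg hm0 (hχ0 j) x
  have hw1 : ∀ x, ∑ j, wtM F m (χ j) x = 1 := fun x => GluM_wt_sum hm1 hχsum x
  refine ⟨∑ j, rs (wtM F m (χ j)) (f (tt j)), ?_, ?_⟩
  · rw [ContinuousMap.norm_le _ hC.le]
    intro x
    rw [ContinuousMap.sum_apply]
    calc ‖∑ j, (rs (wtM F m (χ j)) (f (tt j))) x‖
        ≤ ∑ j, ‖(rs (wtM F m (χ j)) (f (tt j))) x‖ := norm_sum_le _ _
      _ ≤ ∑ j, wtM F m (χ j) x * C := by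
          refine Finset.sum_le_sum (fun j _ => ?_)
          change ‖((wtM F m (χ j) x : ℝ) : 𝕜) * f (tt j) x‖ ≤ _
          rw [norm_mul, RCLike.norm_ofReal, abs_of_nonneg (hw0 j x)]
          exact mul_le_mul_of_nonneg_left (((f (tt j)).norm_coe_le_norm x).trans (hfC _)) (hw0 j x)
      _ = C := by rw [← Finset.sum_mul, hw1, one_mul]
  · intro x hx
    have h1 := hloc T.card χ hχ0 hχsum (fun j => f (tt j)) C (fun j => hfC _) x
    have h2 : ε / (2 * C) * C = ε / 2 := by field_simp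
    rw [h2] at h1
    have h3 : ∑ j, ((wtM F m (χ j) x : ℝ) : 𝕜) * A (f (tt j)) x - h x
        = ∑ j, ((wtM F m (χ j) x : ℝ) : 𝕜) * (A (f (tt j)) x - h x) := by
      simp only [mul_sub]
      rw [Finset.sum_sub_distrib, ← Finset.sum_mul]
      have h4 : ∑ j, ((wtM F m (χ j) x : ℝ) : 𝕜) = 1 := by
        rw [← RCLike.ofReal_sum, hw1, RCLike.ofReal_one]
      rw [h4, one_mul]
    have h5 : ‖∑ j, ((wtM F m (χ j) x : ℝ) : 𝕜) * (A (f (tt j)) x - h x)‖ ≤ ε / 2 := by
      calc ‖∑ j, ((wtM F m (χ j) x : ℝ) : 𝕜) * (A (f (tt j)) x - h x)‖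
          ≤ ∑ j, ‖((wtM F m (χ j) x : ℝ) : 𝕜) * (A (f (tt j)) x - h x)‖ := norm_sum_le _ _
        _ ≤ ∑ j, wtM F m (χ j) x * (ε / 2) := by
            refine Finset.sum_le_sum (fun j _ => ?_)
            rw [norm_mul, RCLike.norm_ofReal, abs_of_nonneg (hw0 j x)]
            by_cases hY : ‖A (f (tt j)) x - h x‖ ≤ ε / 2
            · exact mul_le_mul_of_nonneg_left hY (hw0 j x)
            · have h6 : wtM F m (χ j) x = 0 := by
                refine GluM_wt_zero (fun k hk => ?_)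
                by_contra hne
                have h7 : k • x ∈ U (tt j) := hχs j (subset_tsupport _ hne)
                simp only [U, Set.mem_iInter] at h7
                have h8 := h7 k hk
                have h9 : x ∈ O (tt j) := by
                  by_contra h10
                  exact h8 ⟨x, h10, rfl⟩
                rcases h9 with h10 | h10
                · exact hx h10
                · exact hY h10.le
              rw [h6, zero_mul, zero_mul]
        _ = ε / 2 := by rw [← Finset.sum_mul, hw1, one_mul]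
    have h6 : A (∑ j, rs (wtM F m (χ j)) (f (tt j))) x - h x
        = (A (∑ j, rs (wtM F m (χ j)) (f (tt j))) x
            - ∑ j, ((wtM F m (χ j) x : ℝ) : 𝕜) * A (f (tt j)) x)
          + ∑ j, ((wtM F m (χ j) x : ℝ) : 𝕜) * (A (f (tt j)) x - h x) := by
      rw [← h3]; ring
    rw [h6]
    calc _ ≤ _ := norm_add_le _ _
      _ ≤ ε / 2 + ε / 2 := add_le_add h1 h5
      _ = ε := by ring

end Pool.Agent.H.MP_f11573_an
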