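import Pool.Agent.H.MP_f11573_an.DefL
import Pool.Agent.H.MP_f11573_an.Sch

/-!
# HmL: disjoint functions

PROOF: `Φ n u = u (g n)` (evaluation at `g n`: `ContinuousLinearMap.apply 𝕜 𝕜 (g n)` or `NormedSpace.inclusionInDoubleDual`). For a
finite set `s` and a functional `u`: `∑_{i ∈ s} ‖u (g i)‖ = u (∑ c_i g_i) ≤ ‖u‖` for unimodular `c_i` with `c_i u (g i) = ‖u (g i)‖`, as
at each point of `K` at most one `g i` is not `0`: if `i < j` then `g j = 0` off `V j ⊆ V (i + 1)` and `g i = 0` on `V (i + 1)`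
(`V` is decreasing). Apply `schur` with `C = 1`, `u n = μ n`.
-/

set_option autoImplicit false

open Filter Topology Set Metric MeasureTheory

namespace Pool.Agent.H.MP_f11573_an

variable {𝕜 : Type*} [RCLike 𝕜] {K : Type*} [TopologicalSpace K] [CompactSpace K] [T2Space K]

omit [T2Space K] in
theorem humpL {μ : ℕ → (C(K, 𝕜) →L[𝕜] 𝕜)}
    (hμ : ∀ Φ : (C(K, 𝕜) →L[𝕜] 𝕜) →L[𝕜] 𝕜, Tendsto (fun n => Φ (μ n)) atTop (𝓝 0))
    {V : ℕ → Set K} (hV : ∀ n, V (n + 1) ⊆ V n) {g : ℕ → C(K, 𝕜)} (hg : ∀ n, ‖g n‖ ≤ 1)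
    (h1 : ∀ n x, x ∉ V n → g n x = 0) (h2 : ∀ n, ∀ x ∈ V (n + 1), g n x = 0) :
    Tendsto (fun n => μ n (g n)) atTop (𝓝 0) := by
  have hanti : Antitone V := antitone_nat_of_succ_le hV
  have hone : ∀ (x : K) (i j : ℕ), i < j → g i x ≠ 0 → g j x = 0 := by
    intro x i j hij hi
    refine h1 j x fun hx => hi (h2 i x ?_)
    exact hanti (Nat.succ_le_of_lt hij) hx
  have hone' : ∀ (x : K) (i j : ℕ), j ≠ i → g i x ≠ 0 → g j x = 0 := by
    intro x i j hij hi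
    rcases lt_or_gt_of_ne hij with h | h
    · by_contra hj
      exact hi (hone x j i h hj)
    · exact hone x i j h hi
  have hΦ : ∀ (u : C(K, 𝕜) →L[𝕜] 𝕜) (s : Finset ℕ),
      ∑ i ∈ s, ‖(ContinuousLinearMap.apply 𝕜 𝕜 (g i)) u‖ ≤ 1 * ‖u‖ := by
    intro u s
    choose c hc1 hc2 using fun i => RCLike.exists_norm_eq_mul_self (u (g i))
    have hF : ‖∑ i ∈ s, c i • g i‖ ≤ 1 := by
      refine (ContinuousMap.norm_le _ zero_le_one).2 fun x => ?_
      have hx : (∑ i ∈ s, c i • g i) x = ∑ i ∈ s, c i * g i x := by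
        rw [ContinuousMap.sum_apply]
        rfl
      rw [hx]
      by_cases hall : ∀ i ∈ s, g i x = 0
      · rw [Finset.sum_eq_zero fun i hi => by rw [hall i hi, mul_zero], norm_zero]
        exact zero_le_one
      · push Not at hall
        obtain ⟨i, hi, hne⟩ := hall
        rw [Finset.sum_eq_single i (fun j _ hj => by rw [hone' x i j hj hne, mul_zero])
          (fun h => absurd hi h), norm_mul, hc1, one_mul]
        exact ((g i).norm_coe_le_norm x).trans (hg i)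
    have hu : u (∑ i ∈ s, c i • g i) = ((∑ i ∈ s, ‖u (g i)‖ : ℝ) : 𝕜) := by
      rw [map_sum, RCLike.ofReal_sum]
      refine Finset.sum_congr rfl fun i _ => ?_
      rw [map_smul, smul_eq_mul, hc2]
    have h3 : ‖u (∑ i ∈ s, c i • g i)‖ = ∑ i ∈ s, ‖u (g i)‖ := by
      rw [hu, RCLike.norm_ofReal, abs_of_nonneg (Finset.sum_nonneg fun i _ => norm_nonneg _)]
    show ∑ i ∈ s, ‖u (g i)‖ ≤ 1 * ‖u‖
    rw [← h3, one_mul]
    refine (u.le_opNorm _).trans ?_
    calc ‖u‖ * ‖∑ i ∈ s, c i • g i‖ ≤ ‖u‖ * 1 := mul_le_mul_of_nonneg_left hF (norm_nonneg _)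
      _ = ‖u‖ := mul_one _
  exact schur (Φ := fun n => ContinuousLinearMap.apply 𝕜 𝕜 (g n)) (C := 1) hΦ hμ

end Pool.Agent.H.MP_f11573_an
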