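import Pool.Agent.H.MP_f11573_an.Def3

/-!
# WnU: windows

PROOF (the topological part of GluM, copy): for `t ∈ K` let `P t = {x | ∃ k ∈ F, k • x = t}`, finite by `hF`, and `O t` from `hQ`:
open, `P t ⊆ O t`, `𝒬 (O t)`. `W t = {s | ∀ k ∈ F, ∀ x, k • x = s → x ∈ O t}` is open (its complement is the finite union of the
images `k • (complement of O t)`, compact) and contains `t`. By compactness `K` is covered by finitely many `W (t j)`, `j : Fin n`;
`χ j` a partition of unity (`exists_continuous_sum_one_of_isOpen_isCompact`), `χ j = 0` off `W (t j)`. `U j = O (t j)`.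
-/

set_option autoImplicit false

open Filter Topology Set Metric MeasureTheory

namespace Pool.Agent.H.MP_f11573_an

theorem windows {K : Type*} [TopologicalSpace K] [CompactSpace K] [T2Space K]
    {M : Type*} [Monoid M] [MulAction M K] [ContinuousConstSMul M K] (hF : FinTo M K)
    {𝒬 : Set K → Prop} (hQ : ∀ P : Set K, P.Finite → ∃ U : Set K, IsOpen U ∧ P ⊆ U ∧ 𝒬 U)
    (F : Finset M) :
    ∃ (n : ℕ) (U : Fin n → Set K) (χ : Fin n → C(K, ℝ)), (∀ j, 𝒬 (U j)) ∧
      (∀ j x, 0 ≤ χ j x) ∧ (∀ x, ∑ j, χ j x = 1) ∧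
      ∀ j, ∀ k ∈ F, ∀ x, χ j (k • x) ≠ 0 → x ∈ U j := by
  classical
  have hfin : ∀ t : K, ((F.biUnion (fun k => (hF k t).toFinset) : Finset K) : Set K).Finite :=
    fun t => Finset.finite_toSet _
  choose O hO hPO hQO using fun t : K => hQ _ (hfin t)
  let U : K → Set K := fun t => ⋂ k ∈ F, ((fun x : K => k • x) '' (O t)ᶜ)ᶜ
  have hUopen : ∀ t, IsOpen (U t) := by
    intro t
    refine isOpen_biInter_finset (fun k _ => ?_)
    exact (((hO t).isClosed_compl.isCompact.image (continuous_const_smul k)).isClosed).isOpen_compl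
  have hUmem : ∀ t, t ∈ U t := by
    intro t
    simp only [U, Set.mem_iInter]
    intro k hk hmem
    obtain ⟨x, hxO, hxt⟩ := hmem
    apply hxO
    apply hPO t
    exact Finset.mem_coe.2 (Finset.mem_biUnion.2 ⟨k, hk, (Set.Finite.mem_toFinset _).2 hxt⟩)
  obtain ⟨T, hT⟩ := CompactSpace.elim_nhds_subcover U (fun t => (hUopen t).mem_nhds (hUmem t))
  let e := T.equivFin
  let tt : Fin T.card → K := fun j => ((e.symm j : T) : K)
  obtain ⟨χ, hχs, hχ1, hχ01, _⟩ := exists_continuous_sum_one_of_isOpen_isCompact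
    (s := fun j => U (tt j)) (t := (Set.univ : Set K)) (fun j => hUopen _) isCompact_univ (by
      intro x _
      have hx : x ∈ ⋃ y ∈ T, U y := by rw [hT]; trivial
      simp only [Set.mem_iUnion] at hx ⊢
      obtain ⟨y, hy, hxy⟩ := hx
      refine ⟨e ⟨y, hy⟩, ?_⟩
      simpa [tt] using hxy)
  refine ⟨T.card, fun j => O (tt j), χ, fun j => hQO _, fun j x => (hχ01 j x).1, ?_, ?_⟩
  · intro x
    have := hχ1 (Set.mem_univ x)
    simpa using this
  · intro j k hk x hne
    have h7 : k • x ∈ U (tt j) := hχs j (subset_tsupport _ hne)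
    simp only [U, Set.mem_iInter] at h7
    have h8 := h7 k hk
    by_contra h10
    exact h8 ⟨x, h10, rfl⟩

end Pool.Agent.H.MP_f11573_an
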