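import Pool.Agent.H.MP_f11573_an.LfU
import Pool.Agent.H.MP_f11573_an.WnU
import Pool.Agent.H.MP_f11573_an.CmU
import Pool.Agent.H.MP_f11573_an.UnL

/-!
# InU: the main inequality

PROOF: `c` from `unif hK hT`; `C = 2 / c`. Choose `B ∈ FunEss 𝕜 M K` with `‖T - B‖ ≤ 1 / (8 C)` (`Metric.mem_closure_iff`) and `E`, `F`, `m`
from `commU hG` with `ε = 1 / (4 C)`. `windows` with `𝒬 U = LowOn T (closure U) c`: `n`, `U j`, `χ j`; `W` from `commU`. Let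
`w j = wtM F m (χ j)`: `w j ≥ 0`, `∑ w j = 1`, and `w j x ≠ 0` implies `χ j (k • x) ≠ 0` for some `k ∈ F`, so `x ∈ U j`. Let `μ` be given and
`‖h‖ ≤ 1`. `f j` from `lift_exact` on `closure (U j)`: `‖f j‖ ≤ C`, `T (f j) = h` on `U j`. `f = ∑ rs (w j) (f j)`, `‖f‖ ≤ C`.
`∑ rs (w j) (T (f j)) = h` (at every `x`: the terms with `w j x ≠ 0` are `w j x * h x`). So
`T f - h = (T - B) f + (B f - ∑ rs (w j) (B (f j)) - ∑∑ W j g (f j ∘ g)) + ∑ rs (w j) ((B - T) (f j)) + ∑∑ W j g (f j ∘ g)`, and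
`‖μ h‖ ≤ ‖μ (T f)‖ + ‖μ (T f - h)‖ ≤ C ‖μ ∘ T‖ + (1/8 + 1/4 + 1/8) ‖μ‖ + C ∑∑ ‖μ ∘ W j g‖`. So
`‖μ‖ ≤ C ‖μ ∘ T‖ + ‖μ‖ / 2 + C ∑∑ ‖μ ∘ W j g‖`. Index the finitely many operators `W j g`, `j : Fin n`, `g ∈ E`, by
`ι = Fin n × {g // g ∈ E}`.
-/

set_option autoImplicit false

open Filter Topology Set Metric MeasureTheory

namespace Pool.Agent.H.MP_f11573_an

variable {𝕜 : Type*} [RCLike 𝕜] {K : Type*} [TopologicalSpace K] [CompactSpace K] [T2Space K]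

omit [T2Space K] in
private theorem InU_avg {n : ℕ} {w : Fin n → C(K, ℝ)} (h0 : ∀ j x, 0 ≤ w j x)
    (h1 : ∀ x, ∑ j, w j x = 1) {f : Fin n → C(K, 𝕜)} {R : ℝ} (hR : 0 ≤ R)
    (hf : ∀ j, ‖f j‖ ≤ R) : ‖∑ j, rs (w j) (f j)‖ ≤ R := by
  refine (ContinuousMap.norm_le _ hR).2 fun x => ?_
  rw [ContinuousMap.sum_apply]
  calc ‖∑ j, rs (w j) (f j) x‖ ≤ ∑ j, ‖rs (w j) (f j) x‖ := norm_sum_le _ _
    _ ≤ ∑ j, w j x * R := by
        refine Finset.sum_le_sum fun j _ => ?_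
        show ‖(w j x : 𝕜) * f j x‖ ≤ _
        rw [norm_mul, RCLike.norm_ofReal, abs_of_nonneg (h0 j x)]
        exact mul_le_mul_of_nonneg_left (((f j).norm_coe_le_norm x).trans (hf j)) (h0 j x)
    _ = R := by rw [← Finset.sum_mul, h1, one_mul]

omit [T2Space K] in
private theorem InU_norm {μ : C(K, 𝕜) →L[𝕜] 𝕜} {b : ℝ} (hb0 : 0 ≤ b)
    (hb : ∀ h : C(K, 𝕜), ‖h‖ ≤ 1 → ‖μ h‖ ≤ b) : ‖μ‖ ≤ b := by
  refine μ.opNorm_le_bound hb0 fun x => ?_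
  by_cases hx : x = 0
  · rw [hx, map_zero, norm_zero, norm_zero, mul_zero]
  · have hx' : ‖x‖ ≠ 0 := norm_ne_zero_iff.2 hx
    have h1 : ‖(((‖x‖⁻¹ : ℝ) : 𝕜) • x)‖ ≤ 1 := by
      rw [norm_smul, RCLike.norm_ofReal, abs_of_nonneg (inv_nonneg.2 (norm_nonneg _)),
        inv_mul_cancel₀ hx']
    have h2 := hb _ h1
    rw [map_smul, norm_smul, RCLike.norm_ofReal,
      abs_of_nonneg (inv_nonneg.2 (norm_nonneg _)), inv_mul_le_iff₀ (by positivity)] at h2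
    linarith [mul_comm b ‖x‖]

omit [T2Space K] in
private theorem InU_comp (f : C(K, 𝕜)) (φ : C(K, K)) : ‖f.comp φ‖ ≤ ‖f‖ :=
  (ContinuousMap.norm_le _ (norm_nonneg _)).2 fun x => f.norm_coe_le_norm (φ x)

omit [T2Space K] in
private theorem InU_ball {T B : C(K, 𝕜) →L[𝕜] C(K, 𝕜)} {M : Type*} [Monoid M] [MulAction M K]
    [ContinuousConstSMul M K] {C : ℝ} (hC : 0 < C) (hTB : ‖T - B‖ ≤ 1 / (8 * C)) {n : ℕ}
    {w : Fin n → C(K, ℝ)} (h0 : ∀ j x, 0 ≤ w j x) (h1 : ∀ x, ∑ j, w j x = 1)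
    {E : Finset M} {W : Fin n → M → (C(K, 𝕜) →L[𝕜] C(K, 𝕜))} {f : Fin n → C(K, 𝕜)}
    (hf : ∀ j, ‖f j‖ ≤ C)
    (hW : ‖B (∑ j, rs (w j) (f j)) - ∑ j, rs (w j) (B (f j)) -
      ∑ j, ∑ g ∈ E, W j g ((f j).comp (cact K g))‖ ≤ 1 / (4 * C) * C)
    {h : C(K, 𝕜)} (hh : ∑ j, rs (w j) (T (f j)) = h) (μ : C(K, 𝕜) →L[𝕜] 𝕜) :
    ‖μ h‖ ≤ C * ‖μ.comp T‖ + ‖μ‖ / 2 + C * ∑ j, ∑ g ∈ E, ‖μ.comp (W j g)‖ := by
  obtain ⟨S, hS⟩ : ∃ S, S = ∑ j, rs (w j) (f j) := ⟨_, rfl⟩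
  obtain ⟨Z, hZ⟩ : ∃ Z, Z = ∑ j, ∑ g ∈ E, W j g ((f j).comp (cact K g)) := ⟨_, rfl⟩
  obtain ⟨Y, hY⟩ : ∃ Y, Y = ∑ j, rs (w j) (B (f j)) := ⟨_, rfl⟩
  obtain ⟨D, hD⟩ : ∃ D, D = ∑ j, rs (w j) ((B - T) (f j)) := ⟨_, rfl⟩
  rw [← hS, ← hY, ← hZ] at hW
  have hSn : ‖S‖ ≤ C := by
    rw [hS]
    exact InU_avg h0 h1 hC.le hf
  have hDY : D = Y - h := by
    rw [hD, hY, ← hh, ← Finset.sum_sub_distrib]
    refine Finset.sum_congr rfl fun j _ => ?_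
    ext x
    show (w j x : 𝕜) * (B (f j) x - T (f j) x) =
      (w j x : 𝕜) * B (f j) x - (w j x : 𝕜) * T (f j) x
    ring
  have h8 : 1 / (8 * C) * C = 1 / 8 := by field_simp
  have h4 : 1 / (4 * C) * C = 1 / 4 := by field_simp
  have hDn : ‖D‖ ≤ 1 / 8 := by
    rw [hD]
    refine InU_avg h0 h1 (by norm_num) fun j => ?_
    calc ‖(B - T) (f j)‖ ≤ ‖B - T‖ * ‖f j‖ := (B - T).le_opNorm _
      _ ≤ 1 / (8 * C) * C := mul_le_mul (by rw [norm_sub_rev]; exact hTB) (hf j)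
          (norm_nonneg _) (by positivity)
      _ = 1 / 8 := h8
  have hTSn : ‖(T - B) S‖ ≤ 1 / 8 := by
    calc ‖(T - B) S‖ ≤ ‖T - B‖ * ‖S‖ := (T - B).le_opNorm _
      _ ≤ 1 / (8 * C) * C := mul_le_mul hTB hSn (norm_nonneg _) (by positivity)
      _ = 1 / 8 := h8
  rw [h4] at hW
  have e1 : μ h = μ (T S) - μ ((T - B) S) - μ (B S - Y - Z) - μ D - μ Z := by
    rw [← map_sub, ← map_sub, ← map_sub, ← map_sub, hDY]
    congr 1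
    show h = T S - (T S - B S) - (B S - Y - Z) - (Y - h) - Z
    abel
  have b1 : ‖μ (T S)‖ ≤ ‖μ.comp T‖ * C :=
    ((μ.comp T).le_opNorm S).trans (mul_le_mul_of_nonneg_left hSn (norm_nonneg _))
  have b2 : ‖μ ((T - B) S)‖ ≤ ‖μ‖ * (1 / 8) :=
    (μ.le_opNorm _).trans (mul_le_mul_of_nonneg_left hTSn (norm_nonneg _))
  have b3 : ‖μ (B S - Y - Z)‖ ≤ ‖μ‖ * (1 / 4) :=
    (μ.le_opNorm _).trans (mul_le_mul_of_nonneg_left hW (norm_nonneg _))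
  have b4 : ‖μ D‖ ≤ ‖μ‖ * (1 / 8) :=
    (μ.le_opNorm _).trans (mul_le_mul_of_nonneg_left hDn (norm_nonneg _))
  have b5 : ‖μ Z‖ ≤ C * ∑ j, ∑ g ∈ E, ‖μ.comp (W j g)‖ := by
    rw [hZ, map_sum, Finset.mul_sum]
    refine (norm_sum_le _ _).trans (Finset.sum_le_sum fun j _ => ?_)
    rw [map_sum, Finset.mul_sum]
    refine (norm_sum_le _ _).trans (Finset.sum_le_sum fun g _ => ?_)
    calc ‖μ (W j g ((f j).comp (cact K g)))‖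
        ≤ ‖μ.comp (W j g)‖ * ‖(f j).comp (cact K g)‖ := (μ.comp (W j g)).le_opNorm _
      _ ≤ ‖μ.comp (W j g)‖ * C := mul_le_mul_of_nonneg_left
          ((InU_comp (f j) (cact K g)).trans (hf j)) (norm_nonneg _)
      _ = C * ‖μ.comp (W j g)‖ := mul_comm _ _
  have t1 := norm_sub_le (μ (T S) - μ ((T - B) S) - μ (B S - Y - Z) - μ D) (μ Z)
  have t2 := norm_sub_le (μ (T S) - μ ((T - B) S) - μ (B S - Y - Z)) (μ D)
  have t3 := norm_sub_le (μ (T S) - μ ((T - B) S)) (μ (B S - Y - Z))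
  have t4 := norm_sub_le (μ (T S)) (μ ((T - B) S))
  rw [e1]
  linarith [mul_comm ‖μ.comp T‖ C]

theorem ineqU (hK : Groth 𝕜 C(K, 𝕜)) {M : Type*} [Monoid M] [MulAction M K]
    [ContinuousConstSMul M K] (hF : FinTo M K) (hG : TopAmenM M K)
    {T : C(K, 𝕜) →L[𝕜] C(K, 𝕜)} (hT : DenseRange T) (hc : T ∈ closure (FunEss 𝕜 M K)) :
    ∃ (C : ℝ) (N : ℕ) (W : Fin N → (C(K, 𝕜) →L[𝕜] C(K, 𝕜))), 0 < C ∧ (∀ i, WComp (W i)) ∧
      ∀ μ : C(K, 𝕜) →L[𝕜] 𝕜,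
        ‖μ‖ ≤ C * ‖μ.comp T‖ + ‖μ‖ / 2 + C * ∑ i, ‖μ.comp (W i)‖ := by
  obtain ⟨c, hc0, hU⟩ := unif hK hT
  have hC : 0 < 2 / c := by positivity
  obtain ⟨B, hB, hTB⟩ := Metric.mem_closure_iff.1 hc (1 / (8 * (2 / c))) (by positivity)
  rw [dist_eq_norm] at hTB
  obtain ⟨E, F, m, hm0, hm1, hcomm⟩ := commU hG hB (ε := 1 / (4 * (2 / c))) (by positivity)
  obtain ⟨n, U, χ, hUj, hχ0, hχ1, hχU⟩ :=
    windows hF (𝒬 := fun U => LowOn T (closure U) c) hU F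
  obtain ⟨W, hW, hWb⟩ := hcomm n χ hχ0 hχ1
  have h0 : ∀ j x, 0 ≤ wtM F m (χ j) x := fun j x =>
    Finset.sum_nonneg fun k _ => mul_nonneg (hm0 k x) (hχ0 j _)
  have h1 : ∀ x, ∑ j, wtM F m (χ j) x = 1 := by
    intro x
    calc ∑ j, wtM F m (χ j) x = ∑ j, ∑ k ∈ F, m k x * χ j (k • x) := rfl
      _ = ∑ k ∈ F, m k x * ∑ j, χ j (k • x) := by
          rw [Finset.sum_comm]
          exact Finset.sum_congr rfl fun k _ => (Finset.mul_sum _ _ _).symm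
      _ = 1 := by
          simp only [hχ1, mul_one]
          exact hm1 x
  have hwU : ∀ j x, wtM F m (χ j) x ≠ 0 → x ∈ U j := by
    intro j x hx
    obtain ⟨k, hk, hkx⟩ := Finset.exists_ne_zero_of_sum_ne_zero
      (show ∑ k ∈ F, m k x * χ j (k • x) ≠ 0 from hx)
    exact hχU j k hk x (right_ne_zero_of_mul hkx)
  obtain ⟨e⟩ : Nonempty (Fin (Fintype.card (Fin n × {g // g ∈ E})) ≃ Fin n × {g // g ∈ E}) :=
    ⟨(Fintype.equivFin _).symm⟩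
  refine ⟨2 / c, Fintype.card (Fin n × {g // g ∈ E}), fun i => W (e i).1 (e i).2, hC,
    fun i => hW _ _ (e i).2.2, fun μ => ?_⟩
  have hsum : ∑ i, ‖μ.comp (W (e i).1 (e i).2)‖ = ∑ j, ∑ g ∈ E, ‖μ.comp (W j g)‖ := by
    rw [e.sum_comp (fun p : Fin n × {g // g ∈ E} => ‖μ.comp (W p.1 p.2)‖),
      Fintype.sum_prod_type]
    exact Finset.sum_congr rfl fun j _ =>
      Finset.sum_coe_sort E (fun g => ‖μ.comp (W j g)‖)
  rw [hsum]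
  refine InU_norm (by positivity) fun h hh => ?_
  choose f hf1 hf2 using fun j => lift_exact (T := T) isClosed_closure hc0 (hUj j) h
  have hf : ∀ j, ‖f j‖ ≤ 2 / c := fun j => (hf1 j).trans (mul_le_of_le_one_right hC.le hh)
  refine InU_ball hC hTB.le h0 h1 hf ?_ ?_ μ
  · exact hWb f (2 / c) hC.le hf
  · ext x
    rw [ContinuousMap.sum_apply]
    calc ∑ j, rs (wtM F m (χ j)) (T (f j)) x = ∑ j, (wtM F m (χ j) x : 𝕜) * h x := by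
          refine Finset.sum_congr rfl fun j _ => ?_
          show (wtM F m (χ j) x : 𝕜) * T (f j) x = _
          by_cases hx : wtM F m (χ j) x = 0
          · rw [hx]
            simp
          · rw [hf2 j x (subset_closure (hwU j x hx))]
      _ = h x := by
          rw [← Finset.sum_mul, ← RCLike.ofReal_sum, h1, RCLike.ofReal_one, one_mul]

end Pool.Agent.H.MP_f11573_an
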