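import Pool.Agent.H.MP_f11573_an.LocA

/-!
# LocB: the gluing property of norm limits

PROOF: choose `A₀ ∈ FunOp` with `‖A - A₀‖ ≤ ε / 4` (`Metric.mem_closure_iff`) and `F`, `m` from `loc_of_funOp hG` for `A₀` and `ε / 2`.
`w j ≥ 0`, `∑ w j = 1` at each point, so `‖∑ rs (w j) (f j)‖ ≤ R` and
`‖(A - A₀) (∑ rs (w j) (f j)) x‖ ≤ ε / 4 * R`, `‖∑ w j x * (A - A₀) (f j) x‖ ≤ ε / 4 * R`. (`R ≥ 0` as in LocA.)
-/

set_option autoImplicit false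

open Filter Topology Set Metric MeasureTheory

namespace Pool.Agent.H.MP_f11573_an

variable {𝕜 : Type*} [RCLike 𝕜] {K : Type*} [TopologicalSpace K] [CompactSpace K] [T2Space K]

omit [T2Space K] in
theorem loc_of_closure {G : Type*} [Group G] [MulAction G K] [ContinuousConstSMul G K]
    (hG : TopAmen G K) {A : C(K, 𝕜) →L[𝕜] C(K, 𝕜)} (hA : A ∈ closure (FunOp 𝕜 G K)) :
    Loc G A := by
  intro ε hε
  obtain ⟨A₀, hA₀, hd⟩ := Metric.mem_closure_iff.1 hA (ε / 4) (by positivity)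
  rw [dist_eq_norm] at hd
  obtain ⟨F, m, hm0, hm1, hL⟩ := loc_of_funOp hG hA₀ (ε / 2) (by positivity)
  refine ⟨F, m, hm0, hm1, ?_⟩
  intro n χ hχ0 hχ1 f R hf x
  have h1 := hL n χ hχ0 hχ1 f R hf x
  have hw0 : ∀ j y, 0 ≤ wt F m (χ j) y := by
    intro j y
    show 0 ≤ ∑ k ∈ F, m k y * χ j (k⁻¹ • y)
    exact Finset.sum_nonneg (fun k _ => mul_nonneg (hm0 k y) (hχ0 j _))
  have hw1 : ∀ y, ∑ j, wt F m (χ j) y = 1 := by
    intro y
    have e1 : ∑ j, wt F m (χ j) y = ∑ j, ∑ k ∈ F, m k y * χ j (k⁻¹ • y) := rfl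
    rw [e1, Finset.sum_comm]
    rw [← hm1 y]
    refine Finset.sum_congr rfl (fun k _ => ?_)
    rw [← Finset.mul_sum, hχ1, mul_one]
  have hR : 0 ≤ R := by
    rcases Nat.eq_zero_or_pos n with h0 | h0
    · subst h0
      have := hχ1 x
      simp at this
    · exact (norm_nonneg _).trans (hf ⟨0, h0⟩)
  have hsum : ‖∑ j, rs (wt F m (χ j)) (f j)‖ ≤ R := by
    rw [ContinuousMap.norm_le _ hR]
    intro y
    rw [ContinuousMap.sum_apply]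
    calc ‖∑ j, (rs (wt F m (χ j)) (f j)) y‖ ≤ ∑ j, ‖(rs (wt F m (χ j)) (f j)) y‖ := norm_sum_le _ _
      _ ≤ ∑ j, wt F m (χ j) y * R := by
          refine Finset.sum_le_sum (fun j _ => ?_)
          have e2 : (rs (wt F m (χ j)) (f j)) y = ((wt F m (χ j) y : ℝ) : 𝕜) * f j y := rfl
          rw [e2, norm_mul, RCLike.norm_ofReal, abs_of_nonneg (hw0 j y)]
          exact mul_le_mul_of_nonneg_left (((f j).norm_coe_le_norm y).trans (hf j)) (hw0 j y)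
      _ = R := by rw [← Finset.sum_mul, hw1, one_mul]
  have hB : ∀ (u : C(K, 𝕜)), ‖u‖ ≤ R → ‖(A - A₀) u x‖ ≤ ε / 4 * R := by
    intro u hu
    calc ‖(A - A₀) u x‖ ≤ ‖(A - A₀) u‖ := ContinuousMap.norm_coe_le_norm _ _
      _ ≤ ‖A - A₀‖ * ‖u‖ := ContinuousLinearMap.le_opNorm _ _
      _ ≤ ε / 4 * R := mul_le_mul hd.le hu (norm_nonneg _) (by positivity)
  have h2 := hB _ hsum
  have h3 : ‖∑ j, ((wt F m (χ j) x : ℝ) : 𝕜) * (A - A₀) (f j) x‖ ≤ ε / 4 * R := by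
    calc ‖∑ j, ((wt F m (χ j) x : ℝ) : 𝕜) * (A - A₀) (f j) x‖
        ≤ ∑ j, ‖((wt F m (χ j) x : ℝ) : 𝕜) * (A - A₀) (f j) x‖ := norm_sum_le _ _
      _ ≤ ∑ j, wt F m (χ j) x * (ε / 4 * R) := by
          refine Finset.sum_le_sum (fun j _ => ?_)
          rw [norm_mul, RCLike.norm_ofReal, abs_of_nonneg (hw0 j x)]
          exact mul_le_mul_of_nonneg_left (hB _ (hf j)) (hw0 j x)
      _ = ε / 4 * R := by rw [← Finset.sum_mul, hw1, one_mul]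
  have e3 : A (∑ j, rs (wt F m (χ j)) (f j)) x - ∑ j, ((wt F m (χ j) x : ℝ) : 𝕜) * A (f j) x
      = (A₀ (∑ j, rs (wt F m (χ j)) (f j)) x - ∑ j, ((wt F m (χ j) x : ℝ) : 𝕜) * A₀ (f j) x)
        + (A - A₀) (∑ j, rs (wt F m (χ j)) (f j)) x
        - ∑ j, ((wt F m (χ j) x : ℝ) : 𝕜) * (A - A₀) (f j) x := by
    have e4 : ∑ j, ((wt F m (χ j) x : ℝ) : 𝕜) * (A - A₀) (f j) x
        = ∑ j, ((wt F m (χ j) x : ℝ) : 𝕜) * A (f j) x
          - ∑ j, ((wt F m (χ j) x : ℝ) : 𝕜) * A₀ (f j) x := by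
      rw [← Finset.sum_sub_distrib]
      refine Finset.sum_congr rfl (fun j _ => ?_)
      rw [ContinuousLinearMap.sub_apply, ContinuousMap.sub_apply, mul_sub]
    rw [e4, ContinuousLinearMap.sub_apply, ContinuousMap.sub_apply]
    ring
  rw [e3]
  calc _ ≤ ‖(A₀ (∑ j, rs (wt F m (χ j)) (f j)) x
          - ∑ j, ((wt F m (χ j) x : ℝ) : 𝕜) * A₀ (f j) x)
        + (A - A₀) (∑ j, rs (wt F m (χ j)) (f j)) x‖
        + ‖∑ j, ((wt F m (χ j) x : ℝ) : 𝕜) * (A - A₀) (f j) x‖ := norm_sub_le _ _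
    _ ≤ (‖A₀ (∑ j, rs (wt F m (χ j)) (f j)) x
          - ∑ j, ((wt F m (χ j) x : ℝ) : 𝕜) * A₀ (f j) x‖
        + ‖(A - A₀) (∑ j, rs (wt F m (χ j)) (f j)) x‖)
        + ‖∑ j, ((wt F m (χ j) x : ℝ) : 𝕜) * (A - A₀) (f j) x‖ := by
          gcongr
          exact norm_add_le _ _
    _ ≤ (ε / 2 * R + ε / 4 * R) + ε / 4 * R := by gcongr
    _ = ε * R := by ring

end Pool.Agent.H.MP_f11573_an
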