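import Pool.Agent.H.MP_f11573_an.Def3

/-!
# LocMA: the gluing property of finite sums, monoids

PROOF (analogue of LocA, copy its proof): `A f x = ∑ g ∈ E, a g x * f (g • x)`, `S = ∑ g ∈ E, ‖a g‖`. Take `F`, `m` from
`hG E (ε / (S + 1))`. With `w j = wtM F m (χ j)`:
`A (∑ rs (w j) (f j)) x - ∑ w j x * A (f j) x = ∑_{g ∈ E} a g x * ∑_j (w j (g • x) - w j x) * f j (g • x)`, and
`w j (g • x) = ∑_{k ∈ F} m k (g • x) * χ j ((k * g) • x) = ∑_{l ∈ H} (∑_{k ∈ F} if k * g = l then m k (g • x) else 0) * χ j (l • x)`,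
`w j x = ∑_{l ∈ H} m l x * χ j (l • x)` with `H = F ∪ F g` (`m l = 0` for `l ∉ F`), so
`∑_j |w j (g • x) - w j x| ≤ ∑_{l ∈ H} |(∑ …) - m l x| * ∑_j χ j (l • x) ≤ ε / (S + 1)`. The norm of the
difference is at most `∑_g ‖a g‖ * R * ε / (S + 1) ≤ ε R` (`R ≥ 0` if `n > 0`; if `n = 0` then `∑ χ j = 0 ≠ 1`, no `x`).
-/

set_option autoImplicit false

open Filter Topology Set Metric MeasureTheory

namespace Pool.Agent.H.MP_f11573_an

variable {𝕜 : Type*} [RCLike 𝕜] {K : Type*} [TopologicalSpace K] [CompactSpace K] [T2Space K]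

omit [CompactSpace K] [T2Space K] in
open scoped Classical in
/-- the weights are almost invariant -/
private theorem LocMA_wt {M : Type*} [Monoid M] [MulAction M K] [ContinuousConstSMul M K]
    {F : Finset M} {m : M → C(K, ℝ)} (hm0 : ∀ k, k ∉ F → ∀ x, m k x = 0) {g : M} {x : K} {η : ℝ}
    (hη : ∀ H : Finset M,
      ∑ l ∈ H, |(∑ k ∈ F, if k * g = l then m k (g • x) else 0) - m l x| ≤ η) {n : ℕ}
    {χ : Fin n → C(K, ℝ)} (hχ : ∀ j x, 0 ≤ χ j x) (hχ1 : ∀ x, ∑ j, χ j x = 1) :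
    ∑ j, |wtM F m (χ j) (g • x) - wtM F m (χ j) x| ≤ η := by
  obtain ⟨H, hH⟩ : ∃ H : Finset M, H = F ∪ F.image (fun k => k * g) := ⟨_, rfl⟩
  have h1 : ∀ j, wtM F m (χ j) x = ∑ l ∈ H, m l x * χ j (l • x) := by
    intro j
    show ∑ k ∈ F, m k x * χ j (k • x) = _
    refine Finset.sum_subset (by rw [hH]; exact Finset.subset_union_left) fun k _ hk => ?_
    rw [hm0 k hk, zero_mul]
  have h2 : ∀ j, wtM F m (χ j) (g • x) =
      ∑ l ∈ H, (∑ k ∈ F, if k * g = l then m k (g • x) else 0) * χ j (l • x) := by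
    intro j
    show ∑ k ∈ F, m k (g • x) * χ j (k • g • x) = _
    simp only [Finset.sum_mul]
    rw [Finset.sum_comm]
    refine Finset.sum_congr rfl fun k hk => ?_
    rw [Finset.sum_eq_single (k * g)]
    · rw [if_pos rfl, mul_smul]
    · intro l _ hl
      rw [if_neg fun h => hl h.symm, zero_mul]
    · intro h
      exact absurd (by rw [hH]; exact Finset.mem_union_right _ (Finset.mem_image_of_mem _ hk)) h
  have h3 : ∀ j, |wtM F m (χ j) (g • x) - wtM F m (χ j) x| ≤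
      ∑ l ∈ H, |(∑ k ∈ F, if k * g = l then m k (g • x) else 0) - m l x| * χ j (l • x) := by
    intro j
    rw [h1, h2, ← Finset.sum_sub_distrib]
    refine (Finset.abs_sum_le_sum_abs _ _).trans (le_of_eq ?_)
    refine Finset.sum_congr rfl fun k _ => ?_
    rw [← sub_mul, abs_mul, abs_of_nonneg (hχ j _)]
  refine (Finset.sum_le_sum fun j _ => h3 j).trans ?_
  rw [Finset.sum_comm]
  refine le_trans (le_of_eq ?_) (hη H)
  refine Finset.sum_congr rfl fun k _ => ?_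
  rw [← Finset.mul_sum, hχ1, mul_one]

omit [T2Space K] in
theorem locM_of_funOpM {M : Type*} [Monoid M] [MulAction M K] [ContinuousConstSMul M K]
    (hG : TopAmenM M K) {A : C(K, 𝕜) →L[𝕜] C(K, 𝕜)} (hA : A ∈ FunOpM 𝕜 M K) : LocM M A := by
  classical
  obtain ⟨E, a, hEa⟩ := hA
  intro ε hε
  obtain ⟨S0, hS1⟩ : ∃ S0 : ℝ, S0 = ∑ g ∈ E, ‖a g‖ := ⟨_, rfl⟩
  have hS : 0 ≤ S0 := by
    rw [hS1]
    exact Finset.sum_nonneg fun g _ => norm_nonneg _
  obtain ⟨F, m, hm, hm0, hm1, hm2⟩ := hG E (ε / (S0 + 1)) (by positivity)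
  refine ⟨F, m, hm, hm1, ?_⟩
  intro n χ hχ hχ1 f R hf x
  have hR : 0 ≤ R := by
    rcases Nat.eq_zero_or_pos n with rfl | hn
    · have h1 := hχ1 x
      simp at h1
    · exact (norm_nonneg _).trans (hf ⟨0, hn⟩)
  have h1 : A (∑ j, rs (wtM F m (χ j)) (f j)) x - ∑ j, (wtM F m (χ j) x : 𝕜) * A (f j) x =
      ∑ g ∈ E, a g x * ∑ j, ((wtM F m (χ j) (g • x) - wtM F m (χ j) x : ℝ) : 𝕜) * f j (g • x) := by
    rw [hEa]
    have h2 : ∀ y, (∑ j, rs (wtM F m (χ j)) (f j)) y = ∑ j, (wtM F m (χ j) y : 𝕜) * f j y := by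
      intro y
      rw [ContinuousMap.sum_apply]
      rfl
    simp only [h2, hEa]
    have h3 : ∑ j, (wtM F m (χ j) x : 𝕜) * ∑ g ∈ E, a g x * f j (g • x) =
        ∑ g ∈ E, a g x * ∑ j, (wtM F m (χ j) x : 𝕜) * f j (g • x) := by
      simp only [Finset.mul_sum]
      rw [Finset.sum_comm]
      refine Finset.sum_congr rfl fun g _ => Finset.sum_congr rfl fun j _ => ?_
      ring
    rw [h3, ← Finset.sum_sub_distrib]
    refine Finset.sum_congr rfl fun g _ => ?_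
    rw [← mul_sub, ← Finset.sum_sub_distrib]
    congr 1
    refine Finset.sum_congr rfl fun j _ => ?_
    push_cast
    ring
  rw [h1]
  have h4 : ∀ g ∈ E, ‖a g x * ∑ j, ((wtM F m (χ j) (g • x) - wtM F m (χ j) x : ℝ) : 𝕜) *
      f j (g • x)‖ ≤ ‖a g‖ * (ε / (S0 + 1) * R) := by
    intro g hg
    rw [norm_mul]
    refine mul_le_mul ((a g).norm_coe_le_norm x) ?_ (norm_nonneg _) (norm_nonneg _)
    have h5 : ∀ j ∈ Finset.univ, ‖((wtM F m (χ j) (g • x) - wtM F m (χ j) x : ℝ) : 𝕜) *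
        f j (g • x)‖ ≤ |wtM F m (χ j) (g • x) - wtM F m (χ j) x| * R := by
      intro j _
      rw [norm_mul, RCLike.norm_ofReal]
      exact mul_le_mul_of_nonneg_left (((f j).norm_coe_le_norm _).trans (hf j)) (abs_nonneg _)
    refine (norm_sum_le_of_le _ h5).trans ?_
    rw [← Finset.sum_mul]
    exact mul_le_mul_of_nonneg_right (LocMA_wt hm0 (hm2 g hg x) hχ hχ1) hR
  refine (norm_sum_le_of_le _ h4).trans ?_
  rw [← Finset.sum_mul, ← hS1]
  have h6 : S0 * (ε / (S0 + 1)) ≤ ε := by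
    rw [mul_div_assoc', div_le_iff₀ (by linarith)]
    nlinarith
  calc S0 * (ε / (S0 + 1) * R) = S0 * (ε / (S0 + 1)) * R := by ring
    _ ≤ ε * R := mul_le_mul_of_nonneg_right h6 hR

end Pool.Agent.H.MP_f11573_an
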