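import Pool.Agent.H.MP_f11573_an.Def2

/-!
# Low2: the lower bound for functionals without atoms in `Q`

PROOF: it is enough that `‖μ h‖ ≤ C * ‖μ ∘ A‖ + δ` for all `‖h‖ ≤ 1`, `δ > 0`. Let `M = ‖A‖ * C + 1` and `δ' > 0` small. For `q ∈ Q`
let `V q` be from `hat q` with `δ'`. Urysohn functions `b q : K → [0, 1]`, `b q = 0` off `V q`, `b q = 1` on an open
neighbourhood `V' q` of `q` (`exists_continuous_zero_one_of_isClosed` in the normal space `K` for disjoint closed sets, after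
choosing `V' q` with closure in `V q`). `V = ⋃ V' q`. `f` from `glue` with `ε = δ'`: `r = h - A f` has `‖r x‖ ≤ δ'` off
`V`, `‖r‖ ≤ M`. `μ h = μ (A f) + μ r`, `‖μ (A f)‖ ≤ C ‖μ ∘ A‖`. Order `Q` (`Finset.induction_on` or a list): `1 = ∏ (1 - b q) + ∑ (…)`,
that is `r = r ∏ (1 - b q) + ∑ r_q`, `r_q` vanishing off `V q`, `‖r_q‖ ≤ M`; the first function vanishes on `V`, so it has
norm `≤ δ'`. So `‖μ r‖ ≤ ‖μ‖ δ' + |Q| M δ'`.
-/

set_option autoImplicit false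

open Filter Topology Set Metric MeasureTheory

namespace Pool.Agent.H.MP_f11573_an

variable {𝕜 : Type*} [RCLike 𝕜] {K : Type*} [TopologicalSpace K] [CompactSpace K] [T2Space K]

omit [CompactSpace K] [T2Space K] in
private theorem Low2_rs (w : C(K, ℝ)) (f : C(K, 𝕜)) (x : K) : rs w f x = (w x : 𝕜) * f x := rfl

/-- the cut-off function -/
private theorem Low2_ind {μ : C(K, 𝕜) →L[𝕜] 𝕜} {δ' : ℝ} (hδ' : 0 < δ') (Q : Finset K)
    (hat : ∀ q ∈ Q, NoAtom μ q) : ∃ (V : Set K) (w : C(K, ℝ)), IsOpen V ∧ (∀ q ∈ Q, q ∈ V) ∧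
      (∀ x, 0 ≤ w x) ∧ (∀ x, w x ≤ 1) ∧ (∀ x, x ∈ V → w x ≤ δ') ∧
      ∀ r : C(K, 𝕜), ‖μ r‖ ≤ ‖μ (rs w r)‖ + Q.card * (δ' * ‖r‖) := by
  classical
  induction Q using Finset.induction_on with
  | empty =>
    refine ⟨∅, 1, isOpen_empty, fun q hq => absurd hq (Finset.notMem_empty q), fun x => ?_,
      fun x => ?_, fun x hx => absurd hx (Set.notMem_empty x), fun r => ?_⟩
    · simp
    · simp
    · have h1 : rs 1 r = r := by
        ext x
        rw [Low2_rs]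
        simp
      rw [h1]
      simp
  | insert q Q hq ih =>
    obtain ⟨V, w, hV, hQ, h0, h1, hw, hr⟩ := ih (fun p hp => hat p (Finset.mem_insert_of_mem hp))
    obtain ⟨U, hU, hqU, hμ⟩ := hat q (Finset.mem_insert_self q Q) δ' hδ'
    obtain ⟨b, hb0, hb1, hb⟩ := exists_continuous_zero_one_of_isClosed (s := Uᶜ) (t := {q})
      hU.isClosed_compl isClosed_singleton (by
        rw [Set.disjoint_singleton_right]
        exact fun h => h hqU)
    have hbq : b q = 1 := hb1 (Set.mem_singleton q)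
    refine ⟨V ∪ {x | 1 - δ' < b x}, w * (1 - b),
      hV.union (isOpen_lt continuous_const b.continuous), ?_, ?_, ?_, ?_, ?_⟩
    · intro p hp
      rcases Finset.mem_insert.1 hp with rfl | hp
      · right
        show 1 - δ' < b p
        rw [hbq]
        linarith
      · left
        exact hQ p hp
    · intro x
      change 0 ≤ w x * (1 - b x)
      exact mul_nonneg (h0 x) (by linarith [(hb x).2])
    · intro x
      change w x * (1 - b x) ≤ 1
      exact mul_le_one₀ (h1 x) (by linarith [(hb x).2]) (by linarith [(hb x).1])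
    · intro x hx
      change w x * (1 - b x) ≤ δ'
      rcases hx with hx | hx
      · calc w x * (1 - b x) ≤ w x * 1 :=
              mul_le_mul_of_nonneg_left (by linarith [(hb x).1]) (h0 x)
          _ ≤ δ' := by
              rw [mul_one]
              exact hw x hx
      · have hx' : 1 - δ' < b x := hx
        calc w x * (1 - b x) ≤ 1 * (1 - b x) :=
              mul_le_mul_of_nonneg_right (h1 x) (by linarith [(hb x).2])
          _ ≤ δ' := by linarith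
    · intro r
      have e1 : rs w r = rs (w * (1 - b)) r + rs (w * b) r := by
        ext x
        rw [ContinuousMap.add_apply, Low2_rs, Low2_rs, Low2_rs, ContinuousMap.mul_apply,
          ContinuousMap.mul_apply, ContinuousMap.sub_apply, ContinuousMap.one_apply]
        push_cast
        ring
      have e2 : ‖μ (rs (w * b) r)‖ ≤ δ' * ‖r‖ := by
        refine (hμ _ (fun x hx => ?_)).trans (mul_le_mul_of_nonneg_left ?_ hδ'.le)
        · rw [Low2_rs, ContinuousMap.mul_apply, hb0 hx]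
          simp
        · rw [ContinuousMap.norm_le _ (norm_nonneg _)]
          intro x
          rw [Low2_rs, norm_mul, RCLike.norm_ofReal, ContinuousMap.mul_apply,
            abs_of_nonneg (mul_nonneg (h0 x) (hb x).1)]
          calc w x * b x * ‖r x‖ ≤ 1 * ‖r‖ :=
                mul_le_mul (mul_le_one₀ (h1 x) (hb x).1 (hb x).2) (r.norm_coe_le_norm x)
                  (norm_nonneg _) zero_le_one
            _ = ‖r‖ := one_mul _
      have e3 : ‖μ (rs w r)‖ ≤ ‖μ (rs (w * (1 - b)) r)‖ + δ' * ‖r‖ := by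
        rw [e1, map_add]
        exact (norm_add_le _ _).trans (add_le_add le_rfl e2)
      have e4 := hr r
      rw [Finset.card_insert_of_notMem hq]
      push_cast
      linarith

/-- the bound on the unit ball -/
private theorem Low2_ball {A : C(K, 𝕜) →L[𝕜] C(K, 𝕜)} (hL : Glb A) {Q : Finset K} {C : ℝ} (hC : 0 < C)
    (hs : Solv A Q C) {μ : C(K, 𝕜) →L[𝕜] 𝕜} (hat : ∀ q ∈ Q, NoAtom μ q) {h : C(K, 𝕜)}
    (hh : ‖h‖ ≤ 1) {δ : ℝ} (hδ : 0 < δ) : ‖μ h‖ ≤ C * ‖μ.comp A‖ + δ := by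
  obtain ⟨M, hM⟩ : ∃ M : ℝ, M = ‖A‖ * C + 1 := ⟨_, rfl⟩
  have hAC : 0 ≤ ‖A‖ * C := mul_nonneg (norm_nonneg _) hC.le
  have hM1 : 1 ≤ M := by linarith
  have hM0 : 0 < M := by linarith
  obtain ⟨N, hN⟩ : ∃ N : ℝ, N = ‖μ‖ + Q.card + 1 := ⟨_, rfl⟩
  have hN0 : 0 < N := by
    have h1 : 0 ≤ ‖μ‖ := norm_nonneg _
    have h2 : (0 : ℝ) ≤ Q.card := Nat.cast_nonneg _
    linarith
  obtain ⟨δ', hδ'⟩ : ∃ δ' : ℝ, δ' = δ / (N * M) := ⟨_, rfl⟩
  have hNM : 0 < N * M := mul_pos hN0 hM0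
  have hδ'0 : 0 < δ' := by
    rw [hδ']
    exact div_pos hδ hNM
  have hδ'e : N * (M * δ') = δ := by
    rw [hδ', ← mul_assoc]
    exact mul_div_cancel₀ δ hNM.ne'
  obtain ⟨V, w, hV, hQV, h0, h1, hw, hr⟩ := Low2_ind hδ'0 Q hat
  obtain ⟨f, hf, hfA⟩ := hL Q C hC hs V hV hQV h hh _ hδ'0
  obtain ⟨r, hrdef⟩ : ∃ r : C(K, 𝕜), r = h - A f := ⟨_, rfl⟩
  have hrM : ‖r‖ ≤ M := by
    rw [hrdef, hM]
    calc ‖h - A f‖ ≤ ‖h‖ + ‖A f‖ := norm_sub_le _ _
      _ ≤ 1 + ‖A‖ * C := add_le_add hh ((A.le_opNorm f).trans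
          (mul_le_mul_of_nonneg_left hf (norm_nonneg _)))
      _ = ‖A‖ * C + 1 := add_comm _ _
  have hwr : ‖rs w r‖ ≤ M * δ' := by
    rw [ContinuousMap.norm_le _ (mul_nonneg hM0.le hδ'0.le)]
    intro x
    rw [Low2_rs, norm_mul, RCLike.norm_ofReal, abs_of_nonneg (h0 x)]
    by_cases hx : x ∈ V
    · calc w x * ‖r x‖ ≤ δ' * M :=
            mul_le_mul (hw x hx) ((r.norm_coe_le_norm x).trans hrM) (norm_nonneg _) hδ'0.le
        _ = M * δ' := mul_comm _ _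
    · have h2 : ‖r x‖ ≤ δ' := by
        rw [hrdef, ContinuousMap.sub_apply, norm_sub_rev]
        exact hfA x hx
      calc w x * ‖r x‖ ≤ 1 * δ' := mul_le_mul (h1 x) h2 (norm_nonneg _) zero_le_one
        _ ≤ M * δ' := mul_le_mul_of_nonneg_right hM1 hδ'0.le
  have h2 : μ h = (μ.comp A) f + μ r := by
    rw [hrdef, map_sub, ContinuousLinearMap.comp_apply]
    ring
  have h3 : ‖(μ.comp A) f‖ ≤ ‖μ.comp A‖ * C :=
    ((μ.comp A).le_opNorm f).trans (mul_le_mul_of_nonneg_left hf (norm_nonneg _))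
  have h4 : ‖μ (rs w r)‖ ≤ ‖μ‖ * (M * δ') :=
    (μ.le_opNorm _).trans (mul_le_mul_of_nonneg_left hwr (norm_nonneg _))
  have h5 : (Q.card : ℝ) * (δ' * ‖r‖) ≤ Q.card * (M * δ') := by
    rw [mul_comm M δ']
    exact mul_le_mul_of_nonneg_left (mul_le_mul_of_nonneg_left hrM hδ'0.le) (Nat.cast_nonneg _)
  have h6 := hr r
  have h7 : 0 < M * δ' := mul_pos hM0 hδ'0
  calc ‖μ h‖ ≤ ‖(μ.comp A) f‖ + ‖μ r‖ := by
        rw [h2]
        exact norm_add_le _ _
    _ ≤ ‖μ.comp A‖ * C + (‖μ‖ * (M * δ') + Q.card * (M * δ')) := by linarith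
    _ ≤ C * ‖μ.comp A‖ + N * (M * δ') := by
        rw [hN, mul_comm ‖μ.comp A‖ C]
        nlinarith
    _ = C * ‖μ.comp A‖ + δ := by rw [hδ'e]

theorem low_glb {A : C(K, 𝕜) →L[𝕜] C(K, 𝕜)} (hL : Glb A) {Q : Finset K} {C : ℝ} (hC : 0 < C)
    (hs : Solv A Q C) {μ : C(K, 𝕜) →L[𝕜] 𝕜} (hat : ∀ q ∈ Q, NoAtom μ q) :
    ‖μ‖ ≤ C * ‖μ.comp A‖ := by
  have hb : ∀ h : C(K, 𝕜), ‖h‖ ≤ 1 → ‖μ h‖ ≤ C * ‖μ.comp A‖ := by
    intro h hh
    refine le_of_forall_pos_le_add fun δ hδ => ?_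
    exact Low2_ball hL hC hs hat hh hδ
  have hn : 0 ≤ C * ‖μ.comp A‖ := mul_nonneg hC.le (norm_nonneg _)
  refine μ.opNorm_le_bound hn fun x => ?_
  by_cases hx : x = 0
  · rw [hx, map_zero, norm_zero, norm_zero, mul_zero]
  · have hx' : ‖x‖ ≠ 0 := norm_ne_zero_iff.2 hx
    have h1 : ‖(((‖x‖⁻¹ : ℝ) : 𝕜) • x)‖ ≤ 1 := by
      rw [norm_smul, RCLike.norm_ofReal, abs_of_nonneg (inv_nonneg.2 (norm_nonneg _)),
        inv_mul_cancel₀ hx']
    have h2 := hb _ h1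
    rw [map_smul, norm_smul, RCLike.norm_ofReal,
      abs_of_nonneg (inv_nonneg.2 (norm_nonneg _)), inv_mul_le_iff₀ (by positivity)] at h2
    linarith [mul_comm (C * ‖μ.comp A‖) ‖x‖]

end Pool.Agent.H.MP_f11573_an
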