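import Pool.Agent.H.MP_f11573_an.Def2

/-!
# Wst: weak-star continuous operators on `ℓ_∞` have the gluing property

PROOF: let `Q`, `C`, `V`, `h`, `ε` be given. For every finite `P ⊆ D \ Q` there is `f_P` with `‖f_P‖ ≤ C` and `‖A f_P p - h p‖ ≤ ε` for
`p ∈ P`. Let `𝒰` be an ultrafilter on the finite subsets of `D \ Q` finer than `atTop` (`Ultrafilter.of atTop` on
`Finset {x // x ∈ D ∧ x ∉ Q}`). For `e ∈ K` let `g e` be the limit of `f_P e` along `𝒰` (closed balls of `𝕜` are compact), `‖g e‖ ≤ C`; by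
`hD` there is `f` in `C(K, 𝕜)` with `f = g` on `D`, `‖f‖ ≤ C` since `D` is dense. The set of the functionals `l` with
`l (f_P) → l f` along `𝒰` is a closed subspace (`3 ε` argument, `‖f_P‖ ≤ C`) and contains the evaluations at the points of `D`, so by
`hA` it contains `dl d ∘ A` for `d ∈ D`: `A f_P d → A f d`. For `d ∈ D \ Q`: `‖A f_P d - h d‖ ≤ ε` for all `P ∋ d`, so
`‖A f d - h d‖ ≤ ε`. The set `{x | ‖A f x - h x‖ ≤ ε}` is closed and contains `D \ Q`, and every `x ∉ Q` is in the closure of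
`D \ Q` (`D` is dense, the complement of `Q` is open: `Dense.open_subset_closure_inter` or so), so `‖A f x - h x‖ ≤ ε` for `x ∉ V`.
-/

set_option autoImplicit false

open Filter Topology Set Metric MeasureTheory

namespace Pool.Agent.H.MP_f11573_an

variable {𝕜 : Type*} [RCLike 𝕜] {K : Type*} [TopologicalSpace K] [CompactSpace K] [T2Space K]

private theorem Wst_lim {ι : Type*} (U : Ultrafilter ι) {C : ℝ} (F : ι → 𝕜)
    (hF : ∀ i, ‖F i‖ ≤ C) : ∃ g : 𝕜, ‖g‖ ≤ C ∧ Tendsto F U (𝓝 g) := by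
  have h1 : ((U.map F : Ultrafilter 𝕜) : Filter 𝕜) ≤ 𝓟 (closedBall (0 : 𝕜) C) := by
    rw [le_principal_iff, Ultrafilter.coe_map]
    exact Filter.mem_map.2 (Filter.univ_mem' fun i => mem_closedBall_zero_iff.2 (hF i))
  obtain ⟨g, hg, hle⟩ := (isCompact_closedBall (0 : 𝕜) C).ultrafilter_le_nhds (U.map F) h1
  exact ⟨g, mem_closedBall_zero_iff.1 hg, hle⟩

private theorem Wst_cl {ι : Type*} (U : Ultrafilter ι) {C : ℝ} (hC : 0 < C) (F : ι → C(K, 𝕜))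
    (hF : ∀ i, ‖F i‖ ≤ C) (f : C(K, 𝕜)) (hf : ‖f‖ ≤ C) (T : Set (C(K, 𝕜) →L[𝕜] 𝕜))
    (hT : ∀ l ∈ T, Tendsto (fun i => l (F i)) U (𝓝 (l f))) (l : C(K, 𝕜) →L[𝕜] 𝕜)
    (hl : l ∈ closure T) : Tendsto (fun i => l (F i)) U (𝓝 (l f)) := by
  rw [Metric.tendsto_nhds]
  intro δ hδ
  obtain ⟨l', hl', hd⟩ := Metric.mem_closure_iff.1 hl (δ / (3 * C)) (by positivity)
  rw [dist_eq_norm] at hd
  have h1 := (Metric.tendsto_nhds.1 (hT l' hl')) (δ / 3) (by positivity)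
  refine h1.mono fun i hi => ?_
  rw [dist_eq_norm] at hi ⊢
  have e : l (F i) - l f = (l - l') (F i) + (l' (F i) - l' f) - (l - l') f := by
    show l (F i) - l f = (l (F i) - l' (F i)) + (l' (F i) - l' f) - (l f - l' f)
    ring
  have hb : ∀ x : C(K, 𝕜), ‖x‖ ≤ C → ‖(l - l') x‖ ≤ δ / 3 := by
    intro x hx
    calc ‖(l - l') x‖ ≤ ‖l - l'‖ * ‖x‖ := (l - l').le_opNorm x
      _ ≤ δ / (3 * C) * C := mul_le_mul hd.le hx (norm_nonneg _) (by positivity)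
      _ = δ / 3 := by field_simp
  rw [e]
  have h2 := hb _ (hF i)
  have h3 := hb _ hf
  have h4 := norm_sub_le ((l - l') (F i) + (l' (F i) - l' f)) ((l - l') f)
  have h5 := norm_add_le ((l - l') (F i)) (l' (F i) - l' f)
  linarith

theorem glb_of_wstar {D : Set K} (hD : CechDisc 𝕜 D) {A : C(K, 𝕜) →L[𝕜] C(K, 𝕜)}
    (hA : WStar D A) : Glb A := by
  classical
  intro Q C hC hS V hV hQV h hh ε hε
  have hex : ∀ P : Finset {x : K // x ∈ D ∧ x ∉ Q}, ∃ f : C(K, 𝕜), ‖f‖ ≤ C ∧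
      ∀ p ∈ P, ‖A f p - h p‖ ≤ ε := by
    intro P
    obtain ⟨f, hf, hf'⟩ := hS (P.map (Function.Embedding.subtype _)) (by
      rw [Finset.disjoint_left]
      intro x hx hxQ
      obtain ⟨y, -, rfl⟩ := Finset.mem_map.1 hx
      exact y.2.2 hxQ) h hh ε hε
    exact ⟨f, hf, fun p hp => hf' _ (Finset.mem_map_of_mem _ hp)⟩
  choose F hF hFh using hex
  obtain ⟨U, hU⟩ : ∃ U : Ultrafilter (Finset {x : K // x ∈ D ∧ x ∉ Q}),
    (U : Filter (Finset {x : K // x ∈ D ∧ x ∉ Q})) ≤ atTop :=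
    ⟨Ultrafilter.of atTop, Ultrafilter.of_le atTop⟩
  have hlim : ∀ e : K, ∃ g : 𝕜, ‖g‖ ≤ C ∧ Tendsto (fun P => F P e) U (𝓝 g) := fun e =>
    Wst_lim U (fun P => F P e) fun P => ((F P).norm_coe_le_norm e).trans (hF P)
  choose g hg hgt using hlim
  obtain ⟨f, hf⟩ := hD.2 g ⟨C, hg⟩
  have hfC : ‖f‖ ≤ C := by
    rw [ContinuousMap.norm_le f hC.le]
    intro x
    have h1 : IsClosed {x : K | ‖f x‖ ≤ C} := isClosed_le (by fun_prop) continuous_const
    have h2 : D ⊆ {x : K | ‖f x‖ ≤ C} := fun d hd => by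
      show ‖f d‖ ≤ C
      rw [hf d hd]
      exact hg d
    exact closure_minimal h2 h1 (hD.1 x)
  have hspan : ∀ l ∈ (Submodule.span 𝕜
      ((fun e : K => (ContinuousMap.evalCLM 𝕜 e : C(K, 𝕜) →L[𝕜] 𝕜)) '' D)
        : Set (C(K, 𝕜) →L[𝕜] 𝕜)), Tendsto (fun P => l (F P)) U (𝓝 (l f)) := by
    intro l hl
    refine Submodule.span_induction (p := fun l _ => Tendsto (fun P => l (F P)) U (𝓝 (l f)))
      ?_ ?_ ?_ ?_ hl
    · rintro _ ⟨e, he, rfl⟩
      show Tendsto (fun P => F P e) U (𝓝 (f e))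
      rw [hf e he]
      exact hgt e
    · exact tendsto_const_nhds
    · intro a b _ _ ha hb
      exact ha.add hb
    · intro c a _ ha
      exact ha.const_smul c
  have hAt : ∀ d ∈ D, Tendsto (fun P => A (F P) d) U (𝓝 (A f d)) := fun d hd =>
    Wst_cl U hC F hF f hfC _ hspan _ (hA d hd)
  have hDQ : ∀ d ∈ D, d ∉ Q → ‖A f d - h d‖ ≤ ε := by
    intro d hd hdQ
    refine le_of_tendsto ((hAt d hd).sub_const (h d)).norm ?_
    refine hU ((eventually_ge_atTop {(⟨d, hd, hdQ⟩ : {x : K // x ∈ D ∧ x ∉ Q})}).mono ?_)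
    intro P hP
    exact hFh P ⟨d, hd, hdQ⟩ (hP (Finset.mem_singleton_self _))
  refine ⟨f, hfC, fun x hx => ?_⟩
  have hxQ : x ∉ (Q : Set K) := fun h1 => hx (hQV x (Finset.mem_coe.1 h1))
  have hO : IsOpen ((Q : Set K)ᶜ) := Q.finite_toSet.isClosed.isOpen_compl
  have h1 : x ∈ closure ((Q : Set K)ᶜ ∩ D) := hD.1.open_subset_closure_inter hO hxQ
  have h2 : IsClosed {x : K | ‖A f x - h x‖ ≤ ε} := isClosed_le (by fun_prop) continuous_const
  have h3 : (Q : Set K)ᶜ ∩ D ⊆ {x : K | ‖A f x - h x‖ ≤ ε} := fun d hd =>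
    hDQ d hd.2 fun h4 => hd.1 (Finset.mem_coe.2 h4)
  exact closure_minimal h3 h2 h1

end Pool.Agent.H.MP_f11573_an
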