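import Pool.Agent.H.MP_f11573_an.Mn2
import Pool.Agent.H.MP_f11573_an.GluM
import Pool.Agent.H.MP_f11573_an.LocMA
import Pool.Agent.H.MP_f11573_an.AmM
import Pool.Agent.H.MP_f11573_an.DjD
import Pool.Agent.H.MP_f11573_an.Wst

/-! # MdA: the final theorems -/

set_option autoImplicit false

open Filter Topology Set Metric MeasureTheory

namespace Pool.Agent.H.MP_f11573_an

variable {𝕜 : Type*} [RCLike 𝕜] {K : Type*} [TopologicalSpace K] [CompactSpace K] [T2Space K]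

theorem onto_of_modW (hK : Groth 𝕜 C(K, 𝕜)) {P : Set (C(K, 𝕜) →L[𝕜] C(K, 𝕜))}
    (hP : ∀ A ∈ P, Glb A) {T : C(K, 𝕜) →L[𝕜] C(K, 𝕜)} (hT : T ∈ ModW P)
    (hd : DenseRange T) : Function.Surjective T := by
  refine core hK hd fun η hη => ?_
  obtain ⟨B, ⟨A, S, hA, hS, hB⟩, hTB⟩ := Metric.mem_closure_iff.1 hT η hη
  refine ⟨A, S, T - B, ?_, hP A hA, hS, ?_⟩
  · rw [hB]
    abel
  · rw [← dist_eq_norm]
    exact hTB.le

omit [T2Space K] in
theorem modW_sub {P : Set (C(K, 𝕜) →L[𝕜] C(K, 𝕜))} (z : 𝕜)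
    (hP : ∀ A ∈ P, A - z • ContinuousLinearMap.id 𝕜 C(K, 𝕜) ∈ P)
    {T : C(K, 𝕜) →L[𝕜] C(K, 𝕜)} (hT : T ∈ ModW P) :
    T - z • ContinuousLinearMap.id 𝕜 C(K, 𝕜) ∈ ModW P := by
  refine Metric.mem_closure_iff.2 fun η hη => ?_
  obtain ⟨B, ⟨A, S, hA, hS, hB⟩, hTB⟩ := Metric.mem_closure_iff.1 hT η hη
  refine ⟨B - z • ContinuousLinearMap.id 𝕜 C(K, 𝕜),
    ⟨A - z • ContinuousLinearMap.id 𝕜 C(K, 𝕜), S, hP A hA, hS, ?_⟩, ?_⟩
  · rw [hB]
    abel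
  · rw [dist_sub_right]
    exact hTB

omit [T2Space K] in
theorem funOpM_sub {M : Type*} [Monoid M] [MulAction M K] (z : 𝕜)
    {A : C(K, 𝕜) →L[𝕜] C(K, 𝕜)} (hA : A ∈ FunOpM 𝕜 M K) :
    A - z • ContinuousLinearMap.id 𝕜 C(K, 𝕜) ∈ FunOpM 𝕜 M K := by
  classical
  obtain ⟨E, a, hE⟩ := hA
  refine ⟨insert 1 E, fun g => (if g ∈ E then a g else 0) -
    (if g = 1 then ContinuousMap.const K z else 0), fun f x => ?_⟩
  have h1 : (A - z • ContinuousLinearMap.id 𝕜 C(K, 𝕜)) f x = A f x - z * f x := rfl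
  have h2 : ∑ g ∈ insert 1 E, ((if g ∈ E then a g else 0) : C(K, 𝕜)) x * f (g • x) =
      ∑ g ∈ E, a g x * f (g • x) := by
    have h3 : ∑ g ∈ E, a g x * f (g • x) =
        ∑ g ∈ E, ((if g ∈ E then a g else 0) : C(K, 𝕜)) x * f (g • x) :=
      Finset.sum_congr rfl fun g hg => by rw [if_pos hg]
    rw [h3]
    refine (Finset.sum_subset (Finset.subset_insert 1 E) fun g _ hg => ?_).symm
    rw [if_neg hg]
    change (0 : 𝕜) * f (g • x) = 0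
    rw [zero_mul]
  have h4 : ∑ g ∈ insert 1 E, ((if g = 1 then ContinuousMap.const K z else 0) : C(K, 𝕜)) x *
      f (g • x) = z * f x := by
    rw [Finset.sum_eq_single (1 : M)]
    · rw [if_pos rfl, one_smul]
      rfl
    · intro g _ hg
      rw [if_neg hg]
      change (0 : 𝕜) * f (g • x) = 0
      rw [zero_mul]
    · intro h
      exact absurd (Finset.mem_insert_self _ _) h
  rw [h1, hE, ← h2, ← h4, ← Finset.sum_sub_distrib]
  refine Finset.sum_congr rfl fun g _ => ?_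
  rw [← sub_mul]
  rfl

omit [T2Space K] in
theorem wStar_sub {D : Set K} (z : 𝕜) {A : C(K, 𝕜) →L[𝕜] C(K, 𝕜)} (hA : WStar D A) :
    WStar D (A - z • ContinuousLinearMap.id 𝕜 C(K, 𝕜)) := by
  intro d hd
  have h1 : (ContinuousMap.evalCLM 𝕜 d : C(K, 𝕜) →L[𝕜] 𝕜).comp
      (A - z • ContinuousLinearMap.id 𝕜 C(K, 𝕜)) =
      (ContinuousMap.evalCLM 𝕜 d : C(K, 𝕜) →L[𝕜] 𝕜).comp A -
        z • (ContinuousMap.evalCLM 𝕜 d : C(K, 𝕜) →L[𝕜] 𝕜) := rfl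
  rw [h1, ← Submodule.topologicalClosure_coe]
  refine Submodule.sub_mem _ ?_ (Submodule.smul_mem _ _ ?_)
  · rw [← SetLike.mem_coe, Submodule.topologicalClosure_coe]
    exact hA d hd
  · exact Submodule.le_topologicalClosure _ (Submodule.subset_span ⟨d, hd, rfl⟩)

end Pool.Agent.H.MP_f11573_an
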