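import Pool.Agent.H.MP_f11573_an.Def

/-!
# Slv: Hahn-Banach on finite sets

PROOF: `W = {(A f p)_{p ∈ P} | ‖f‖ ≤ 1 / c}`, a convex subset of `P → 𝕜`. If `(h p)_p` is in the closure of `W`: done. Otherwise
(`RCLike.geometric_hahn_banach_closed_point` or so) there are a continuous linear functional `ℓ v = ∑ a p * v p` and a real `α` with
`re ℓ w < α < re ℓ (h p)_p` for `w ∈ W`. Let `a : K →₀ 𝕜` be the corresponding finitely supported function (support in `P`, so off `Q`).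
`re (ev a (A f)) < α` for all `‖f‖ ≤ 1 / c`, so (rotate `f`) `‖ev a (A f)‖ ≤ α`, so `‖(ev a) ∘ A‖ ≤ c α`. So
`nrm a ≤ α`, but `re ∑ a p * h p ≤ nrm a ‖h‖ ≤ nrm a ≤ α`, a contradiction.
-/

set_option autoImplicit false

open Filter Topology Set Metric MeasureTheory

namespace Pool.Agent.H.MP_f11573_an

variable {𝕜 : Type*} [RCLike 𝕜] {K : Type*} [TopologicalSpace K] [CompactSpace K] [T2Space K]

omit [T2Space K] in
private theorem Slv_ev (a : K →₀ 𝕜) (f : C(K, 𝕜)) : ev a f = ∑ t ∈ a.support, a t * f t := by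
  unfold ev dl
  rw [Finsupp.linearCombination_apply, Finsupp.sum, ContinuousLinearMap.sum_apply]
  refine Finset.sum_congr rfl fun t _ => ?_
  simp

omit [T2Space K] in
theorem solve {A : C(K, 𝕜) →L[𝕜] C(K, 𝕜)} {Q : Finset K} {c : ℝ} (hc : 0 < c)
    (h : ∀ a : K →₀ 𝕜, Disjoint a.support Q →
      c * nrm a ≤ ‖(ev a : C(K, 𝕜) →L[𝕜] 𝕜).comp A‖) : Solv A Q (1 / c) := by
  intro P hPQ g hg ε hε
  classical
  -- the set of the values
  let W : Set (P → 𝕜) := {w | ∃ f : C(K, 𝕜), ‖f‖ ≤ 1 / c ∧ ∀ p : P, w p = A f p}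
  have hWconv : Convex ℝ W := by
    rintro w₁ ⟨f₁, hf₁, hw₁⟩ w₂ ⟨f₂, hf₂, hw₂⟩ a b ha hb hab
    refine ⟨(a : 𝕜) • f₁ + (b : 𝕜) • f₂, ?_, fun p => ?_⟩
    · refine (norm_add_le _ _).trans ?_
      rw [norm_smul, norm_smul, RCLike.norm_ofReal, RCLike.norm_ofReal, abs_of_nonneg ha,
        abs_of_nonneg hb]
      calc a * ‖f₁‖ + b * ‖f₂‖ ≤ a * (1 / c) + b * (1 / c) := by gcongr
        _ = 1 / c := by rw [← add_mul, hab, one_mul]
    · simp only [Pi.add_apply, Pi.smul_apply, map_add, map_smul, ContinuousMap.add_apply,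
        ContinuousMap.smul_apply, hw₁, hw₂, RCLike.real_smul_eq_coe_smul (K := 𝕜)]
  by_cases hmem : (fun p : P => g p) ∈ closure W
  · obtain ⟨w, ⟨f, hf, hw⟩, hd⟩ := Metric.mem_closure_iff.mp hmem ε hε
    refine ⟨f, hf, fun p hp => ?_⟩
    have h1 := dist_le_pi_dist (fun p : P => g p) w ⟨p, hp⟩
    rw [hw, dist_comm, dist_eq_norm] at h1
    exact h1.trans hd.le
  exfalso
  obtain ⟨ℓ, α, hα, hα2⟩ := RCLike.geometric_hahn_banach_closed_point (𝕜 := 𝕜)
    hWconv.closure isClosed_closure hmem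
  let a₀ : P → 𝕜 := fun p => ℓ (Pi.single p 1)
  have hℓ : ∀ v : P → 𝕜, ℓ v = ∑ p : P, a₀ p * v p := by
    intro v
    conv_lhs => rw [← Finset.univ_sum_single v]
    rw [map_sum]
    refine Finset.sum_congr rfl fun p _ => ?_
    have : (Pi.single p (v p) : P → 𝕜) = (v p) • (Pi.single p (1 : 𝕜) : P → 𝕜) := by
      rw [← Pi.single_smul, smul_eq_mul, mul_one]
    rw [this, map_smul, smul_eq_mul, mul_comm]
  let a : K →₀ 𝕜 := Finsupp.onFinset P (fun t => if ht : t ∈ P then a₀ ⟨t, ht⟩ else 0) (by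
    intro t ht
    by_contra hcon
    exact ht (dif_neg hcon))
  have hasup : a.support ⊆ P := Finsupp.support_onFinset_subset
  have haP : ∀ p : P, a p = a₀ p := fun p => by
    change (if ht : (p : K) ∈ P then a₀ ⟨p, ht⟩ else 0) = a₀ p
    rw [dif_pos p.2]
  have hev : ∀ f : C(K, 𝕜), ev a f = ∑ p : P, a₀ p * f p := by
    intro f
    rw [Slv_ev, Finset.sum_subset hasup (fun t _ ht => by
      rw [Finsupp.notMem_support_iff.mp ht, zero_mul]), ← Finset.sum_coe_sort]
    exact Finset.sum_congr rfl fun p _ => by rw [haP]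
  have hnrm : nrm a = ∑ p : P, ‖a₀ p‖ := by
    unfold nrm
    rw [Finset.sum_subset hasup (fun t _ ht => by
      rw [Finsupp.notMem_support_iff.mp ht, norm_zero]), ← Finset.sum_coe_sort]
    exact Finset.sum_congr rfl fun p _ => by rw [haP]
  have hc0 : 0 ≤ 1 / c := by positivity
  have hα0 : 0 < α := by
    have h0 : (0 : P → 𝕜) ∈ W := ⟨0, by simpa using hc.le, fun p => by simp⟩
    have := hα 0 (subset_closure h0)
    simpa using this
  have hre : ∀ f : C(K, 𝕜), ‖f‖ ≤ 1 / c → ‖ev a (A f)‖ ≤ α := by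
    intro f hf
    obtain ⟨ζ, hζ, hz⟩ := RCLike.exists_norm_eq_mul_self (ev a (A f))
    have h1 : (fun p : P => A (ζ • f) p) ∈ W := by
      refine ⟨ζ • f, ?_, fun p => rfl⟩
      rw [norm_smul, hζ, one_mul]
      exact hf
    have h2 := hα _ (subset_closure h1)
    rw [hℓ] at h2
    have h3 : ∑ p : P, a₀ p * A (ζ • f) p = ((‖ev a (A f)‖ : ℝ) : 𝕜) := by
      rw [← hev (A (ζ • f)), hz, map_smul, map_smul, smul_eq_mul]
    rw [h3, RCLike.ofReal_re] at h2
    exact h2.le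
  have hnorm : ‖(ev a : C(K, 𝕜) →L[𝕜] 𝕜).comp A‖ ≤ c * α := by
    refine ContinuousLinearMap.opNorm_le_bound _ (by positivity) fun f => ?_
    rw [ContinuousLinearMap.comp_apply]
    by_cases hf : f = 0
    · subst hf
      simp
    have hf0 : 0 < ‖f‖ := norm_pos_iff.mpr hf
    have h1 := hre (((1 / (c * ‖f‖) : ℝ) : 𝕜) • f) (by
      rw [norm_smul, RCLike.norm_ofReal, abs_of_pos (by positivity)]
      exact le_of_eq (by field_simp))
    rw [map_smul, map_smul, norm_smul, RCLike.norm_ofReal, abs_of_pos (by positivity),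
      one_div, inv_mul_le_iff₀ (by positivity)] at h1
    linarith
  have h1 : nrm a ≤ α := by
    have h2 := (h a (Finset.disjoint_of_subset_left hasup hPQ)).trans hnorm
    exact le_of_mul_le_mul_left h2 hc
  have h2 : RCLike.re (ℓ (fun p : P => g p)) ≤ nrm a := by
    rw [hℓ, hnrm]
    refine (RCLike.re_le_norm _).trans ((norm_sum_le _ _).trans ?_)
    refine Finset.sum_le_sum fun p _ => ?_
    rw [norm_mul]
    exact mul_le_of_le_one_right (norm_nonneg _) ((g.norm_coe_le_norm p).trans hg)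
  linarith

end Pool.Agent.H.MP_f11573_an
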