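import Pool.Agent.H.MP_f11573_an.OffA
import Pool.Agent.H.MP_f11573_an.Blk

/-!
# OffK: the lower bound of the main term off a finite set

PROOF: suppose not: for every finite `Q` there is `a` off `Q` with `‖ev a ∘ A‖ < c / 2 * nrm a`. As in `disj_seq` (OffA) get a sequence
`a n` with `nrm (a n) = 1`, pairwise disjoint supports, disjoint from `Q₀`, `‖ev (a n) ∘ A‖ ≤ c / 2`. (For instance apply the recursion
with `Q ∪ Q₀ ∪ …`.) `blocks` for `S` and `u n = ev (a n)` (norm `1` by `norm_ev`): `z`; take a block `b = ∑ w i a i` with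
`‖ev b ∘ S - z‖ ≤ c / 16` and a second block `b'` over larger indices with the same bound. `nrm b = nrm b' = 1`, disjoint supports, off
`Q₀`, so `nrm (b - b') = 2`. `2 c ≤ ‖ev (b - b') ∘ T‖ ≤ ‖ev b ∘ A‖ + ‖ev b' ∘ A‖ + ‖ev b ∘ S - z‖ + ‖ev b' ∘ S - z‖ + 2 ‖R‖ ≤
c / 2 + c / 2 + c / 8 + c / 4 < 2 c`, a contradiction. (`nrm` of a block: see OffB.)
-/

set_option autoImplicit false

open Filter Topology Set Metric MeasureTheory

namespace Pool.Agent.H.MP_f11573_an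

variable {𝕜 : Type*} [RCLike 𝕜] {K : Type*} [TopologicalSpace K] [CompactSpace K] [T2Space K]

omit [TopologicalSpace K] [CompactSpace K] [T2Space K] in
private theorem OffK_nrm_add {x y : K →₀ 𝕜} (h : Disjoint x.support y.support) :
    nrm (x + y) = nrm x + nrm y :=
  Finsupp.sum_add_index_of_disjoint h (fun _ c => ‖c‖)

omit [TopologicalSpace K] [CompactSpace K] [T2Space K] in
private theorem OffK_nrm_smul {w : ℝ} (hw : 0 ≤ w) (x : K →₀ 𝕜) :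
    nrm ((w : 𝕜) • x) = w * nrm x := by
  have h1 : ((w : 𝕜) • x).sum (fun _ c => ‖c‖) = x.sum fun _ c => ‖(w : 𝕜) * c‖ :=
    Finsupp.sum_smul_index (fun _ => norm_zero)
  change ((w : 𝕜) • x).sum (fun _ c => ‖c‖) = w * x.sum (fun _ c => ‖c‖)
  rw [h1, Finsupp.sum, Finsupp.sum, Finset.mul_sum]
  refine Finset.sum_congr rfl fun t _ => ?_
  rw [norm_mul, RCLike.norm_ofReal, abs_of_nonneg hw]

omit [TopologicalSpace K] [CompactSpace K] [T2Space K] in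
private theorem OffK_supp (a : ℕ → (K →₀ 𝕜)) (w : ℕ → ℝ) (s : Finset ℕ) {t : K}
    (ht : t ∈ (∑ i ∈ s, (w i : 𝕜) • a i).support) : ∃ i ∈ s, t ∈ (a i).support := by
  by_contra hcon
  rw [Finsupp.mem_support_iff] at ht
  refine ht ?_
  rw [Finsupp.finsetSum_apply]
  refine Finset.sum_eq_zero fun i hi => ?_
  have h1 : a i t = 0 := by
    by_contra h2
    exact hcon ⟨i, hi, Finsupp.mem_support_iff.2 h2⟩
  rw [Finsupp.smul_apply, h1, smul_zero]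

omit [TopologicalSpace K] [CompactSpace K] [T2Space K] in
private theorem OffK_nrm_sum {a : ℕ → (K →₀ 𝕜)} (ha : ∀ n, nrm (a n) = 1)
    (hd : ∀ n m, n ≠ m → Disjoint (a n).support (a m).support) {w : ℕ → ℝ} (hw : ∀ i, 0 ≤ w i)
    (s : Finset ℕ) : nrm (∑ i ∈ s, (w i : 𝕜) • a i) = ∑ i ∈ s, w i := by
  classical
  induction s using Finset.induction_on with
  | empty => simp [nrm]
  | insert j s hj ih =>
    rw [Finset.sum_insert hj, Finset.sum_insert hj, OffK_nrm_add, ih, OffK_nrm_smul (hw j), ha,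
      mul_one]
    rw [Finset.disjoint_left]
    intro t ht1 ht2
    obtain ⟨i, hi, hti⟩ := OffK_supp a w s ht2
    have h1 : t ∈ (a j).support := Finsupp.support_smul ht1
    have h2 : j ≠ i := fun h => hj (h ▸ hi)
    exact Finset.disjoint_left.1 (hd j i h2) h1 hti

private theorem OffK_step {A : C(K, 𝕜) →L[𝕜] C(K, 𝕜)} {c : ℝ} (hc : 0 < c)
    (h : ∀ Q : Finset K, ∃ a : K →₀ 𝕜, Disjoint a.support Q ∧
      ‖(ev a : C(K, 𝕜) →L[𝕜] 𝕜).comp A‖ < c / 2 * nrm a) (Q : Finset K) :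
    ∃ a : K →₀ 𝕜, Disjoint a.support Q ∧ nrm a = 1 ∧
      ‖(ev a : C(K, 𝕜) →L[𝕜] 𝕜).comp A‖ ≤ c / 2 := by
  obtain ⟨a, ha, hA⟩ := h Q
  have hpos : 0 < nrm a := by
    by_contra hc'
    have h0 : c / 2 * nrm a ≤ 0 := mul_nonpos_of_nonneg_of_nonpos (by positivity) (not_lt.1 hc')
    exact absurd (norm_nonneg ((ev a : C(K, 𝕜) →L[𝕜] 𝕜).comp A)) (not_le.2 (hA.trans_le h0))
  have hn : ‖(((nrm a)⁻¹ : ℝ) : 𝕜)‖ = (nrm a)⁻¹ := by
    rw [RCLike.norm_ofReal, abs_of_nonneg (inv_nonneg.2 hpos.le)]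
  refine ⟨(((nrm a)⁻¹ : ℝ) : 𝕜) • a, ?_, ?_, ?_⟩
  · exact Finset.disjoint_of_subset_left Finsupp.support_smul ha
  · rw [OffK_nrm_smul (inv_nonneg.2 hpos.le), inv_mul_cancel₀ hpos.ne']
  · rw [map_smul, ContinuousLinearMap.smul_comp, norm_smul, hn]
    calc (nrm a)⁻¹ * ‖(ev a : C(K, 𝕜) →L[𝕜] 𝕜).comp A‖
        ≤ (nrm a)⁻¹ * (c / 2 * nrm a) := mul_le_mul_of_nonneg_left hA.le (inv_nonneg.2 hpos.le)
      _ = c / 2 := by
          field_simp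

private theorem OffK_seq {A : C(K, 𝕜) →L[𝕜] C(K, 𝕜)} {c : ℝ} (hc : 0 < c) (Q₀ : Finset K)
    (h : ∀ Q : Finset K, ∃ a : K →₀ 𝕜, Disjoint a.support Q ∧
      ‖(ev a : C(K, 𝕜) →L[𝕜] 𝕜).comp A‖ < c / 2 * nrm a) :
    ∃ a : ℕ → (K →₀ 𝕜), (∀ n, nrm (a n) = 1) ∧
      (∀ n m, n ≠ m → Disjoint (a n).support (a m).support) ∧
      (∀ n, Disjoint (a n).support Q₀) ∧
      ∀ n : ℕ, ‖(ev (a n) : C(K, 𝕜) →L[𝕜] 𝕜).comp A‖ ≤ c / 2 := by
  classical
  choose f hf1 hf2 hf3 using OffK_step hc h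
  let S : ℕ → Finset K := fun n => Nat.rec Q₀ (fun _ Q => Q ∪ (f Q).support) n
  have hS : ∀ n, S (n + 1) = S n ∪ (f (S n)).support := fun n => rfl
  have hmono : Monotone S := by
    refine monotone_nat_of_le_succ fun n => ?_
    rw [hS]
    exact Finset.subset_union_left
  have hlt : ∀ n m, n < m → Disjoint (f (S n)).support (f (S m)).support := by
    intro n m hnm
    have h1 : (f (S n)).support ⊆ S m := by
      refine Finset.Subset.trans ?_ (hmono (Nat.succ_le_of_lt hnm))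
      show _ ⊆ S (n + 1)
      rw [hS]
      exact Finset.subset_union_right
    exact Finset.disjoint_of_subset_left h1 (hf1 (S m)).symm
  refine ⟨fun n => f (S n), fun n => hf2 _, ?_, fun n => ?_, fun n => hf3 _⟩
  · intro n m hne
    rcases lt_or_gt_of_ne hne with hlt' | hlt'
    · exact hlt n m hlt'
    · exact (hlt m n hlt').symm
  · have h1 : Q₀ ⊆ S n := hmono (Nat.zero_le n)
    exact Finset.disjoint_of_subset_right h1 (hf1 (S n))

private theorem OffK_ev (a : ℕ → (K →₀ 𝕜)) (w : ℕ → ℝ) (s : Finset ℕ) :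
    (ev (∑ i ∈ s, (w i : 𝕜) • a i) : C(K, 𝕜) →L[𝕜] 𝕜) =
      ∑ i ∈ s, (w i : 𝕜) • (ev (a i) : C(K, 𝕜) →L[𝕜] 𝕜) := by
  rw [map_sum]
  exact Finset.sum_congr rfl fun i _ => map_smul _ _ _

private theorem OffK_A {A : C(K, 𝕜) →L[𝕜] C(K, 𝕜)} {c : ℝ} {a : ℕ → (K →₀ 𝕜)}
    (hA : ∀ n : ℕ, ‖(ev (a n) : C(K, 𝕜) →L[𝕜] 𝕜).comp A‖ ≤ c / 2) {w : ℕ → ℝ}
    (hw : ∀ i, 0 ≤ w i) {s : Finset ℕ} (hs : ∑ i ∈ s, w i = 1) :
    ‖(ev (∑ i ∈ s, (w i : 𝕜) • a i) : C(K, 𝕜) →L[𝕜] 𝕜).comp A‖ ≤ c / 2 := by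
  rw [OffK_ev]
  have h1 : (∑ i ∈ s, (w i : 𝕜) • (ev (a i) : C(K, 𝕜) →L[𝕜] 𝕜)).comp A =
      ∑ i ∈ s, (w i : 𝕜) • (ev (a i) : C(K, 𝕜) →L[𝕜] 𝕜).comp A := by
    ext f
    simp
  rw [h1]
  calc ‖∑ i ∈ s, (w i : 𝕜) • (ev (a i) : C(K, 𝕜) →L[𝕜] 𝕜).comp A‖
      ≤ ∑ i ∈ s, ‖(w i : 𝕜) • (ev (a i) : C(K, 𝕜) →L[𝕜] 𝕜).comp A‖ := norm_sum_le _ _
    _ ≤ ∑ i ∈ s, w i * (c / 2) := by
        refine Finset.sum_le_sum fun i _ => ?_
        rw [norm_smul, RCLike.norm_ofReal, abs_of_nonneg (hw i)]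
        exact mul_le_mul_of_nonneg_left (hA i) (hw i)
    _ = c / 2 := by
        rw [← Finset.sum_mul, hs, one_mul]

theorem offK {T A S R : C(K, 𝕜) →L[𝕜] C(K, 𝕜)} (hT : T = A + S + R) (hS : WComp S)
    {Q₀ : Finset K} {c : ℝ} (hc : 0 < c) (hQ : ∀ a : K →₀ 𝕜, Disjoint a.support Q₀ →
      c * nrm a ≤ ‖(ev a : C(K, 𝕜) →L[𝕜] 𝕜).comp T‖) (hR : ‖R‖ ≤ c / 8) :
    ∃ Q : Finset K, ∀ a : K →₀ 𝕜, Disjoint a.support Q →
      c / 2 * nrm a ≤ ‖(ev a : C(K, 𝕜) →L[𝕜] 𝕜).comp A‖ := by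
  by_contra hcon
  push Not at hcon
  obtain ⟨a, ha, hd, ha0, hA⟩ := OffK_seq (A := A) hc Q₀ hcon
  obtain ⟨z, hz⟩ := blocks (X := C(K, 𝕜)) hS
    (u := fun n => (ev (a n) : C(K, 𝕜) →L[𝕜] 𝕜)) (C := 1)
    fun n => by rw [norm_ev, ha n]
  have hc16 : 0 < c / 16 := by positivity
  obtain ⟨s, w, -, hw, hs, hsz⟩ := hz 0 (c / 16) hc16
  obtain ⟨s', w', hN, hw', hs', hsz'⟩ := hz (s.sup id + 1) (c / 16) hc16
  rw [← OffK_ev] at hsz hsz'
  have e1 := OffK_nrm_sum ha hd hw s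
  have e2 := OffK_nrm_sum ha hd hw' s'
  rw [hs] at e1
  rw [hs'] at e2
  have f1 := OffK_A hA hw hs
  have f2 := OffK_A hA hw' hs'
  have g1 : ∀ t ∈ (∑ i ∈ s, (w i : 𝕜) • a i).support, ∃ i ∈ s, t ∈ (a i).support :=
    fun t ht => OffK_supp a w s ht
  have g2 : ∀ t ∈ (∑ i ∈ s', (w' i : 𝕜) • a i).support, ∃ i ∈ s', t ∈ (a i).support :=
    fun t ht => OffK_supp a w' s' ht
  generalize (∑ i ∈ s, (w i : 𝕜) • a i) = b at *
  generalize (∑ i ∈ s', (w' i : 𝕜) • a i) = b' at *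
  have hbb : Disjoint b.support b'.support := by
    rw [Finset.disjoint_left]
    intro t ht1 ht2
    obtain ⟨i, hi, hti⟩ := g1 t ht1
    obtain ⟨j, hj, htj⟩ := g2 t ht2
    have h1 : i ≤ s.sup id := Finset.le_sup (f := id) hi
    have h2 := hN j hj
    exact Finset.disjoint_left.1 (hd i j (by omega)) hti htj
  have hnb : nrm (b - b') = 2 := by
    rw [sub_eq_add_neg, OffK_nrm_add (by rw [Finsupp.support_neg]; exact hbb), e1]
    have h1 : nrm (-b') = nrm b' := by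
      unfold nrm
      rw [Finsupp.support_neg]
      exact Finset.sum_congr rfl fun t _ => by rw [Finsupp.neg_apply, norm_neg]
    rw [h1, e2]
    norm_num
  have hoff : Disjoint (b - b').support Q₀ := by
    rw [Finset.disjoint_left]
    intro t ht1 ht2
    rw [Finsupp.mem_support_iff, Finsupp.sub_apply] at ht1
    by_cases h1 : b t = 0
    · have h2 : t ∈ b'.support := by
        rw [Finsupp.mem_support_iff]
        intro h2
        exact ht1 (by rw [h1, h2, sub_zero])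
      obtain ⟨j, -, htj⟩ := g2 t h2
      exact Finset.disjoint_left.1 (ha0 j) htj ht2
    · obtain ⟨i, -, hti⟩ := g1 t (Finsupp.mem_support_iff.2 h1)
      exact Finset.disjoint_left.1 (ha0 i) hti ht2
  have key := hQ (b - b') hoff
  rw [hnb] at key
  have h1 : (ev (b - b') : C(K, 𝕜) →L[𝕜] 𝕜).comp T =
      (ev b : C(K, 𝕜) →L[𝕜] 𝕜).comp A - (ev b' : C(K, 𝕜) →L[𝕜] 𝕜).comp A +
        (((ev b : C(K, 𝕜) →L[𝕜] 𝕜).comp S - z) - ((ev b' : C(K, 𝕜) →L[𝕜] 𝕜).comp S - z)) +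
          (ev (b - b') : C(K, 𝕜) →L[𝕜] 𝕜).comp R := by
    rw [hT, map_sub]
    ext f
    simp only [ContinuousLinearMap.comp_apply, map_add, sub_apply, add_apply]
    ring
  have h2 : ‖(ev (b - b') : C(K, 𝕜) →L[𝕜] 𝕜).comp R‖ ≤ 2 * (c / 8) := by
    refine (ContinuousLinearMap.opNorm_comp_le _ _).trans ?_
    rw [norm_ev, hnb]
    exact mul_le_mul_of_nonneg_left hR (by norm_num)
  have h3 : ‖(ev (b - b') : C(K, 𝕜) →L[𝕜] 𝕜).comp T‖ ≤ (c / 2 + c / 2) + (c / 16 + c / 16) +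
      2 * (c / 8) := by
    rw [h1]
    refine (norm_add_le _ _).trans (add_le_add ((norm_add_le _ _).trans (add_le_add ?_ ?_)) h2)
    · exact (norm_sub_le _ _).trans (add_le_add f1 f2)
    · exact (norm_sub_le _ _).trans (add_le_add hsz hsz')
  linarith

end Pool.Agent.H.MP_f11573_an
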