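import Pool.Agent.H.MP_f11573_an.OffA
import Pool.Agent.H.MP_f11573_an.OffK
import Pool.Agent.H.MP_f11573_an.Dis
import Pool.Agent.H.MP_f11573_an.Cc
import Pool.Agent.H.MP_f11573_an.Atm
import Pool.Agent.H.MP_f11573_an.Slv
import Pool.Agent.H.MP_f11573_an.Low2
import Pool.Agent.H.MP_f11573_an.Srj

/-! # Mn2: dense range implies onto, norm limits -/

set_option autoImplicit false

open Filter Topology Set Metric MeasureTheory

namespace Pool.Agent.H.MP_f11573_an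

variable {𝕜 : Type*} [RCLike 𝕜] {K : Type*} [TopologicalSpace K] [CompactSpace K] [T2Space K]

private theorem Mn2_noAtom_add {μ ν : C(K, 𝕜) →L[𝕜] 𝕜} {q : K} (h1 : NoAtom μ q)
    (h2 : NoAtom ν q) : NoAtom (μ + ν) q := by
  intro δ hδ
  obtain ⟨V, hV, hqV, h3⟩ := h1 (δ / 2) (by positivity)
  obtain ⟨W, hW, hqW, h4⟩ := h2 (δ / 2) (by positivity)
  refine ⟨V ∩ W, hV.inter hW, ⟨hqV, hqW⟩, fun f hf => ?_⟩
  have h5 := h3 f fun x hx => hf x fun h => hx h.1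
  have h6 := h4 f fun x hx => hf x fun h => hx h.2
  calc ‖(μ + ν) f‖ ≤ ‖μ f‖ + ‖ν f‖ := norm_add_le _ _
    _ ≤ δ * ‖f‖ := by linarith

private theorem Mn2_noAtom_sum {ι : Type*} (s : Finset ι) {ν : ι → (C(K, 𝕜) →L[𝕜] 𝕜)} {q : K}
    (h : ∀ i ∈ s, NoAtom (ν i) q) : NoAtom (∑ i ∈ s, ν i) q := by
  classical
  induction s using Finset.induction_on with
  | empty =>
    intro δ hδ
    refine ⟨univ, isOpen_univ, mem_univ _, fun f _ => ?_⟩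
    simp only [Finset.sum_empty, zero_apply, norm_zero]
    positivity
  | insert i s hi ih =>
    rw [Finset.sum_insert hi]
    exact Mn2_noAtom_add (h i (Finset.mem_insert_self _ _))
      (ih fun j hj => h j (Finset.mem_insert_of_mem hj))

private theorem Mn2_noAtom_dl {q r : K} (hqr : r ≠ q) (a : 𝕜) :
    NoAtom (a • (dl r : C(K, 𝕜) →L[𝕜] 𝕜)) q := by
  intro δ hδ
  refine ⟨{r}ᶜ, isOpen_compl_singleton, fun h => hqr (mem_singleton_iff.1 h).symm,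
    fun f hf => ?_⟩
  have h1 : f r = 0 := hf r fun h => h rfl
  have h2 : (a • (dl r : C(K, 𝕜) →L[𝕜] 𝕜)) f = 0 := by
    change a • f r = 0
    rw [h1, smul_zero]
  rw [h2, norm_zero]
  positivity

private theorem Mn2_norm_dl (q : K) : ‖(dl q : C(K, 𝕜) →L[𝕜] 𝕜)‖ ≤ 1 := by
  refine ContinuousLinearMap.opNorm_le_bound _ zero_le_one fun f => ?_
  rw [one_mul]
  exact f.norm_coe_le_norm q

/-- the lower bound of `T` off a finite set -/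
private theorem Mn2_off (hK : Groth 𝕜 C(K, 𝕜)) {T : C(K, 𝕜) →L[𝕜] C(K, 𝕜)}
    (hT : DenseRange T) :
    ∃ (Q : Finset K) (c : ℝ), 0 < c ∧ ∀ a : K →₀ 𝕜, Disjoint a.support Q →
      c * nrm a ≤ ‖(ev a : C(K, 𝕜) →L[𝕜] 𝕜).comp T‖ := by
  by_contra hcon
  push Not at hcon
  obtain ⟨a, ha, hd, hA⟩ := disj_seq (A := T) hcon
  refine no_conv hK hT ha hd (z := 0) ?_
  have h0 : Tendsto (fun n : ℕ => 1 / ((n : ℝ) + 1)) atTop (𝓝 0) :=
    tendsto_one_div_add_atTop_nhds_zero_nat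
  refine squeeze_zero (fun n => norm_nonneg _) (fun n => ?_) h0
  rw [sub_zero]
  exact hA n

theorem core (hK : Groth 𝕜 C(K, 𝕜)) {T : C(K, 𝕜) →L[𝕜] C(K, 𝕜)} (hT : DenseRange T)
    (h : ∀ η : ℝ, 0 < η → ∃ A S R : C(K, 𝕜) →L[𝕜] C(K, 𝕜), T = A + S + R ∧ Glb A ∧
      WComp S ∧ ‖R‖ ≤ η) : Function.Surjective T := by
  classical
  obtain ⟨Q₀, c, hc, hQ₀⟩ := Mn2_off hK hT
  obtain ⟨A, S, R, hTA, hG, hS, hR⟩ := h (c / 8) (by positivity)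
  obtain ⟨Q, hQ⟩ := offK hTA hS hc hQ₀ hR
  have hlow : ∀ μ : C(K, 𝕜) →L[𝕜] 𝕜, (∀ q ∈ Q, NoAtom μ q) →
      ‖μ‖ ≤ 1 / (c / 2) * ‖μ.comp A‖ :=
    fun μ h => low_glb hG (by positivity) (solve (half_pos hc) hQ) h
  by_contra hns
  have h1 : ∀ n : ℕ, ∃ u : C(K, 𝕜) →L[𝕜] 𝕜, ‖u‖ = 1 ∧ ‖u.comp T‖ ≤ 1 / (n + 1) := by
    intro n
    by_contra hcon
    push Not at hcon
    refine hns (surj_of_adjoint (c := 1 / ((n : ℝ) + 1)) (by positivity) fun u => ?_)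
    by_cases hu : u = 0
    · rw [hu, norm_zero, mul_zero]
      exact norm_nonneg _
    · have hu0 : 0 < ‖u‖ := norm_pos_iff.2 hu
      have h2 := hcon (((‖u‖⁻¹ : ℝ) : 𝕜) • u) (by
        rw [norm_smul, RCLike.norm_ofReal, abs_of_pos (inv_pos.2 hu0), inv_mul_cancel₀ hu0.ne'])
      rw [ContinuousLinearMap.smul_comp, norm_smul, RCLike.norm_ofReal,
        abs_of_pos (inv_pos.2 hu0), inv_mul_eq_div, lt_div_iff₀ hu0] at h2
      exact h2.le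
  choose u hu1 hu2 using h1
  have h0 : Tendsto (fun n : ℕ => 1 / ((n : ℝ) + 1)) atTop (𝓝 0) :=
    tendsto_one_div_add_atTop_nhds_zero_nat
  have hT0 : Tendsto (fun n => ‖(u n).comp T‖) atTop (𝓝 0) :=
    squeeze_zero (fun n => norm_nonneg _) hu2 h0
  have hw : ∀ Φ : (C(K, 𝕜) →L[𝕜] 𝕜) →L[𝕜] 𝕜, Tendsto (fun n => Φ (u n)) atTop (𝓝 0) :=
    fun Φ => wk_null hK hT (C := 1) (fun n => (hu1 n).le) hT0 Φ
  have hS0 : Tendsto (fun n => ‖(u n).comp S‖) atTop (𝓝 0) := cc hS hw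
  have hAn : ∀ n, ‖(u n).comp A‖ ≤ (‖(u n).comp T‖ + ‖(u n).comp S‖) + c / 8 := by
    intro n
    have h4 : (u n).comp A = (u n).comp T - (u n).comp S - (u n).comp R := by
      rw [hTA, ContinuousLinearMap.comp_add, ContinuousLinearMap.comp_add]
      abel
    have h5 : ‖(u n).comp R‖ ≤ c / 8 := by
      refine (ContinuousLinearMap.opNorm_comp_le _ _).trans ?_
      rw [hu1 n, one_mul]
      exact hR
    rw [h4]
    refine (norm_sub_le _ _).trans (add_le_add (norm_sub_le _ _) h5)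
  choose Φ hΦ using fun q : K => atom (𝕜 := 𝕜) q
  have h5 : ∀ n, ∀ q ∈ Q, NoAtom (u n - ∑ r ∈ Q, Φ r (u n) • (dl r : C(K, 𝕜) →L[𝕜] 𝕜)) q := by
    intro n q hq
    have h6 : u n - ∑ r ∈ Q, Φ r (u n) • (dl r : C(K, 𝕜) →L[𝕜] 𝕜) =
        (u n - Φ q (u n) • dl q) +
          ∑ r ∈ Q.erase q, (-(Φ r (u n))) • (dl r : C(K, 𝕜) →L[𝕜] 𝕜) := by
      rw [← Finset.add_sum_erase Q (fun r => Φ r (u n) • (dl r : C(K, 𝕜) →L[𝕜] 𝕜)) hq]
      have h7 : ∑ r ∈ Q.erase q, (-(Φ r (u n))) • (dl r : C(K, 𝕜) →L[𝕜] 𝕜) =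
          -∑ r ∈ Q.erase q, Φ r (u n) • (dl r : C(K, 𝕜) →L[𝕜] 𝕜) := by
        rw [← Finset.sum_neg_distrib]
        refine Finset.sum_congr rfl fun r _ => ContinuousLinearMap.ext fun f => ?_
        change (-(Φ r (u n))) * f r = -((Φ r (u n)) * f r)
        ring
      rw [h7]
      abel
    rw [h6]
    refine Mn2_noAtom_add (hΦ q (u n)) (Mn2_noAtom_sum _ fun r hr => ?_)
    exact Mn2_noAtom_dl (Finset.ne_of_mem_erase hr) _
  have hD : Tendsto (fun n => ∑ r ∈ Q, ‖Φ r (u n)‖) atTop (𝓝 0) := by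
    have h6 : Tendsto (fun n => ∑ r ∈ Q, ‖Φ r (u n)‖) atTop (𝓝 (∑ r ∈ Q, (0 : ℝ))) :=
      tendsto_finsetSum _ fun r _ => by simpa using (hw (Φ r)).norm
    simpa using h6
  have hn : ∀ n, ‖∑ r ∈ Q, Φ r (u n) • (dl r : C(K, 𝕜) →L[𝕜] 𝕜)‖ ≤ ∑ r ∈ Q, ‖Φ r (u n)‖ := by
    intro n
    refine (norm_sum_le _ _).trans (Finset.sum_le_sum fun r _ => ?_)
    rw [norm_smul]
    have := Mn2_norm_dl (𝕜 := 𝕜) r
    nlinarith [norm_nonneg (Φ r (u n))]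
  have hfin : ∀ n, 1 ≤ (∑ r ∈ Q, ‖Φ r (u n)‖) + 1 / (c / 2) * (((‖(u n).comp T‖ +
      ‖(u n).comp S‖) + c / 8) + (∑ r ∈ Q, ‖Φ r (u n)‖) * ‖A‖) := by
    intro n
    have h7 := hlow _ (h5 n)
    have h8 : ‖u n‖ - ‖∑ r ∈ Q, Φ r (u n) • (dl r : C(K, 𝕜) →L[𝕜] 𝕜)‖ ≤
        ‖u n - ∑ r ∈ Q, Φ r (u n) • (dl r : C(K, 𝕜) →L[𝕜] 𝕜)‖ := norm_sub_norm_le _ _
    have h9 : ‖(u n - ∑ r ∈ Q, Φ r (u n) • (dl r : C(K, 𝕜) →L[𝕜] 𝕜)).comp A‖ ≤
        ((‖(u n).comp T‖ + ‖(u n).comp S‖) + c / 8) + (∑ r ∈ Q, ‖Φ r (u n)‖) * ‖A‖ := by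
      rw [ContinuousLinearMap.sub_comp]
      refine (norm_sub_le _ _).trans (add_le_add (hAn n) ?_)
      refine (ContinuousLinearMap.opNorm_comp_le _ _).trans ?_
      exact mul_le_mul_of_nonneg_right (hn n) (norm_nonneg _)
    have h10 := hn n
    rw [hu1 n] at h8
    have h11 := mul_le_mul_of_nonneg_left h9 (show 0 ≤ 1 / (c / 2) by positivity)
    linarith
  have hlim : Tendsto (fun n => (∑ r ∈ Q, ‖Φ r (u n)‖) + 1 / (c / 2) * (((‖(u n).comp T‖ +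
      ‖(u n).comp S‖) + c / 8) + (∑ r ∈ Q, ‖Φ r (u n)‖) * ‖A‖)) atTop
      (𝓝 (0 + 1 / (c / 2) * (((0 + 0) + c / 8) + 0 * ‖A‖))) :=
    hD.add (((((hT0.add hS0).add_const (c / 8)).add (hD.mul_const ‖A‖))).const_mul (1 / (c / 2)))
  have h12 := ge_of_tendsto' hlim hfin
  have h13 : 0 + 1 / (c / 2) * (((0 + 0) + c / 8) + 0 * ‖A‖) = 1 / 4 := by
    field_simp
    ring
  rw [h13] at h12
  norm_num at h12

end Pool.Agent.H.MP_f11573_an
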