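import Pool.Agent.H.MP_f11573_an.SqL
import Pool.Agent.H.MP_f11573_an.HmL

/-!
# NmL: the functionals are close to functionals which live on `L`

PROOF: fix `n`; `e n` a Urysohn function, `1` on `closure (U n)`, `0` off `V n`. For `‖f‖ ≤ 1`: `(μ n - l n) f = (μ n - l n) (rs (b n) f) +
(μ n - l n) (rs (1 - b n) f)`; `l n (rs (1 - b n) f) = 0` as `b n = 1` on `V (n + 1) ⊇ closure (U (n + 1)) ⊇ L`;
`μ n (rs (1 - b n) f) = μ n (rs (e n * (1 - b n)) f)` as `e n = 1` on `closure (U n)`. So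
`‖(μ n - l n) f‖ ≤ 1 / (n + 1) + ‖μ n (rs (e n * (1 - b n)) f)‖`. Choose `f n`, `‖f n‖ ≤ 1`, with
`‖(μ n - l n) (f n)‖ ≥ ‖μ n - l n‖ / 2` (`ContinuousLinearMap.exists_lt_apply_of_lt_opNorm`, or `0` if the norm is `0`), and
`g n = rs (e n * (1 - b n)) (f n)`: `‖g n‖ ≤ 1`, `g n = 0` off `V n`, `g n = 0` on `V (n + 1)`. By `humpL` `μ n (g n) → 0`. So
`‖μ n - l n‖ / 2 ≤ 1 / (n + 1) + ‖μ n (g n)‖ → 0`.
-/

set_option autoImplicit false

open Filter Topology Set Metric MeasureTheory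

namespace Pool.Agent.H.MP_f11573_an

variable {𝕜 : Type*} [RCLike 𝕜] {K : Type*} [TopologicalSpace K] [CompactSpace K] [T2Space K]

private theorem NmL_pick {X : Type*} [NormedAddCommGroup X] [NormedSpace 𝕜 X] (u : X →L[𝕜] 𝕜) :
    ∃ x : X, ‖x‖ ≤ 1 ∧ ‖u‖ / 2 ≤ ‖u x‖ := by
  by_cases h : ‖u‖ = 0
  · exact ⟨0, by simp, by simp [h]⟩
  · have h1 : ‖u‖ / 2 < ‖u‖ := half_lt_self (lt_of_le_of_ne (norm_nonneg _) (Ne.symm h))
    obtain ⟨x, hx, h2⟩ := u.exists_lt_apply_of_lt_opNorm h1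
    exact ⟨x, hx.le, h2.le⟩

omit [T2Space K] in
private theorem NmL_rs (w : C(K, ℝ)) (f : C(K, 𝕜)) (x : K) : rs w f x = (w x : 𝕜) * f x := rfl

omit [T2Space K] in
private theorem NmL_norm {w : C(K, ℝ)} (hw : ∀ x, w x ∈ Icc (0 : ℝ) 1) {f : C(K, 𝕜)}
    (hf : ‖f‖ ≤ 1) : ‖rs w f‖ ≤ 1 := by
  rw [ContinuousMap.norm_le _ zero_le_one]
  intro x
  rw [NmL_rs, norm_mul, RCLike.norm_ofReal, abs_of_nonneg (hw x).1]
  exact mul_le_one₀ (hw x).2 (norm_nonneg _) ((f.norm_coe_le_norm x).trans hf)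

theorem normL {T : C(K, 𝕜) →L[𝕜] C(K, 𝕜)} {L : Set K}
    {μ l : ℕ → (C(K, 𝕜) →L[𝕜] 𝕜)} {V U : ℕ → Set K} {b : ℕ → C(K, ℝ)}
    (h : ∀ n : ℕ, IsOpen (V n) ∧ IsOpen (U n) ∧ L ⊆ U n ∧ closure (U n) ⊆ V n ∧
      V (n + 1) ⊆ U n ∧ Supp (μ n) (closure (U n)) ∧ ‖μ n‖ = 1 ∧
      ‖(μ n).comp T‖ ≤ 1 / (n + 1) ∧ Supp (l n) L ∧ (∀ x, b n x ∈ Icc (0 : ℝ) 1) ∧
      (∀ x ∈ V (n + 1), b n x = 1) ∧
      ∀ f : C(K, 𝕜), ‖(μ n - l n) (rs (b n) f)‖ ≤ 1 / (n + 1) * ‖f‖)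
    (hμ : ∀ Φ : (C(K, 𝕜) →L[𝕜] 𝕜) →L[𝕜] 𝕜, Tendsto (fun n => Φ (μ n)) atTop (𝓝 0)) :
    Tendsto (fun n => ‖μ n - l n‖) atTop (𝓝 0) := by
  have hVV : ∀ n, V (n + 1) ⊆ V n := fun n => by
    obtain ⟨-, -, -, h1, h2, -⟩ := h n
    exact h2.trans (subset_closure.trans h1)
  have hLV : ∀ n, L ⊆ V (n + 1) := fun n => by
    obtain ⟨-, -, h1, h2, -⟩ := h (n + 1)
    exact h1.trans (subset_closure.trans h2)
  have he : ∀ n, ∃ e : C(K, ℝ), (∀ x, x ∉ V n → e x = 0) ∧ (∀ x ∈ closure (U n), e x = 1) ∧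
      ∀ x, e x ∈ Icc (0 : ℝ) 1 := by
    intro n
    obtain ⟨h1, -, -, h2, -⟩ := h n
    obtain ⟨e, h3, h4, h5⟩ := exists_continuous_zero_one_of_isClosed h1.isClosed_compl
      (isClosed_closure (s := U n))
      (Set.disjoint_left.2 fun x hx hx1 => hx (h2 hx1))
    exact ⟨e, fun x hx => h3 hx, fun x hx => h4 hx, h5⟩
  choose e he0 he1 he2 using he
  choose f hf1 hf2 using fun n => NmL_pick (μ n - l n)
  have hb : ∀ n x, b n x ∈ Icc (0 : ℝ) 1 := fun n => (h n).2.2.2.2.2.2.2.2.2.1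
  have hb1 : ∀ n, ∀ x ∈ V (n + 1), b n x = 1 := fun n => (h n).2.2.2.2.2.2.2.2.2.2.1
  have hw : ∀ n x, (e n * (1 - b n)) x ∈ Icc (0 : ℝ) 1 := by
    intro n x
    have h1 := hb n x
    have h2 := he2 n x
    have h3 : (e n * (1 - b n)) x = e n x * (1 - b n x) := rfl
    rw [h3]
    exact ⟨mul_nonneg h2.1 (by linarith [h1.2]),
      mul_le_one₀ h2.2 (by linarith [h1.2]) (by linarith [h1.1])⟩
  have hhump : Tendsto (fun n => μ n (rs (e n * (1 - b n)) (f n))) atTop (𝓝 0) := by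
    refine humpL hμ hVV (fun n => NmL_norm (hw n) (hf1 n)) (fun n x hx => ?_) (fun n x hx => ?_)
    · have h3 : (e n * (1 - b n)) x = e n x * (1 - b n x) := rfl
      rw [NmL_rs, h3, he0 n x hx]
      simp
    · have h3 : (e n * (1 - b n)) x = e n x * (1 - b n x) := rfl
      rw [NmL_rs, h3, hb1 n x hx]
      simp
  have hkey : ∀ n : ℕ, ‖μ n - l n‖ ≤
      2 * (1 / ((n : ℝ) + 1) + ‖μ n (rs (e n * (1 - b n)) (f n))‖) := by
    intro n
    obtain ⟨-, -, -, -, -, hS, -, -, hl, -, -, hn⟩ := h n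
    have h1 : f n = rs (b n) (f n) + rs (1 - b n) (f n) := by
      ext x
      have h2 : (1 - b n) x = 1 - b n x := rfl
      rw [ContinuousMap.add_apply, NmL_rs, NmL_rs, h2]
      push_cast
      ring
    have h2 : l n (rs (1 - b n) (f n)) = 0 := by
      refine hl _ fun x hx => ?_
      have h3 : (1 - b n) x = 1 - b n x := rfl
      rw [NmL_rs, h3, hb1 n x (hLV n hx)]
      simp
    have h3 : μ n (rs (1 - b n) (f n)) = μ n (rs (e n * (1 - b n)) (f n)) := by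
      rw [← sub_eq_zero, ← map_sub]
      refine hS _ fun x hx => ?_
      have h4 : (1 - b n) x = 1 - b n x := rfl
      have h5 : (e n * (1 - b n)) x = e n x * (1 - b n x) := rfl
      rw [ContinuousMap.sub_apply, NmL_rs, NmL_rs, h4, h5, he1 n x hx, one_mul, sub_self]
    have h4 : (μ n - l n) (f n) =
        (μ n - l n) (rs (b n) (f n)) + μ n (rs (e n * (1 - b n)) (f n)) := by
      conv_lhs => rw [h1]
      rw [map_add]
      congr 1
      rw [ContinuousLinearMap.sub_apply, h2, h3, sub_zero]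
    have h5 := hf2 n
    have h6 : ‖(μ n - l n) (f n)‖ ≤ 1 / ((n : ℝ) + 1) + ‖μ n (rs (e n * (1 - b n)) (f n))‖ := by
      rw [h4]
      refine (norm_add_le _ _).trans (add_le_add_left ?_ _)
      refine (hn (f n)).trans ?_
      exact mul_le_of_le_one_right (by positivity) (hf1 n)
    linarith
  have hlim : Tendsto (fun n : ℕ =>
      2 * (1 / ((n : ℝ) + 1) + ‖μ n (rs (e n * (1 - b n)) (f n))‖)) atTop (𝓝 0) := by
    have h1 := (tendsto_one_div_add_atTop_nhds_zero_nat (𝕜 := ℝ)).add hhump.norm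
    have h2 := h1.const_mul 2
    simpa using h2
  exact squeeze_zero (fun n => norm_nonneg _) hkey hlim

end Pool.Agent.H.MP_f11573_an
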