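import Pool.Agent.H.MP_f11573_an.DefL

/-!
# OnA: onto on `L` implies bounded below on `L`

PROOF: `L` is compact; `B : C(K, 𝕜) → C(L, 𝕜)`, `B f = (T f)|_L` (composition with the restriction, a continuous linear map) is onto:
given `g` in `C(L, 𝕜)` extend it to `h` in `C(K, 𝕜)` (Tietze, `ContinuousMap.exists_restrict_eq` or so, instance for `RCLike` in
Mathlib.Analysis.Complex.Tietze) and apply `hT`. Open mapping theorem (`ContinuousLinearMap.exists_preimage_norm_le`): `C > 0` such that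
every `g` is `B f` with `‖f‖ ≤ C ‖g‖`. Let `μ` live on `L` and `‖h‖ ≤ 1`: `g = h|_L`, `B f = g`, `‖f‖ ≤ C`, `μ h = μ (T f)` as
`h - T f` vanishes on `L`; so `‖μ h‖ ≤ C ‖μ ∘ T‖`. So `‖μ‖ ≤ C ‖μ ∘ T‖`, `c = 1 / C`.
-/

set_option autoImplicit false

open Filter Topology Set Metric MeasureTheory

namespace Pool.Agent.H.MP_f11573_an

variable {𝕜 : Type*} [RCLike 𝕜] {K : Type*} [TopologicalSpace K] [CompactSpace K] [T2Space K]

theorem lowOn_of_ontoOn {T : C(K, 𝕜) →L[𝕜] C(K, 𝕜)} {L : Set K} (hL : IsClosed L)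
    (hT : OntoOn T L) : ∃ c : ℝ, 0 < c ∧ LowOn T L c := by
  have : CompactSpace L := isCompact_iff_compactSpace.1 hL.isCompact
  let ρ₀ : C(K, 𝕜) →ₗ[𝕜] C(L, 𝕜) :=
    { toFun := fun f => f.restrict L
      map_add' := fun f g => by ext x; rfl
      map_smul' := fun a f => by ext x; rfl }
  have hρn : ∀ f : C(K, 𝕜), ‖ρ₀ f‖ ≤ 1 * ‖f‖ := by
    intro f
    rw [one_mul, ContinuousMap.norm_le _ (norm_nonneg f)]
    intro x
    exact f.norm_coe_le_norm (x : K)
  let ρ : C(K, 𝕜) →L[𝕜] C(L, 𝕜) := ρ₀.mkContinuous 1 hρn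
  have hρ : ∀ (f : C(K, 𝕜)) (x : L), ρ f x = f (x : K) := fun f x => rfl
  have hρ1 : ∀ f : C(K, 𝕜), ‖ρ f‖ ≤ ‖f‖ := by
    intro f
    have := hρn f
    rw [one_mul] at this
    exact this
  have hsurj : Function.Surjective (ρ.comp T) := by
    intro g
    obtain ⟨h, hh⟩ := ContinuousMap.exists_restrict_eq hL g
    obtain ⟨f, hf⟩ := hT h
    refine ⟨f, ?_⟩
    ext x
    rw [ContinuousLinearMap.comp_apply, hρ, hf x x.2, ← hh]
    rfl
  obtain ⟨C, hC, hB⟩ := (ρ.comp T).exists_preimage_norm_le hsurj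
  refine ⟨1 / C, by positivity, ?_⟩
  intro μ hμ
  have key : ‖μ‖ ≤ C * ‖μ.comp T‖ := by
    refine ContinuousLinearMap.opNorm_le_bound _ (by positivity) (fun h => ?_)
    obtain ⟨f, hf, hfn⟩ := hB (ρ h)
    have h1 : μ h = (μ.comp T) f := by
      have h2 : μ (h - T f) = 0 := by
        refine hμ (h - T f) (fun x hx => ?_)
        have h3 : (ρ.comp T) f ⟨x, hx⟩ = ρ h ⟨x, hx⟩ := by rw [hf]
        rw [ContinuousLinearMap.comp_apply, hρ, hρ] at h3
        rw [ContinuousMap.sub_apply, sub_eq_zero]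
        exact h3.symm
      rw [map_sub, sub_eq_zero] at h2
      exact h2
    rw [h1]
    calc ‖(μ.comp T) f‖ ≤ ‖μ.comp T‖ * ‖f‖ := ContinuousLinearMap.le_opNorm _ _
      _ ≤ ‖μ.comp T‖ * (C * ‖h‖) := by
          refine mul_le_mul_of_nonneg_left (hfn.trans ?_) (norm_nonneg _)
          exact mul_le_mul_of_nonneg_left (hρ1 h) hC.le
      _ = C * ‖μ.comp T‖ * ‖h‖ := by ring
  rw [one_div, inv_mul_le_iff₀ hC]
  exact key

end Pool.Agent.H.MP_f11573_an
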