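import Pool.Agent.H.MP_f11573_an.DefL
import Pool.Agent.H.MP_f11573_an.Srj2

/-!
# OnB: bounded below on `L` implies onto on `L`

PROOF: `B : C(K, 𝕜) → C(L, 𝕜)`, `B f = (T f)|_L`, as in OnA. For `u` in the dual of `C(L, 𝕜)` let `μ = u ∘ R`, `R` the restriction
`C(K, 𝕜) → C(L, 𝕜)`. `μ` lives on `L`, and `‖μ‖ = ‖u‖` (`≥`: every `g` in `C(L, 𝕜)` is `R h` with `‖h‖ = ‖g‖`, Tietze with norm,
`BoundedContinuousFunction.exists_norm_eq_restrict_eq`, Mathlib.Analysis.Complex.Tietze). `u ∘ B = μ ∘ T`, so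
`c ‖u‖ ≤ ‖u ∘ B‖` and `surj_of_adjoint2` says that `B` is onto. For `h` in `C(K, 𝕜)` take `f` with `B f = R h`.
-/

set_option autoImplicit false

open Filter Topology Set Metric MeasureTheory

namespace Pool.Agent.H.MP_f11573_an

variable {𝕜 : Type*} [RCLike 𝕜] {K : Type*} [TopologicalSpace K] [CompactSpace K] [T2Space K]

theorem ontoOn_of_lowOn {T : C(K, 𝕜) →L[𝕜] C(K, 𝕜)} {L : Set K} (hL : IsClosed L) {c : ℝ}
    (hc : 0 < c) (h : LowOn T L c) : OntoOn T L := by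
  have hLc : CompactSpace L := isCompact_iff_compactSpace.1 hL.isCompact
  obtain ⟨R, hR⟩ : ∃ R : C(K, 𝕜) →L[𝕜] C(L, 𝕜), ∀ (f : C(K, 𝕜)) (x : L), R f x = f x :=
    ⟨ContinuousMap.compCLM 𝕜 𝕜 (⟨Subtype.val, continuous_subtype_val⟩ : C(L, K)), fun _ _ => rfl⟩
  have hsurj : Function.Surjective (R.comp T) := by
    refine surj_of_adjoint2 hc fun u => ?_
    have h1 : c * ‖u.comp R‖ ≤ ‖(u.comp R).comp T‖ := by
      refine h (u.comp R) fun f hf => ?_
      have h2 : R f = 0 := by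
        ext x
        rw [hR, hf x x.2]
        rfl
      rw [ContinuousLinearMap.comp_apply, h2, map_zero]
    have h3 : ‖u‖ ≤ ‖u.comp R‖ := by
      refine u.opNorm_le_bound (norm_nonneg _) fun g => ?_
      obtain ⟨f, hf, hfg⟩ := BoundedContinuousFunction.exists_norm_eq_domRestrict_eq hL 𝕜
        (BoundedContinuousFunction.mkOfCompact g)
      have h4 : R f.toContinuousMap = g := by
        ext x
        rw [hR]
        exact congrArg (fun q : BoundedContinuousFunction L 𝕜 => q x) hfg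
      have h5 : ‖f.toContinuousMap‖ = ‖g‖ := by
        rw [BoundedContinuousFunction.norm_toContinuousMap_eq, hf,
          BoundedContinuousFunction.norm_mkOfCompact]
      calc ‖u g‖ = ‖(u.comp R) f.toContinuousMap‖ := by
            rw [ContinuousLinearMap.comp_apply, h4]
        _ ≤ ‖u.comp R‖ * ‖f.toContinuousMap‖ := (u.comp R).le_opNorm _
        _ = ‖u.comp R‖ * ‖g‖ := by rw [h5]
    exact (mul_le_mul_of_nonneg_left h3 hc.le).trans h1
  intro g
  obtain ⟨f, hf⟩ := hsurj (R g)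
  refine ⟨f, fun x hx => ?_⟩
  have h6 : R (T f) ⟨x, hx⟩ = R g ⟨x, hx⟩ := congrArg (fun q : C(L, 𝕜) => q ⟨x, hx⟩) hf
  rw [hR, hR] at h6
  exact h6

end Pool.Agent.H.MP_f11573_an
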