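import Pool.Agent.H.MP_f11573_an.Wk
import Pool.Agent.H.MP_f11573_an.NmL
import Pool.Agent.H.MP_f11573_an.OnA
import Pool.Agent.H.MP_f11573_an.OnB
import Pool.Agent.H.MP_f11573_an.AdP

/-! # MnL: local surjectivity -/

set_option autoImplicit false

open Filter Topology Set Metric MeasureTheory

namespace Pool.Agent.H.MP_f11573_an

variable {𝕜 : Type*} [RCLike 𝕜] {K : Type*} [TopologicalSpace K] [CompactSpace K] [T2Space K]

theorem lowOn_open (hK : Groth 𝕜 C(K, 𝕜)) {T : C(K, 𝕜) →L[𝕜] C(K, 𝕜)} (hT : DenseRange T)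
    {L : Set K} (hL : IsClosed L) {c : ℝ} (hc : 0 < c) (h : LowOn T L c) :
    ∃ U : Set K, IsOpen U ∧ L ⊆ U ∧ ∃ c' : ℝ, 0 < c' ∧ LowOn T (closure U) c' := by
  by_contra hcon
  push Not at hcon
  obtain ⟨μ, l, V, U, b, hs⟩ := seqL (T := T) hL hcon
  have h0 : Tendsto (fun n : ℕ => 1 / ((n : ℝ) + 1)) atTop (𝓝 0) :=
    tendsto_one_div_add_atTop_nhds_zero_nat
  have h1 : Tendsto (fun n => ‖(μ n).comp T‖) atTop (𝓝 0) :=
    squeeze_zero (fun n => norm_nonneg _) (fun n => (hs n).2.2.2.2.2.2.2.1) h0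
  have h2 := normL hs fun Φ => wk_null hK hT (C := 1)
    (fun n => ((hs n).2.2.2.2.2.2.1).le) h1 Φ
  have h3 : ∀ n, c * (1 - ‖μ n - l n‖) ≤ ‖(μ n).comp T‖ + ‖μ n - l n‖ * ‖T‖ := by
    intro n
    have h4 := h (l n) (hs n).2.2.2.2.2.2.2.2.1
    have h5 : ‖μ n‖ - ‖μ n - l n‖ ≤ ‖l n‖ := by
      have h6 : ‖μ n‖ ≤ ‖μ n - l n‖ + ‖l n‖ := by
        have h7 : μ n = (μ n - l n) + l n := by abel
        calc ‖μ n‖ = ‖(μ n - l n) + l n‖ := by rw [← h7]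
          _ ≤ ‖μ n - l n‖ + ‖l n‖ := norm_add_le _ _
      linarith
    rw [(hs n).2.2.2.2.2.2.1] at h5
    have h8 : ‖(l n).comp T‖ ≤ ‖(μ n).comp T‖ + ‖μ n - l n‖ * ‖T‖ := by
      have h9 : (l n).comp T = (μ n).comp T - (μ n - l n).comp T := by
        rw [ContinuousLinearMap.sub_comp]
        abel
      rw [h9]
      exact (norm_sub_le _ _).trans (add_le_add le_rfl (ContinuousLinearMap.opNorm_comp_le _ _))
    have h10 := mul_le_mul_of_nonneg_left h5 hc.le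
    linarith
  have h4 : Tendsto (fun n => c * (1 - ‖μ n - l n‖)) atTop (𝓝 (c * (1 - 0))) :=
    (tendsto_const_nhds.sub h2).const_mul c
  have h5 : Tendsto (fun n => ‖(μ n).comp T‖ + ‖μ n - l n‖ * ‖T‖) atTop
      (𝓝 (0 + 0 * ‖T‖)) := h1.add (h2.mul_const ‖T‖)
  have h6 := le_of_tendsto_of_tendsto' h4 h5 h3
  simp only [sub_zero, mul_one, zero_mul, add_zero] at h6
  linarith

theorem lowOn_union {T : C(K, 𝕜) →L[𝕜] C(K, 𝕜)} (hT : DenseRange T) {L : Set K}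
    (hL : IsClosed L) {P : Set K} (hP : P.Finite) (h : ∃ c : ℝ, 0 < c ∧ LowOn T L c) :
    ∃ c : ℝ, 0 < c ∧ LowOn T (P ∪ L) c := by
  induction P, hP using Set.Finite.induction_on with
  | empty =>
    rw [empty_union]
    exact h
  | @insert a s _ hs ih =>
    obtain ⟨c, hc, h1⟩ := ih
    rw [insert_union]
    exact lowOn_insert hT (hs.isClosed.union hL) hc h1 a

theorem ontoOn_open (hK : Groth 𝕜 C(K, 𝕜)) {T : C(K, 𝕜) →L[𝕜] C(K, 𝕜)} (hT : DenseRange T)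
    {L : Set K} (hL : IsClosed L) (h : OntoOn T L) {P : Set K} (hP : P.Finite) :
    ∃ U : Set K, IsOpen U ∧ L ∪ P ⊆ U ∧ OntoOn T (closure U) := by
  obtain ⟨c, hc, h1⟩ := lowOn_union hT hL hP (lowOn_of_ontoOn hL h)
  obtain ⟨U, hU, hLU, c', hc', h2⟩ := lowOn_open hK hT (hP.isClosed.union hL) hc h1
  exact ⟨U, hU, (union_comm L P).subset.trans hLU, ontoOn_of_lowOn isClosed_closure hc' h2⟩

end Pool.Agent.H.MP_f11573_an
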