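import Pool.Agent.H.MP_f11573_an.ModA

/-!
# Mod: a measure that dominates a functional

PROOF: `lam` from `exists_cone` gives `Λ : C_c(K, NNReal) →ₗ[NNReal] NNReal`; `ν = NNRealRMK.rieszMeasure Λ`;
`NNRealRMK.lintegral_rieszMeasure` (or so) gives `∫⁻ f ∂ν = lam f`; `ν` is finite (take `f = 1`) and regular
(instance `NNRealRMK.rieszMeasure_regular`). With `f = ‖g ·‖₊`: `‖μ g‖ ≤ lam f = ∫⁻ ‖g‖ₑ ∂ν`, and
`∫ ‖g‖ ∂ν = (∫⁻ ‖g‖ₑ ∂ν).toReal` (`integral_norm_eq_lintegral_enorm`).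
-/

set_option autoImplicit false

open Filter Topology Set Metric MeasureTheory

namespace Pool.Agent.H.MP_f11573_an

variable {𝕜 : Type*} [RCLike 𝕜] {K : Type*} [TopologicalSpace K] [CompactSpace K] [T2Space K]

theorem modulus [MeasurableSpace K] [BorelSpace K] (μ : C(K, 𝕜) →L[𝕜] 𝕜) :
    ∃ ν : Measure K, IsFiniteMeasure ν ∧ ν.Regular ∧ Dom μ ν := by
  obtain ⟨lam, h1, h2, h3⟩ := exists_cone μ
  obtain ⟨L, hL⟩ : ∃ L : CompactlySupportedContinuousMap K NNReal →ₗ[NNReal] NNReal,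
      ∀ f, L f = lam f.toContinuousMap :=
    ⟨{ toFun := fun f => lam f.toContinuousMap
       map_add' := fun f g => h1 f.toContinuousMap g.toContinuousMap
       map_smul' := fun c f => h2 c f.toContinuousMap }, fun _ => rfl⟩
  have h4 : ∀ f : C(K, NNReal), ∫⁻ x, (f x : ENNReal) ∂(NNRealRMK.rieszMeasure L) = lam f := by
    intro f
    have h5 := NNRealRMK.lintegral_rieszMeasure L
      (CompactlySupportedContinuousMap.continuousMapEquiv f)
    rw [hL] at h5
    exact h5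
  have h5 : ∀ f : C(K, NNReal), ∫ x, (f x : ℝ) ∂(NNRealRMK.rieszMeasure L) = lam f := by
    intro f
    have h6 := NNRealRMK.integral_rieszMeasure L
      (CompactlySupportedContinuousMap.continuousMapEquiv f)
    rw [hL] at h6
    exact h6
  refine ⟨NNRealRMK.rieszMeasure L, ⟨?_⟩, inferInstance, fun g => ?_⟩
  · have h6 := h4 1
    have h7 : ∫⁻ x, (((1 : C(K, NNReal)) x : NNReal) : ENNReal) ∂(NNRealRMK.rieszMeasure L) =
        NNRealRMK.rieszMeasure L univ := by
      rw [← lintegral_one]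
      rfl
    rw [← h7, h6]
    exact ENNReal.coe_lt_top
  · have h6 := h3 ⟨fun x => ‖g x‖₊, g.continuous.nnnorm⟩ g fun x => le_of_eq rfl
    rw [← h5] at h6
    exact h6

end Pool.Agent.H.MP_f11573_an
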