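import Pool.Agent.H.MP_f11573_an.Def

/-!
# ModA: the modulus of a functional on the cone

PROOF: `lam f = sup {‖μ g‖ | ∀ x, ‖g x‖ ≤ f x}` (bounded by `‖μ‖ ‖f‖`; nonempty: `g = 0`). Homogeneous: clear for `c = 0`, for `c > 0`
scale. `lam f + lam g ≤ lam (f + g)`: for `g₁, g₂` below `f, g` multiply by unimodular constants so that `μ (g_i) = ‖μ g_i‖`; then
`‖μ (g₁ + g₂)‖ = ‖μ g₁‖ + ‖μ g₂‖`. `lam (f + g) ≤ lam f + lam g`: let `h` be below `f + g`, `δ > 0`; `h = h₁ + h₂ + h₃` with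
`h₁ = h f / (f + g + δ)`, `h₂ = h g / (f + g + δ)`, `h₃ = h δ / (f + g + δ)`, continuous, `‖h₁‖ ≤ f`, `‖h₂‖ ≤ g`,
`‖h₃‖ ≤ δ` pointwise; so `‖μ h‖ ≤ lam f + lam g + ‖μ‖ δ`.
-/

set_option autoImplicit false

open Filter Topology Set Metric MeasureTheory

namespace Pool.Agent.H.MP_f11573_an

variable {𝕜 : Type*} [RCLike 𝕜] {K : Type*} [TopologicalSpace K] [CompactSpace K] [T2Space K]

omit [T2Space K] in
private theorem ModA_bdd (f : C(K, NNReal)) : ∃ M : ℝ, 0 ≤ M ∧ ∀ x, (f x : ℝ) ≤ M := by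
  obtain ⟨M, hM⟩ := (isCompact_range f.continuous).bddAbove
  refine ⟨M, M.2, fun x => ?_⟩
  exact_mod_cast hM (mem_range_self x)

/-- the values below `f` -/
private def ModA_S (μ : C(K, 𝕜) →L[𝕜] 𝕜) (f : C(K, NNReal)) : Set NNReal :=
  {r | ∃ g : C(K, 𝕜), (∀ x, ‖g x‖ ≤ f x) ∧ r = ‖μ g‖₊}

omit [T2Space K] in
private theorem ModA_bddAbove (μ : C(K, 𝕜) →L[𝕜] 𝕜) (f : C(K, NNReal)) :
    BddAbove (ModA_S μ f) := by
  obtain ⟨M, hM0, hM⟩ := ModA_bdd f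
  refine ⟨‖μ‖₊ * ⟨M, hM0⟩, ?_⟩
  rintro r ⟨g, hg, rfl⟩
  rw [← NNReal.coe_le_coe]
  push_cast
  have h1 : ‖g‖ ≤ M := (ContinuousMap.norm_le g hM0).2 (fun x => (hg x).trans (hM x))
  exact (μ.le_opNorm g).trans (mul_le_mul_of_nonneg_left h1 (norm_nonneg _))

omit [CompactSpace K] [T2Space K] in
private theorem ModA_nonempty (μ : C(K, 𝕜) →L[𝕜] 𝕜) (f : C(K, NNReal)) :
    (ModA_S μ f).Nonempty :=
  ⟨‖μ 0‖₊, 0, fun x => by simp, rfl⟩

omit [T2Space K] in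
private theorem ModA_le (μ : C(K, 𝕜) →L[𝕜] 𝕜) (f : C(K, NNReal)) (g : C(K, 𝕜))
    (hg : ∀ x, ‖g x‖ ≤ f x) : ‖μ g‖₊ ≤ sSup (ModA_S μ f) :=
  le_csSup (ModA_bddAbove μ f) ⟨g, hg, rfl⟩

omit [T2Space K] in
private theorem ModA_smul_le (μ : C(K, 𝕜) →L[𝕜] 𝕜) (f : C(K, NNReal)) (c : NNReal)
    (hc : c ≠ 0) : sSup (ModA_S μ (c • f)) ≤ c * sSup (ModA_S μ f) := by
  refine csSup_le (ModA_nonempty μ _) ?_
  rintro r ⟨g, hg, rfl⟩
  have hc' : (0 : ℝ) < c := by exact_mod_cast pos_iff_ne_zero.2 hc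
  have h1 := ModA_le μ f (((c : ℝ) : 𝕜)⁻¹ • g) (fun x => by
    have := hg x
    simp only [ContinuousMap.smul_apply, smul_eq_mul, NNReal.coe_mul] at this ⊢
    rw [norm_mul, norm_inv, RCLike.norm_ofReal, abs_of_pos hc', inv_mul_le_iff₀ hc']
    exact this)
  have h2 : ‖μ g‖₊ = c * ‖μ (((c : ℝ) : 𝕜)⁻¹ • g)‖₊ := by
    rw [← NNReal.coe_inj]
    push_cast
    rw [map_smul, smul_eq_mul, norm_mul, norm_inv, RCLike.norm_ofReal, abs_of_pos hc',
      mul_inv_cancel_left₀ hc'.ne']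
  rw [h2]
  exact mul_le_mul_of_nonneg_left h1 zero_le

omit [T2Space K] in
private theorem ModA_add_ge (μ : C(K, 𝕜) →L[𝕜] 𝕜) (f g : C(K, NNReal)) (u v : C(K, 𝕜))
    (hu : ∀ x, ‖u x‖ ≤ f x) (hv : ∀ x, ‖v x‖ ≤ g x) :
    ‖μ u‖₊ + ‖μ v‖₊ ≤ sSup (ModA_S μ (f + g)) := by
  obtain ⟨a, ha, ha'⟩ := RCLike.exists_norm_eq_mul_self (μ u)
  obtain ⟨b, hb, hb'⟩ := RCLike.exists_norm_eq_mul_self (μ v)
  have h1 := ModA_le μ (f + g) (a • u + b • v) (fun x => by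
    simp only [ContinuousMap.add_apply, ContinuousMap.smul_apply, NNReal.coe_add]
    refine (norm_add_le _ _).trans (add_le_add ?_ ?_)
    · rw [norm_smul, ha, one_mul]; exact hu x
    · rw [norm_smul, hb, one_mul]; exact hv x)
  refine le_trans (le_of_eq ?_) h1
  rw [← NNReal.coe_inj]
  push_cast
  rw [map_add, map_smul, map_smul, smul_eq_mul, smul_eq_mul, ← ha', ← hb', ← RCLike.ofReal_add,
    RCLike.norm_ofReal, abs_of_nonneg (add_nonneg (norm_nonneg _) (norm_nonneg _))]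

omit [T2Space K] in
private theorem ModA_add_le (μ : C(K, 𝕜) →L[𝕜] 𝕜) (f g : C(K, NNReal)) (h : C(K, 𝕜))
    (hh : ∀ x, ‖h x‖ ≤ (f + g) x) {δ : ℝ} (hδ : 0 < δ) :
    ‖μ h‖ ≤ (sSup (ModA_S μ f) : NNReal) + (sSup (ModA_S μ g) : NNReal) + ‖μ‖ * δ := by
  have hpos : ∀ x, 0 < (f x : ℝ) + g x + δ := fun x => by positivity
  have hcf : Continuous fun x => (f x : ℝ) := NNReal.continuous_coe.comp f.continuous
  have hcg : Continuous fun x => (g x : ℝ) := NNReal.continuous_coe.comp g.continuous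
  have hcs : Continuous fun x => (f x : ℝ) + g x + δ := (hcf.add hcg).add continuous_const
  set w₁ : C(K, ℝ) := ⟨fun x => (f x : ℝ) / ((f x : ℝ) + g x + δ),
    hcf.div hcs (fun x => (hpos x).ne')⟩ with hw₁
  set w₂ : C(K, ℝ) := ⟨fun x => (g x : ℝ) / ((f x : ℝ) + g x + δ),
    hcg.div hcs (fun x => (hpos x).ne')⟩ with hw₂
  set w₃ : C(K, ℝ) := ⟨fun x => δ / ((f x : ℝ) + g x + δ),
    continuous_const.div hcs (fun x => (hpos x).ne')⟩ with hw₃
  have hh' : ∀ x, ‖h x‖ ≤ (f x : ℝ) + g x + δ := fun x => by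
    have := hh x
    rw [ContinuousMap.add_apply, NNReal.coe_add] at this
    linarith
  have key : ∀ (w : C(K, ℝ)) (q : ℝ) (x : K), 0 ≤ q → w x = q / ((f x : ℝ) + g x + δ) →
      ‖rs w h x‖ ≤ q := by
    intro w q x hq hw
    have e : rs w h x = (w x : 𝕜) * h x := rfl
    rw [e, norm_mul, RCLike.norm_ofReal, hw, abs_of_nonneg (div_nonneg hq (hpos x).le),
      div_mul_eq_mul_div, div_le_iff₀ (hpos x)]
    exact mul_le_mul_of_nonneg_left (hh' x) hq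
  have h1 := ModA_le μ f (rs w₁ h) (fun x => key w₁ (f x) x (f x).2 rfl)
  have h2 := ModA_le μ g (rs w₂ h) (fun x => key w₂ (g x) x (g x).2 rfl)
  have h3 : ‖rs w₃ h‖ ≤ δ :=
    (ContinuousMap.norm_le _ hδ.le).2 (fun x => key w₃ δ x hδ.le rfl)
  have h3' : ‖μ (rs w₃ h)‖ ≤ ‖μ‖ * δ :=
    (μ.le_opNorm _).trans (mul_le_mul_of_nonneg_left h3 (norm_nonneg _))
  have hsum : h = rs w₁ h + rs w₂ h + rs w₃ h := by
    ext x
    have e1 : rs w₁ h x = (w₁ x : 𝕜) * h x := rfl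
    have e2 : rs w₂ h x = (w₂ x : 𝕜) * h x := rfl
    have e3 : rs w₃ h x = (w₃ x : 𝕜) * h x := rfl
    rw [ContinuousMap.add_apply, ContinuousMap.add_apply, e1, e2, e3, ← add_mul, ← add_mul,
      ← RCLike.ofReal_add, ← RCLike.ofReal_add]
    have : w₁ x + w₂ x + w₃ x = 1 := by
      change (f x : ℝ) / ((f x : ℝ) + g x + δ) + (g x : ℝ) / ((f x : ℝ) + g x + δ) +
        δ / ((f x : ℝ) + g x + δ) = 1
      rw [← add_div, ← add_div]
      exact div_self (hpos x).ne'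
    rw [this, RCLike.ofReal_one, one_mul]
  calc ‖μ h‖ = ‖μ (rs w₁ h) + μ (rs w₂ h) + μ (rs w₃ h)‖ := by
        rw [← map_add, ← map_add, ← hsum]
    _ ≤ ‖μ (rs w₁ h)‖ + ‖μ (rs w₂ h)‖ + ‖μ (rs w₃ h)‖ := norm_add₃_le
    _ ≤ _ := by
        have h1' : ‖μ (rs w₁ h)‖ ≤ (sSup (ModA_S μ f) : NNReal) := NNReal.coe_le_coe.2 h1
        have h2' : ‖μ (rs w₂ h)‖ ≤ (sSup (ModA_S μ g) : NNReal) := NNReal.coe_le_coe.2 h2
        linarith

omit [T2Space K] in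
theorem exists_cone (μ : C(K, 𝕜) →L[𝕜] 𝕜) :
    ∃ lam : C(K, NNReal) → NNReal, (∀ f g, lam (f + g) = lam f + lam g) ∧
      (∀ (c : NNReal) (f : C(K, NNReal)), lam (c • f) = c * lam f) ∧
      ∀ (f : C(K, NNReal)) (g : C(K, 𝕜)), (∀ x, ‖g x‖ ≤ f x) → ‖μ g‖ ≤ lam f := by
  refine ⟨fun f => sSup (ModA_S μ f), ?_, ?_, ?_⟩
  · intro f g
    apply le_antisymm
    · refine csSup_le (ModA_nonempty μ _) ?_
      rintro r ⟨h, hh, rfl⟩
      rw [← NNReal.coe_le_coe, coe_nnnorm, NNReal.coe_add]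
      refine le_of_forall_pos_le_add ?_
      intro ε hε
      have hμ : (0 : ℝ) < ‖μ‖ + 1 := by positivity
      have h1 := ModA_add_le μ f g h hh (δ := ε / (‖μ‖ + 1)) (div_pos hε hμ)
      have h2 : ‖μ‖ * (ε / (‖μ‖ + 1)) ≤ ε := by
        rw [mul_div_assoc', div_le_iff₀ hμ]
        nlinarith [norm_nonneg μ]
      linarith
    · have h1 : ∀ v : C(K, 𝕜), (∀ x, ‖v x‖ ≤ g x) →
          sSup (ModA_S μ f) + ‖μ v‖₊ ≤ sSup (ModA_S μ (f + g)) := by
        intro v hv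
        have h0 : ‖μ v‖₊ ≤ sSup (ModA_S μ (f + g)) := by
          have := ModA_add_ge μ f g 0 v (fun x => by simp) hv
          exact le_trans (le_add_of_nonneg_left zero_le) this
        rw [← le_tsub_iff_right h0]
        refine csSup_le (ModA_nonempty μ _) ?_
        rintro r ⟨u, hu, rfl⟩
        rw [le_tsub_iff_right h0]
        exact ModA_add_ge μ f g u v hu hv
      have h0 : sSup (ModA_S μ f) ≤ sSup (ModA_S μ (f + g)) := by
        have := h1 0 (fun x => by simp)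
        exact le_trans (le_add_of_nonneg_right zero_le) this
      rw [add_comm, ← le_tsub_iff_right h0]
      refine csSup_le (ModA_nonempty μ _) ?_
      rintro r ⟨v, hv, rfl⟩
      rw [le_tsub_iff_right h0, add_comm]
      exact h1 v hv
  · intro c f
    rcases eq_or_ne c 0 with rfl | hc
    · simp only [zero_mul]
      apply le_antisymm _ zero_le
      refine csSup_le (ModA_nonempty μ _) ?_
      rintro r ⟨g, hg, rfl⟩
      have : g = 0 := by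
        ext x
        have := hg x
        simp only [zero_smul, ContinuousMap.zero_apply, NNReal.coe_zero] at this
        simpa using this
      rw [this, map_zero, nnnorm_zero]
    · apply le_antisymm (ModA_smul_le μ f c hc)
      have h1 := ModA_smul_le μ (c • f) c⁻¹ (inv_ne_zero hc)
      rw [smul_smul, inv_mul_cancel₀ hc, one_smul] at h1
      calc c * sSup (ModA_S μ f) ≤ c * (c⁻¹ * sSup (ModA_S μ (c • f))) :=
            mul_le_mul_of_nonneg_left h1 zero_le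
        _ = sSup (ModA_S μ (c • f)) := by rw [← mul_assoc, mul_inv_cancel₀ hc, one_mul]
  · intro f g hg
    exact NNReal.coe_le_coe.2 (ModA_le μ f g hg)

end Pool.Agent.H.MP_f11573_an
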