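import Pool.Agent.H.MP_f11573_an.Nrm

/-!
# OffA: a disjoint sequence

PROOF: recursion: given `a 0, …, a (n - 1)` apply `h` with `Q = ⋃ (a i).support` and `c = 1 / (n + 1)` and normalise
(`a ≠ 0` since `‖ev a ∘ A‖ < c * nrm a`; divide by `nrm a`: `nrm` is homogeneous). (For instance construct a sequence of pairs
`(Q n, a n)` by `Nat.rec` with `Q (n + 1) = Q n ∪ (a n).support`, or use `exists_seq_of_forall_finset_exists`.)
-/

set_option autoImplicit false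

open Filter Topology Set Metric MeasureTheory

namespace Pool.Agent.H.MP_f11573_an

variable {𝕜 : Type*} [RCLike 𝕜] {K : Type*} [TopologicalSpace K] [CompactSpace K] [T2Space K]

private theorem OffA_nrm_smul (c : 𝕜) (a : K →₀ 𝕜) : nrm (c • a) = ‖c‖ * nrm a := by
  rw [← norm_ev (c • a), ← norm_ev a, map_smul, norm_smul]

private theorem OffA_step {A : C(K, 𝕜) →L[𝕜] C(K, 𝕜)}
    (h : ∀ (Q : Finset K) (c : ℝ), 0 < c → ∃ a : K →₀ 𝕜, Disjoint a.support Q ∧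
      ‖(ev a : C(K, 𝕜) →L[𝕜] 𝕜).comp A‖ < c * nrm a) (Q : Finset K) (n : ℕ) :
    ∃ a : K →₀ 𝕜, Disjoint a.support Q ∧ nrm a = 1 ∧
      ‖(ev a : C(K, 𝕜) →L[𝕜] 𝕜).comp A‖ ≤ 1 / ((n : ℝ) + 1) := by
  have hn : (0 : ℝ) < 1 / ((n : ℝ) + 1) := by positivity
  obtain ⟨a, ha, hA⟩ := h Q _ hn
  have hpos : 0 < nrm a := by
    by_contra hc
    have h0 : 1 / ((n : ℝ) + 1) * nrm a ≤ 0 :=
      mul_nonpos_of_nonneg_of_nonpos hn.le (not_lt.1 hc)
    exact absurd (norm_nonneg ((ev a : C(K, 𝕜) →L[𝕜] 𝕜).comp A)) (not_le.2 (hA.trans_le h0))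
  have hc : ‖(((nrm a)⁻¹ : ℝ) : 𝕜)‖ = (nrm a)⁻¹ := by
    rw [RCLike.norm_ofReal, abs_of_nonneg (inv_nonneg.2 hpos.le)]
  refine ⟨(((nrm a)⁻¹ : ℝ) : 𝕜) • a, ?_, ?_, ?_⟩
  · exact Finset.disjoint_of_subset_left Finsupp.support_smul ha
  · rw [OffA_nrm_smul, hc, inv_mul_cancel₀ hpos.ne']
  · rw [map_smul, ContinuousLinearMap.smul_comp, norm_smul, hc]
    calc (nrm a)⁻¹ * ‖(ev a : C(K, 𝕜) →L[𝕜] 𝕜).comp A‖
        ≤ (nrm a)⁻¹ * (1 / ((n : ℝ) + 1) * nrm a) :=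
          mul_le_mul_of_nonneg_left hA.le (inv_nonneg.2 hpos.le)
      _ = 1 / ((n : ℝ) + 1) := by
          field_simp

theorem disj_seq {A : C(K, 𝕜) →L[𝕜] C(K, 𝕜)}
    (h : ∀ (Q : Finset K) (c : ℝ), 0 < c → ∃ a : K →₀ 𝕜, Disjoint a.support Q ∧
      ‖(ev a : C(K, 𝕜) →L[𝕜] 𝕜).comp A‖ < c * nrm a) :
    ∃ a : ℕ → (K →₀ 𝕜), (∀ n, nrm (a n) = 1) ∧
      (∀ n m, n ≠ m → Disjoint (a n).support (a m).support) ∧
      ∀ n : ℕ, ‖(ev (a n) : C(K, 𝕜) →L[𝕜] 𝕜).comp A‖ ≤ 1 / (n + 1) := by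
  classical
  choose f hf1 hf2 hf3 using OffA_step h
  let S : ℕ → Finset K := fun n => Nat.rec ∅ (fun n Q => Q ∪ (f Q n).support) n
  have hS : ∀ n, S (n + 1) = S n ∪ (f (S n) n).support := fun n => rfl
  have hmono : Monotone S := by
    refine monotone_nat_of_le_succ fun n => ?_
    rw [hS]
    exact Finset.subset_union_left
  have hlt : ∀ n m, n < m → Disjoint (f (S n) n).support (f (S m) m).support := by
    intro n m hnm
    have h1 : (f (S n) n).support ⊆ S m := by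
      refine Finset.Subset.trans ?_ (hmono (Nat.succ_le_of_lt hnm))
      show _ ⊆ S (n + 1)
      rw [hS]
      exact Finset.subset_union_right
    exact Finset.disjoint_of_subset_left h1 (hf1 (S m) m).symm
  refine ⟨fun n => f (S n) n, fun n => hf2 _ _, ?_, fun n => hf3 _ _⟩
  intro n m hne
  rcases lt_or_gt_of_ne hne with hlt' | hlt'
  · exact hlt n m hlt'
  · exact (hlt m n hlt').symm

end Pool.Agent.H.MP_f11573_an
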