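import Pool.Agent.H.MP_f11573_an.OffA

/-!
# OffB: blocks of a disjoint sequence

PROOF: recursion: `N 0 = 0`; given `N n` apply `hz` with `N n` and `ε = 1 / (n + 1)`: `s n`, `w n`; `N (n + 1) > max (N n) (s n)`
(all elements), and `n ≤ N n`. Put `b n = ∑ i ∈ s n, (w n i : 𝕜) • a i`. The supports of the `a i` are disjoint, so
`nrm (b n) = ∑ w n i * nrm (a i) = 1`, the support of `b n` is in `⋃_{i ∈ s n} (a i).support`, so the supports of the `b n` are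
pairwise disjoint; `‖ev (b n) ∘ A‖ ≤ ∑ w n i / (i + 1) ≤ 1 / (N n + 1) ≤ 1 / (n + 1)`, and `‖ev (b n) ∘ S - z‖ ≤ 1 / (n + 1)`.
So `‖ev (b n) ∘ (A + S) - z‖ ≤ 2 / (n + 1) → 0`.
-/

set_option autoImplicit false

open Filter Topology Set Metric MeasureTheory

namespace Pool.Agent.H.MP_f11573_an

variable {𝕜 : Type*} [RCLike 𝕜] {K : Type*} [TopologicalSpace K] [CompactSpace K] [T2Space K]

omit [TopologicalSpace K] [CompactSpace K] [T2Space K] in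
private theorem OffB_nrm_add {x y : K →₀ 𝕜} (h : Disjoint x.support y.support) :
    nrm (x + y) = nrm x + nrm y :=
  Finsupp.sum_add_index_of_disjoint h (fun _ c => ‖c‖)

omit [TopologicalSpace K] [CompactSpace K] [T2Space K] in
private theorem OffB_nrm_smul {w : ℝ} (hw : 0 ≤ w) (x : K →₀ 𝕜) :
    nrm ((w : 𝕜) • x) = w * nrm x := by
  have h1 : ((w : 𝕜) • x).sum (fun _ c => ‖c‖) = x.sum fun _ c => ‖(w : 𝕜) * c‖ :=
    Finsupp.sum_smul_index (fun _ => norm_zero)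
  change ((w : 𝕜) • x).sum (fun _ c => ‖c‖) = w * x.sum (fun _ c => ‖c‖)
  rw [h1, Finsupp.sum, Finsupp.sum, Finset.mul_sum]
  refine Finset.sum_congr rfl fun t _ => ?_
  rw [norm_mul, RCLike.norm_ofReal, abs_of_nonneg hw]

omit [TopologicalSpace K] [CompactSpace K] [T2Space K] in
private theorem OffB_supp (a : ℕ → (K →₀ 𝕜)) (w : ℕ → ℝ) (s : Finset ℕ) {t : K}
    (ht : t ∈ (∑ i ∈ s, (w i : 𝕜) • a i).support) : ∃ i ∈ s, t ∈ (a i).support := by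
  by_contra hcon
  rw [Finsupp.mem_support_iff] at ht
  refine ht ?_
  rw [Finsupp.finsetSum_apply]
  refine Finset.sum_eq_zero fun i hi => ?_
  have h1 : a i t = 0 := by
    by_contra h2
    exact hcon ⟨i, hi, Finsupp.mem_support_iff.2 h2⟩
  rw [Finsupp.smul_apply, h1, smul_zero]

omit [TopologicalSpace K] [CompactSpace K] [T2Space K] in
private theorem OffB_nrm_sum {a : ℕ → (K →₀ 𝕜)} (ha : ∀ n, nrm (a n) = 1)
    (hd : ∀ n m, n ≠ m → Disjoint (a n).support (a m).support) {w : ℕ → ℝ} (hw : ∀ i, 0 ≤ w i)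
    (s : Finset ℕ) : nrm (∑ i ∈ s, (w i : 𝕜) • a i) = ∑ i ∈ s, w i := by
  classical
  induction s using Finset.induction_on with
  | empty => simp [nrm]
  | insert j s hj ih =>
    rw [Finset.sum_insert hj, Finset.sum_insert hj, OffB_nrm_add, ih, OffB_nrm_smul (hw j), ha,
      mul_one]
    rw [Finset.disjoint_left]
    intro t ht1 ht2
    obtain ⟨i, hi, hti⟩ := OffB_supp a w s ht2
    have h1 : t ∈ (a j).support := Finsupp.support_smul ht1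
    have h2 : j ≠ i := fun h => hj (h ▸ hi)
    exact Finset.disjoint_left.1 (hd j i h2) h1 hti

private theorem OffB_rec (s : ℕ → ℕ → Finset ℕ) (hs : ∀ N n, ∀ i ∈ s N n, N ≤ i) :
    ∃ NN : ℕ → ℕ, StrictMono NN ∧ ∀ n, ∀ i ∈ s (NN n) n, NN n ≤ i ∧ i < NN (n + 1) := by
  let NN : ℕ → ℕ := fun n => Nat.rec (motive := fun _ => ℕ) 0
    (fun n N => max N ((s N n).sup id) + 1) n
  have h0 : ∀ n, NN (n + 1) = max (NN n) ((s (NN n) n).sup id) + 1 := fun n => rfl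
  refine ⟨NN, strictMono_nat_of_lt_succ fun n => ?_, fun n i hi => ⟨hs _ _ i hi, ?_⟩⟩
  · rw [h0]
    exact Nat.lt_succ_of_le (le_max_left _ _)
  · rw [h0]
    have h1 : i ≤ (s (NN n) n).sup id := Finset.le_sup (f := id) hi
    exact Nat.lt_succ_of_le (h1.trans (le_max_right _ _))

theorem block_seq {A S : C(K, 𝕜) →L[𝕜] C(K, 𝕜)} {a : ℕ → (K →₀ 𝕜)} (ha : ∀ n, nrm (a n) = 1)
    (hd : ∀ n m, n ≠ m → Disjoint (a n).support (a m).support)
    (hA : ∀ n : ℕ, ‖(ev (a n) : C(K, 𝕜) →L[𝕜] 𝕜).comp A‖ ≤ 1 / (n + 1))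
    {z : C(K, 𝕜) →L[𝕜] 𝕜}
    (hz : ∀ (N : ℕ) (ε : ℝ), 0 < ε → ∃ (s : Finset ℕ) (w : ℕ → ℝ),
      (∀ i ∈ s, N ≤ i) ∧ (∀ i, 0 ≤ w i) ∧ ∑ i ∈ s, w i = 1 ∧
        ‖(∑ i ∈ s, (w i : 𝕜) • (ev (a i) : C(K, 𝕜) →L[𝕜] 𝕜)).comp S - z‖ ≤ ε) :
    ∃ b : ℕ → (K →₀ 𝕜), (∀ n, nrm (b n) = 1) ∧
      (∀ n m, n ≠ m → Disjoint (b n).support (b m).support) ∧
      Tendsto (fun n => ‖(ev (b n) : C(K, 𝕜) →L[𝕜] 𝕜).comp (A + S) - z‖) atTop (𝓝 0) := by
  choose s w hs1 hs2 hs3 hs4 using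
    fun (N n : ℕ) => hz N (1 / ((n : ℝ) + 1)) Nat.one_div_pos_of_nat
  obtain ⟨NN, hmono, hNN⟩ := OffB_rec s hs1
  have hev : ∀ n, (ev (∑ i ∈ s (NN n) n, (w (NN n) n i : 𝕜) • a i) : C(K, 𝕜) →L[𝕜] 𝕜) =
      ∑ i ∈ s (NN n) n, (w (NN n) n i : 𝕜) • (ev (a i) : C(K, 𝕜) →L[𝕜] 𝕜) := fun n => by
    rw [map_sum]
    exact Finset.sum_congr rfl fun i _ => map_smul _ _ _
  refine ⟨fun n => ∑ i ∈ s (NN n) n, (w (NN n) n i : 𝕜) • a i, fun n => ?_, fun n m hnm => ?_, ?_⟩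
  · change nrm (∑ i ∈ s (NN n) n, (w (NN n) n i : 𝕜) • a i) = 1
    rw [OffB_nrm_sum ha hd (hs2 _ _), hs3]
  · change Disjoint (∑ i ∈ s (NN n) n, (w (NN n) n i : 𝕜) • a i).support
      (∑ i ∈ s (NN m) m, (w (NN m) m i : 𝕜) • a i).support
    rw [Finset.disjoint_left]
    intro t ht1 ht2
    obtain ⟨i, hi, hti⟩ := OffB_supp a _ _ ht1
    obtain ⟨j, hj, htj⟩ := OffB_supp a _ _ ht2
    have h1 := hNN n i hi
    have h2 := hNN m j hj
    have hij : i ≠ j := by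
      rcases lt_or_gt_of_ne hnm with h | h
      · have h3 : NN (n + 1) ≤ NN m := hmono.monotone h
        omega
      · have h3 : NN (m + 1) ≤ NN n := hmono.monotone h
        omega
    exact Finset.disjoint_left.1 (hd i j hij) hti htj
  · have hlim : Tendsto (fun n : ℕ => 1 / ((n : ℝ) + 1) + 1 / ((n : ℝ) + 1)) atTop (𝓝 0) := by
      have h1 := (tendsto_one_div_add_atTop_nhds_zero_nat (𝕜 := ℝ)).add
        (tendsto_one_div_add_atTop_nhds_zero_nat (𝕜 := ℝ))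
      rwa [add_zero] at h1
    refine squeeze_zero (fun n => norm_nonneg _) (fun n => ?_) hlim
    change ‖(ev (∑ i ∈ s (NN n) n, (w (NN n) n i : 𝕜) • a i) : C(K, 𝕜) →L[𝕜] 𝕜).comp (A + S) - z‖ ≤ _
    rw [hev, ContinuousLinearMap.comp_add, add_sub_assoc]
    refine (norm_add_le _ _).trans (add_le_add ?_ (hs4 (NN n) n))
    have h1 : (∑ i ∈ s (NN n) n, (w (NN n) n i : 𝕜) • (ev (a i) : C(K, 𝕜) →L[𝕜] 𝕜)).comp A =
        ∑ i ∈ s (NN n) n, (w (NN n) n i : 𝕜) • (ev (a i) : C(K, 𝕜) →L[𝕜] 𝕜).comp A := by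
      ext f
      simp
    rw [h1]
    calc ‖∑ i ∈ s (NN n) n, (w (NN n) n i : 𝕜) • (ev (a i) : C(K, 𝕜) →L[𝕜] 𝕜).comp A‖
        ≤ ∑ i ∈ s (NN n) n, ‖(w (NN n) n i : 𝕜) • (ev (a i) : C(K, 𝕜) →L[𝕜] 𝕜).comp A‖ :=
          norm_sum_le _ _
      _ ≤ ∑ i ∈ s (NN n) n, w (NN n) n i * (1 / ((n : ℝ) + 1)) := by
          refine Finset.sum_le_sum fun i hi => ?_
          rw [norm_smul, RCLike.norm_ofReal, abs_of_nonneg (hs2 _ _ i)]
          refine mul_le_mul_of_nonneg_left ((hA i).trans ?_) (hs2 _ _ i)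
          have h2 : n ≤ i := hmono.id_le n |>.trans (hNN n i hi).1
          exact Nat.one_div_le_one_div h2
      _ = 1 / ((n : ℝ) + 1) := by
          rw [← Finset.sum_mul, hs3, one_mul]

end Pool.Agent.H.MP_f11573_an
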