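import Pool.Agent.H.MP_f11573_an.OffA
import Pool.Agent.H.MP_f11573_an.OffB
import Pool.Agent.H.MP_f11573_an.Blk
import Pool.Agent.H.MP_f11573_an.Dis

/-! # OffC: the lower bound off a finite set -/

set_option autoImplicit false

open Filter Topology Set Metric MeasureTheory

namespace Pool.Agent.H.MP_f11573_an

variable {𝕜 : Type*} [RCLike 𝕜] {K : Type*} [TopologicalSpace K] [CompactSpace K] [T2Space K]

theorem offQ (hK : Groth 𝕜 C(K, 𝕜)) {A S : C(K, 𝕜) →L[𝕜] C(K, 𝕜)} (hS : WComp S)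
    (hT : DenseRange (A + S)) :
    ∃ (Q : Finset K) (c : ℝ), 0 < c ∧ ∀ a : K →₀ 𝕜, Disjoint a.support Q →
      c * nrm a ≤ ‖(ev a : C(K, 𝕜) →L[𝕜] 𝕜).comp A‖ := by
  by_contra hcon
  push Not at hcon
  obtain ⟨a, ha, hd, hA⟩ := disj_seq (A := A) hcon
  obtain ⟨z, hz⟩ := blocks (X := C(K, 𝕜)) hS
    (u := fun n => (ev (a n) : C(K, 𝕜) →L[𝕜] 𝕜)) (C := 1)
    fun n => by rw [norm_ev, ha n]
  obtain ⟨b, hb, hbd, hbz⟩ := block_seq ha hd hA hz
  exact no_conv hK hT hb hbd hbz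

end Pool.Agent.H.MP_f11573_an
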