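import Pool.Agent.H.MP_f11573_an.DefL

/-!
# RegL: regularity of a functional at a closed set

PROOF: exactly as `atom_a`, `atom_b` in AtmA (copy the proofs), with the closed set `L` in place of the point `q` (neighbourhoods of
`L` in place of neighbourhoods of `q`; `K` is normal). (a) otherwise choose recursively `f_1, f_2, …` with `‖f_i‖ ≤ 1`,
`‖μ f_i‖ > δ`, vanishing off `V_i` and on the open set `V_{i+1} ⊇ L`, `V_{i+1} ⊆ V_i`: the products `f_i f_j` are `0`, and for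
unimodular `c_i` with `c_i μ f_i = ‖μ f_i‖` the function `∑_{i ≤ m} c_i f_i` has norm `≤ 1` and `m δ < ‖μ‖`, false for large `m`.
(b) given `η`, multiply `f` by a Urysohn function that is `0` on `{‖f‖ ≤ η}` (a neighbourhood of `L`: it contains `{‖f‖ < η}`) and `1`
on `{‖f‖ ≥ 2 η}`; the change has norm `≤ 2 η`.
-/

set_option autoImplicit false

open Filter Topology Set Metric MeasureTheory

namespace Pool.Agent.H.MP_f11573_an

set_option linter.unusedSectionVars false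

variable {𝕜 : Type*} [RCLike 𝕜] {K : Type*} [TopologicalSpace K] [CompactSpace K] [T2Space K]

private theorem RegL_iter (L : Set K) (μ : C(K, 𝕜) →L[𝕜] 𝕜) {δ : ℝ} (hδ : 0 < δ)
    (H : ∀ V : Set K, IsOpen V → L ⊆ V → ∃ f : C(K, 𝕜), (∀ x, x ∉ V → f x = 0) ∧
      (∃ V' : Set K, IsOpen V' ∧ L ⊆ V' ∧ ∀ x ∈ V', f x = 0) ∧ δ * ‖f‖ < ‖μ f‖) (n : ℕ) :
    ∀ V : Set K, IsOpen V → L ⊆ V → ∃ f : C(K, 𝕜), ‖f‖ ≤ 1 ∧ (∀ x, x ∉ V → f x = 0) ∧
      (∃ V' : Set K, IsOpen V' ∧ L ⊆ V' ∧ ∀ x ∈ V', f x = 0) ∧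
        (n : ℝ) * δ ≤ RCLike.re (μ f) := by
  induction n with
  | zero =>
    intro V hV hq
    refine ⟨0, by simp, fun x _ => rfl, ⟨univ, isOpen_univ, subset_univ _, fun x _ => rfl⟩, ?_⟩
    simp
  | succ n ih =>
    intro V hV hq
    obtain ⟨f₁, hf₁V, ⟨V₁, hV₁o, hV₁q, hV₁⟩, hf₁⟩ := H V hV hq
    obtain ⟨f₂, hf₂n, hf₂V, ⟨V₂, hV₂o, hV₂q, hV₂⟩, hf₂⟩ := ih (V ∩ V₁) (hV.inter hV₁o) (subset_inter hq hV₁q)
    have hμpos : 0 < ‖μ f₁‖ := lt_of_le_of_lt (mul_nonneg hδ.le (norm_nonneg _)) hf₁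
    have hfpos : 0 < ‖f₁‖ := by
      rw [norm_pos_iff]
      rintro rfl
      simp at hμpos
    let c : 𝕜 := (starRingEnd 𝕜) (μ f₁) / ((‖μ f₁‖ * ‖f₁‖ : ℝ) : 𝕜)
    have hc : ‖c‖ = ‖f₁‖⁻¹ := by
      show ‖(starRingEnd 𝕜) (μ f₁) / ((‖μ f₁‖ * ‖f₁‖ : ℝ) : 𝕜)‖ = _
      rw [norm_div, RCLike.norm_conj, RCLike.norm_ofReal,
        abs_of_nonneg (mul_nonneg (norm_nonneg _) (norm_nonneg _))]
      field_simp
    have hμc : μ (c • f₁) = ((‖μ f₁‖ / ‖f₁‖ : ℝ) : 𝕜) := by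
      rw [map_smul, smul_eq_mul]
      show (starRingEnd 𝕜) (μ f₁) / ((‖μ f₁‖ * ‖f₁‖ : ℝ) : 𝕜) * μ f₁ = _
      have h1 : ((‖μ f₁‖ : ℝ) : 𝕜) ≠ 0 := by exact_mod_cast hμpos.ne'
      have h2 : ((‖f₁‖ : ℝ) : 𝕜) ≠ 0 := by exact_mod_cast hfpos.ne'
      rw [div_mul_eq_mul_div, RCLike.conj_mul]
      push_cast
      field_simp
    refine ⟨c • f₁ + f₂, ?_, ?_, ⟨V₁ ∩ V₂, hV₁o.inter hV₂o, subset_inter hV₁q hV₂q, ?_⟩, ?_⟩
    · refine (ContinuousMap.norm_le _ zero_le_one).2 fun x => ?_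
      have h1 : (c • f₁ + f₂) x = c * f₁ x + f₂ x := rfl
      rw [h1]
      by_cases hx : x ∈ V₁
      · rw [hV₁ x hx, mul_zero, zero_add]
        exact (f₂.norm_coe_le_norm x).trans hf₂n
      · rw [hf₂V x (fun h => hx h.2), add_zero, norm_mul, hc]
        calc ‖f₁‖⁻¹ * ‖f₁ x‖ ≤ ‖f₁‖⁻¹ * ‖f₁‖ :=
              mul_le_mul_of_nonneg_left (f₁.norm_coe_le_norm x) (inv_nonneg.2 (norm_nonneg _))
          _ = 1 := inv_mul_cancel₀ hfpos.ne'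
    · intro x hx
      have h1 : (c • f₁ + f₂) x = c * f₁ x + f₂ x := rfl
      rw [h1, hf₁V x hx, hf₂V x (fun h => hx h.1)]
      simp
    · intro x hx
      have h1 : (c • f₁ + f₂) x = c * f₁ x + f₂ x := rfl
      rw [h1, hV₁ x hx.1, hV₂ x hx.2]
      simp
    · rw [map_add, map_add, hμc, RCLike.ofReal_re]
      have h3 : δ ≤ ‖μ f₁‖ / ‖f₁‖ := by
        rw [le_div_iff₀ hfpos]
        exact hf₁.le
      push_cast
      linarith

/-- (a) -/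
theorem reg_a {L : Set K} (hL : IsClosed L) (μ : C(K, 𝕜) →L[𝕜] 𝕜) {δ : ℝ} (hδ : 0 < δ) :
    ∃ V : Set K, IsOpen V ∧ L ⊆ V ∧ ∀ f : C(K, 𝕜), (∀ x, x ∉ V → f x = 0) →
      (∃ V' : Set K, IsOpen V' ∧ L ⊆ V' ∧ ∀ x ∈ V', f x = 0) → ‖μ f‖ ≤ δ * ‖f‖ := by
  by_contra hcon
  push Not at hcon
  obtain ⟨n, hn⟩ := exists_nat_gt (‖μ‖ / δ)
  obtain ⟨f, hf1, -, -, hf⟩ := RegL_iter L μ hδ hcon n univ isOpen_univ (subset_univ _)
  have h1 : RCLike.re (μ f) ≤ ‖μ‖ :=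
    (RCLike.re_le_norm _).trans ((μ.le_opNorm f).trans (mul_le_of_le_one_right (norm_nonneg _) hf1))
  rw [div_lt_iff₀ hδ] at hn
  linarith

/-- (b) -/
theorem reg_b {L : Set K} (hL : IsClosed L) (μ : C(K, 𝕜) →L[𝕜] 𝕜) {δ : ℝ} (hδ : 0 < δ) :
    ∃ V : Set K, IsOpen V ∧ L ⊆ V ∧ ∀ f : C(K, 𝕜), (∀ x, x ∉ V → f x = 0) →
      (∀ x ∈ L, f x = 0) → ‖μ f‖ ≤ δ * ‖f‖ := by
  obtain ⟨V, hVo, hVq, hV⟩ := reg_a hL μ hδ
  refine ⟨V, hVo, hVq, fun f hfV hfq => ?_⟩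
  refine le_of_forall_pos_le_add fun ε hε => ?_
  have hη : 0 < ε / (‖μ‖ + 1) := div_pos hε (by positivity)
  set η := ε / (‖μ‖ + 1) with hηdef
  have hUo : IsOpen {x | ‖f x‖ < η} := isOpen_lt f.continuous.norm continuous_const
  have hUq : L ⊆ {x | ‖f x‖ < η} := by
    intro x hx
    show ‖f x‖ < η
    rw [hfq x hx, norm_zero]
    exact hη
  obtain ⟨t, hto, htq, htU⟩ := normal_exists_closure_subset hL hUo hUq
  obtain ⟨w, hw0, hw1, hw⟩ := exists_continuous_zero_one_of_isClosed isClosed_closure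
    hUo.isClosed_compl (Set.disjoint_left.2 fun x hx hx' => hx' (htU hx))
  have hgn : ‖rs w f‖ ≤ ‖f‖ := by
    refine (ContinuousMap.norm_le _ (norm_nonneg _)).2 fun x => ?_
    show ‖((w x : ℝ) : 𝕜) * f x‖ ≤ ‖f‖
    rw [norm_mul, RCLike.norm_ofReal, abs_of_nonneg (hw x).1]
    exact (mul_le_of_le_one_left (norm_nonneg _) (hw x).2).trans (f.norm_coe_le_norm x)
  have hd : ‖f - rs w f‖ ≤ η := by
    refine (ContinuousMap.norm_le _ hη.le).2 fun x => ?_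
    show ‖f x - ((w x : ℝ) : 𝕜) * f x‖ ≤ η
    by_cases hx : x ∈ {x | ‖f x‖ < η}
    · have h1 : f x - ((w x : ℝ) : 𝕜) * f x = ((1 - w x : ℝ) : 𝕜) * f x := by
        push_cast
        ring
      rw [h1, norm_mul, RCLike.norm_ofReal, abs_of_nonneg (by linarith [(hw x).2])]
      have hx' : ‖f x‖ < η := hx
      exact (mul_le_of_le_one_left (norm_nonneg _) (by linarith [(hw x).1])).trans hx'.le
    · have h1 : w x = 1 := hw1 hx
      rw [h1]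
      simp [hη.le]
  have hg : ‖μ (rs w f)‖ ≤ δ * ‖rs w f‖ := by
    refine hV _ ?_ ⟨t, hto, htq, ?_⟩
    · intro x hx
      show ((w x : ℝ) : 𝕜) * f x = 0
      rw [hfV x hx, mul_zero]
    · intro x hx
      show ((w x : ℝ) : 𝕜) * f x = 0
      have h1 : w x = 0 := hw0 (subset_closure hx)
      rw [h1]
      simp
  have h2 : μ f = μ (rs w f) + μ (f - rs w f) := by
    rw [← map_add]
    congr 1
    abel
  have h3 : ‖μ (f - rs w f)‖ ≤ ‖μ‖ * η :=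
    (μ.le_opNorm _).trans (mul_le_mul_of_nonneg_left hd (norm_nonneg _))
  have h4 : ‖μ‖ * η ≤ ε := by
    rw [hηdef, mul_div_assoc', div_le_iff₀ (by positivity)]
    nlinarith [norm_nonneg μ]
  calc ‖μ f‖ ≤ ‖μ (rs w f)‖ + ‖μ (f - rs w f)‖ := by
        rw [h2]
        exact norm_add_le _ _
    _ ≤ δ * ‖rs w f‖ + ε := add_le_add hg (h3.trans h4)
    _ ≤ δ * ‖f‖ + ε := by
        have := mul_le_mul_of_nonneg_left hgn hδ.le
        linarith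

end Pool.Agent.H.MP_f11573_an
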