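import Pool.Agent.H.MP_f11573_an.Def

/-!
# Ult: limits along ultrafilters

PROOF: for `u` the values `u (v b)` are in the closed ball of radius `C ‖u‖` of `𝕜`, which is compact, so they converge along the
ultrafilter (`IsCompact.ultrafilter_le_nhds` for `𝒰.map`); the limit is linear in `u` (uniqueness of limits) and bounded by
`C ‖u‖` (`le_of_tendsto`), so `LinearMap.mkContinuous`. The second theorem is the same for `u ↦ v b x`.
-/

set_option autoImplicit false

open Filter Topology Set Metric MeasureTheory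

namespace Pool.Agent.H.MP_f11573_an

private theorem Ult_aux {𝕜 : Type*} [RCLike 𝕜] {X : Type*} [NormedAddCommGroup X] [NormedSpace 𝕜 X]
    {β : Type*} (𝒰 : Ultrafilter β) (v : β → (X →L[𝕜] 𝕜)) {C : ℝ} (hv : ∀ b, ‖v b‖ ≤ C) :
    ∃ u : X →L[𝕜] 𝕜, ∀ x : X, Tendsto (fun b => v b x) 𝒰 (𝓝 (u x)) := by
  have : (𝒰 : Filter β).NeBot := inferInstance
  have hb : ∀ (x : X) (b : β), ‖v b x‖ ≤ C * ‖x‖ := fun x b =>
    (v b).le_of_opNorm_le (hv b) x
  have hex : ∀ x : X, ∃ y : 𝕜, Tendsto (fun b => v b x) 𝒰 (𝓝 y) := by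
    intro x
    have hc : IsCompact (closedBall (0 : 𝕜) (C * ‖x‖)) := isCompact_closedBall _ _
    have hmem : closedBall (0 : 𝕜) (C * ‖x‖) ∈ (𝒰.map (fun b => v b x) : Ultrafilter 𝕜) := by
      rw [Ultrafilter.mem_map]
      refine Filter.mem_of_superset Filter.univ_mem ?_
      intro b _
      simp only [mem_preimage, mem_closedBall, dist_zero_right]
      exact hb x b
    obtain ⟨y, -, hy⟩ := hc.ultrafilter_le_nhds' _ hmem
    exact ⟨y, by simpa [Ultrafilter.coe_map, Tendsto] using hy⟩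
  choose L hL using hex
  let u₀ : X →ₗ[𝕜] 𝕜 :=
    { toFun := L
      map_add' := fun x y => by
        refine tendsto_nhds_unique (hL (x + y)) ?_
        have := (hL x).add (hL y)
        simpa only [map_add] using this
      map_smul' := fun c x => by
        refine tendsto_nhds_unique (hL (c • x)) ?_
        have := (hL x).const_smul c
        simpa only [map_smul, RingHom.id_apply] using this }
  refine ⟨u₀.mkContinuous C (fun x => ?_), fun x => ?_⟩
  · exact le_of_tendsto (hL x).norm (Filter.Eventually.of_forall fun b => hb x b)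
  · exact hL x

theorem ultra {𝕜 : Type*} [RCLike 𝕜] {X : Type*} [NormedAddCommGroup X] [NormedSpace 𝕜 X]
    {β : Type*} (𝒰 : Ultrafilter β) (v : β → X) {C : ℝ} (hv : ∀ b, ‖v b‖ ≤ C) :
    ∃ Φ : (X →L[𝕜] 𝕜) →L[𝕜] 𝕜,
      ∀ u : X →L[𝕜] 𝕜, Tendsto (fun b => u (v b)) 𝒰 (𝓝 (Φ u)) := by
  obtain ⟨Φ, hΦ⟩ := Ult_aux (𝕜 := 𝕜) (X := X →L[𝕜] 𝕜) 𝒰
    (fun b => ContinuousLinearMap.apply 𝕜 𝕜 (v b)) (C := C) (fun b => by
      by_cases hC : 0 ≤ C
      · refine ContinuousLinearMap.opNorm_le_bound _ hC fun u => ?_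
        rw [ContinuousLinearMap.apply_apply, mul_comm]
        exact (u.le_opNorm (v b)).trans (mul_le_mul_of_nonneg_left (hv b) (norm_nonneg u))
      · exact absurd ((norm_nonneg _).trans (hv b)) hC)
  exact ⟨Φ, fun u => hΦ u⟩

theorem ultra' {𝕜 : Type*} [RCLike 𝕜] {X : Type*} [NormedAddCommGroup X] [NormedSpace 𝕜 X]
    {β : Type*} (𝒰 : Ultrafilter β) (v : β → (X →L[𝕜] 𝕜)) {C : ℝ} (hv : ∀ b, ‖v b‖ ≤ C) :
    ∃ u : X →L[𝕜] 𝕜, ∀ x : X, Tendsto (fun b => v b x) 𝒰 (𝓝 (u x)) := by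
  exact Ult_aux 𝒰 v hv

end Pool.Agent.H.MP_f11573_an
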