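import Pool.Agent.H.MP_f11573_an.RegL
import Pool.Agent.H.MP_f11573_an.Ult

/-!
# ResL: the restriction of a functional to a closed set

PROOF (as `atom` in Atm): `β = {b : C(K, ℝ) // ∀ x, b x ∈ Icc 0 1}`, `𝓕` the filter with the basis
`{b | b = 1 on L, b = 0 off V}`, `V` open, `L ⊆ V` (`NeBot` by Urysohn), `𝒰 ≤ 𝓕` an ultrafilter. For `f` in `C(K, 𝕜)` the values
`μ (rs b f)` are bounded by `‖μ‖ ‖f‖`, so they converge along `𝒰` to some `l f`; `l` is linear and bounded (for instance: apply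
`ultra'` to the functionals `b ↦ (f ↦ μ (rs b f))`, of norm `≤ ‖μ‖`). If `f = 0` on `L`: for `η > 0` and `b = 0` off `{‖f‖ < η}`:
`‖μ (rs b f)‖ ≤ ‖μ‖ η`, so `l f = 0`. Let `δ > 0`, `V` from `reg_b` for `δ`, `f = 0` off `V`: `μ f - μ (rs b f) = μ (rs (1 - b) f)`,
this function vanishes off `V` and on `L` and has norm `≤ ‖f‖`, so `‖μ f - μ (rs b f)‖ ≤ δ ‖f‖`; pass to the limit.
-/

set_option autoImplicit false

open Filter Topology Set Metric MeasureTheory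

namespace Pool.Agent.H.MP_f11573_an

variable {𝕜 : Type*} [RCLike 𝕜] {K : Type*} [TopologicalSpace K] [CompactSpace K] [T2Space K]

omit [T2Space K] in
private theorem ResL_rs_norm {b : C(K, ℝ)} (hb : ∀ x, b x ∈ Icc (0 : ℝ) 1) (f : C(K, 𝕜)) :
    ‖rs b f‖ ≤ ‖f‖ := by
  refine (ContinuousMap.norm_le _ (norm_nonneg f)).2 fun x => ?_
  change ‖((b x : ℝ) : 𝕜) * f x‖ ≤ ‖f‖
  rw [norm_mul, RCLike.norm_ofReal, abs_of_nonneg (hb x).1]
  have h1 := f.norm_coe_le_norm x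
  have h2 : b x * ‖f x‖ ≤ 1 * ‖f x‖ := mul_le_mul_of_nonneg_right (hb x).2 (norm_nonneg _)
  linarith

omit [T2Space K] in
/-- `f ↦ μ (rs b f)` -/
private theorem ResL_comp {b : C(K, ℝ)} (hb : ∀ x, b x ∈ Icc (0 : ℝ) 1)
    (μ : C(K, 𝕜) →L[𝕜] 𝕜) :
    ∃ v : C(K, 𝕜) →L[𝕜] 𝕜, ‖v‖ ≤ ‖μ‖ ∧ ∀ f, v f = μ (rs b f) := by
  let A : C(K, 𝕜) →ₗ[𝕜] C(K, 𝕜) :=
    { toFun := fun f => rs b f
      map_add' := fun f g => by
        ext x
        change ((b x : ℝ) : 𝕜) * (f x + g x) = ((b x : ℝ) : 𝕜) * f x + ((b x : ℝ) : 𝕜) * g x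
        ring
      map_smul' := fun c f => by
        ext x
        change ((b x : ℝ) : 𝕜) * (c * f x) = c * (((b x : ℝ) : 𝕜) * f x)
        ring }
  let A' : C(K, 𝕜) →L[𝕜] C(K, 𝕜) := A.mkContinuous 1 fun f => by
    rw [one_mul]
    exact ResL_rs_norm hb f
  refine ⟨μ.comp A', ?_, fun f => rfl⟩
  refine ContinuousLinearMap.opNorm_le_bound _ (norm_nonneg μ) fun f => ?_
  change ‖μ (rs b f)‖ ≤ ‖μ‖ * ‖f‖
  exact (μ.le_opNorm _).trans (mul_le_mul_of_nonneg_left (ResL_rs_norm hb f) (norm_nonneg μ))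

private theorem ResL_ury {L : Set K} (hL : IsClosed L) {V : Set K} (hV : V ∈ 𝓝ˢ L) :
    ∃ b : C(K, ℝ), (∀ x, b x ∈ Icc (0 : ℝ) 1) ∧ (∀ x ∈ L, b x = 1) ∧ ∀ x, x ∉ V → b x = 0 := by
  have h1 : L ⊆ interior V := subset_interior_iff_mem_nhdsSet.2 hV
  have h2 : Disjoint (interior V)ᶜ L := by
    rw [Set.disjoint_left]
    exact fun x h3 h4 => h3 (h1 h4)
  obtain ⟨b, hb0, hb1, hb⟩ := exists_continuous_zero_one_of_isClosed
    isOpen_interior.isClosed_compl hL h2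
  exact ⟨b, hb, fun x hx => hb1 hx, fun x hx => hb0 fun h3 => hx (interior_subset h3)⟩

theorem restr {L : Set K} (hL : IsClosed L) (μ : C(K, 𝕜) →L[𝕜] 𝕜) :
    ∃ l : C(K, 𝕜) →L[𝕜] 𝕜, Supp l L ∧ ∀ δ : ℝ, 0 < δ → ∃ V : Set K, IsOpen V ∧ L ⊆ V ∧
      ∀ f : C(K, 𝕜), (∀ x, x ∉ V → f x = 0) → ‖(μ - l) f‖ ≤ δ * ‖f‖ := by
  let g : Set K → Set {b : C(K, ℝ) // ∀ x, b x ∈ Icc (0 : ℝ) 1} :=
    fun V => {b | (∀ x ∈ L, b.1 x = 1) ∧ ∀ x, x ∉ V → b.1 x = 0}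
  have hg : Monotone g := fun V W hVW b hb => ⟨hb.1, fun x hx => hb.2 x fun h => hx (hVW h)⟩
  have hne : ((𝓝ˢ L).lift' g).NeBot := by
    rw [Filter.lift'_neBot_iff hg]
    intro V hV
    obtain ⟨b, hb1, hb2, hb3⟩ := ResL_ury hL hV
    exact ⟨⟨b, hb1⟩, hb2, hb3⟩
  choose v hv1 hv2 using fun b : {b : C(K, ℝ) // ∀ x, b x ∈ Icc (0 : ℝ) 1} => ResL_comp b.2 μ
  obtain ⟨l, hl⟩ := ultra' (𝕜 := 𝕜) (Ultrafilter.of ((𝓝ˢ L).lift' g)) v (C := ‖μ‖) hv1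
  have hmem : ∀ V : Set K, IsOpen V → L ⊆ V →
      ∀ᶠ b in (Ultrafilter.of ((𝓝ˢ L).lift' g) : Filter _), b ∈ g V := fun V hV hLV =>
    Ultrafilter.of_le _ (Filter.mem_lift' (hV.mem_nhdsSet.2 hLV))
  refine ⟨l, fun f hf => ?_, fun δ hδ => ?_⟩
  · have h1 : ∀ η : ℝ, 0 < η → ‖l f‖ ≤ ‖μ‖ * η := by
      intro η hη
      have h2 : IsOpen {x : K | ‖f x‖ < η} :=
        isOpen_lt f.continuous.norm continuous_const
      refine le_of_tendsto (hl f).norm ?_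
      filter_upwards [hmem _ h2 fun x hx => by
        change ‖f x‖ < η
        rw [hf x hx, norm_zero]
        exact hη] with b hb
      rw [hv2]
      refine (μ.le_opNorm _).trans (mul_le_mul_of_nonneg_left ?_ (norm_nonneg μ))
      refine (ContinuousMap.norm_le _ hη.le).2 fun x => ?_
      change ‖((b.1 x : ℝ) : 𝕜) * f x‖ ≤ η
      by_cases hx : ‖f x‖ < η
      · rw [norm_mul, RCLike.norm_ofReal, abs_of_nonneg (b.2 x).1]
        have h3 : b.1 x * ‖f x‖ ≤ 1 * ‖f x‖ :=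
          mul_le_mul_of_nonneg_right (b.2 x).2 (norm_nonneg _)
        linarith
      · rw [hb.2 x hx]
        simp only [RCLike.ofReal_zero, zero_mul, norm_zero]
        exact hη.le
    have h2 : ‖l f‖ ≤ 0 := by
      refine le_of_forall_pos_le_add fun ε hε => ?_
      have h3 := h1 (ε / (‖μ‖ + 1)) (div_pos hε (by positivity))
      have h4 : ‖μ‖ * (ε / (‖μ‖ + 1)) ≤ ε := by
        rw [mul_div_assoc', div_le_iff₀ (by positivity)]
        nlinarith [norm_nonneg μ]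
      linarith
    exact norm_le_zero_iff.1 h2
  · obtain ⟨V, hVo, hLV, hV⟩ := reg_b hL μ hδ
    refine ⟨V, hVo, hLV, fun f hf => ?_⟩
    have h1 : Tendsto (fun b => μ f - v b f) (Ultrafilter.of ((𝓝ˢ L).lift' g) : Filter _)
        (𝓝 (μ f - l f)) := tendsto_const_nhds.sub (hl f)
    have h2 : (μ - l) f = μ f - l f := rfl
    rw [h2]
    refine le_of_tendsto h1.norm ?_
    filter_upwards [hmem V hVo hLV] with b hb
    rw [hv2, ← map_sub]
    have h3 : ∀ x, x ∉ V → (f - rs b.1 f) x = 0 := fun x hx => by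
      change f x - ((b.1 x : ℝ) : 𝕜) * f x = 0
      rw [hf x hx, mul_zero, sub_zero]
    have h4 : ∀ x ∈ L, (f - rs b.1 f) x = 0 := fun x hx => by
      change f x - ((b.1 x : ℝ) : 𝕜) * f x = 0
      rw [hb.1 x hx, RCLike.ofReal_one, one_mul, sub_self]
    have h5 : ‖f - rs b.1 f‖ ≤ ‖f‖ := by
      refine (ContinuousMap.norm_le _ (norm_nonneg f)).2 fun x => ?_
      change ‖f x - ((b.1 x : ℝ) : 𝕜) * f x‖ ≤ ‖f‖
      have h6 : f x - ((b.1 x : ℝ) : 𝕜) * f x = ((1 - b.1 x : ℝ) : 𝕜) * f x := by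
        push_cast
        ring
      have h7 := b.2 x
      rw [h6, norm_mul, RCLike.norm_ofReal, abs_of_nonneg (by linarith [h7.2])]
      have h8 := f.norm_coe_le_norm x
      have h9 : (1 - b.1 x) * ‖f x‖ ≤ 1 * ‖f x‖ :=
        mul_le_mul_of_nonneg_right (by linarith [h7.1]) (norm_nonneg _)
      linarith
    exact (hV _ h3 h4).trans (mul_le_mul_of_nonneg_left h5 hδ.le)

end Pool.Agent.H.MP_f11573_an
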