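import Pool.Agent.H.MP_f11573_an.Ult

/-!
# SelA: limits of the pairings

PROOF: the values `‖μ j n (rs s (g j n))‖` are bounded by `‖s‖`, so they converge along the ultrafilter (compactness of `Icc 0 ‖s‖`). `choose`.
Subadditivity: `rs (s + s') f = rs s f + rs s' f`. `Λ j 0 = 0`: `rs 0 f = 0`. Last property: for unimodular `c_i` with
`c_i μ (rs (s i) g) = ‖…‖`: `∑ ‖μ (rs (s i) g)‖ = μ (∑ c_i • rs (s i) g) ≤ 1`, since `‖∑ c_i s i x g x‖ ≤ ∑ s i x ≤ 1` at each point.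
-/

set_option autoImplicit false

open Filter Topology Set Metric MeasureTheory

namespace Pool.Agent.H.MP_f11573_an

variable {𝕜 : Type*} [RCLike 𝕜] {K : Type*} [TopologicalSpace K] [CompactSpace K] [T2Space K]

/-- the pointwise norm -/
noncomputable def nr (f : C(K, 𝕜)) : C(K, ℝ) := ⟨fun x => ‖f x‖, f.continuous.norm⟩

omit [T2Space K] in
private theorem SelA_rs_apply (s : C(K, ℝ)) (f : C(K, 𝕜)) (x : K) :
    rs s f x = (s x : 𝕜) * f x := rfl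

omit [T2Space K] in
private theorem SelA_norm_le {f : C(K, 𝕜)} (hf : ‖f‖ ≤ 1) (s : C(K, ℝ)) :
    ‖rs s f‖ ≤ ‖s‖ := by
  rw [ContinuousMap.norm_le _ (norm_nonneg s)]
  intro x
  rw [SelA_rs_apply, norm_mul, RCLike.norm_ofReal, ← Real.norm_eq_abs]
  have h1 : ‖s x‖ ≤ ‖s‖ := s.norm_coe_le_norm x
  have h2 : ‖f x‖ ≤ 1 := (f.norm_coe_le_norm x).trans hf
  calc ‖s x‖ * ‖f x‖ ≤ ‖s‖ * 1 := mul_le_mul h1 h2 (norm_nonneg _) (norm_nonneg _)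
    _ = ‖s‖ := mul_one _

omit [T2Space K] in
private theorem SelA_sum_le {μ : C(K, 𝕜) →L[𝕜] 𝕜} (hμ : ‖μ‖ ≤ 1) {g : C(K, 𝕜)} (hg : ‖g‖ ≤ 1)
    (s : ℕ → C(K, ℝ)) (t : Finset ℕ) (h0 : ∀ i x, 0 ≤ s i x)
    (h1 : ∀ x, ∑ i ∈ t, s i x ≤ 1) : ∑ i ∈ t, ‖μ (rs (s i) g)‖ ≤ 1 := by
  have hc : ∀ i, ∃ c : 𝕜, ‖c‖ = 1 ∧ ((‖μ (rs (s i) g)‖ : ℝ) : 𝕜) = c * μ (rs (s i) g) :=
    fun i => RCLike.exists_norm_eq_mul_self _
  choose c hc1 hc2 using hc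
  have e1 : ((∑ i ∈ t, ‖μ (rs (s i) g)‖ : ℝ) : 𝕜) = μ (∑ i ∈ t, c i • rs (s i) g) := by
    rw [map_sum, RCLike.ofReal_sum]
    refine Finset.sum_congr rfl fun i _ => ?_
    rw [hc2 i, map_smul, smul_eq_mul]
  have e2 : ‖∑ i ∈ t, c i • rs (s i) g‖ ≤ 1 := by
    rw [ContinuousMap.norm_le _ zero_le_one]
    intro x
    have hgx : ‖g x‖ ≤ 1 := (g.norm_coe_le_norm x).trans hg
    rw [ContinuousMap.sum_apply]
    refine (norm_sum_le _ _).trans (le_trans (Finset.sum_le_sum fun i _ => ?_) (h1 x))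
    rw [ContinuousMap.smul_apply, norm_smul, hc1, one_mul, SelA_rs_apply, norm_mul,
      RCLike.norm_ofReal, abs_of_nonneg (h0 i x)]
    calc s i x * ‖g x‖ ≤ s i x * 1 := mul_le_mul_of_nonneg_left hgx (h0 i x)
      _ = s i x := mul_one _
  have e3 : 0 ≤ ∑ i ∈ t, ‖μ (rs (s i) g)‖ := Finset.sum_nonneg fun i _ => norm_nonneg _
  calc ∑ i ∈ t, ‖μ (rs (s i) g)‖ = ‖((∑ i ∈ t, ‖μ (rs (s i) g)‖ : ℝ) : 𝕜)‖ := by
        rw [RCLike.norm_ofReal, abs_of_nonneg e3]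
    _ = ‖μ (∑ i ∈ t, c i • rs (s i) g)‖ := by rw [e1]
    _ ≤ ‖μ‖ * ‖∑ i ∈ t, c i • rs (s i) g‖ := μ.le_opNorm _
    _ ≤ 1 * 1 := mul_le_mul hμ e2 (norm_nonneg _) zero_le_one
    _ = 1 := mul_one _

omit [T2Space K] in
theorem exists_lam {μ : ℕ → ℕ → (C(K, 𝕜) →L[𝕜] 𝕜)} {g : ℕ → ℕ → C(K, 𝕜)}
    (hμ : ∀ j n, ‖μ j n‖ ≤ 1) (hg : ∀ j n, ‖g j n‖ ≤ 1) :
    ∃ Λ : ℕ → C(K, ℝ) → ℝ,
      (∀ j s, Tendsto (fun n => ‖μ j n (rs s (g j n))‖) (hyperfilter ℕ) (𝓝 (Λ j s))) ∧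
      (∀ j, Λ j 0 = 0) ∧ (∀ j s, 0 ≤ Λ j s) ∧
      (∀ j s s', Λ j (s + s') ≤ Λ j s + Λ j s') ∧
      ∀ (j : ℕ) (s : ℕ → C(K, ℝ)) (t : Finset ℕ), (∀ i x, 0 ≤ s i x) →
        (∀ x, ∑ i ∈ t, s i x ≤ 1) → ∑ i ∈ t, Λ j (s i) ≤ 1 := by
  have hb : ∀ (j : ℕ) (s : C(K, ℝ)) (n : ℕ), ‖μ j n (rs s (g j n))‖ ≤ ‖s‖ := by
    intro j s n
    calc ‖μ j n (rs s (g j n))‖ ≤ ‖μ j n‖ * ‖rs s (g j n)‖ := (μ j n).le_opNorm _
      _ ≤ 1 * ‖s‖ := mul_le_mul (hμ j n) (SelA_norm_le (hg j n) s) (norm_nonneg _) zero_le_one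
      _ = ‖s‖ := one_mul _
  have hex : ∀ (j : ℕ) (s : C(K, ℝ)), ∃ y : ℝ,
      Tendsto (fun n => ‖μ j n (rs s (g j n))‖) (hyperfilter ℕ) (𝓝 y) := by
    intro j s
    have hmem : Icc (0 : ℝ) ‖s‖ ∈
        ((hyperfilter ℕ).map (fun n => ‖μ j n (rs s (g j n))‖) : Ultrafilter ℝ) := by
      rw [Ultrafilter.mem_map]
      refine Filter.mem_of_superset Filter.univ_mem ?_
      intro n _
      exact ⟨norm_nonneg _, hb j s n⟩
    obtain ⟨y, -, hy⟩ := (isCompact_Icc : IsCompact (Icc (0 : ℝ) ‖s‖)).ultrafilter_le_nhds' _ hmem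
    exact ⟨y, by simpa [Ultrafilter.coe_map, Tendsto] using hy⟩
  choose Λ hΛ using hex
  refine ⟨Λ, hΛ, ?_, ?_, ?_, ?_⟩
  · intro j
    refine tendsto_nhds_unique (hΛ j 0) ?_
    have e : (fun n => ‖μ j n (rs (0 : C(K, ℝ)) (g j n))‖) = fun _ => (0 : ℝ) := by
      funext n
      have h0 : rs (0 : C(K, ℝ)) (g j n) = 0 := by
        ext x
        rw [SelA_rs_apply]
        simp
      rw [h0, map_zero, norm_zero]
    rw [e]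
    exact tendsto_const_nhds
  · intro j s
    exact ge_of_tendsto' (hΛ j s) fun n => norm_nonneg _
  · intro j s s'
    refine le_of_tendsto_of_tendsto' (hΛ j (s + s')) ((hΛ j s).add (hΛ j s')) fun n => ?_
    have h0 : rs (s + s') (g j n) = rs s (g j n) + rs s' (g j n) := by
      ext x
      rw [ContinuousMap.add_apply, SelA_rs_apply, SelA_rs_apply, SelA_rs_apply,
        ContinuousMap.add_apply, RCLike.ofReal_add, add_mul]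
    rw [h0, map_add]
    exact norm_add_le _ _
  · intro j s t h0 h1
    refine le_of_tendsto' (tendsto_finsetSum t fun i _ => hΛ j (s i)) fun n => ?_
    exact SelA_sum_le (hμ j n) (hg j n) s t h0 h1

end Pool.Agent.H.MP_f11573_an
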