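import Pool.Agent.H.MP_f11573_an.SelA

/-!
# SelB: one step of the selection

PROOF: (1) `‖μ j n (rs (1 - s) (g j n))‖ ≥ ‖μ j n (g j n)‖ - ‖μ j n (rs s (g j n))‖ ≥ ρ - ‖μ j n (rs s (g j n))‖`, and the last term tends to
`Λ j s ≤ ρ / 4` along the hyperfilter, so for a set of `n` in the hyperfilter it is `≤ ρ / 2`. (2) Let `a n = nr (rs (1 - s) (g j n))`, `a n ≥ 0`,
`∑_{n ∈ t} a n x ≤ 1` (disjointness, `0 ≤ 1 - s ≤ 1`). Let `q n` be the limit of `Λ i (a n)` as `i → hyperfilter` (bounded by `1`: the last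
property for a single function). `∑_{n ∈ t} q n ≤ 1` for all finite `t` (limit of the last property). So `q n < δ` for all but finitely
many `n`, so for a set of `n` in the hyperfilter (cofinite sets belong to it). Take `n` with both properties: `q n < δ` implies
`Λ i (a n) < δ` for a set of `i` in the hyperfilter.
-/

set_option autoImplicit false

open Filter Topology Set Metric MeasureTheory

namespace Pool.Agent.H.MP_f11573_an

variable {𝕜 : Type*} [RCLike 𝕜] {K : Type*} [TopologicalSpace K] [CompactSpace K] [T2Space K]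

omit [T2Space K] in
theorem sel_step {ρ : ℝ} (hρ : 0 < ρ) {μ : ℕ → ℕ → (C(K, 𝕜) →L[𝕜] 𝕜)}
    {g : ℕ → ℕ → C(K, 𝕜)} (hg : ∀ j n, ‖g j n‖ ≤ 1)
    (hd : ∀ j n m x, n ≠ m → g j n x = 0 ∨ g j m x = 0) (h : ∀ j n, ρ ≤ ‖μ j n (g j n)‖)
    {Λ : ℕ → C(K, ℝ) → ℝ}
    (h1 : ∀ j s, Tendsto (fun n => ‖μ j n (rs s (g j n))‖) (hyperfilter ℕ) (𝓝 (Λ j s)))
    (h2 : ∀ j s, 0 ≤ Λ j s)
    (h3 : ∀ (j : ℕ) (s : ℕ → C(K, ℝ)) (t : Finset ℕ), (∀ i x, 0 ≤ s i x) →
        (∀ x, ∑ i ∈ t, s i x ≤ 1) → ∑ i ∈ t, Λ j (s i) ≤ 1)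
    {s : C(K, ℝ)} (hs0 : ∀ x, 0 ≤ s x) (hs1 : ∀ x, s x ≤ 1) {j : ℕ} (hj : Λ j s ≤ ρ / 4)
    {δ : ℝ} (hδ : 0 < δ) :
    ∃ n, ρ / 2 ≤ ‖μ j n (rs (1 - s) (g j n))‖ ∧
      ∀ᶠ i in (hyperfilter ℕ : Filter ℕ), Λ i (nr (rs (1 - s) (g j n))) ≤ δ := by
  have hrs : ∀ n, rs (1 - s) (g j n) = g j n - rs s (g j n) := by
    intro n
    ext x
    simp only [rs, ContinuousMap.coe_mk, ContinuousMap.sub_apply, ContinuousMap.one_apply]
    push_cast
    ring
  have hev : ∀ᶠ n in (hyperfilter ℕ : Filter ℕ), ρ / 2 ≤ ‖μ j n (rs (1 - s) (g j n))‖ := by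
    have e1 : ∀ᶠ n in (hyperfilter ℕ : Filter ℕ), ‖μ j n (rs s (g j n))‖ < ρ / 2 :=
      (h1 j s).eventually_lt_const (by linarith)
    filter_upwards [e1] with n hn
    rw [hrs, map_sub]
    have e2 := norm_sub_norm_le (μ j n (g j n)) (μ j n (rs s (g j n)))
    have e3 := h j n
    linarith
  by_contra hcon
  push Not at hcon
  have hinf : {n | ρ / 2 ≤ ‖μ j n (rs (1 - s) (g j n))‖}.Infinite := by
    intro hf
    exact notMem_hyperfilter_of_finite hf hev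
  obtain ⟨N, hN⟩ := exists_nat_gt (1 / δ)
  obtain ⟨t, ht, htc⟩ := hinf.exists_subset_card_eq N
  have hall : ∀ᶠ i in (hyperfilter ℕ : Filter ℕ), ∀ n ∈ t,
      δ < Λ i (nr (rs (1 - s) (g j n))) := by
    rw [Filter.eventually_all_finset]
    intro n hn
    exact hcon n (ht hn)
  obtain ⟨i, hi⟩ := hall.exists
  have hsum : ∑ n ∈ t, Λ i (nr (rs (1 - s) (g j n))) ≤ 1 := by
    refine h3 i (fun n => nr (rs (1 - s) (g j n))) t
      (fun n x => norm_nonneg ((rs (1 - s) (g j n)) x)) (fun x => ?_)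
    by_cases hx : ∀ n ∈ t, g j n x = 0
    · rw [Finset.sum_eq_zero]
      · norm_num
      · intro n hn
        simp [nr, rs, hx n hn]
    · push Not at hx
      obtain ⟨n₀, hn₀, hx₀⟩ := hx
      rw [Finset.sum_eq_single n₀]
      · have e1 : ‖g j n₀ x‖ ≤ 1 := ((g j n₀).norm_coe_le_norm x).trans (hg j n₀)
        have e2 : ‖((1 - s x : ℝ) : 𝕜)‖ ≤ 1 := by
          rw [RCLike.norm_ofReal, abs_le]
          constructor
          · linarith [hs1 x]
          · linarith [hs0 x]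
        have e3 : nr (rs (1 - s) (g j n₀)) x = ‖((1 - s x : ℝ) : 𝕜)‖ * ‖g j n₀ x‖ := by
          rw [← norm_mul]
          rfl
        rw [e3]
        exact mul_le_one₀ e2 (norm_nonneg _) e1
      · intro m hm hmn
        rcases hd j n₀ m x (Ne.symm hmn) with e | e
        · exact absurd e hx₀
        · simp [nr, rs, e]
      · intro h0
        exact absurd hn₀ h0
  have hlow : (N : ℝ) * δ ≤ ∑ n ∈ t, Λ i (nr (rs (1 - s) (g j n))) := by
    have e1 : ∑ n ∈ t, δ ≤ ∑ n ∈ t, Λ i (nr (rs (1 - s) (g j n))) :=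
      Finset.sum_le_sum fun n hn => (hi n hn).le
    rw [Finset.sum_const, htc, nsmul_eq_mul] at e1
    exact e1
  have hgt : 1 < (N : ℝ) * δ := by
    rwa [div_lt_iff₀ hδ] at hN
  linarith

end Pool.Agent.H.MP_f11573_an
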