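import Pool.Agent.H.MP_f11573_an.Def2

/-!
# Spc: an operator without dense range

PROOF: if `B` has no dense range then the closure of its range is a closed proper subspace; Hahn-Banach
(`Submodule.exists_le_ker_of_lt_top` is algebraic; use `exists_dual_forall_apply_eq_zero_iff`, `Submodule.exists_dual_map_eq_bot…`,
`RCLike.geometric_hahn_banach_closed_point`, or so) gives `u ≠ 0` with `u (B x) = 0` for all `x`.
-/

set_option autoImplicit false

open Filter Topology Set Metric MeasureTheory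

namespace Pool.Agent.H.MP_f11573_an

theorem exists_annihilator {𝕜 : Type*} [RCLike 𝕜] {X : Type*} [NormedAddCommGroup X]
    [NormedSpace 𝕜 X] {B : X →L[𝕜] X} (h : ¬ DenseRange B) :
    ∃ u : X →L[𝕜] 𝕜, u ≠ 0 ∧ u.comp B = 0 := by
  let _ : NormedSpace ℝ X := NormedSpace.restrictScalars ℝ 𝕜 X
  have _ : IsScalarTower ℝ 𝕜 X := ⟨fun r c x => by
    rw [Algebra.smul_def, mul_smul]
    rfl⟩
  obtain ⟨S, hS⟩ : ∃ S : Submodule 𝕜 X, S = (LinearMap.range (B : X →ₗ[𝕜] X)).topologicalClosure :=
    ⟨_, rfl⟩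
  have hcl : IsClosed (S : Set X) := by
    rw [hS]
    exact Submodule.isClosed_topologicalClosure _
  have hB : ∀ y, B y ∈ S := fun y => by
    rw [hS]
    exact Submodule.le_topologicalClosure _ ⟨y, rfl⟩
  obtain ⟨x, hx⟩ : ∃ x, x ∉ (S : Set X) := by
    by_contra hc
    apply h
    intro x
    by_contra hx
    apply hc
    refine ⟨x, fun hxS => hx ?_⟩
    rw [hS] at hxS
    exact hxS
  have hconv : Convex ℝ (S : Set X) := (S.restrictScalars ℝ).convex
  obtain ⟨f, c, h1, h2⟩ := RCLike.geometric_hahn_banach_closed_point (𝕜 := 𝕜) hconv hcl hx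
  have h0 : ∀ a ∈ S, f a = 0 := by
    intro a ha
    by_contra hfa
    have h3 := h1 ((((|c| + 1 : ℝ) : 𝕜) / f a) • a) (S.smul_mem _ ha)
    rw [map_smul, smul_eq_mul, div_mul_cancel₀ _ hfa, RCLike.ofReal_re] at h3
    have := le_abs_self c
    linarith
  refine ⟨f, ?_, ?_⟩
  · rintro rfl
    have h3 := h1 0 S.zero_mem
    simp only [zero_apply, map_zero] at h2 h3
    linarith
  · ext y
    exact h0 _ (hB y)

end Pool.Agent.H.MP_f11573_an
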