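import Pool.Agent.H.MP_f11573_an.StU

/-!
# SqU: the sequence, fixed bound

PROOF: copy the proof of `seqL` in SqL, with `stepU` for the fixed `η` and `δ = 1 / (n + 1)`.
-/

set_option autoImplicit false

open Filter Topology Set Metric MeasureTheory

namespace Pool.Agent.H.MP_f11573_an

variable {𝕜 : Type*} [RCLike 𝕜] {K : Type*} [TopologicalSpace K] [CompactSpace K] [T2Space K]

theorem seqU {T : C(K, 𝕜) →L[𝕜] C(K, 𝕜)} {L : Set K} (hL : IsClosed L) {η : ℝ}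
    (h : ∀ U : Set K, IsOpen U → L ⊆ U → ¬ LowOn T (closure U) η) :
    ∃ (μ l : ℕ → (C(K, 𝕜) →L[𝕜] 𝕜)) (V U : ℕ → Set K) (b : ℕ → C(K, ℝ)),
      ∀ n : ℕ, IsOpen (V n) ∧ IsOpen (U n) ∧ L ⊆ U n ∧ closure (U n) ⊆ V n ∧
      V (n + 1) ⊆ U n ∧ Supp (μ n) (closure (U n)) ∧ ‖μ n‖ = 1 ∧
      ‖(μ n).comp T‖ ≤ η ∧ Supp (l n) L ∧ (∀ x, b n x ∈ Icc (0 : ℝ) 1) ∧
      (∀ x ∈ V (n + 1), b n x = 1) ∧
      ∀ f : C(K, 𝕜), ‖(μ n - l n) (rs (b n) f)‖ ≤ 1 / (n + 1) * ‖f‖ := by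
  have hpos : ∀ n : ℕ, (0 : ℝ) < 1 / ((n : ℝ) + 1) := fun n => by positivity
  choose μ l V U' b h1 h2 h3 h4 h5 h6 h7 h8 h9 h10 h11 h12 using
    fun (n : ℕ) (U : {U : Set K // IsOpen U ∧ L ⊆ U}) =>
      stepU hL U.2.1 U.2.2 (hpos n) (h U.1 U.2.1 U.2.2)
  let st : ℕ → {U : Set K // IsOpen U ∧ L ⊆ U} := fun n =>
    Nat.rec ⟨Set.univ, isOpen_univ, Set.subset_univ L⟩
      (fun k S => ⟨U' k S, h2 k S, h3 k S⟩) n
  let V' : ℕ → Set K := fun n => Nat.casesOn n Set.univ (fun k => V k (st k))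
  refine ⟨fun n => μ n (st n), fun n => l n (st n), V', fun n => (st n).1,
    fun n => b n (st n), fun n => ⟨?_, (st n).2.1, (st n).2.2, ?_, h5 n (st n), h6 n (st n),
      h7 n (st n), h8 n (st n), h9 n (st n), h10 n (st n), h11 n (st n), h12 n (st n)⟩⟩
  · cases n with
    | zero => exact isOpen_univ
    | succ k => exact h1 k (st k)
  · cases n with
    | zero => exact Set.subset_univ _
    | succ k => exact h4 k (st k)

end Pool.Agent.H.MP_f11573_an
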