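import Pool.Agent.H.MP_f11573_an.ResL

/-!
# StU: one step, two constants

PROOF: copy the proof of `stepL` in StL; there `δ = η`. (`h` gives `μ` which lives on `closure U` with `‖μ ∘ T‖ < η ‖μ‖`, so `μ ≠ 0`.)
-/

set_option autoImplicit false

open Filter Topology Set Metric MeasureTheory

namespace Pool.Agent.H.MP_f11573_an

variable {𝕜 : Type*} [RCLike 𝕜] {K : Type*} [TopologicalSpace K] [CompactSpace K] [T2Space K]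

theorem stepU {T : C(K, 𝕜) →L[𝕜] C(K, 𝕜)} {L : Set K} (hL : IsClosed L) {U : Set K}
    (hU : IsOpen U) (hLU : L ⊆ U) {η δ : ℝ} (hδ : 0 < δ) (h : ¬ LowOn T (closure U) η) :
    ∃ (μ l : C(K, 𝕜) →L[𝕜] 𝕜) (V U' : Set K) (b : C(K, ℝ)), IsOpen V ∧ IsOpen U' ∧ L ⊆ U' ∧
      closure U' ⊆ V ∧ V ⊆ U ∧ Supp μ (closure U) ∧ ‖μ‖ = 1 ∧ ‖μ.comp T‖ ≤ η ∧ Supp l L ∧
      (∀ x, b x ∈ Icc (0 : ℝ) 1) ∧ (∀ x ∈ V, b x = 1) ∧
      ∀ f : C(K, 𝕜), ‖(μ - l) (rs b f)‖ ≤ δ * ‖f‖ := by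
  obtain ⟨μ₀, h1, h2⟩ : ∃ μ₀ : C(K, 𝕜) →L[𝕜] 𝕜, Supp μ₀ (closure U) ∧
      ‖μ₀.comp T‖ < η * ‖μ₀‖ := by
    by_contra hcon
    apply h
    intro μ₀ hμ
    by_contra hlt
    exact hcon ⟨μ₀, hμ, not_le.1 hlt⟩
  have hpos : 0 < ‖μ₀‖ := by
    rcases (norm_nonneg μ₀).eq_or_lt with h3 | h3
    · rw [← h3, mul_zero] at h2
      exact absurd h2 (not_lt.2 (norm_nonneg _))
    · exact h3
  obtain ⟨μ, hμ⟩ : ∃ μ : C(K, 𝕜) →L[𝕜] 𝕜, μ = ((‖μ₀‖⁻¹ : ℝ) : 𝕜) • μ₀ := ⟨_, rfl⟩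
  have hn : ‖((‖μ₀‖⁻¹ : ℝ) : 𝕜)‖ = ‖μ₀‖⁻¹ := by
    rw [RCLike.norm_ofReal, abs_of_pos (inv_pos.2 hpos)]
  obtain ⟨l, hl, hres⟩ := restr hL μ
  obtain ⟨V₀, hV₀, hLV₀, hV₀f⟩ := hres δ hδ
  obtain ⟨V, hV, hLV, hcV⟩ := normal_exists_closure_subset hL (hV₀.inter hU)
    (subset_inter hLV₀ hLU)
  obtain ⟨U', hU', hLU', hcU'⟩ := normal_exists_closure_subset hL hV hLV
  obtain ⟨b, hb0, hb1, hb2⟩ := exists_continuous_zero_one_of_isClosed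
    (s := V₀ᶜ) (t := closure V) hV₀.isClosed_compl isClosed_closure (by
      rw [Set.disjoint_left]
      intro x hx hx'
      exact hx (hcV hx').1)
  refine ⟨μ, l, V, U', b, hV, hU', hLU', hcU', fun x hx => (hcV (subset_closure hx)).2,
    ?_, ?_, ?_, hl, hb2, fun x hx => hb1 (subset_closure hx), ?_⟩
  · intro f hf
    rw [hμ, smul_apply, h1 f hf, smul_zero]
  · rw [hμ, norm_smul, hn, inv_mul_cancel₀ hpos.ne']
  · rw [hμ, ContinuousLinearMap.smul_comp, norm_smul, hn, inv_mul_le_iff₀ hpos, mul_comm]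
    exact h2.le
  · intro f
    refine (hV₀f (rs b f) fun x hx => ?_).trans (mul_le_mul_of_nonneg_left ?_ hδ.le)
    · show (b x : 𝕜) * f x = 0
      have h3 : b x = 0 := hb0 hx
      rw [h3, RCLike.ofReal_zero, zero_mul]
    · refine (ContinuousMap.norm_le _ (norm_nonneg f)).2 fun x => ?_
      show ‖(b x : 𝕜) * f x‖ ≤ ‖f‖
      rw [norm_mul, RCLike.norm_ofReal, abs_of_nonneg (hb2 x).1]
      calc b x * ‖f x‖ ≤ 1 * ‖f‖ :=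
            mul_le_mul (hb2 x).2 (f.norm_coe_le_norm x) (norm_nonneg _) zero_le_one
        _ = ‖f‖ := one_mul _

end Pool.Agent.H.MP_f11573_an
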